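import Pool.Agent.W_MP_3a8340_co.Reg

open Finset

namespace W3a

section FinalPosAux

open SimpleGraph

/-- adjacency in the box product with the complete bipartite graph -/
private theorem fp_adj_ll {W α β : Type*} (G : SimpleGraph W) (v w : W) (i j : α) :
    (G □ completeBipartiteGraph α β).Adj (v, Sum.inl i) (w, Sum.inl j) ↔ G.Adj v w ∧ i = j := by
  simp [boxProd_adj]

private theorem fp_adj_rr {W α β : Type*} (G : SimpleGraph W) (v w : W) (i j : β) :
    (G □ completeBipartiteGraph α β).Adj (v, Sum.inr i) (w, Sum.inr j) ↔ G.Adj v w ∧ i = j := by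
  simp [boxProd_adj]

private theorem fp_adj_lr {W α β : Type*} (G : SimpleGraph W) (v w : W) (i : α) (j : β) :
    (G □ completeBipartiteGraph α β).Adj (v, Sum.inl i) (w, Sum.inr j) ↔ v = w := by
  simp [boxProd_adj]

private theorem fp_adj_rl {W α β : Type*} (G : SimpleGraph W) (v w : W) (i : α) (j : β) :
    (G □ completeBipartiteGraph α β).Adj (v, Sum.inr j) (w, Sum.inl i) ↔ v = w := by
  simp [boxProd_adj]

/-- the precolouring in functional form -/
private def fpPre {W C : Type} {n : ℕ} (pc : Sym2 (W × (Fin n ⊕ Fin n)) → Option C) :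
    PreM W (Fin n) C where
  kc := fun v i j => pc s((v, Sum.inl i), (v, Sum.inr j))
  ga := fun v w i => pc s((v, Sum.inl i), (w, Sum.inl i))
  gb := fun v w i => pc s((v, Sum.inr i), (w, Sum.inr i))

private theorem fp_sep {W C : Type} {n : ℕ} (G : SimpleGraph W)
    (pc : Sym2 (W × (Fin n ⊕ Fin n)) → Option C)
    (hadj : ∀ x y, pc s(x, y) ≠ none → (G □ completeBipartiteGraph (Fin n) (Fin n)).Adj x y)
    (hsep : ∀ e f x y, pc e ≠ none → pc f ≠ none → x ∈ e → y ∈ f →
      (x = y ∨ (G □ completeBipartiteGraph (Fin n) (Fin n)).Adj x y) → e = f) :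
    Sep G (fpPre pc) where
  sa := fun v w i => by
    show pc _ = pc _
    rw [Sym2.eq_swap]
  sb := fun v w i => by
    show pc _ = pc _
    rw [Sym2.eq_swap]
  adja := fun v w i h => ((fp_adj_ll G v w i i).1 (hadj _ _ h)).1
  adjb := fun v w i h => ((fp_adj_rr G v w i i).1 (hadj _ _ h)).1
  kk := fun v i j i' j' h h' => by
    have := hsep _ _ (v, Sum.inl i) (v, Sum.inr j') h h' (by simp) (by simp)
      (Or.inr ((fp_adj_lr G v v i j').2 rfl))
    simpa [Sym2.eq_iff] using this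
  ka := fun v i j w k h => by
    by_contra h'
    have := hsep _ _ (v, Sum.inr j) (v, Sum.inl k) h h' (by simp) (by simp)
      (Or.inr ((fp_adj_rl G v v k j).2 rfl))
    simp [Sym2.eq_iff] at this
  kb := fun v i j w k h => by
    by_contra h'
    have := hsep _ _ (v, Sum.inl i) (v, Sum.inr k) h h' (by simp) (by simp)
      (Or.inr ((fp_adj_lr G v v i k).2 rfl))
    simp [Sym2.eq_iff] at this
  ab := fun v w i w' k h => by
    by_contra h'
    have := hsep _ _ (v, Sum.inl i) (v, Sum.inr k) h h' (by simp) (by simp)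
      (Or.inr ((fp_adj_lr G v v i k).2 rfl))
    simp [Sym2.eq_iff] at this
  na := fun v u w z i h hvu h' => by
    have := hsep _ _ (v, Sum.inl i) (u, Sum.inl i) h h' (by simp) (by simp)
      (Or.inr ((fp_adj_ll G v u i i).2 ⟨hvu, rfl⟩))
    have hne := hvu.ne
    simp only [Sym2.eq_iff, Prod.mk.injEq, and_true] at this
    rcases this with ⟨h1, -⟩ | ⟨h1, h2⟩
    · exact absurd h1 hne
    · exact ⟨h2.symm, h1.symm⟩
  nb := fun v u w z i h hvu h' => by
    have := hsep _ _ (v, Sum.inr i) (u, Sum.inr i) h h' (by simp) (by simp)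
      (Or.inr ((fp_adj_rr G v u i i).2 ⟨hvu, rfl⟩))
    have hne := hvu.ne
    simp only [Sym2.eq_iff, Prod.mk.injEq, and_true] at this
    rcases this with ⟨h1, -⟩ | ⟨h1, h2⟩
    · exact absurd h1 hne
    · exact ⟨h2.symm, h1.symm⟩
  aa := fun v w w' i h h' => by
    have := hsep _ _ (v, Sum.inl i) (v, Sum.inl i) h h' (by simp) (by simp) (Or.inl rfl)
    simp only [Sym2.eq_iff, Prod.mk.injEq, and_true] at this
    rcases this with ⟨-, h2⟩ | ⟨h1, h2⟩
    · exact h2
    · exact h2.trans h1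
  bb := fun v w w' i h h' => by
    have := hsep _ _ (v, Sum.inr i) (v, Sum.inr i) h h' (by simp) (by simp) (Or.inl rfl)
    simp only [Sym2.eq_iff, Prod.mk.injEq, and_true] at this
    rcases this with ⟨-, h2⟩ | ⟨h1, h2⟩
    · exact h2
    · exact h2.trans h1
  kna := fun v i j w z h hvw => by
    by_contra h'
    have := hsep _ _ (v, Sum.inl i) (w, Sum.inl i) h h' (by simp) (by simp)
      (Or.inr ((fp_adj_ll G v w i i).2 ⟨hvw, rfl⟩))
    simp [Sym2.eq_iff] at this
  knb := fun v i j w z h hvw => by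
    by_contra h'
    have := hsep _ _ (v, Sum.inr j) (w, Sum.inr j) h h' (by simp) (by simp)
      (Or.inr ((fp_adj_rr G v w j j).2 ⟨hvw, rfl⟩))
    simp [Sym2.eq_iff] at this
  kki := fun v i j w j' h hvw => by
    by_contra h'
    have := hsep _ _ (v, Sum.inl i) (w, Sum.inl i) h h' (by simp) (by simp)
      (Or.inr ((fp_adj_ll G v w i i).2 ⟨hvw, rfl⟩))
    have hne := hvw.ne
    simp [Sym2.eq_iff, hne] at this
  kkj := fun v i j w i' h hvw => by
    by_contra h'
    have := hsep _ _ (v, Sum.inr j) (w, Sum.inr j) h h' (by simp) (by simp)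
      (Or.inr ((fp_adj_rr G v w j j).2 ⟨hvw, rfl⟩))
    have hne := hvw.ne
    simp [Sym2.eq_iff, hne] at this

/-- the colour of a pair of vertices -/
private def fpCol {W C : Type} {n : ℕ} (K : W → Fin n → Fin n → C) (A B : W → W → Fin n → C) :
    W × (Fin n ⊕ Fin n) → W × (Fin n ⊕ Fin n) → C
  | (v, Sum.inl i), (_, Sum.inr j) => K v i j
  | (_, Sum.inr j), (w, Sum.inl i) => K w i j
  | (v, Sum.inl i), (w, Sum.inl _) => A v w i
  | (v, Sum.inr i), (w, Sum.inr _) => B v w i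

private theorem fpCol_symm {W C : Type} {n : ℕ} (G : SimpleGraph W)
    {K : W → Fin n → Fin n → C} {A B : W → W → Fin n → C} (h : Proper G K A B)
    (x y : W × (Fin n ⊕ Fin n)) (hxy : (G □ completeBipartiteGraph (Fin n) (Fin n)).Adj x y) :
    fpCol K A B x y = fpCol K A B y x := by
  obtain ⟨v, i | i⟩ := x <;> obtain ⟨w, j | j⟩ := y
  · obtain ⟨h1, rfl⟩ := (fp_adj_ll G v w i j).1 hxy
    exact h.sa v w i h1
  · rfl
  · rfl
  · obtain ⟨h1, rfl⟩ := (fp_adj_rr G v w i j).1 hxy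
    exact h.sb v w i h1

private theorem fpCol_proper {W C : Type} {n : ℕ} (G : SimpleGraph W)
    {K : W → Fin n → Fin n → C} {A B : W → W → Fin n → C} (h : Proper G K A B)
    (x y z : W × (Fin n ⊕ Fin n)) (hxy : (G □ completeBipartiteGraph (Fin n) (Fin n)).Adj x y)
    (hxz : (G □ completeBipartiteGraph (Fin n) (Fin n)).Adj x z)
    (he : fpCol K A B x y = fpCol K A B x z) : y = z := by
  obtain ⟨v, i | i⟩ := x <;> obtain ⟨w, j | j⟩ := y <;> obtain ⟨u, k | k⟩ := z
  · obtain ⟨h1, rfl⟩ := (fp_adj_ll G v w i j).1 hxy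
    obtain ⟨h2, rfl⟩ := (fp_adj_ll G v u i k).1 hxz
    have := h.aa v w u i h1 h2 he
    rw [this]
  · obtain ⟨h1, rfl⟩ := (fp_adj_ll G v w i j).1 hxy
    exact absurd he.symm (h.ka v w i k h1)
  · obtain ⟨h2, rfl⟩ := (fp_adj_ll G v u i k).1 hxz
    exact absurd he (h.ka v u i j h2)
  · have h1 := (fp_adj_lr G v w i j).1 hxy
    have h2 := (fp_adj_lr G v u i k).1 hxz
    subst h1
    subst h2
    have := h.kr v i j k he
    rw [this]
  · have h1 := (fp_adj_rl G v w j i).1 hxy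
    have h2 := (fp_adj_rl G v u k i).1 hxz
    subst h1
    subst h2
    have := h.kc v i j k he
    rw [this]
  · have h1 := (fp_adj_rl G v w j i).1 hxy
    obtain ⟨h2, rfl⟩ := (fp_adj_rr G v u i k).1 hxz
    subst h1
    exact absurd he (h.kb v u j i h2)
  · obtain ⟨h1, rfl⟩ := (fp_adj_rr G v w i j).1 hxy
    have h2 := (fp_adj_rl G v u k i).1 hxz
    subst h2
    exact absurd he.symm (h.kb v w k i h1)
  · obtain ⟨h1, rfl⟩ := (fp_adj_rr G v w i j).1 hxy
    obtain ⟨h2, rfl⟩ := (fp_adj_rr G v u i k).1 hxz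
    have := h.bb v w u i h1 h2 he
    rw [this]

private theorem fpCol_ext {W C : Type} {n : ℕ} (G : SimpleGraph W)
    {K : W → Fin n → Fin n → C} {A B : W → W → Fin n → C}
    (pc : Sym2 (W × (Fin n ⊕ Fin n)) → Option C) (h : Extends (fpPre pc) K A B)
    (x y : W × (Fin n ⊕ Fin n)) (hxy : (G □ completeBipartiteGraph (Fin n) (Fin n)).Adj x y)
    (c : C) (hc : pc s(x, y) = some c) : fpCol K A B x y = c := by
  obtain ⟨v, i | i⟩ := x <;> obtain ⟨w, j | j⟩ := y
  · obtain ⟨h1, rfl⟩ := (fp_adj_ll G v w i j).1 hxy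
    exact h.ga v w i c hc
  · have h1 := (fp_adj_lr G v w i j).1 hxy
    subst h1
    exact h.kc v i j c hc
  · have h1 := (fp_adj_rl G v w j i).1 hxy
    subst h1
    refine h.kc v j i c ?_
    rw [← hc]
    show pc _ = pc _
    rw [Sym2.eq_swap]
  · obtain ⟨h1, rfl⟩ := (fp_adj_rr G v w i j).1 hxy
    exact h.gb v w i c hc

/-- from a functional colouring to a colouring of edges -/
private theorem fp_out {W C : Type} {n : ℕ} (G : SimpleGraph W)
    {K : W → Fin n → Fin n → C} {A B : W → W → Fin n → C} (h : Proper G K A B)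
    (pc : Sym2 (W × (Fin n ⊕ Fin n)) → Option C) (hE : Extends (fpPre pc) K A B) :
    ∃ Ψ : Sym2 (W × (Fin n ⊕ Fin n)) → C,
      (∀ x y z, (G □ completeBipartiteGraph (Fin n) (Fin n)).Adj x y →
        (G □ completeBipartiteGraph (Fin n) (Fin n)).Adj x z → Ψ s(x, y) = Ψ s(x, z) → y = z) ∧
      ∀ x y, (G □ completeBipartiteGraph (Fin n) (Fin n)).Adj x y → ∀ c, pc s(x, y) = some c →
        Ψ s(x, y) = c := by
  have hval : ∀ x y, (G □ completeBipartiteGraph (Fin n) (Fin n)).Adj x y →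
      fpCol K A B (Quot.out s(x, y)).1 (Quot.out s(x, y)).2 = fpCol K A B x y := by
    intro x y hxy
    have h1 : s((Quot.out s(x, y)).1, (Quot.out s(x, y)).2) = s(x, y) := Quot.out_eq _
    rw [Sym2.eq_iff] at h1
    rcases h1 with ⟨h1, h2⟩ | ⟨h1, h2⟩
    · rw [h1, h2]
    · rw [h1, h2]
      exact (fpCol_symm G h x y hxy).symm
  refine ⟨fun e => fpCol K A B (Quot.out e).1 (Quot.out e).2, fun x y z hxy hxz he => ?_,
    fun x y hxy c hc => ?_⟩
  · simp only at he
    rw [hval x y hxy, hval x z hxz] at he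
    exact fpCol_proper G h x y z hxy hxz he
  · show fpCol K A B (Quot.out s(x, y)).1 (Quot.out s(x, y)).2 = c
    rw [hval x y hxy]
    exact fpCol_ext G pc hE x y hxy c hc

end FinalPosAux

/-- The general case from the functional form. -/
theorem final_pos {V : Type*} [Fintype V] (G : SimpleGraph V) [DecidableRel G.Adj]
    (side : V → Bool) (hside : ∀ v w, G.Adj v w → side v ≠ side w) (d : ℕ) (hd1 : 1 ≤ d)
    (hd : ∀ v, G.degree v ≤ d) (n m : ℕ) (hm : 1 ≤ m) (hmn : m ≤ n) (hcore : CoreN n)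
    (M : Set (Sym2 (V × (Fin n ⊕ Fin m))))
    (hM : M ⊆ (G □ completeBipartiteGraph (Fin n) (Fin m)).edgeSet)
    (hdist : ∀ e ∈ M, ∀ f ∈ M, e ≠ f → ∀ x ∈ e, ∀ y ∈ f,
      2 ≤ (G □ completeBipartiteGraph (Fin n) (Fin m)).edist x y)
    (φ : Sym2 (V × (Fin n ⊕ Fin m)) → Fin (d + n)) :
    ∃ ψ : Sym2 (V × (Fin n ⊕ Fin m)) → Fin (d + n),
      (∀ e ∈ (G □ completeBipartiteGraph (Fin n) (Fin m)).edgeSet,
        ∀ f ∈ (G □ completeBipartiteGraph (Fin n) (Fin m)).edgeSet, e ≠ f →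
        (∃ x, x ∈ e ∧ x ∈ f) → ψ e ≠ ψ f) ∧ ∀ e ∈ M, ψ e = φ e := by
  classical
  obtain ⟨W, instF, instD, G', instR, side', emb, hemb, hadj, hside', hreg⟩ :=
    exists_regular_super G side hside d hd
  -- the embedding of the vertex set
  let E : V × (Fin n ⊕ Fin m) → W × (Fin n ⊕ Fin n) := fun x =>
    (emb x.1, Sum.map id (Fin.castLE hmn) x.2)
  have hE : Function.Injective E := by
    rintro ⟨v, x⟩ ⟨w, y⟩ h
    have h1 : emb v = emb w := congrArg Prod.fst h
    have h2 : Sum.map id (Fin.castLE hmn) x = Sum.map id (Fin.castLE hmn) y := congrArg Prod.snd h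
    have h3 : Function.Injective (Sum.map (id : Fin n → Fin n) (Fin.castLE hmn)) :=
      Function.Injective.sumMap Function.injective_id (Fin.castLE_injective hmn)
    rw [hemb h1, h3 h2]
  have hEadj : ∀ x y, (G' □ completeBipartiteGraph (Fin n) (Fin n)).Adj (E x) (E y) ↔
      (G □ completeBipartiteGraph (Fin n) (Fin m)).Adj x y := by
    rintro ⟨v, i | i⟩ ⟨w, j | j⟩
    · show (G' □ completeBipartiteGraph (Fin n) (Fin n)).Adj (emb v, Sum.inl i)
        (emb w, Sum.inl j) ↔ _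
      rw [fp_adj_ll, fp_adj_ll, hadj]
    · show (G' □ completeBipartiteGraph (Fin n) (Fin n)).Adj (emb v, Sum.inl i)
        (emb w, Sum.inr (Fin.castLE hmn j)) ↔ _
      rw [fp_adj_lr, fp_adj_lr, hemb.eq_iff]
    · show (G' □ completeBipartiteGraph (Fin n) (Fin n)).Adj (emb v, Sum.inr (Fin.castLE hmn i))
        (emb w, Sum.inl j) ↔ _
      rw [fp_adj_rl, fp_adj_rl, hemb.eq_iff]
    · show (G' □ completeBipartiteGraph (Fin n) (Fin n)).Adj (emb v, Sum.inr (Fin.castLE hmn i))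
        (emb w, Sum.inr (Fin.castLE hmn j)) ↔ _
      rw [fp_adj_rr, fp_adj_rr, hadj, (Fin.castLE_injective hmn).eq_iff]
  have hmap : Function.Injective (Sym2.map E) := Sym2.map.injective hE
  -- the partial colouring
  let pc : Sym2 (W × (Fin n ⊕ Fin n)) → Option (Fin (d + n)) := fun e' =>
    if h : ∃ e ∈ M, Sym2.map E e = e' then some (φ h.choose) else none
  have pc1 : ∀ e', pc e' ≠ none → ∃ e ∈ M, Sym2.map E e = e' := by
    intro e' h
    by_contra hc
    exact h (dif_neg hc)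
  have pc2 : ∀ e ∈ M, pc (Sym2.map E e) = some (φ e) := by
    intro e he
    have h : ∃ f ∈ M, Sym2.map E f = Sym2.map E e := ⟨e, he, rfl⟩
    have h1 : pc (Sym2.map E e) = some (φ h.choose) := dif_pos h
    rw [h1, hmap h.choose_spec.2]
  have hpadj : ∀ x y, pc s(x, y) ≠ none →
      (G' □ completeBipartiteGraph (Fin n) (Fin n)).Adj x y := by
    intro x y h
    obtain ⟨e, he, hee⟩ := pc1 _ h
    induction e using Sym2.ind with
    | _ a b =>
      have h1 : (G □ completeBipartiteGraph (Fin n) (Fin m)).Adj a b := hM he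
      rw [Sym2.map_mk, Sym2.eq_iff] at hee
      rcases hee with ⟨rfl, rfl⟩ | ⟨rfl, rfl⟩
      · exact (hEadj a b).2 h1
      · exact (hEadj b a).2 h1.symm
  have hpsep : ∀ e f x y, pc e ≠ none → pc f ≠ none → x ∈ e → y ∈ f →
      (x = y ∨ (G' □ completeBipartiteGraph (Fin n) (Fin n)).Adj x y) → e = f := by
    intro e f x y he hf hx hy hxy
    obtain ⟨e0, he0, rfl⟩ := pc1 _ he
    obtain ⟨f0, hf0, rfl⟩ := pc1 _ hf
    obtain ⟨x0, hx0, rfl⟩ := Sym2.mem_map.1 hx
    obtain ⟨y0, hy0, rfl⟩ := Sym2.mem_map.1 hy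
    by_contra hne
    have hne' : e0 ≠ f0 := fun h => hne (by rw [h])
    have h2 := hdist e0 he0 f0 hf0 hne' x0 hx0 y0 hy0
    have h3 : (G □ completeBipartiteGraph (Fin n) (Fin m)).edist x0 y0 ≤ 1 := by
      rw [SimpleGraph.edist_le_one_iff_adj_or_eq]
      rcases hxy with h | h
      · right
        exact hE h
      · left
        exact (hEadj x0 y0).1 h
    have h4 : (2 : ℕ∞) ≤ 1 := h2.trans h3
    exact absurd h4 (by decide)
  obtain ⟨K, A, B, hP, hX⟩ := hcore W G' side' hside' d hd1 hreg (fpPre pc)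
    (fp_sep G' pc hpadj hpsep)
  obtain ⟨Ψ, hΨ1, hΨ2⟩ := fp_out G' hP pc hX
  refine ⟨fun e => Ψ (Sym2.map E e), ?_, ?_⟩
  · rintro e he f hf hef ⟨x, hxe, hxf⟩ heq
    obtain ⟨y, rfl⟩ := hxe
    obtain ⟨z, rfl⟩ := hxf
    simp only [Sym2.map_mk] at heq
    have h1 := (hEadj x y).2 he
    have h2 := (hEadj x z).2 hf
    have h3 := hE (hΨ1 _ _ _ h1 h2 heq)
    exact hef (by rw [h3])
  · intro e he
    have h0 := pc2 e he
    induction e using Sym2.ind with
    | _ a b =>
      have h1 : (G □ completeBipartiteGraph (Fin n) (Fin m)).Adj a b := hM he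
      show Ψ (Sym2.map E s(a, b)) = _
      rw [Sym2.map_mk] at h0 ⊢
      exact hΨ2 _ _ ((hEadj a b).2 h1) _ h0

end W3a
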