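import Pool.Agent.W_MP_3a8340_co.Defs

open Finset

namespace W3a

private theorem fz_edge {V : Type*} {G : SimpleGraph V} (hG : ∀ v w, ¬ G.Adj v w) {n m : ℕ}
    {e : Sym2 (V × (Fin n ⊕ Fin m))}
    (he : e ∈ (G □ completeBipartiteGraph (Fin n) (Fin m)).edgeSet) :
    ∃ (v : V) (i : Fin n) (j : Fin m), e = s((v, Sum.inl i), (v, Sum.inr j)) := by
  induction e using Sym2.ind with
  | _ x y =>
    rw [SimpleGraph.mem_edgeSet, SimpleGraph.boxProd_adj] at he
    obtain ⟨v, a⟩ := x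
    obtain ⟨w, b⟩ := y
    rcases he with he | ⟨he, hv⟩
    · exact absurd he.1 (hG _ _)
    · simp only at he hv
      subst hv
      rcases a with i | j <;> rcases b with i' | j'
      · simp at he
      · exact ⟨v, i, j', rfl⟩
      · exact ⟨v, i', j, Sym2.eq_swap⟩
      · simp at he

private theorem fz_uniq {V : Type*} {n m : ℕ} {v v' : V} {i i' : Fin n} {j j' : Fin m}
    (h : s(((v, Sum.inl i) : V × (Fin n ⊕ Fin m)), (v, Sum.inr j)) =
      s((v', Sum.inl i'), (v', Sum.inr j'))) : v = v' ∧ i = i' ∧ j = j' := by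
  rw [Sym2.eq_iff] at h
  rcases h with ⟨h1, h2⟩ | ⟨h1, h2⟩
  · simp only [Prod.mk.injEq, Sum.inl.injEq, Sum.inr.injEq] at h1 h2
    exact ⟨h1.1, h1.2, h2.2⟩
  · simp at h1

/-- The case of a graph without edges. -/
theorem final_zero {V : Type*} [Fintype V] (G : SimpleGraph V) (hG : ∀ v w, ¬ G.Adj v w)
    (n m : ℕ) (hm : 1 ≤ m) (hmn : m ≤ n)
    (M : Set (Sym2 (V × (Fin n ⊕ Fin m))))
    (hM : M ⊆ (G □ completeBipartiteGraph (Fin n) (Fin m)).edgeSet)
    (hdist : ∀ e ∈ M, ∀ f ∈ M, e ≠ f → ∀ x ∈ e, ∀ y ∈ f,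
      2 ≤ (G □ completeBipartiteGraph (Fin n) (Fin m)).edist x y)
    (φ : Sym2 (V × (Fin n ⊕ Fin m)) → Fin n) :
    ∃ ψ : Sym2 (V × (Fin n ⊕ Fin m)) → Fin n,
      (∀ e ∈ (G □ completeBipartiteGraph (Fin n) (Fin m)).edgeSet,
        ∀ f ∈ (G □ completeBipartiteGraph (Fin n) (Fin m)).edgeSet, e ≠ f →
        (∃ x, x ∈ e ∧ x ∈ f) → ψ e ≠ ψ f) ∧ ∀ e ∈ M, ψ e = φ e := by
  classical
  haveI : NeZero n := ⟨by omega⟩
  -- at most one precoloured edge in each copy
  have huniq : ∀ (v : V) (i i' : Fin n) (j j' : Fin m), s((v, Sum.inl i), (v, Sum.inr j)) ∈ M →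
      s((v, Sum.inl i'), (v, Sum.inr j')) ∈ M → i = i' ∧ j = j' := by
    intro v i i' j j' h h'
    by_contra hne
    have hne' : s(((v, Sum.inl i) : V × (Fin n ⊕ Fin m)), (v, Sum.inr j)) ≠
        s((v, Sum.inl i'), (v, Sum.inr j')) := fun heq => hne (fz_uniq heq).2
    have h1 := hdist _ h _ h' hne' (v, Sum.inl i) (Sym2.mem_mk_left _ _) (v, Sum.inr j')
      (Sym2.mem_mk_right _ _)
    have h2 : (G □ completeBipartiteGraph (Fin n) (Fin m)).Adj (v, Sum.inl i) (v, Sum.inr j') := by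
      rw [SimpleGraph.boxProd_adj]
      right
      exact ⟨by simp, rfl⟩
    rw [SimpleGraph.edist_eq_one_iff_adj.2 h2] at h1
    exact absurd h1 (by decide)
  let cc : V → Fin n := fun v =>
    if h : ∃ ij : Fin n × Fin m, s((v, Sum.inl ij.1), (v, Sum.inr ij.2)) ∈ M then
      φ s((v, Sum.inl h.choose.1), (v, Sum.inr h.choose.2)) - h.choose.1 - Fin.castLE hmn h.choose.2
    else 0
  let col : V → Fin n → Fin m → Fin n := fun v i j => i + Fin.castLE hmn j + cc v
  let ψ : Sym2 (V × (Fin n ⊕ Fin m)) → Fin n := fun e =>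
    if h : ∃ t : V × Fin n × Fin m, e = s((t.1, Sum.inl t.2.1), (t.1, Sum.inr t.2.2)) then
      col h.choose.1 h.choose.2.1 h.choose.2.2 else 0
  have hψ : ∀ v i j, ψ s((v, Sum.inl i), (v, Sum.inr j)) = col v i j := by
    intro v i j
    have h : ∃ t : V × Fin n × Fin m, s(((v, Sum.inl i) : V × (Fin n ⊕ Fin m)), (v, Sum.inr j)) =
        s((t.1, Sum.inl t.2.1), (t.1, Sum.inr t.2.2)) := ⟨(v, i, j), rfl⟩
    have h1 := fz_uniq h.choose_spec
    change (if h : ∃ t : V × Fin n × Fin m, s(((v, Sum.inl i) : V × (Fin n ⊕ Fin m)), (v, Sum.inr j)) =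
        s((t.1, Sum.inl t.2.1), (t.1, Sum.inr t.2.2)) then
      col h.choose.1 h.choose.2.1 h.choose.2.2 else 0) = _
    rw [dif_pos h, ← h1.1, ← h1.2.1, ← h1.2.2]
  refine ⟨ψ, ?_, ?_⟩
  · intro e he f hf hef hx heq
    obtain ⟨v, i, j, rfl⟩ := fz_edge hG he
    obtain ⟨v', i', j', rfl⟩ := fz_edge hG hf
    rw [hψ, hψ] at heq
    obtain ⟨x, hx1, hx2⟩ := hx
    rw [Sym2.mem_iff] at hx1 hx2
    have hv : v = v' ∧ (i = i' ∨ j = j') := by
      rcases hx1 with rfl | rfl <;> rcases hx2 with h | h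
      · simp only [Prod.mk.injEq, Sum.inl.injEq] at h
        exact ⟨h.1, Or.inl h.2⟩
      · simp at h
      · simp at h
      · simp only [Prod.mk.injEq, Sum.inr.injEq] at h
        exact ⟨h.1, Or.inr h.2⟩
    obtain ⟨rfl, h | h⟩ := hv
    · subst h
      have h1 : Fin.castLE hmn j = Fin.castLE hmn j' := by
        have h2 : i + Fin.castLE hmn j + cc v = i + Fin.castLE hmn j' + cc v := heq
        exact add_left_cancel (add_right_cancel h2)
      have h2 : j = j' := Fin.castLE_injective hmn h1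
      exact hef (by rw [h2])
    · subst h
      have h2 : i + Fin.castLE hmn j + cc v = i' + Fin.castLE hmn j + cc v := heq
      have h1 := add_right_cancel (add_right_cancel h2)
      exact hef (by rw [h1])
  · intro e he
    obtain ⟨v, i, j, rfl⟩ := fz_edge hG (hM he)
    rw [hψ]
    have h : ∃ ij : Fin n × Fin m, s((v, Sum.inl ij.1), (v, Sum.inr ij.2)) ∈ M := ⟨(i, j), he⟩
    have h1 := huniq v _ _ _ _ h.choose_spec he
    have h2 : cc v = φ s((v, Sum.inl i), (v, Sum.inr j)) - i - Fin.castLE hmn j := by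
      change (if h : ∃ ij : Fin n × Fin m, s((v, Sum.inl ij.1), (v, Sum.inr ij.2)) ∈ M then
        φ s((v, Sum.inl h.choose.1), (v, Sum.inr h.choose.2)) - h.choose.1 -
          Fin.castLE hmn h.choose.2 else 0) = _
      rw [dif_pos h, h1.1, h1.2]
    change i + Fin.castLE hmn j + cc v = _
    rw [h2]
    abel

end W3a
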