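import Pool.Agent.W_MP_3a8340_co.Defs
import Pool.Agent.W_MP_66dfad_lc_h47.Konig

open Finset

namespace W3a

/-- A regular bipartite graph of degree `d ≥ 1` has a perfect matching. -/
theorem exists_matching {V : Type} [Fintype V] [DecidableEq V]
    (G : SimpleGraph V) [DecidableRel G.Adj] (side : V → Bool)
    (hside : ∀ v w, G.Adj v w → side v ≠ side w)
    (d : ℕ) (hd : 1 ≤ d) (hreg : G.IsRegularOfDegree d) :
    ∃ F : V → V, (∀ v, G.Adj v (F v)) ∧ ∀ v, F (F v) = v := by
  classical
  have hX : ∀ x : {v // side v = false},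
      (univ.filter fun y : {v // side v = true} => G.Adj x y).card = d := by
    intro x
    rw [← hreg x, ← G.card_neighborFinset_eq_degree]
    refine Finset.card_bij (fun y _ => (y : V)) ?_ ?_ ?_
    · intro y hy
      rw [SimpleGraph.mem_neighborFinset]
      exact (mem_filter.mp hy).2
    · intro y _ y' _ h
      exact Subtype.ext h
    · intro w hw
      rw [SimpleGraph.mem_neighborFinset] at hw
      have h1 := hside _ _ hw
      rw [x.2] at h1
      refine ⟨⟨w, by cases h : side w <;> simp_all⟩, ?_, rfl⟩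
      exact mem_filter.mpr ⟨mem_univ _, hw⟩
  have hY : ∀ y : {v // side v = true},
      (univ.filter fun x : {v // side v = false} => G.Adj x y).card = d := by
    intro y
    rw [← hreg y, ← G.card_neighborFinset_eq_degree]
    refine Finset.card_bij (fun x _ => (x : V)) ?_ ?_ ?_
    · intro x hx
      rw [SimpleGraph.mem_neighborFinset]
      exact ((mem_filter.mp hx).2).symm
    · intro x _ x' _ h
      exact Subtype.ext h
    · intro w hw
      rw [SimpleGraph.mem_neighborFinset] at hw
      have h1 := hside _ _ hw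
      rw [y.2] at h1
      refine ⟨⟨w, by cases h : side w <;> simp_all⟩, ?_, rfl⟩
      exact mem_filter.mpr ⟨mem_univ _, hw.symm⟩
  obtain ⟨c, -, h2, h3, h4, h5⟩ := Pool.Agent.W_MP_66dfad_lc_h47.konig (X := {v // side v = false})
    (Y := {v // side v = true}) (fun x y => G.Adj x y) d (fun x => (hX x).le)
    (fun y => (hY y).le)
  have h6 : ∀ x : {v // side v = false}, ∃ y : {v // side v = true},
      G.Adj x y ∧ c x y = 0 := fun x => h4 x (hX x) 0 hd
  have h7 : ∀ y : {v // side v = true}, ∃ x : {v // side v = false},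
      G.Adj x y ∧ c x y = 0 := fun y => h5 y (hY y) 0 hd
  choose f hf hf0 using h6
  choose g hg hg0 using h7
  have hgf : ∀ x, g (f x) = x := fun x =>
    h3 _ _ (f x) (hg (f x)) (hf x) ((hg0 (f x)).trans (hf0 x).symm)
  have hfg : ∀ y, f (g y) = y := fun y =>
    h2 (g y) _ _ (hf (g y)) (hg y) ((hf0 (g y)).trans (hg0 y).symm)
  have hT : ∀ v, ¬ side v = false → side v = true := fun v h => by
    cases hs : side v
    · exact absurd hs h
    · rfl
  obtain ⟨F, hF⟩ : ∃ F : V → V, F =
    fun v => if h : side v = false then (f ⟨v, h⟩ : V) else (g ⟨v, hT v h⟩ : V) := ⟨_, rfl⟩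
  have hF1 : ∀ v (h : side v = false), F v = f ⟨v, h⟩ := fun v h => by
    rw [hF]; exact dif_pos h
  have hF2 : ∀ v (h : side v = true), F v = g ⟨v, h⟩ := fun v h => by
    rw [hF]; exact dif_neg (by rw [h]; simp)
  refine ⟨F, ?_, ?_⟩
  · intro v
    by_cases h : side v = false
    · rw [hF1 v h]
      exact hf ⟨v, h⟩
    · rw [hF2 v (hT v h)]
      exact (hg ⟨v, hT v h⟩).symm
  · intro v
    by_cases h : side v = false
    · rw [hF1 v h, hF2 _ (f ⟨v, h⟩).2]
      exact congrArg Subtype.val (hgf ⟨v, h⟩)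
    · rw [hF2 v (hT v h), hF1 _ (g ⟨v, hT v h⟩).2]
      exact congrArg Subtype.val (hfg ⟨v, hT v h⟩)

end W3a
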