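import Pool.Agent.W_MP_3a8340_co.N3Defs

/-! Tables for `n = 3` (found by computer search, checked by `decide`). -/

open Finset

set_option maxRecDepth 100000

namespace W3a

theorem n3_kk0110 : KkOK 0 1 1 0
    ([3, 2, 1, 2, 4, 0, 1, 0, 5], [3, 2, 1, 2, 4, 0, 1, 0, 5], [3, 6, 2]) := by
  decide

theorem n3_kk0112 : KkOK 0 1 1 2
    ([1, 2, 0, 2, 4, 1, 0, 1, 5], [3, 1, 0, 1, 4, 2, 0, 2, 1], [1, 3, 2]) := by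
  decide

theorem n3_kk0120 : KkOK 0 1 2 0
    ([3, 2, 1, 2, 1, 0, 1, 0, 5], [3, 1, 2, 1, 4, 0, 2, 0, 1], [3, 1, 2]) := by
  decide

theorem n3_kk0210 : KkOK 0 2 1 0
    ([3, 1, 2, 1, 4, 0, 2, 0, 1], [3, 2, 1, 2, 1, 0, 1, 0, 5], [3, 2, 1]) := by
  decide

theorem n3_kk0220 : KkOK 0 2 2 0
    ([3, 1, 2, 1, 4, 0, 2, 0, 5], [3, 1, 2, 1, 4, 0, 2, 0, 5], [3, 2, 6]) := by
  decide

theorem n3_kk0221 : KkOK 0 2 2 1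
    ([1, 0, 2, 0, 4, 1, 2, 1, 5], [3, 0, 1, 0, 1, 2, 1, 2, 5], [1, 2, 3]) := by
  decide

theorem n3_kk1001 : KkOK 1 0 0 1
    ([3, 2, 1, 2, 4, 0, 1, 0, 5], [3, 2, 1, 2, 4, 0, 1, 0, 5], [3, 6, 2]) := by
  decide

theorem n3_kk1002 : KkOK 1 0 0 2
    ([3, 2, 1, 2, 1, 0, 1, 0, 5], [3, 1, 2, 1, 4, 0, 2, 0, 1], [3, 1, 2]) := by
  decide

theorem n3_kk1021 : KkOK 1 0 2 1
    ([1, 2, 0, 2, 4, 1, 0, 1, 5], [3, 1, 0, 1, 4, 2, 0, 2, 1], [1, 3, 2]) := by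
  decide

theorem n3_kk1201 : KkOK 1 2 0 1
    ([3, 1, 0, 1, 4, 2, 0, 2, 1], [1, 2, 0, 2, 4, 1, 0, 1, 5], [2, 3, 1]) := by
  decide

theorem n3_kk1220 : KkOK 1 2 2 0
    ([3, 0, 1, 0, 1, 2, 1, 2, 5], [1, 0, 2, 0, 4, 1, 2, 1, 5], [2, 1, 3]) := by
  decide

theorem n3_kk1221 : KkOK 1 2 2 1
    ([3, 1, 0, 1, 4, 2, 0, 2, 5], [3, 1, 0, 1, 4, 2, 0, 2, 5], [2, 3, 6]) := by
  decide

theorem n3_kk2001 : KkOK 2 0 0 1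
    ([3, 1, 2, 1, 4, 0, 2, 0, 1], [3, 2, 1, 2, 1, 0, 1, 0, 5], [3, 2, 1]) := by
  decide

theorem n3_kk2002 : KkOK 2 0 0 2
    ([3, 1, 2, 1, 4, 0, 2, 0, 5], [3, 1, 2, 1, 4, 0, 2, 0, 5], [3, 2, 6]) := by
  decide

theorem n3_kk2012 : KkOK 2 0 1 2
    ([1, 0, 2, 0, 4, 1, 2, 1, 5], [3, 0, 1, 0, 1, 2, 1, 2, 5], [1, 2, 3]) := by
  decide

theorem n3_kk2102 : KkOK 2 1 0 2
    ([3, 0, 1, 0, 1, 2, 1, 2, 5], [1, 0, 2, 0, 4, 1, 2, 1, 5], [2, 1, 3]) := by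
  decide

theorem n3_kk2110 : KkOK 2 1 1 0
    ([3, 1, 0, 1, 4, 2, 0, 2, 1], [1, 2, 0, 2, 4, 1, 0, 1, 5], [2, 3, 1]) := by
  decide

theorem n3_kk2112 : KkOK 2 1 1 2
    ([3, 1, 0, 1, 4, 2, 0, 2, 5], [3, 1, 0, 1, 4, 2, 0, 2, 5], [2, 3, 6]) := by
  decide

theorem n3_kdkd (i j i' j' : Fin 3) (hij : i ≠ j) (hij' : i' ≠ j') (hi : i ≠ i')
    (hj : j ≠ j') : ∃ l, KkOK i j i' j' l := by
  fin_cases i <;> fin_cases j <;> first | exact absurd rfl hij | skip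
  all_goals (fin_cases i' <;> fin_cases j' <;> first | exact absurd rfl hij' | exact absurd rfl hi | exact absurd rfl hj | skip)
  · exact ⟨_, n3_kk0110⟩
  · exact ⟨_, n3_kk0112⟩
  · exact ⟨_, n3_kk0120⟩
  · exact ⟨_, n3_kk0210⟩
  · exact ⟨_, n3_kk0220⟩
  · exact ⟨_, n3_kk0221⟩
  · exact ⟨_, n3_kk1001⟩
  · exact ⟨_, n3_kk1002⟩
  · exact ⟨_, n3_kk1021⟩
  · exact ⟨_, n3_kk1201⟩
  · exact ⟨_, n3_kk1220⟩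
  · exact ⟨_, n3_kk1221⟩
  · exact ⟨_, n3_kk2001⟩
  · exact ⟨_, n3_kk2002⟩
  · exact ⟨_, n3_kk2012⟩
  · exact ⟨_, n3_kk2102⟩
  · exact ⟨_, n3_kk2110⟩
  · exact ⟨_, n3_kk2112⟩

end W3a
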