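import Pool.Agent.W_MP_3a8340_co.N3Defs

/-! Tables for `n = 3` (found by computer search, checked by `decide`). -/

open Finset

set_option maxRecDepth 100000

namespace W3a

def kdB02 : List (List ℕ × List ℕ × List ℕ) := [
  ([0, 1, 2, 1, 4, 0, 2, 0, 1], [3, 0, 1, 1, 4, 0, 0, 1, 5], [1, 2, 1]),
  ([3, 1, 2, 1, 4, 0, 2, 0, 5], [7, 1, 11, 1, 7, 0, 11, 0, 5], [3, 2, 6]),
  ([3, 1, 2, 1, 4, 0, 2, 0, 1], [1, 7, 11, 7, 0, 1, 11, 1, 5], [3, 2, 1]),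
  ([3, 1, 2, 1, 4, 0, 2, 0, 1], [7, 1, 11, 1, 7, 0, 11, 0, 5], [3, 2, 1]),
  ([0, 1, 2, 1, 4, 0, 2, 0, 1], [3, 0, 1, 1, 4, 0, 0, 1, 5], [1, 2, 1]),
  ([3, 1, 2, 1, 4, 0, 2, 0, 5], [3, 1, 11, 1, 4, 0, 11, 0, 5], [3, 2, 6]),
  ([3, 0, 2, 0, 4, 1, 2, 1, 0], [3, 0, 11, 0, 4, 1, 11, 1, 5], [6, 2, 1]),
  ([3, 1, 2, 1, 4, 0, 2, 0, 1], [3, 1, 11, 1, 4, 0, 11, 0, 5], [3, 2, 1]),
  ([0, 1, 2, 1, 4, 0, 2, 0, 1], [1, 7, 0, 7, 4, 1, 0, 1, 5], [1, 2, 1]),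
  ([3, 0, 2, 0, 4, 1, 2, 1, 5], [0, 7, 11, 7, 4, 1, 11, 1, 5], [6, 2, 3]),
  ([3, 1, 2, 1, 4, 0, 2, 0, 1], [1, 7, 11, 7, 4, 1, 11, 1, 5], [3, 2, 1]),
  ([], [], []),
  ([0, 1, 2, 1, 4, 0, 2, 0, 1], [0, 7, 1, 7, 4, 0, 1, 0, 5], [1, 2, 1]),
  ([3, 1, 2, 1, 4, 0, 2, 0, 5], [1, 7, 11, 7, 4, 0, 11, 0, 5], [3, 2, 6]),
  ([], [], []),
  ([3, 1, 2, 1, 4, 0, 2, 0, 1], [1, 7, 11, 7, 4, 0, 11, 0, 5], [3, 2, 1]),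
  ([3, 1, 2, 1, 4, 0, 2, 0, 1], [3, 7, 1, 7, 1, 0, 1, 0, 5], [3, 2, 1]),
  ([], [], []),
  ([], [], []),
  ([], [], []),
  ([3, 1, 2, 1, 4, 0, 2, 0, 1], [3, 6, 1, 6, 1, 0, 1, 0, 5], [3, 2, 1]),
  ([], [], []),
  ([], [], []),
  ([], [], []),
  ([3, 0, 2, 0, 4, 1, 2, 1, 0], [7, 6, 0, 6, 7, 1, 0, 1, 5], [6, 2, 1]),
  ([], [], []),
  ([], [], []),
  ([], [], []),
  ([3, 1, 2, 1, 4, 0, 2, 0, 1], [7, 6, 1, 6, 7, 0, 1, 0, 5], [3, 2, 1]),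
  ([], [], []),
  ([], [], []),
  ([], [], []),
  ([0, 1, 2, 1, 4, 0, 2, 0, 1], [3, 7, 1, 7, 1, 0, 1, 0, 5], [1, 2, 1]),
  ([], [], []),
  ([], [], []),
  ([], [], []),
  ([0, 1, 2, 1, 4, 0, 2, 0, 1], [3, 6, 1, 6, 1, 0, 1, 0, 5], [1, 2, 1]),
  ([], [], []),
  ([], [], []),
  ([], [], []),
  ([1, 0, 2, 0, 4, 1, 2, 1, 5], [3, 12, 1, 1, 4, 12, 12, 1, 5], [1, 2, 3]),
  ([], [], []),
  ([], [], []),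
  ([], [], []),
  ([0, 1, 2, 1, 4, 0, 2, 0, 1], [7, 6, 1, 6, 7, 0, 1, 0, 5], [1, 2, 1]),
  ([], [], []),
  ([], [], []),
  ([], [], []),
  ([0, 1, 2, 1, 4, 0, 2, 0, 1], [3, 7, 0, 7, 0, 1, 0, 1, 5], [1, 2, 1]),
  ([], [], []),
  ([], [], []),
  ([], [], []),
  ([0, 1, 2, 1, 4, 0, 2, 0, 1], [3, 6, 0, 6, 0, 1, 0, 1, 5], [1, 2, 1]),
  ([], [], []),
  ([], [], []),
  ([], [], []),
  ([0, 1, 2, 1, 4, 0, 2, 0, 1], [7, 6, 0, 6, 7, 1, 0, 1, 5], [1, 2, 1]),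
  ([], [], []),
  ([], [], []),
  ([], [], []),
  ([0, 1, 2, 1, 4, 0, 2, 0, 5], [3, 12, 0, 0, 4, 12, 12, 0, 5], [1, 2, 6]),
  ([], [], []),
  ([], [], []),
  ([], [], [])]

def kdR02 : List (List ℕ × List ℕ × List ℕ) := [
  ([0, 1, 2, 1, 4, 0, 2, 0, 1], [7, 6, 0, 6, 7, 1, 0, 1, 5], [1, 2, 1]),
  ([1, 7, 2, 7, 0, 1, 2, 1, 5], [3, 6, 10, 6, 4, 1, 10, 1, 5], [3, 1, 3]),
  ([1, 0, 2, 0, 4, 1, 2, 1, 5], [7, 6, 10, 6, 7, 1, 10, 1, 5], [1, 2, 3]),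
  ([], [], []),
  ([0, 1, 2, 1, 4, 0, 2, 0, 1], [7, 6, 1, 6, 7, 0, 1, 0, 5], [1, 2, 1]),
  ([0, 7, 2, 7, 1, 0, 2, 0, 5], [3, 6, 10, 6, 4, 0, 10, 0, 5], [6, 1, 6]),
  ([], [], []),
  ([0, 1, 2, 1, 4, 0, 2, 0, 5], [7, 6, 10, 6, 7, 0, 10, 0, 5], [1, 2, 6]),
  ([0, 1, 2, 1, 4, 0, 2, 0, 1], [7, 0, 9, 0, 7, 1, 9, 1, 5], [1, 2, 1]),
  ([], [], []),
  ([], [], []),
  ([], [], []),
  ([0, 1, 2, 1, 4, 0, 2, 0, 1], [7, 1, 9, 1, 7, 0, 9, 0, 5], [1, 2, 1]),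
  ([], [], []),
  ([], [], []),
  ([], [], [])]

def kdC02 : List (List ℕ × List ℕ × List ℕ) := [
  ([1, 7, 2, 7, 0, 1, 2, 1, 5], [3, 6, 10, 6, 4, 1, 10, 1, 5], [3, 1, 3]),
  ([0, 7, 2, 7, 1, 0, 2, 0, 5], [3, 6, 10, 6, 4, 0, 10, 0, 5], [6, 1, 6]),
  ([], [], []),
  ([], [], [])]

def kdT02 : List (List ℕ × List ℕ × List ℕ) := [
  ([3, 1, 2, 1, 4, 0, 2, 0, 1], [1, 7, 11, 7, 4, 1, 11, 0, 5], [3, 2, 1]),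
  ([3, 1, 2, 1, 4, 0, 2, 0, 1], [1, 7, 11, 7, 4, 0, 11, 1, 5], [3, 2, 1])]

def kdQR02 : List (List ℕ × List ℕ × List ℕ) := [
  ([1, 0, 2, 0, 4, 1, 2, 1, 5], [12, 1, 9, 1, 4, 12, 9, 12, 5], [1, 2, 3]),
  ([0, 1, 2, 1, 4, 0, 2, 0, 5], [12, 0, 9, 0, 4, 12, 9, 12, 5], [1, 2, 6])]

def kdQC02 : List (List ℕ × List ℕ × List ℕ) := [
  ([1, 0, 2, 0, 4, 1, 2, 1, 5], [0, 1, 9, 1, 4, 2, 9, 2, 5], [1, 2, 3]),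
  ([0, 1, 2, 1, 4, 0, 2, 0, 5], [1, 0, 9, 0, 4, 2, 9, 2, 5], [1, 2, 6])]

theorem n3_kdB02 : ∀ s0 s1 s2 : RowSt (Fin 2), (s0 = .dflt ∨ s2 = .dflt) →
      ¬ (s0 = .dflt ∧ ((s1 = .high 0 ∧ s2 = .high 1) ∨ (s1 = .high 1 ∧ s2 = .high 0))) →
     KdOK 0 2 (St3.base s0 s1 s2).ext
        (kdB02.getD (16 * codeS s0 + 4 * codeS s1 + codeS s2) ([], [], [])) := by
  decide

theorem n3_kdR02 : ∀ (j : Bool) (q : Fin 2) (s0 : RowSt (Fin 2)), s0 ≠ .high (1 - q) →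
    ((St3.R j q s0).cov 0 = false ∨ (St3.R j q s0).cov 2 = false) →
    KdOK 0 2 (St3.R j q s0).ext
      (kdR02.getD (8 * j.toNat + 4 * q.val + codeS s0) ([], [], [])) := by
  decide

theorem n3_kdC02 : ∀ (j : Bool) (q : Fin 2),
    ((St3.C j q).cov 0 = false ∨ (St3.C j q).cov 2 = false) →
    KdOK 0 2 (St3.C j q).ext (kdC02.getD (2 * j.toNat + q.val) ([], [], [])) := by
  decide

theorem n3_kdT02 : ∀ q : Fin 2,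
    KdOK 0 2 (St3.T q .dflt).ext (kdT02.getD q.val ([], [], [])) := by
  decide

theorem n3_kdQR02 : ∀ q : Fin 2,
    KdOK 0 2 (St3.QR (q) q).ext (kdQR02.getD q.val ([], [], [])) := by
  decide

theorem n3_kdQC02 : ∀ q : Fin 2,
    KdOK 0 2 (St3.QC q).ext (kdQC02.getD q.val ([], [], [])) := by
  decide

end W3a
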