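import Pool.Agent.W_MP_3a8340_co.N3Defs

/-! Tables for `n = 3` (found by computer search, checked by `decide`). -/

open Finset

set_option maxRecDepth 100000

namespace W3a

def kdB21 : List (List ℕ × List ℕ × List ℕ) := [
  ([3, 0, 1, 0, 1, 2, 1, 2, 0], [3, 0, 1, 1, 4, 0, 0, 1, 5], [2, 1, 1]),
  ([3, 0, 1, 0, 1, 2, 1, 2, 5], [1, 0, 11, 0, 4, 1, 11, 1, 5], [2, 1, 3]),
  ([3, 0, 1, 0, 1, 2, 1, 2, 0], [1, 0, 11, 0, 4, 1, 11, 1, 5], [2, 1, 1]),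
  ([3, 0, 1, 0, 1, 2, 1, 2, 0], [0, 1, 11, 1, 4, 0, 11, 0, 5], [2, 1, 1]),
  ([3, 1, 0, 1, 4, 2, 0, 2, 1], [1, 8, 0, 8, 4, 1, 0, 1, 5], [2, 3, 1]),
  ([], [], []),
  ([], [], []),
  ([], [], []),
  ([3, 0, 1, 0, 1, 2, 1, 2, 0], [1, 8, 0, 8, 4, 1, 0, 1, 5], [2, 1, 1]),
  ([], [], []),
  ([], [], []),
  ([], [], []),
  ([3, 0, 1, 0, 1, 2, 1, 2, 0], [0, 8, 1, 8, 4, 0, 1, 0, 5], [2, 1, 1]),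
  ([], [], []),
  ([], [], []),
  ([], [], []),
  ([3, 0, 1, 0, 1, 2, 1, 2, 0], [3, 0, 1, 1, 4, 0, 0, 1, 5], [2, 1, 1]),
  ([3, 0, 1, 0, 1, 2, 1, 2, 5], [1, 0, 9, 0, 4, 1, 9, 1, 5], [2, 1, 3]),
  ([3, 0, 1, 0, 1, 2, 1, 2, 0], [1, 0, 9, 0, 4, 1, 9, 1, 5], [2, 1, 1]),
  ([3, 0, 1, 0, 1, 2, 1, 2, 0], [0, 1, 9, 1, 4, 0, 9, 0, 5], [2, 1, 1]),
  ([3, 1, 0, 1, 4, 2, 0, 2, 1], [1, 6, 0, 6, 4, 1, 0, 1, 5], [2, 3, 1]),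
  ([], [], []),
  ([], [], []),
  ([], [], []),
  ([3, 0, 1, 0, 1, 2, 1, 2, 0], [1, 6, 0, 6, 4, 1, 0, 1, 5], [2, 1, 1]),
  ([], [], []),
  ([], [], []),
  ([], [], []),
  ([3, 0, 1, 0, 1, 2, 1, 2, 0], [0, 6, 1, 6, 4, 0, 1, 0, 5], [2, 1, 1]),
  ([], [], []),
  ([], [], []),
  ([], [], []),
  ([3, 0, 1, 0, 1, 2, 1, 2, 0], [3, 8, 1, 8, 1, 0, 1, 0, 5], [2, 1, 1]),
  ([3, 0, 1, 0, 1, 2, 1, 2, 5], [1, 8, 9, 8, 0, 1, 9, 1, 5], [2, 1, 3]),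
  ([3, 0, 1, 0, 1, 2, 1, 2, 0], [1, 8, 9, 8, 0, 1, 9, 1, 5], [2, 1, 1]),
  ([3, 0, 1, 0, 1, 2, 1, 2, 0], [8, 1, 9, 1, 8, 0, 9, 0, 5], [2, 1, 1]),
  ([3, 1, 0, 1, 4, 2, 0, 2, 1], [1, 6, 11, 6, 4, 1, 11, 1, 0], [2, 3, 1]),
  ([], [], []),
  ([], [], []),
  ([], [], []),
  ([3, 0, 1, 0, 1, 2, 1, 2, 0], [1, 6, 11, 6, 4, 1, 11, 1, 0], [2, 1, 1]),
  ([], [], []),
  ([], [], []),
  ([], [], []),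
  ([3, 0, 1, 0, 1, 2, 1, 2, 0], [8, 6, 1, 6, 8, 0, 1, 0, 5], [2, 1, 1]),
  ([], [], []),
  ([], [], []),
  ([], [], []),
  ([3, 0, 1, 0, 1, 2, 1, 2, 0], [3, 8, 0, 8, 0, 1, 0, 1, 5], [2, 1, 1]),
  ([3, 0, 1, 0, 1, 2, 1, 2, 5], [8, 0, 9, 0, 8, 1, 9, 1, 5], [2, 1, 3]),
  ([3, 0, 1, 0, 1, 2, 1, 2, 0], [8, 0, 9, 0, 8, 1, 9, 1, 5], [2, 1, 1]),
  ([3, 0, 1, 0, 1, 2, 1, 2, 0], [0, 8, 9, 8, 1, 0, 9, 0, 5], [2, 1, 1]),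
  ([3, 1, 0, 1, 4, 2, 0, 2, 1], [8, 6, 0, 6, 8, 1, 0, 1, 5], [2, 3, 1]),
  ([], [], []),
  ([], [], []),
  ([], [], []),
  ([3, 0, 1, 0, 1, 2, 1, 2, 0], [8, 6, 0, 6, 8, 1, 0, 1, 5], [2, 1, 1]),
  ([], [], []),
  ([], [], []),
  ([], [], []),
  ([3, 0, 1, 0, 1, 2, 1, 2, 0], [0, 6, 11, 6, 4, 0, 11, 0, 1], [2, 1, 1]),
  ([], [], []),
  ([], [], []),
  ([], [], [])]

def kdR21 : List (List ℕ × List ℕ × List ℕ) := [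
  ([3, 0, 1, 0, 1, 2, 1, 2, 0], [8, 6, 0, 6, 8, 1, 0, 1, 5], [2, 1, 1]),
  ([3, 0, 1, 0, 1, 2, 1, 2, 0], [3, 6, 0, 6, 4, 1, 0, 1, 5], [2, 1, 1]),
  ([3, 0, 1, 0, 1, 2, 1, 2, 0], [3, 6, 11, 6, 4, 1, 11, 1, 0], [2, 1, 1]),
  ([], [], []),
  ([3, 0, 1, 0, 1, 2, 1, 2, 0], [8, 6, 1, 6, 8, 0, 1, 0, 5], [2, 1, 1]),
  ([3, 0, 1, 0, 1, 2, 1, 2, 0], [3, 6, 1, 6, 4, 0, 1, 0, 5], [2, 1, 1]),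
  ([], [], []),
  ([3, 0, 1, 0, 1, 2, 1, 2, 0], [3, 6, 11, 6, 4, 0, 11, 0, 1], [2, 1, 1]),
  ([3, 0, 1, 0, 1, 2, 1, 2, 0], [8, 0, 9, 0, 8, 1, 9, 1, 5], [2, 1, 1]),
  ([3, 0, 1, 0, 1, 2, 1, 2, 0], [3, 0, 9, 0, 4, 1, 9, 1, 5], [2, 1, 1]),
  ([3, 0, 1, 0, 1, 2, 1, 2, 0], [3, 8, 9, 8, 0, 1, 9, 1, 5], [2, 1, 1]),
  ([], [], []),
  ([3, 0, 1, 0, 1, 2, 1, 2, 0], [8, 1, 9, 1, 8, 0, 9, 0, 5], [2, 1, 1]),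
  ([3, 0, 1, 0, 1, 2, 1, 2, 0], [3, 1, 9, 1, 4, 0, 9, 0, 5], [2, 1, 1]),
  ([], [], []),
  ([3, 0, 1, 0, 1, 2, 1, 2, 0], [3, 8, 9, 8, 1, 0, 9, 0, 5], [2, 1, 1])]

def kdC21 : List (List ℕ × List ℕ × List ℕ) := [
  ([3, 0, 1, 0, 1, 2, 1, 2, 0], [3, 6, 0, 6, 4, 1, 0, 1, 5], [2, 1, 1]),
  ([3, 0, 1, 0, 1, 2, 1, 2, 0], [3, 6, 1, 6, 4, 0, 1, 0, 5], [2, 1, 1]),
  ([3, 0, 1, 0, 1, 2, 1, 2, 0], [3, 0, 9, 0, 4, 1, 9, 1, 5], [2, 1, 1]),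
  ([3, 0, 1, 0, 1, 2, 1, 2, 0], [3, 1, 9, 1, 4, 0, 9, 0, 5], [2, 1, 1])]

def kdT21 : List (List ℕ × List ℕ × List ℕ) := [
  ([], [], []),
  ([], [], [])]

def kdQR21 : List (List ℕ × List ℕ × List ℕ) := [
  ([], [], []),
  ([], [], [])]

def kdQC21 : List (List ℕ × List ℕ × List ℕ) := [
  ([], [], []),
  ([], [], [])]

theorem n3_kdB21 : ∀ s0 s1 s2 : RowSt (Fin 2), (s2 = .dflt ∨ s1 = .dflt) →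
     KdOK 2 1 (St3.base s0 s1 s2).ext
        (kdB21.getD (16 * codeS s0 + 4 * codeS s1 + codeS s2) ([], [], [])) := by
  decide

theorem n3_kdR21 : ∀ (j : Bool) (q : Fin 2) (s0 : RowSt (Fin 2)), s0 ≠ .high (1 - q) →
    ((St3.R j q s0).cov 2 = false ∨ (St3.R j q s0).cov 1 = false) →
    KdOK 2 1 (St3.R j q s0).ext
      (kdR21.getD (8 * j.toNat + 4 * q.val + codeS s0) ([], [], [])) := by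
  decide

theorem n3_kdC21 : ∀ (j : Bool) (q : Fin 2),
    ((St3.C j q).cov 2 = false ∨ (St3.C j q).cov 1 = false) →
    KdOK 2 1 (St3.C j q).ext (kdC21.getD (2 * j.toNat + q.val) ([], [], [])) := by
  decide

end W3a
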