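import Pool.Agent.W_MP_3a8340_co.N3Defs

/-! Tables for `n = 3` (found by computer search, checked by `decide`). -/

open Finset

set_option maxRecDepth 100000

namespace W3a

def tabSS : List (List ℕ) := [
  [3, 0, 1, 1, 4, 0, 0, 1, 5],
  [3, 0, 1, 1, 4, 0, 0, 1, 5],
  [1, 0, 10, 0, 4, 1, 10, 1, 5],
  [0, 1, 10, 1, 4, 0, 10, 0, 5],
  [3, 0, 1, 1, 4, 0, 0, 1, 5],
  [3, 0, 1, 1, 4, 0, 0, 1, 5],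
  [1, 0, 10, 0, 4, 1, 10, 1, 5],
  [0, 1, 10, 1, 4, 0, 10, 0, 5],
  [1, 7, 0, 7, 4, 1, 0, 1, 5],
  [1, 7, 0, 7, 4, 1, 0, 1, 5],
  [0, 12, 1, 1, 4, 12, 12, 1, 5],
  [12, 1, 0, 1, 4, 12, 0, 12, 5],
  [0, 7, 1, 7, 4, 0, 1, 0, 5],
  [0, 7, 1, 7, 4, 0, 1, 0, 5],
  [12, 0, 1, 0, 4, 12, 1, 12, 5],
  [1, 12, 0, 0, 4, 12, 12, 0, 5],
  [3, 0, 1, 1, 4, 0, 0, 1, 5],
  [3, 0, 1, 1, 4, 0, 0, 1, 5],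
  [1, 0, 10, 0, 4, 1, 10, 1, 5],
  [0, 1, 10, 1, 4, 0, 10, 0, 5],
  [3, 0, 1, 1, 4, 0, 0, 1, 5],
  [3, 0, 1, 1, 4, 0, 0, 1, 5],
  [1, 0, 10, 0, 4, 1, 10, 1, 5],
  [0, 1, 10, 1, 4, 0, 10, 0, 5],
  [1, 7, 0, 7, 4, 1, 0, 1, 5],
  [1, 7, 0, 7, 4, 1, 0, 1, 5],
  [0, 12, 1, 1, 4, 12, 12, 1, 5],
  [12, 1, 0, 1, 4, 12, 0, 12, 5],
  [0, 7, 1, 7, 4, 0, 1, 0, 5],
  [0, 7, 1, 7, 4, 0, 1, 0, 5],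
  [12, 0, 1, 0, 4, 12, 1, 12, 5],
  [1, 12, 0, 0, 4, 12, 12, 0, 5],
  [3, 8, 1, 8, 1, 0, 1, 0, 5],
  [3, 8, 1, 8, 1, 0, 1, 0, 5],
  [1, 8, 10, 8, 0, 1, 10, 1, 5],
  [8, 1, 10, 1, 8, 0, 10, 0, 5],
  [3, 8, 1, 8, 1, 0, 1, 0, 5],
  [3, 8, 1, 8, 1, 0, 1, 0, 5],
  [1, 8, 10, 8, 0, 1, 10, 1, 5],
  [8, 1, 10, 1, 8, 0, 10, 0, 5],
  [1, 7, 11, 7, 4, 1, 11, 1, 0],
  [1, 7, 11, 7, 4, 1, 11, 1, 0],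
  [3, 12, 1, 1, 4, 12, 12, 1, 5],
  [12, 1, 11, 1, 4, 12, 11, 12, 0],
  [7, 8, 1, 8, 7, 0, 1, 0, 5],
  [7, 8, 1, 8, 7, 0, 1, 0, 5],
  [12, 8, 1, 8, 0, 12, 1, 12, 5],
  [1, 7, 10, 7, 4, 0, 10, 0, 5],
  [3, 8, 0, 8, 0, 1, 0, 1, 5],
  [3, 8, 0, 8, 0, 1, 0, 1, 5],
  [8, 0, 10, 0, 8, 1, 10, 1, 5],
  [0, 8, 10, 8, 1, 0, 10, 0, 5],
  [3, 8, 0, 8, 0, 1, 0, 1, 5],
  [3, 8, 0, 8, 0, 1, 0, 1, 5],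
  [8, 0, 10, 0, 8, 1, 10, 1, 5],
  [0, 8, 10, 8, 1, 0, 10, 0, 5],
  [7, 8, 0, 8, 7, 1, 0, 1, 5],
  [7, 8, 0, 8, 7, 1, 0, 1, 5],
  [0, 7, 10, 7, 4, 1, 10, 1, 5],
  [12, 8, 0, 8, 1, 12, 0, 12, 5],
  [0, 7, 11, 7, 4, 0, 11, 0, 1],
  [0, 7, 11, 7, 4, 0, 11, 0, 1],
  [12, 0, 11, 0, 4, 12, 11, 12, 1],
  [3, 12, 0, 0, 4, 12, 12, 0, 5]]

def tabR : List (List ℕ) := [
  [3, 7, 0, 7, 4, 1, 0, 1, 5],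
  [3, 7, 0, 7, 4, 1, 0, 1, 5],
  [3, 7, 11, 7, 4, 1, 11, 1, 0],
  [],
  [3, 7, 1, 7, 4, 0, 1, 0, 5],
  [3, 7, 1, 7, 4, 0, 1, 0, 5],
  [],
  [3, 7, 11, 7, 4, 0, 11, 0, 1],
  [3, 0, 10, 0, 4, 1, 10, 1, 5],
  [3, 0, 10, 0, 4, 1, 10, 1, 5],
  [3, 8, 10, 8, 0, 1, 10, 1, 5],
  [],
  [3, 1, 10, 1, 4, 0, 10, 0, 5],
  [3, 1, 10, 1, 4, 0, 10, 0, 5],
  [],
  [3, 8, 10, 8, 1, 0, 10, 0, 5]]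

def tabC : List (List ℕ) := [
  [3, 7, 0, 7, 4, 1, 0, 1, 5],
  [3, 7, 1, 7, 4, 0, 1, 0, 5],
  [3, 0, 10, 0, 4, 1, 10, 1, 5],
  [3, 1, 10, 1, 4, 0, 10, 0, 5]]

def tabT : List (List ℕ) := [
  [12, 0, 1, 1, 4, 12, 0, 12, 5],
  [12, 0, 1, 1, 4, 12, 0, 12, 5],
  [3, 12, 1, 1, 4, 12, 12, 0, 5],
  [3, 0, 12, 12, 4, 1, 0, 12, 5],
  [12, 1, 0, 0, 4, 12, 1, 12, 5],
  [12, 1, 0, 0, 4, 12, 1, 12, 5],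
  [3, 1, 12, 12, 4, 0, 1, 12, 5],
  [3, 12, 0, 0, 4, 12, 12, 1, 5]]

theorem n3_ss_base_d : ∀ s1 s2 : RowSt (Fin 2),
    SS tau3 (St3.base .dflt s1 s2).ext (St3.base .dflt s1 s2).cov
      (arr (tabSS.getD (16 * codeS .dflt + 4 * codeS s1 + codeS s2) [])) := by
  decide

theorem n3_ss_base_l : ∀ s1 s2 : RowSt (Fin 2),
    SS tau3 (St3.base .low s1 s2).ext (St3.base .low s1 s2).cov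
      (arr (tabSS.getD (16 * codeS .low + 4 * codeS s1 + codeS s2) [])) := by
  decide

theorem n3_ss_base_h0 : ∀ s1 s2 : RowSt (Fin 2),
    SS tau3 (St3.base (.high 0) s1 s2).ext (St3.base (.high 0) s1 s2).cov
      (arr (tabSS.getD (16 * codeS (.high 0) + 4 * codeS s1 + codeS s2) [])) := by
  decide

theorem n3_ss_base_h1 : ∀ s1 s2 : RowSt (Fin 2),
    SS tau3 (St3.base (.high 1) s1 s2).ext (St3.base (.high 1) s1 s2).cov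
      (arr (tabSS.getD (16 * codeS (.high 1) + 4 * codeS s1 + codeS s2) [])) := by
  decide

theorem n3_ss_R : ∀ (j : Bool) (q : Fin 2) (s0 : RowSt (Fin 2)), s0 ≠ .high (1 - q) →
    SS tau3 (St3.R j q s0).ext (St3.R j q s0).cov
      (arr (tabR.getD (8 * j.toNat + 4 * q.val + codeS s0) [])) := by
  decide

theorem n3_ss_C : ∀ (j : Bool) (q : Fin 2),
    SS tau3 (St3.C j q).ext (St3.C j q).cov (arr (tabC.getD (2 * j.toNat + q.val) [])) := by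
  decide

theorem n3_ss_T : ∀ (q : Fin 2) (s0 : RowSt (Fin 2)),
    SS tau3 (St3.T q s0).ext (St3.T q s0).cov (arr (tabT.getD (4 * q.val + codeS s0) [])) := by
  decide

/-- Self-sufficient designs for `n = 3`. -/
theorem n3_ss (s : St3) (hR : ∀ j q s0, s = .R j q s0 → s0 ≠ .high (1 - q))
    (h1 : ∀ r q, s ≠ .QR r q) (h2 : ∀ q, s ≠ .QC q) :
    ∃ N : Fin 3 → Fin 3 → CLab (Fin 3) (Fin 2), SS tau3 s.ext s.cov N := by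
  rcases s with ⟨s0, s1, s2⟩ | ⟨j, q, s0⟩ | ⟨j, q⟩ | ⟨q, s0⟩ | ⟨r, q⟩ | q
  · rcases s0 with _ | _ | q
    · exact ⟨_, n3_ss_base_d s1 s2⟩
    · exact ⟨_, n3_ss_base_l s1 s2⟩
    · fin_cases q
      · exact ⟨_, n3_ss_base_h0 s1 s2⟩
      · exact ⟨_, n3_ss_base_h1 s1 s2⟩
  · exact ⟨_, n3_ss_R j q s0 (hR j q s0 rfl)⟩
  · exact ⟨_, n3_ss_C j q⟩
  · exact ⟨_, n3_ss_T q s0⟩
  · exact absurd rfl (h1 r q)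
  · exact absurd rfl (h2 q)

def tabK : List (List ℕ) := [
  [2, 0, 1, 1, 4, 0, 0, 1, 5],
  [0, 8, 1, 8, 1, 0, 1, 0, 5],
  [1, 8, 0, 8, 0, 1, 0, 1, 5],
  [0, 2, 1, 2, 1, 0, 1, 0, 5],
  [3, 0, 1, 1, 4, 0, 0, 1, 5],
  [3, 1, 0, 0, 4, 1, 1, 0, 5],
  [0, 1, 2, 1, 4, 0, 2, 0, 1],
  [3, 1, 0, 0, 4, 1, 1, 0, 5],
  [3, 0, 1, 1, 4, 0, 0, 1, 5],
  [0, 2, 1, 2, 1, 0, 1, 0, 5],
  [3, 1, 0, 0, 4, 1, 1, 0, 5],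
  [3, 0, 1, 1, 4, 0, 0, 1, 5],
  [3, 0, 1, 1, 2, 0, 0, 1, 5],
  [1, 7, 0, 7, 0, 1, 0, 1, 5],
  [0, 7, 1, 7, 1, 0, 1, 0, 5],
  [3, 0, 1, 0, 1, 2, 1, 2, 0],
  [3, 0, 1, 1, 4, 0, 0, 1, 5],
  [3, 1, 0, 0, 4, 1, 1, 0, 5],
  [0, 1, 2, 1, 4, 0, 2, 0, 1],
  [3, 0, 1, 1, 4, 0, 0, 1, 5],
  [3, 1, 0, 0, 4, 1, 1, 0, 5],
  [3, 0, 1, 0, 1, 2, 1, 2, 0],
  [3, 1, 0, 0, 4, 1, 1, 0, 5],
  [3, 0, 1, 1, 4, 0, 0, 1, 5],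
  [3, 0, 1, 1, 4, 0, 0, 1, 2],
  [1, 0, 10, 0, 4, 1, 10, 1, 0],
  [0, 1, 10, 1, 4, 0, 10, 0, 1]]

def codeT : Option (Fin 2) → ℕ
  | none => 0
  | some q => 1 + q.val

theorem n3_karr (i j : Fin 3) (t : Option (Fin 2)) :
    KArr tau3 i j t (arr (tabK.getD (9 * i.val + 3 * j.val + codeT t) [])) := by
  revert i j t
  decide

end W3a
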