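import Pool.Agent.W_MP_3a8340_co.Compat
import Pool.Agent.W_MP_3a8340_co.N3SS
import Pool.Agent.W_MP_3a8340_co.N3Kd01
import Pool.Agent.W_MP_3a8340_co.N3Kd02
import Pool.Agent.W_MP_3a8340_co.N3Kd10
import Pool.Agent.W_MP_3a8340_co.N3Kd12
import Pool.Agent.W_MP_3a8340_co.N3Kd20
import Pool.Agent.W_MP_3a8340_co.N3Kd21
import Pool.Agent.W_MP_3a8340_co.N3KK

open Finset

namespace W3a

theorem n3_arrF_ne_fix (l : List ℕ) (i : Fin 3) (c : Unit) : arrF l i ≠ .fix c := by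
  unfold arrF
  generalize l.getD i.val 0 = m
  rcases m with _ | _ | _ | _ | _ | _ | m <;> simp [decF]

theorem n3_isKer_ne_fix {g : GLab (Fin 2) Unit} (h : g.isKer = true) (c : Unit) : g ≠ .fix c := by
  rintro rfl
  simp [GLab.isKer] at h

theorem n3_cov_dflt {s : RowSt (Fin 2)} (h : s.cov = false) : s = .dflt := by
  cases s <;> simp_all [RowSt.cov]

theorem n3_kd01 (s : St3)
    (hcov : s.cov 0 = false ∨ s.cov 1 = false)
    (hR : ∀ j' q s0, s = .R j' q s0 → s0 ≠ .high (1 - q))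
    (hQ : ∀ q, s = .base .dflt (.high q) (.high (1 - q)) → ((0 : Fin 3) ≠ 0 ∧ (1 : Fin 3) ≠ 0))
    (hQR : ∀ r q, s = .QR r q →
      ((((0 : Fin 3) = 0 ∧ (1 : Fin 3) = 1) ∨ ((0 : Fin 3) = 1 ∧ (1 : Fin 3) = 0)) ∧ r = 1 - q ∨
       (((0 : Fin 3) = 0 ∧ (1 : Fin 3) = 2) ∨ ((0 : Fin 3) = 2 ∧ (1 : Fin 3) = 0)) ∧ r = q))
    (hQC : ∀ q, s = .QC q → ((0 : Fin 3) = 0 ∨ (1 : Fin 3) = 0)) :
    ∃ l, KdOK 0 1 s.ext l := by
  rcases s with ⟨s0, s1, s2⟩ | ⟨j', q, s0⟩ | ⟨j', q⟩ | ⟨q, s0⟩ | ⟨r, q⟩ | q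
  · refine ⟨_, n3_kdB01 s0 s1 s2 ?_ ?_⟩
    · rcases hcov with h | h
      · left
        exact n3_cov_dflt h
      · right
        exact n3_cov_dflt h
    · rintro ⟨rfl, ⟨rfl, rfl⟩ | ⟨rfl, rfl⟩⟩
      · have := hQ 0 rfl
        simp at this
      · have := hQ 1 rfl
        simp at this
  · exact ⟨_, n3_kdR01 j' q s0 (hR j' q s0 rfl) hcov⟩
  · exact ⟨_, n3_kdC01 j' q hcov⟩
  · have h0 : s0 = .dflt := by
      rcases hcov with h | h
      · first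
          | exact n3_cov_dflt h
          | exact absurd h (by simp [St3.cov])
      · first
          | exact n3_cov_dflt h
          | exact absurd h (by simp [St3.cov])
    subst h0
    exact ⟨_, n3_kdT01 q⟩
  · have h := hQR r q rfl
    simp at h
    subst h
    exact ⟨_, n3_kdQR01 _⟩
  · exact ⟨_, n3_kdQC01 q⟩

theorem n3_kd02 (s : St3)
    (hcov : s.cov 0 = false ∨ s.cov 2 = false)
    (hR : ∀ j' q s0, s = .R j' q s0 → s0 ≠ .high (1 - q))
    (hQ : ∀ q, s = .base .dflt (.high q) (.high (1 - q)) → ((0 : Fin 3) ≠ 0 ∧ (2 : Fin 3) ≠ 0))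
    (hQR : ∀ r q, s = .QR r q →
      ((((0 : Fin 3) = 0 ∧ (2 : Fin 3) = 1) ∨ ((0 : Fin 3) = 1 ∧ (2 : Fin 3) = 0)) ∧ r = 1 - q ∨
       (((0 : Fin 3) = 0 ∧ (2 : Fin 3) = 2) ∨ ((0 : Fin 3) = 2 ∧ (2 : Fin 3) = 0)) ∧ r = q))
    (hQC : ∀ q, s = .QC q → ((0 : Fin 3) = 0 ∨ (2 : Fin 3) = 0)) :
    ∃ l, KdOK 0 2 s.ext l := by
  rcases s with ⟨s0, s1, s2⟩ | ⟨j', q, s0⟩ | ⟨j', q⟩ | ⟨q, s0⟩ | ⟨r, q⟩ | q
  · refine ⟨_, n3_kdB02 s0 s1 s2 ?_ ?_⟩
    · rcases hcov with h | h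
      · left
        exact n3_cov_dflt h
      · right
        exact n3_cov_dflt h
    · rintro ⟨rfl, ⟨rfl, rfl⟩ | ⟨rfl, rfl⟩⟩
      · have := hQ 0 rfl
        simp at this
      · have := hQ 1 rfl
        simp at this
  · exact ⟨_, n3_kdR02 j' q s0 (hR j' q s0 rfl) hcov⟩
  · exact ⟨_, n3_kdC02 j' q hcov⟩
  · have h0 : s0 = .dflt := by
      rcases hcov with h | h
      · first
          | exact n3_cov_dflt h
          | exact absurd h (by simp [St3.cov])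
      · first
          | exact n3_cov_dflt h
          | exact absurd h (by simp [St3.cov])
    subst h0
    exact ⟨_, n3_kdT02 q⟩
  · have h := hQR r q rfl
    simp at h
    subst h
    exact ⟨_, n3_kdQR02 _⟩
  · exact ⟨_, n3_kdQC02 q⟩

theorem n3_kd10 (s : St3)
    (hcov : s.cov 1 = false ∨ s.cov 0 = false)
    (hR : ∀ j' q s0, s = .R j' q s0 → s0 ≠ .high (1 - q))
    (hQ : ∀ q, s = .base .dflt (.high q) (.high (1 - q)) → ((1 : Fin 3) ≠ 0 ∧ (0 : Fin 3) ≠ 0))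
    (hQR : ∀ r q, s = .QR r q →
      ((((1 : Fin 3) = 0 ∧ (0 : Fin 3) = 1) ∨ ((1 : Fin 3) = 1 ∧ (0 : Fin 3) = 0)) ∧ r = 1 - q ∨
       (((1 : Fin 3) = 0 ∧ (0 : Fin 3) = 2) ∨ ((1 : Fin 3) = 2 ∧ (0 : Fin 3) = 0)) ∧ r = q))
    (hQC : ∀ q, s = .QC q → ((1 : Fin 3) = 0 ∨ (0 : Fin 3) = 0)) :
    ∃ l, KdOK 1 0 s.ext l := by
  rcases s with ⟨s0, s1, s2⟩ | ⟨j', q, s0⟩ | ⟨j', q⟩ | ⟨q, s0⟩ | ⟨r, q⟩ | q
  · refine ⟨_, n3_kdB10 s0 s1 s2 ?_ ?_⟩
    · rcases hcov with h | h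
      · left
        exact n3_cov_dflt h
      · right
        exact n3_cov_dflt h
    · rintro ⟨rfl, ⟨rfl, rfl⟩ | ⟨rfl, rfl⟩⟩
      · have := hQ 0 rfl
        simp at this
      · have := hQ 1 rfl
        simp at this
  · exact ⟨_, n3_kdR10 j' q s0 (hR j' q s0 rfl) hcov⟩
  · exact ⟨_, n3_kdC10 j' q hcov⟩
  · have h0 : s0 = .dflt := by
      rcases hcov with h | h
      · first
          | exact n3_cov_dflt h
          | exact absurd h (by simp [St3.cov])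
      · first
          | exact n3_cov_dflt h
          | exact absurd h (by simp [St3.cov])
    subst h0
    exact ⟨_, n3_kdT10 q⟩
  · have h := hQR r q rfl
    simp at h
    subst h
    exact ⟨_, n3_kdQR10 _⟩
  · exact ⟨_, n3_kdQC10 q⟩

theorem n3_kd12 (s : St3)
    (hcov : s.cov 1 = false ∨ s.cov 2 = false)
    (hR : ∀ j' q s0, s = .R j' q s0 → s0 ≠ .high (1 - q))
    (hQ : ∀ q, s = .base .dflt (.high q) (.high (1 - q)) → ((1 : Fin 3) ≠ 0 ∧ (2 : Fin 3) ≠ 0))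
    (hQR : ∀ r q, s = .QR r q →
      ((((1 : Fin 3) = 0 ∧ (2 : Fin 3) = 1) ∨ ((1 : Fin 3) = 1 ∧ (2 : Fin 3) = 0)) ∧ r = 1 - q ∨
       (((1 : Fin 3) = 0 ∧ (2 : Fin 3) = 2) ∨ ((1 : Fin 3) = 2 ∧ (2 : Fin 3) = 0)) ∧ r = q))
    (hQC : ∀ q, s = .QC q → ((1 : Fin 3) = 0 ∨ (2 : Fin 3) = 0)) :
    ∃ l, KdOK 1 2 s.ext l := by
  rcases s with ⟨s0, s1, s2⟩ | ⟨j', q, s0⟩ | ⟨j', q⟩ | ⟨q, s0⟩ | ⟨r, q⟩ | q
  · refine ⟨_, n3_kdB12 s0 s1 s2 ?_⟩
    · rcases hcov with h | h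
      · left
        exact n3_cov_dflt h
      · right
        exact n3_cov_dflt h
  · exact ⟨_, n3_kdR12 j' q s0 (hR j' q s0 rfl) hcov⟩
  · exact ⟨_, n3_kdC12 j' q hcov⟩
  · rcases hcov with h | h <;> exact absurd h (by simp [St3.cov])
  · have h := hQR r q rfl
    simp at h
  · have h := hQC q rfl
    simp at h

theorem n3_kd20 (s : St3)
    (hcov : s.cov 2 = false ∨ s.cov 0 = false)
    (hR : ∀ j' q s0, s = .R j' q s0 → s0 ≠ .high (1 - q))
    (hQ : ∀ q, s = .base .dflt (.high q) (.high (1 - q)) → ((2 : Fin 3) ≠ 0 ∧ (0 : Fin 3) ≠ 0))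
    (hQR : ∀ r q, s = .QR r q →
      ((((2 : Fin 3) = 0 ∧ (0 : Fin 3) = 1) ∨ ((2 : Fin 3) = 1 ∧ (0 : Fin 3) = 0)) ∧ r = 1 - q ∨
       (((2 : Fin 3) = 0 ∧ (0 : Fin 3) = 2) ∨ ((2 : Fin 3) = 2 ∧ (0 : Fin 3) = 0)) ∧ r = q))
    (hQC : ∀ q, s = .QC q → ((2 : Fin 3) = 0 ∨ (0 : Fin 3) = 0)) :
    ∃ l, KdOK 2 0 s.ext l := by
  rcases s with ⟨s0, s1, s2⟩ | ⟨j', q, s0⟩ | ⟨j', q⟩ | ⟨q, s0⟩ | ⟨r, q⟩ | q
  · refine ⟨_, n3_kdB20 s0 s1 s2 ?_ ?_⟩
    · rcases hcov with h | h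
      · left
        exact n3_cov_dflt h
      · right
        exact n3_cov_dflt h
    · rintro ⟨rfl, ⟨rfl, rfl⟩ | ⟨rfl, rfl⟩⟩
      · have := hQ 0 rfl
        simp at this
      · have := hQ 1 rfl
        simp at this
  · exact ⟨_, n3_kdR20 j' q s0 (hR j' q s0 rfl) hcov⟩
  · exact ⟨_, n3_kdC20 j' q hcov⟩
  · have h0 : s0 = .dflt := by
      rcases hcov with h | h
      · first
          | exact n3_cov_dflt h
          | exact absurd h (by simp [St3.cov])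
      · first
          | exact n3_cov_dflt h
          | exact absurd h (by simp [St3.cov])
    subst h0
    exact ⟨_, n3_kdT20 q⟩
  · have h := hQR r q rfl
    simp at h
    subst h
    exact ⟨_, n3_kdQR20 _⟩
  · exact ⟨_, n3_kdQC20 q⟩

theorem n3_kd21 (s : St3)
    (hcov : s.cov 2 = false ∨ s.cov 1 = false)
    (hR : ∀ j' q s0, s = .R j' q s0 → s0 ≠ .high (1 - q))
    (hQ : ∀ q, s = .base .dflt (.high q) (.high (1 - q)) → ((2 : Fin 3) ≠ 0 ∧ (1 : Fin 3) ≠ 0))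
    (hQR : ∀ r q, s = .QR r q →
      ((((2 : Fin 3) = 0 ∧ (1 : Fin 3) = 1) ∨ ((2 : Fin 3) = 1 ∧ (1 : Fin 3) = 0)) ∧ r = 1 - q ∨
       (((2 : Fin 3) = 0 ∧ (1 : Fin 3) = 2) ∨ ((2 : Fin 3) = 2 ∧ (1 : Fin 3) = 0)) ∧ r = q))
    (hQC : ∀ q, s = .QC q → ((2 : Fin 3) = 0 ∨ (1 : Fin 3) = 0)) :
    ∃ l, KdOK 2 1 s.ext l := by
  rcases s with ⟨s0, s1, s2⟩ | ⟨j', q, s0⟩ | ⟨j', q⟩ | ⟨q, s0⟩ | ⟨r, q⟩ | q
  · refine ⟨_, n3_kdB21 s0 s1 s2 ?_⟩
    · rcases hcov with h | h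
      · left
        exact n3_cov_dflt h
      · right
        exact n3_cov_dflt h
  · exact ⟨_, n3_kdR21 j' q s0 (hR j' q s0 rfl) hcov⟩
  · exact ⟨_, n3_kdC21 j' q hcov⟩
  · rcases hcov with h | h <;> exact absurd h (by simp [St3.cov])
  · have h := hQR r q rfl
    simp at h
  · have h := hQC q rfl
    simp at h

/-- Pair designs for `n = 3`: a vertex with `a_i b_j` precoloured and a vertex in state `s`. -/
theorem n3_kn (i j : Fin 3) (t : Option (Fin 2)) (s : St3)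
    (hcov : s.cov i = false ∨ s.cov j = false)
    (hR : ∀ j' q s0, s = .R j' q s0 → s0 ≠ .high (1 - q))
    (hQ : ∀ q, s = .base .dflt (.high q) (.high (1 - q)) → t = none → i ≠ j → i ≠ 0 ∧ j ≠ 0)
    (hQR : ∀ r q, s = .QR r q → t = none ∧
      (((i = 0 ∧ j = 1) ∨ (i = 1 ∧ j = 0)) ∧ r = 1 - q ∨
       ((i = 0 ∧ j = 2) ∨ (i = 2 ∧ j = 0)) ∧ r = q))
    (hQC : ∀ q, s = .QC q → t = none ∧ i ≠ j ∧ (i = 0 ∨ j = 0)) :
    ∃ (Nx Nw : Fin 3 → Fin 3 → CLab (Fin 3) (Fin 2)) (fl : Fin 3 → GLab (Fin 2) Unit),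
      (∀ l c, fl l ≠ .fix c) ∧ Nx i j = kcell t ∧
      LG tau3 (fun l => (fl l).row) Nx ∧
      LG tau3 (fun l => s.ext l + (fl l).flip.row) Nw := by
  by_cases hc : i ≠ j ∧ t = none
  · obtain ⟨hij, rfl⟩ := hc
    have key : ∃ l, KdOK i j s.ext l := by
      have hQ' := fun q hs => hQ q hs rfl hij
      have hQR' := fun r q hs => (hQR r q hs).2
      have hQC' := fun q hs => (hQC q hs).2.2
      clear hQ hQR hQC
      fin_cases i <;> fin_cases j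
      · exact absurd rfl hij
      · exact n3_kd01 s hcov hR hQ' hQR' hQC'
      · exact n3_kd02 s hcov hR hQ' hQR' hQC'
      · exact n3_kd10 s hcov hR hQ' hQR' hQC'
      · exact absurd rfl hij
      · exact n3_kd12 s hcov hR hQ' hQR' hQC'
      · exact n3_kd20 s hcov hR hQ' hQR' hQC'
      · exact n3_kd21 s hcov hR hQ' hQR' hQC'
      · exact absurd rfl hij
    obtain ⟨l, h1, h2, h3⟩ := key
    exact ⟨_, _, _, fun k c => n3_arrF_ne_fix _ k c, h1, h2, h3⟩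
  · have hx := n3_karr i j t
    obtain ⟨Nw, hw⟩ := n3_ss s hR
      (fun r q hs => by
        obtain ⟨h1, h2⟩ := hQR r q hs
        apply hc
        refine ⟨?_, h1⟩
        rintro rfl
        rcases h2 with ⟨⟨h, h'⟩ | ⟨h, h'⟩, -⟩ | ⟨⟨h, h'⟩ | ⟨h, h'⟩, -⟩ <;> rw [h] at h' <;>
          exact absurd h' (by decide))
      (fun q hs => by
        obtain ⟨h1, h2, h3⟩ := hQC q hs
        exact hc ⟨h2, h1⟩)
    obtain ⟨fk, hk1, -, hLx, hLw⟩ := compat_pair Unit tau3 (fun _ => 0) s.ext _ Nw hx.st hw.st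
      hx.le hw.le hx.ge hw.ge (fun _ => true) (fun _ h => by simp at h) (fun _ h => by simp at h)
      (by
        intro l _ _
        by_cases hl : l ≠ i ∧ l ≠ j
        · exact Or.inl (hx.can l hl.1 hl.2)
        · by_cases hij : i = j
          · subst hij
            have hli : l = i := by
              by_contra h
              exact hl ⟨h, h⟩
            subst hli
            right
            apply hw.can
            rcases hcov with h | h <;> exact h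
          · left
            refine hx.can' hij ?_ l
            intro ht
            exact hc ⟨hij, ht⟩)
    refine ⟨_, Nw, fk, fun l c => n3_isKer_ne_fix (hk1 l) c, hx.cell, ?_, hLw⟩
    simpa using hLx

/-- Pair designs for `n = 3`: two vertices with precoloured `K_{3,3}`-edges. -/
theorem n3_kk (i j : Fin 3) (t : Option (Fin 2)) (i' j' : Fin 3) (t' : Option (Fin 2))
    (hi : i ≠ i') (hj : j ≠ j') :
    ∃ (Nx Nw : Fin 3 → Fin 3 → CLab (Fin 3) (Fin 2)) (fl : Fin 3 → GLab (Fin 2) Unit),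
      (∀ l c, fl l ≠ .fix c) ∧ Nx i j = kcell t ∧ Nw i' j' = kcell t' ∧
      LG tau3 (fun l => (fl l).row) Nx ∧
      LG tau3 (fun l => (fl l).flip.row) Nw := by
  by_cases hc : i ≠ j ∧ i' ≠ j' ∧ t = none ∧ t' = none
  · obtain ⟨hij, hij', rfl, rfl⟩ := hc
    obtain ⟨l, h1, h2, h3, h4⟩ := n3_kdkd i j i' j' hij hij' hi hj
    exact ⟨_, _, _, fun k c => n3_arrF_ne_fix _ k c, h1, h2, h3, h4⟩
  · have hx := n3_karr i j t
    have hw := n3_karr i' j' t'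
    obtain ⟨fk, hk1, -, hLx, hLw⟩ := compat_pair Unit tau3 (fun _ => 0) (fun _ => 0) _ _ hx.st hw.st
      hx.le hw.le hx.ge hw.ge (fun _ => true) (fun _ h => by simp at h) (fun _ h => by simp at h)
      (by
        intro l _ _
        by_cases h1 : i ≠ j ∧ t ≠ none
        · exact Or.inl (hx.can' h1.1 h1.2 l)
        by_cases h2 : i' ≠ j' ∧ t' ≠ none
        · exact Or.inr (hw.can' h2.1 h2.2 l)
        by_cases h3 : l ≠ i ∧ l ≠ j
        · exact Or.inl (hx.can l h3.1 h3.2)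
        by_cases h4 : l ≠ i' ∧ l ≠ j'
        · exact Or.inr (hw.can l h4.1 h4.2)
        exfalso
        have h5 : i = j ∨ i' = j' := by
          by_contra h5
          push Not at h5
          apply hc
          refine ⟨h5.1, h5.2, ?_, ?_⟩
          · by_contra h6
            exact h1 ⟨h5.1, h6⟩
          · by_contra h6
            exact h2 ⟨h5.2, h6⟩
        have h6 : l = i ∨ l = j := by
          by_contra h6
          push Not at h6
          exact h3 h6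
        have h7 : l = i' ∨ l = j' := by
          by_contra h7
          push Not at h7
          exact h4 h7
        clear h1 h2 h3 h4 hc hx hw
        omega)
    refine ⟨_, _, fk, fun l c => n3_isKer_ne_fix (hk1 l) c, hx.cell, hw.cell, ?_, ?_⟩
    · simpa using hLx
    · simpa using hLw

end W3a
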