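import Pool.Agent.W_MP_3a8340_co.N3Lab

open Finset

namespace W3a

section State

variable {V P : Type} {G : SimpleGraph V} {M : PreM V (Fin 3) (Fin 2 ⊕ P)} {F : V → V}

theorem gX_ne0 {v w : V} {i : Fin 3} (hi : i ≠ 0) : gX M F v w i = .norm := by
  unfold gX; rw [if_neg hi]

theorem gX_norm {v w : V} {i : Fin 3} (h : ∀ r, ¬ Req M F v w r) (h' : ∀ r, ¬ Req M F w v r) :
    gX M F v w i = .norm := by
  unfold gX
  have a : ∀ r, ¬ (RR M F v w r ∨ RR M F w v r) := by
    rintro r (⟨h1, _⟩ | ⟨h1, _⟩)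
    · exact h r h1
    · exact h' r h1
  have b : ¬ CC M F v w := by rintro ⟨r, h1, _⟩; exact h r h1
  have c : ¬ CC M F w v := by rintro ⟨r, h1, _⟩; exact h' r h1
  rw [if_neg (a 0), if_neg (a 1), if_neg b, if_neg c]
  split_ifs <;> rfl

theorem gX_RR (hM : Sep G M) {v w : V} {r : Fin 2} (h : RR M F v w r) :
    gX M F v w 0 = .real r r := by
  unfold gX
  rw [if_pos rfl]
  have a : ∀ r', (RR M F v w r' ∨ RR M F w v r') → r' = r := by
    rintro r' (⟨h1, _⟩ | ⟨h1, _⟩)
    · exact (h1.uniq' hM h.1).2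
    · obtain ⟨j, v1, v2, q, hq, _⟩ := h.1
      exact absurd hq (fun hq => h1.not_QQ hM hq)
  have hr : r = 0 ∨ r = 1 := by fin_cases r <;> simp
  rcases hr with rfl | rfl
  · rw [if_pos (Or.inl h)]
  · rw [if_neg, if_pos (Or.inl h)]
    intro h'
    exact absurd (a 0 h') (by decide)

theorem gX_RR' (hM : Sep G M) {v w : V} {r : Fin 2} (h : RR M F w v r) :
    gX M F v w 0 = .real r r := by
  rw [gX_flip hM, gX_RR hM h]; rfl

theorem gX_CC (hM : Sep G M) {v w : V} (h : CC M F v w) :
    gX M F v w 0 = .out := by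
  unfold gX
  rw [if_pos rfl]
  obtain ⟨r, hr, hh⟩ := h
  have a : ∀ r', ¬ (RR M F v w r' ∨ RR M F w v r') := by
    rintro r' (⟨h1, h2⟩ | ⟨h1, _⟩)
    · have := (h1.uniq' hM hr).2
      subst this
      exact h2 hh
    · obtain ⟨j, v1, v2, q, hq, _⟩ := hr
      exact h1.not_QQ hM hq
  rw [if_neg (a 0), if_neg (a 1), if_pos ⟨r, hr, hh⟩]

theorem gX_CC' (hM : Sep G M) {v w : V} (h : CC M F w v) :
    gX M F v w 0 = .inn := by
  rw [gX_flip hM, gX_CC hM h]; rfl

variable [Fintype V] [DecidableRel G.Adj]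

/-- The vertex `v` is in state `s`. -/
structure Desc (G : SimpleGraph V) [DecidableRel G.Adj] (M : PreM V (Fin 3) (Fin 2 ⊕ P))
    (F : V → V) (v : V) (s : St3) : Prop where
  cov : ∀ i, s.cov i = true ↔ ∃ w, mm M v w i ≠ none
  sum : ∀ i, ∑ w ∈ G.neighborFinset v, (g3 M F v w i).row = s.ext i

/-- A vertex asking for a twist or being the target of one. -/
theorem state_T (hM : Sep G M) (hF : ∀ v, G.Adj v (F v)) {v w : V} {q : Fin 2}
    (h1 : mm M v w 1 = some (.inl q)) (h2 : mm M v w 2 = some (.inl (1 - q)))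
    (hT : TT M F v w ∨ TT M F w v) :
    ∃ q', Desc G M F v (.T q' (stt M v 0)) ∧
      (TT M F v w → stt M v 0 = .dflt) := by
  classical
  have n1 : mm M v w 1 ≠ none := by rw [h1]; simp
  have n2 : mm M v w 2 ≠ none := by rw [h2]; simp
  have hw0 : ∀ z, mm M v z 0 ≠ none → ¬ (TT M F v z ∨ TT M F z v) := by
    rintro z hz (⟨j, q', hq⟩ | ⟨j, q', hq⟩)
    · exact hz (hq.zero hM hF z)
    · rw [mm_symm hM] at hz
      exact hz (hq.zero hM hF v)
  have hX : ∀ u i, gX M F v u i = .norm := by
    intro u i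
    apply gX_norm
    · rintro r ⟨j, v1, v2, q', hq, h12, _⟩
      have e1 : v1 = w := mm_uniq hM (by rw [hq.2.1]; simp) n1
      have e2 : v2 = w := mm_uniq hM (by rw [hq.2.2]; simp) n2
      exact h12 (e1.trans e2.symm)
    · intro r hr
      exact hr.not_both hM n1 n2
  have hs0 := sum_std hM (i := 0) (fun u => hX u 0) hw0
  have hs1 := sum_one (G := G) (F := F) hM (i := 1) (fun u => hX u 1) n1
  have hs2 := sum_one (G := G) (F := F) hM (i := 2) (fun u => hX u 2) n2
  refine ⟨if TyA M v then q else 1 - q, ⟨?_, ?_⟩, ?_⟩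
  · intro i
    fin_cases i
    · exact stt_cov hM
    · simp only [St3.cov]; exact ⟨fun _ => ⟨w, n1⟩, fun _ => rfl⟩
    · simp only [St3.cov]; exact ⟨fun _ => ⟨w, n2⟩, fun _ => rfl⟩
  · intro i
    fin_cases i
    · exact hs0
    · refine hs1.trans ?_
      by_cases hA : TyA M v
      · rw [g3_highA h1 hT hA, if_pos hA]; rfl
      · rw [g3_highB h1 hT hA, if_neg hA]
        simp only [GLab.row, St3.ext]
        simp
    · refine hs2.trans ?_
      by_cases hA : TyA M v
      · rw [g3_highA h2 hT hA, if_pos hA]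
        simp only [GLab.row, St3.ext]
        simp
      · rw [g3_highB h2 hT hA, if_neg hA]
        simp only [GLab.row, St3.ext]
        simp
  · rintro ⟨j, q', hq⟩
    exact stt_dflt (fun z => hq.zero hM hF z)

/-- A vertex asking for a modification, with two different partners. -/
theorem state_Q (hM : Sep G M) (hF : ∀ v, G.Adj v (F v)) {v v1 v2 : V} {j : Bool} {q : Fin 2}
    (hq : QQ M F v j v1 v2 q) (h12 : v1 ≠ v2) :
    Desc G M F v (.QR (if j = true then q else 1 - q) q) ∨ Desc G M F v (.QC q) := by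
  have n1 : mm M v v1 1 ≠ none := by rw [hq.2.1]; simp
  have n2 : mm M v v2 2 ≠ none := by rw [hq.2.2]; simp
  set u := (if j = true then v2 else v1) with hu
  set r := (if j = true then q else 1 - q) with hr
  have hreq : Req M F v u r := ⟨j, v1, v2, q, hq, h12, rfl, rfl⟩
  have hX : ∀ w, w ≠ u → ∀ i, gX M F v w i = .norm := by
    intro w hw i
    apply gX_norm
    · intro r' hr'
      exact hw (hr'.uniq' hM hreq).1
    · intro r' hr'
      exact hr'.not_QQ hM hq
  have hTT : ∀ z, ¬ (TT M F v z ∨ TT M F z v) := by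
    rintro z (h | h)
    · have := h.cov hM
      rw [mm_symm hM, mm_symm hM z v] at this
      have e1 := mm_uniq hM this.1 n1
      have e2 := mm_uniq hM this.2 n2
      exact h12 (e1.symm.trans e2)
    · have := h.cov hM
      have e1 := mm_uniq hM this.1 n1
      have e2 := mm_uniq hM this.2 n2
      exact h12 (e1.symm.trans e2)
  have h0 : ∀ z, mm M v z 0 = none := fun z => hq.zero hM hF z
  have hs0 := sum_ext hM (i := 0) (hreq.adj hM) (h0 u) (fun w hw => hX w hw 0)
    (fun z hz => absurd (h0 z) hz)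
  rw [stt_dflt h0] at hs0
  have hs1 := sum_std hM (G := G) (F := F) (v := v) (i := 1) (fun u => gX_ne0 (by decide))
    (fun z _ => hTT z)
  have hs2 := sum_std hM (G := G) (F := F) (v := v) (i := 2) (fun u => gX_ne0 (by decide))
    (fun z _ => hTT z)
  rw [stt_high hM hq.2.1] at hs1
  rw [stt_high hM hq.2.2] at hs2
  have hc0 : ¬ ∃ w, mm M v w 0 ≠ none := by
    rintro ⟨w, hw⟩
    exact hw (h0 w)
  by_cases hh : hi0 M u r
  · right
    have hCC : CC M F v u := ⟨r, hreq, hh⟩
    rw [gX_CC hM hCC] at hs0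
    refine ⟨?_, ?_⟩
    · intro i
      fin_cases i
      · simp only [St3.cov]; exact ⟨fun h => absurd h Bool.false_ne_true, fun h => absurd h hc0⟩
      · simp only [St3.cov]; exact ⟨fun _ => ⟨v1, n1⟩, fun _ => rfl⟩
      · simp only [St3.cov]; exact ⟨fun _ => ⟨v2, n2⟩, fun _ => rfl⟩
    · intro i
      fin_cases i
      · refine hs0.trans ?_
        rfl
      · exact hs1
      · exact hs2
  · left
    have hRR : RR M F v u r := ⟨hreq, hh⟩
    rw [gX_RR hM hRR] at hs0
    refine ⟨?_, ?_⟩
    · intro i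
      fin_cases i
      · simp only [St3.cov]; exact ⟨fun h => absurd h Bool.false_ne_true, fun h => absurd h hc0⟩
      · simp only [St3.cov]; exact ⟨fun _ => ⟨v1, n1⟩, fun _ => rfl⟩
      · simp only [St3.cov]; exact ⟨fun _ => ⟨v2, n2⟩, fun _ => rfl⟩
    · intro i
      fin_cases i
      · refine hs0.trans ?_
        simp only [RowSt.row, GLab.row, zero_add, St3.ext]
        rfl
      · exact hs1
      · exact hs2

/-- The target of a request. -/
theorem state_R (hM : Sep G M) (hF : ∀ v, G.Adj v (F v)) {u v : V} {r : Fin 2}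
    (h : Req M F u v r) :
    ∃ j, (Desc G M F v (.R j (1 - r) (stt M v 0)) ∧ stt M v 0 ≠ .high r) ∨
      Desc G M F v (.C j (1 - r)) := by
  obtain ⟨j, hj, hj'⟩ := h.spec hM
  have hnQ : ∀ j' v1 v2 q, ¬ QQ M F v j' v1 v2 q := fun _ _ _ _ hq => h.not_QQ hM hq
  have hX : ∀ w, w ≠ u → ∀ i, gX M F v w i = .norm := by
    intro w hw i
    apply gX_norm
    · rintro r' ⟨j', v1, v2, q, hq, _⟩
      exact hnQ _ _ _ _ hq
    · intro r' hr'
      exact hw (hr'.uniq hM h).1
  have hTT : ∀ z, ¬ (TT M F v z ∨ TT M F z v) := by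
    rintro z (⟨j', q, hq⟩ | hq)
    · exact hnQ _ _ _ _ hq
    · have := hq.cov hM
      exact h.not_both hM this.1 this.2
  have h0 : mm M v u 0 = none := by
    rw [mm_symm hM]; exact h.row0 hM hF v
  have hs0 := sum_ext hM (i := 0) (h.adj hM).symm h0 (fun w hw => hX w hw 0)
    (fun z _ => hTT z)
  have hs1 := sum_std hM (G := G) (F := F) (v := v) (i := 1) (fun u => gX_ne0 (by decide))
    (fun z _ => hTT z)
  have hs2 := sum_std hM (G := G) (F := F) (v := v) (i := 2) (fun u => gX_ne0 (by decide))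
    (fun z _ => hTT z)
  refine ⟨j, ?_⟩
  have hr : (1 : Fin 2) - (1 - r) = r := by simp
  by_cases hh : hi0 M v r
  · right
    have hCC : CC M F u v := ⟨r, h, hh⟩
    rw [gX_CC' hM hCC] at hs0
    obtain ⟨z0, hz0⟩ := hh
    rw [stt_high hM hz0] at hs0
    have hz0' : ∃ w, mm M v w 0 ≠ none := ⟨z0, by rw [hz0]; simp⟩
    cases j
    · simp only [jr, Bool.false_eq_true, if_false, Bool.not_false, if_true] at hj hj'
      have hju : mm M v u 1 ≠ none := by rw [hj]; simp
      rw [stt_high hM hj] at hs1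
      rw [stt_dflt hj'] at hs2
      refine ⟨?_, ?_⟩
      · intro i
        fin_cases i
        · simp only [St3.cov]; exact ⟨fun _ => hz0', fun _ => rfl⟩
        · simp only [St3.cov]; exact ⟨fun _ => ⟨u, hju⟩, fun _ => rfl⟩
        · simp only [St3.cov]
          exact ⟨fun h => absurd h Bool.false_ne_true, fun ⟨w, hw⟩ => absurd (hj' w) hw⟩
      · intro i
        fin_cases i
        · refine hs0.trans ?_
          simp only [St3.ext, hr]; rfl
        · exact hs1
        · exact hs2
    · simp only [jr, if_true, Bool.not_true, Bool.false_eq_true, if_false] at hj hj'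
      have hju : mm M v u 2 ≠ none := by rw [hj]; simp
      rw [stt_high hM hj] at hs2
      rw [stt_dflt hj'] at hs1
      refine ⟨?_, ?_⟩
      · intro i
        fin_cases i
        · simp only [St3.cov]; exact ⟨fun _ => hz0', fun _ => rfl⟩
        · simp only [St3.cov]
          exact ⟨fun h => absurd h Bool.false_ne_true, fun ⟨w, hw⟩ => absurd (hj' w) hw⟩
        · simp only [St3.cov]; exact ⟨fun _ => ⟨u, hju⟩, fun _ => rfl⟩
      · intro i
        fin_cases i
        · refine hs0.trans ?_
          simp only [St3.ext, hr]; rfl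
        · exact hs1
        · exact hs2
  · left
    have hRR : RR M F u v r := ⟨h, hh⟩
    rw [gX_RR' hM hRR] at hs0
    refine ⟨?_, fun hst => hh (stt_eq_high hM hst)⟩
    cases j
    · simp only [jr, Bool.false_eq_true, if_false, Bool.not_false, if_true] at hj hj'
      have hju : mm M v u 1 ≠ none := by rw [hj]; simp
      rw [stt_high hM hj] at hs1
      rw [stt_dflt hj'] at hs2
      refine ⟨?_, ?_⟩
      · intro i
        fin_cases i
        · exact stt_cov hM
        · simp only [St3.cov]; exact ⟨fun _ => ⟨u, hju⟩, fun _ => rfl⟩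
        · simp only [St3.cov]
          exact ⟨fun h => absurd h Bool.false_ne_true, fun ⟨w, hw⟩ => absurd (hj' w) hw⟩
      · intro i
        fin_cases i
        · refine hs0.trans ?_
          simp only [St3.ext, hr]; rfl
        · exact hs1
        · exact hs2
    · simp only [jr, if_true, Bool.not_true, Bool.false_eq_true, if_false] at hj hj'
      have hju : mm M v u 2 ≠ none := by rw [hj]; simp
      rw [stt_high hM hj] at hs2
      rw [stt_dflt hj'] at hs1
      refine ⟨?_, ?_⟩
      · intro i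
        fin_cases i
        · exact stt_cov hM
        · simp only [St3.cov]
          exact ⟨fun h => absurd h Bool.false_ne_true, fun ⟨w, hw⟩ => absurd (hj' w) hw⟩
        · simp only [St3.cov]; exact ⟨fun _ => ⟨u, hju⟩, fun _ => rfl⟩
      · intro i
        fin_cases i
        · refine hs0.trans ?_
          simp only [St3.ext, hr]; rfl
        · exact hs1
        · exact hs2

/-- A vertex not involved in any modification. -/
theorem state_base (hM : Sep G M) {v : V}
    (hnQ : ∀ j v1 v2 q, ¬ QQ M F v j v1 v2 q) (hnT : ∀ w, ¬ TT M F w v)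
    (hnR : ∀ w r, ¬ Req M F w v r) :
    Desc G M F v (.base (stt M v 0) (stt M v 1) (stt M v 2)) := by
  have hX : ∀ w i, gX M F v w i = .norm := by
    intro w i
    apply gX_norm
    · rintro r' ⟨j', v1, v2, q, hq, _⟩
      exact hnQ _ _ _ _ hq
    · exact hnR w
  have hTT : ∀ z, ¬ (TT M F v z ∨ TT M F z v) := by
    rintro z (⟨j', q, hq⟩ | hq)
    · exact hnQ _ _ _ _ hq
    · exact hnT z hq
  refine ⟨?_, ?_⟩
  · intro i
    fin_cases i
    · exact stt_cov hM
    · exact stt_cov hM
    · exact stt_cov hM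
  · intro i
    have := sum_std hM (G := G) (F := F) (v := v) (i := i) (fun u => hX u i)
      (fun z _ => hTT z)
    fin_cases i
    · exact this
    · exact this
    · exact this

/-- Every vertex without a precoloured `K`-edge is in one of the states. -/
theorem state_exists (hM : Sep G M) (hF : ∀ v, G.Adj v (F v)) (v : V) :
    ∃ s : St3, Desc G M F v s ∧ (∀ j' q s0, s = .R j' q s0 → s0 ≠ .high (1 - q)) ∧
      (∀ q, s = .base .dflt (.high q) (.high (1 - q)) →
        (∃ v1 v2, mm M v v1 1 = some (.inl q) ∧ mm M v v2 2 = some (.inl (1 - q))) ∧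
        ∀ j v1 v2 q', ¬ QQ M F v j v1 v2 q') ∧
      (∀ r q, s = .QR r q → ∃ j v1 v2, QQ M F v j v1 v2 q ∧
        r = (if j = true then q else 1 - q)) ∧
      (∀ q, s = .QC q → ∃ j v1 v2, QQ M F v j v1 v2 q) := by
  by_cases hQ : ∃ j v1 v2 q, QQ M F v j v1 v2 q
  · obtain ⟨j, v1, v2, q, hq⟩ := hQ
    by_cases h12 : v1 = v2
    · subst h12
      obtain ⟨q', hd, _⟩ := state_T hM hF hq.2.1 hq.2.2 (Or.inl ⟨j, q, hq⟩)
      exact ⟨_, hd, by simp, by simp, by simp, by simp⟩
    · rcases state_Q hM hF hq h12 with hd | hd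
      · refine ⟨_, hd, by simp, by simp, ?_, by simp⟩
        intro r q' h
        cases h
        exact ⟨j, v1, v2, hq, rfl⟩
      · refine ⟨_, hd, by simp, by simp, by simp, ?_⟩
        intro q' h
        cases h
        exact ⟨j, v1, v2, hq⟩
  · push Not at hQ
    by_cases hT : ∃ w, TT M F w v
    · obtain ⟨w, hw⟩ := hT
      obtain ⟨j, q, hq⟩ := id hw
      obtain ⟨q', hd, _⟩ := state_T hM hF (by rw [mm_symm hM]; exact hq.2.1)
        (by rw [mm_symm hM]; exact hq.2.2) (Or.inr hw)
      exact ⟨_, hd, by simp, by simp, by simp, by simp⟩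
    · push Not at hT
      by_cases hR : ∃ w r, Req M F w v r
      · obtain ⟨w, r, hr⟩ := hR
        obtain ⟨j, ⟨hd, hne⟩ | hd⟩ := state_R hM hF hr
        · refine ⟨_, hd, ?_, by simp, by simp, by simp⟩
          intro j' q s0 h
          cases h
          simpa using hne
        · exact ⟨_, hd, by simp, by simp, by simp, by simp⟩
      · push Not at hR
        refine ⟨_, state_base hM hQ hT hR, by simp, ?_, by simp, by simp⟩
        intro q hs
        simp only [St3.base.injEq] at hs
        obtain ⟨v1, h1⟩ := stt_eq_high hM hs.2.1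
        obtain ⟨v2, h2⟩ := stt_eq_high hM hs.2.2
        exact ⟨⟨v1, v2, h1, h2⟩, hQ⟩

end State

end W3a
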