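import Pool.Agent.W_MP_3a8340_co.Glue
import Pool.Agent.W_MP_3a8340_co.Matching
import Pool.Agent.W_MP_3a8340_co.N3Pair
import Pool.Agent.W_MP_3a8340_co.N3State

open Finset

namespace W3a

section Core3

variable {V P : Type} [Fintype V] [DecidableEq V] {G : SimpleGraph V} [DecidableRel G.Adj]
  {M : PreM V (Fin 3) (Fin 2 ⊕ P)} {F : V → V}

theorem row_map {R P Q : Type} (f : P → Q) (g : GLab R P) : (g.map f).row = g.row := by
  cases g <;> rfl

theorem flip_map {R P Q : Type} (f : P → Q) (g : GLab R P) : (g.map f).flip = g.flip.map f := by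
  cases g <;> rfl

theorem flip_flip' {R P : Type} (g : GLab R P) : g.flip.flip = g := by
  cases g <;> rfl

/-- The contribution of the edges outside `F`. -/
theorem sum_erase3 (hM : Sep G M) (hF : ∀ v, G.Adj v (F v)) (hFF : ∀ v, F (F v) = v) (v : V)
    (i : Fin 3) :
    (∑ w ∈ (G.neighborFinset v).erase (F v), (g3 M F v w i).row) + (g3 M F v (F v) i).row =
      ∑ w ∈ G.neighborFinset v, (g3 M F v w i).row ∧
    (mm M v (F v) i = none → (g3 M F v (F v) i).row = 0) := by
  constructor
  · rw [add_comm]
    exact Finset.add_sum_erase _ (fun w => (g3 M F v w i).row)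
      ((SimpleGraph.mem_neighborFinset _ _ _).2 (hF v))
  · intro h
    rw [g3_none h, gX_norm]
    · rfl
    · intro r hr
      exact hr.ne1 hM rfl
    · intro r hr
      exact hr.ne2 hM hFF rfl

/-- All labels at a `K`-vertex are normal. -/
theorem sum_K (hM : Sep G M) {v : V} {i j : Fin 3} (h : M.kc v i j ≠ none) (l : Fin 3) (z : V) :
    ∑ w ∈ (G.neighborFinset v).erase z, (g3 M F v w l).row = 0 := by
  apply Finset.sum_eq_zero
  intro w _
  rw [g3_none (mm_K hM h w l), gX_norm]
  · rfl
  · rintro r ⟨j', v1, v2, q, hq, _⟩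
    exact h (hq.not_K hM i j)
  · intro r hr
    obtain ⟨j', hj', _⟩ := hr.spec hM
    rw [mm_K hM h] at hj'
    simp at hj'

/-- A `K`-vertex and its `F`-partner, which has no precoloured `K`-edge. -/
theorem kn_side (hM : Sep G M) (hF : ∀ v, G.Adj v (F v)) (hFF : ∀ v, F (F v) = v) (p0 : P)
    (x : V) (i j : Fin 3) (c : Fin 2 ⊕ P) (hx : M.kc x i j = some c) :
    ∃ (Nx Nw : Fin 3 → Fin 3 → CLab (Fin 3) (Fin 2)) (fl : Fin 3 → GLab (Fin 2) P),
      LG tau3 (fun l => (∑ w ∈ (G.neighborFinset x).erase (F x), (g3 M F x w l).row) +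
        (fl l).row) Nx ∧
      LG tau3 (fun l => (∑ w ∈ (G.neighborFinset (F x)).erase x, (g3 M F (F x) w l).row) +
        (fl l).flip.row) Nw ∧ KAgree M x Nx := by
  have hxne : M.kc x i j ≠ none := by rw [hx]; simp
  obtain ⟨s, hd, hR, hQ, hQR, hQC⟩ := state_exists (G := G) (M := M) (F := F) hM hF (F x)
  have hxw : G.Adj x (F x) := hF x
  have hcov : s.cov i = false ∨ s.cov j = false := by
    rcases cov_or hM hxne hxw with h | h
    · left
      rw [← Bool.not_eq_true, hd.cov]
      rintro ⟨w, hw⟩
      exact hw (h w)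
    · right
      rw [← Bool.not_eq_true, hd.cov]
      rintro ⟨w, hw⟩
      exact hw (h w)
  -- the colour of the `K`-edge
  obtain ⟨t, ht, htn⟩ : ∃ t : Option (Fin 2), (∀ N : Fin 3 → Fin 3 → CLab (Fin 3) (Fin 2),
      N i j = kcell t → KAgree M x N) ∧ (t = none → ∃ p, c = .inr p) := by
    rcases c with q | p
    · refine ⟨some q, ?_, by simp⟩
      intro N hN i' j' c' hc'
      obtain ⟨rfl, rfl⟩ := hM.kk x i j i' j' hxne (by rw [hc']; simp)
      rw [hx] at hc'
      right
      exact ⟨q, (Option.some.inj hc').symm, hN⟩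
    · refine ⟨none, ?_, fun _ => ⟨p, rfl⟩⟩
      intro N hN i' j' c' hc'
      obtain ⟨rfl, rfl⟩ := hM.kk x i j i' j' hxne (by rw [hc']; simp)
      rw [hx] at hc'
      left
      exact ⟨p, (Option.some.inj hc').symm, hN⟩
  have htQ : ∀ j' v1 v2 q, QQ M F (F x) j' v1 v2 q → t = none ∧
      ((i = 0 ∧ j = jr j') ∨ (i = jr j' ∧ j = 0)) := by
    intro j' v1 v2 q hq
    obtain ⟨p, hp⟩ := hq.1
    rw [hFF] at hp
    have htt : t = none := by
      rcases t with _ | q0
      · rfl
      · exfalso
        have hN := ht (fun _ _ => kcell (some q0)) rfl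
        rcases hp with hp | hp
        · rcases hN _ _ _ hp with ⟨p', _, h⟩ | ⟨q', h, _⟩
          · cases h
          · cases h
        · rcases hN _ _ _ hp with ⟨p', _, h⟩ | ⟨q', h, _⟩
          · cases h
          · cases h
    refine ⟨htt, ?_⟩
    rcases hp with hp | hp
    · left
      exact hM.kk x _ _ _ _ hxne (by rw [hp]; simp)
    · right
      exact hM.kk x _ _ _ _ hxne (by rw [hp]; simp)
  obtain ⟨Nx, Nw, fl, hfix, hcell, hLx, hLw⟩ := n3_kn i j t s hcov hR
    (by
      intro q hs ht0 hij
      obtain ⟨p, hp⟩ := htn ht0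
      subst hp
      obtain ⟨⟨v1, v2, h1, h2⟩, hnQ⟩ := hQ q hs
      have key : ∀ j', ¬ ((i = 0 ∧ j = jr j') ∨ (i = jr j' ∧ j = 0)) := by
        intro j' h
        refine hnQ j' v1 v2 q ⟨?_, h1, h2⟩
        rw [hFF]
        rcases h with ⟨rfl, rfl⟩ | ⟨rfl, rfl⟩
        · exact ⟨p, Or.inl hx⟩
        · exact ⟨p, Or.inr hx⟩
      have k1 := key false
      have k2 := key true
      simp only [jr, Bool.false_eq_true, if_false, if_true] at k1 k2
      revert hij k1 k2
      clear * -
      revert i j
      decide)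
    (by
      intro r q hs
      obtain ⟨j', v1, v2, hq, hr⟩ := hQR r q hs
      obtain ⟨h1, h2⟩ := htQ _ _ _ _ hq
      refine ⟨h1, ?_⟩
      cases j'
      · left
        refine ⟨?_, by simpa using hr⟩
        simpa [jr] using h2
      · right
        refine ⟨?_, by simpa using hr⟩
        simpa [jr] using h2)
    (by
      intro q hs
      obtain ⟨j', v1, v2, hq⟩ := hQC q hs
      obtain ⟨h1, h2⟩ := htQ _ _ _ _ hq
      refine ⟨h1, ?_⟩
      rcases h2 with ⟨rfl, rfl⟩ | ⟨rfl, rfl⟩
      · exact ⟨(jr_ne j').symm, Or.inl rfl⟩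
      · exact ⟨jr_ne j', Or.inr rfl⟩)
  refine ⟨Nx, Nw, fun l => (fl l).map (fun _ => p0), ?_, ?_, ht Nx hcell⟩
  · convert hLx using 1
    funext l
    rw [sum_K hM hxne, zero_add, row_map]
  · convert hLw using 1
    funext l
    have h1 := sum_erase3 hM hF hFF (F x) l
    have h2 : mm M (F x) (F (F x)) l = none := by
      rw [hFF, mm_symm hM]; exact mm_K hM hxne _ _
    rw [h1.2 h2, add_zero, hd.sum l, hFF] at h1
    rw [h1.1, flip_map, row_map]

end Core3

/-- The extension theorem for `n = 3`. -/
theorem core_three : Core (Fin 3) (Fin 2) := by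
  intro V _ _ G _ side hside d s hd hreg P _ _ hR hP M hM
  classical
  obtain ⟨F, hF, hFF⟩ := exists_matching G side hside d hd hreg
  have hPne : Nonempty P := by
    rw [← Fintype.card_pos_iff]; omega
  obtain ⟨p0⟩ := hPne
  refine glue G side hside d s hd hreg hR hP tau3 F hF hFF M hM (g3 M F)
    (fun v w i _ => g3_flip hM v w i) (fun v w i c _ h => g3_acol hM h)
    (fun v w i c _ h => g3_bcol hM h) ?_
  intro x hx
  by_cases hKx : ∃ i j, M.kc x i j ≠ none
  · obtain ⟨i, j, hK⟩ := hKx
    obtain ⟨c, hc⟩ := Option.ne_none_iff_exists'.1 hK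
    have hga : ∀ l c, M.ga x (F x) l = some c → False := by
      intro l c h
      rw [(mm_none.1 (mm_K hM hK (F x) l)).1] at h
      simp at h
    have hgb : ∀ l c, M.gb x (F x) l = some c → False := by
      intro l c h
      rw [(mm_none.1 (mm_K hM hK (F x) l)).2] at h
      simp at h
    by_cases hKw : ∃ i j, M.kc (F x) i j ≠ none
    · obtain ⟨i', j', hK'⟩ := hKw
      obtain ⟨c', hc'⟩ := Option.ne_none_iff_exists'.1 hK'
      have hi : i ≠ i' := by
        rintro rfl
        exact hK' (hM.kki x i j (F x) j' hK (hF x))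
      have hj : j ≠ j' := by
        rintro rfl
        exact hK' (hM.kkj x i j (F x) i' hK (hF x))
      have key : ∀ (v : V) (a b : Fin 3) (e : Fin 2 ⊕ P), M.kc v a b = some e →
          ∃ t : Option (Fin 2), ∀ N : Fin 3 → Fin 3 → CLab (Fin 3) (Fin 2),
            N a b = kcell t → KAgree M v N := by
        intro v a b e he
        have hne : M.kc v a b ≠ none := by rw [he]; simp
        rcases e with q | p
        · refine ⟨some q, ?_⟩
          intro N hN i' j' c' hc'
          obtain ⟨rfl, rfl⟩ := hM.kk v a b i' j' hne (by rw [hc']; simp)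
          rw [he] at hc'
          right
          exact ⟨q, (Option.some.inj hc').symm, hN⟩
        · refine ⟨none, ?_⟩
          intro N hN i' j' c' hc'
          obtain ⟨rfl, rfl⟩ := hM.kk v a b i' j' hne (by rw [hc']; simp)
          rw [he] at hc'
          left
          exact ⟨p, (Option.some.inj hc').symm, hN⟩
      obtain ⟨t, ht⟩ := key _ _ _ _ hc
      obtain ⟨t', ht'⟩ := key _ _ _ _ hc'
      obtain ⟨Nx, Nw, fl, hfix, h1, h2, hLx, hLw⟩ := n3_kk i j t i' j' t' hi hj
      refine ⟨Nx, Nw, fun l => (fl l).map (fun _ => p0), ?_, ?_, ht Nx h1, ht' Nw h2,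
        fun l c h => (hga l c h).elim, fun l c h => (hgb l c h).elim⟩
      · convert hLx using 1
        funext l
        rw [sum_K hM hK, zero_add, row_map]
      · convert hLw using 1
        funext l
        rw [sum_K hM hK', zero_add, flip_map, row_map]
    · push Not at hKw
      obtain ⟨Nx, Nw, fl, hLx, hLw, hA⟩ := kn_side hM hF hFF p0 x i j c hc
      refine ⟨Nx, Nw, fl, hLx, hLw, hA, ?_, fun l c h => (hga l c h).elim,
        fun l c h => (hgb l c h).elim⟩
      intro a b e he
      rw [hKw] at he
      simp at he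
  · push Not at hKx
    by_cases hKw : ∃ i j, M.kc (F x) i j ≠ none
    · obtain ⟨i, j, hK⟩ := hKw
      obtain ⟨c, hc⟩ := Option.ne_none_iff_exists'.1 hK
      obtain ⟨Nw, Nx, fl, hLw, hLx, hA⟩ := kn_side hM hF hFF p0 (F x) i j c hc
      rw [hFF] at hLw hLx
      refine ⟨Nx, Nw, fun l => (fl l).flip, hLx, ?_, ?_, hA, ?_, ?_⟩
      · simpa only [flip_flip'] using hLw
      · intro a b e he
        rw [hKx] at he
        simp at he
      · intro l c h
        have := mm_K hM hK x l
        rw [mm_symm hM] at this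
        rw [(mm_none.1 this).1] at h
        simp at h
      · intro l c h
        have := mm_K hM hK x l
        rw [mm_symm hM] at this
        rw [(mm_none.1 this).2] at h
        simp at h
    · push Not at hKw
      obtain ⟨sx, hdx, hRx, _, hQRx, hQCx⟩ := state_exists (G := G) (M := M) (F := F) hM hF x
      obtain ⟨sw, hdw, hRw, _, hQRw, hQCw⟩ := state_exists (G := G) (M := M) (F := F) hM hF (F x)
      have nox : ∀ j v1 v2 q, ¬ QQ M F x j v1 v2 q := by
        intro j v1 v2 q hq
        rcases hq.1.ne with h | h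
        · exact h (hKw _ _)
        · exact h (hKw _ _)
      have now : ∀ j v1 v2 q, ¬ QQ M F (F x) j v1 v2 q := by
        intro j v1 v2 q hq
        have h' := hq.1.ne
        rw [hFF] at h'
        rcases h' with h | h
        · exact h (hKx _ _)
        · exact h (hKx _ _)
      obtain ⟨Nx, hNx⟩ := n3_ss sx hRx
        (by
          intro r q hs
          obtain ⟨j, v1, v2, hq, _⟩ := hQRx r q hs
          exact nox _ _ _ _ hq)
        (by
          intro q hs
          obtain ⟨j, v1, v2, hq⟩ := hQCx q hs
          exact nox _ _ _ _ hq)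
      obtain ⟨Nw, hNw⟩ := n3_ss sw hRw
        (by
          intro r q hs
          obtain ⟨j, v1, v2, hq, _⟩ := hQRw r q hs
          exact now _ _ _ _ hq)
        (by
          intro q hs
          obtain ⟨j, v1, v2, hq⟩ := hQCw q hs
          exact now _ _ _ _ hq)
      have sx' := fun i => sum_erase3 (G := G) hM hF hFF x i
      have sw' := fun i => sum_erase3 (G := G) hM hF hFF (F x) i
      simp only [hFF] at sw'
      obtain ⟨fl, hfl1, hfl2, hLx, hLw⟩ := ss_pair P tau3 sx.ext sw.ext
        (fun l => ∑ w ∈ (G.neighborFinset x).erase (F x), (g3 M F x w l).row)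
        (fun l => ∑ w ∈ (G.neighborFinset (F x)).erase x, (g3 M F (F x) w l).row)
        sx.cov sw.cov Nx Nw hNx hNw (fun i => decide (mm M x (F x) i ≠ none))
        (fun i => g3 M F x (F x) i)
        (by
          intro i hi
          have hi' : mm M x (F x) i ≠ none := by simpa using hi
          refine ⟨?_, ?_, ?_, ?_⟩
          · exact (sx' i).1.trans (hdx.sum i)
          · have := (sw' i).1.trans (hdw.sum i)
            rw [g3_flip hM] at this
            exact this
          · exact (hdx.cov i).2 ⟨_, hi'⟩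
          · refine (hdw.cov i).2 ⟨x, ?_⟩
            rwa [mm_symm hM])
        (by
          intro i hi
          have hi' : mm M x (F x) i = none := by simpa using hi
          have hi'' : mm M (F x) x i = none := by rwa [mm_symm hM]
          constructor
          · have := (sx' i).1.trans (hdx.sum i)
            rwa [(sx' i).2 hi', add_zero] at this
          · have := (sw' i).1.trans (hdw.sum i)
            rwa [(sw' i).2 hi'', add_zero] at this)
      refine ⟨Nx, Nw, fl, hLx, hLw, ?_, ?_, ?_, ?_⟩
      · intro a b e he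
        rw [hKx] at he
        simp at he
      · intro a b e he
        rw [hKw] at he
        simp at he
      · intro l c h
        have hne : M.ga x (F x) l ≠ none := by rw [h]; simp
        have : mm M x (F x) l ≠ none := mm_ne.2 (Or.inl hne)
        rw [hfl1 l (by simpa using this)]
        exact g3_acol hM h
      · intro l c h
        have hne : M.gb x (F x) l ≠ none := by rw [h]; simp
        have : mm M x (F x) l ≠ none := mm_ne.2 (Or.inr hne)
        rw [hfl1 l (by simpa using this)]
        exact g3_bcol hM h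

end W3a
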