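import Pool.Agent.W_MP_3a8340_co.Defs

open Finset

namespace W3a

variable {ι R : Type} [Fintype ι] [DecidableEq ι] [Fintype R] [DecidableEq R]

theorem cnt_zero {f : ι → Bool} (h : ∀ j, f j = false) : cnt f = 0 := by
  unfold cnt
  rw [Finset.card_eq_zero, Finset.filter_eq_empty_iff]
  intro j _
  simp [h j]

theorem cnt_one {f : ι → Bool} (j0 : ι) (h : f j0 = true) (h' : ∀ j, j ≠ j0 → f j = false) :
    cnt f = 1 := by
  unfold cnt
  rw [Finset.card_eq_one]
  refine ⟨j0, ?_⟩
  ext j
  simp only [mem_filter, mem_univ, true_and, mem_singleton]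
  constructor
  · intro hj
    by_contra hne
    rw [h' j hne] at hj
    exact Bool.false_ne_true hj
  · rintro rfl
    exact h

theorem cnt_two {f : ι → Bool} (j0 j1 : ι) (h01 : j0 ≠ j1) (h0 : f j0 = true) (h1 : f j1 = true)
    (h' : ∀ j, j ≠ j0 → j ≠ j1 → f j = false) : cnt f = 2 := by
  unfold cnt
  rw [Finset.card_eq_two]
  refine ⟨j0, j1, h01, ?_⟩
  ext j
  simp only [mem_filter, mem_univ, true_and, mem_insert, mem_singleton]
  constructor
  · intro hj
    by_contra hne
    push Not at hne
    rw [h' j hne.1 hne.2] at hj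
    exact Bool.false_ne_true hj
  · rintro (rfl | rfl)
    · exact h0
    · exact h1

theorem cnt_le_one {f : ι → Bool} (h : ∀ j j', f j = true → f j' = true → j = j') :
    cnt f ≤ 1 := by
  unfold cnt
  rw [Finset.card_le_one]
  intro a ha b hb
  simp only [mem_filter, mem_univ, true_and] at ha hb
  exact h a b ha hb

theorem cnt_pos {f : ι → Bool} (j : ι) (h : f j = true) : 1 ≤ cnt f := by
  unfold cnt
  rw [Nat.succ_le_iff, Finset.card_pos]
  exact ⟨j, by simp [h]⟩

theorem cnt_two_le {f : ι → Bool} (j j' : ι) (hj : j ≠ j') (h : f j = true) (h' : f j' = true) :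
    2 ≤ cnt f := by
  unfold cnt
  rw [← Finset.card_pair hj]
  apply Finset.card_le_card
  intro a ha
  simp only [mem_insert, mem_singleton] at ha
  rcases ha with rfl | rfl
  · simp [h]
  · simp [h']

/-- Every symbol occurs in every row and column of a Latin square. -/
theorem IsLatin.surj {κ : Type} [Fintype κ] [DecidableEq κ]
    (hcard : Fintype.card κ = Fintype.card ι) {L : ι → ι → κ} (hL : IsLatin L) (i : ι) (c : κ) :
    (∃ j, L i j = c) ∧ (∃ j, L j i = c) := by
  constructor
  · exact ((Fintype.bijective_iff_injective_and_card _).2 ⟨hL.1 i, hcard.symm⟩).2 c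
  · exact ((Fintype.bijective_iff_injective_and_card _).2 ⟨hL.2 i, hcard.symm⟩).2 c

/-- Structural conditions for an array obtained from a Latin square with symbols `Option R`
(`none` for the cells which are not real) by replacing some real cells by other labels. -/
theorem struct_of_overlay (τ : ι → Bool) (hR : Fintype.card R + 1 = Fintype.card ι)
    (L : ι → ι → Option R) (hL : IsLatin L) (ra rb : ι → Multiset R)
    (N : ι → ι → CLab ι R)
    (nda : ∀ i, (ra i).Nodup) (ndb : ∀ i, (rb i).Nodup)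
    (h1 : ∀ i j, (∃ q, N i j = .real q ∧ L i j = some q) ∨ (∀ q, N i j ≠ .real q))
    (h2 : ∀ i j j', N i j = N i j' → (∀ q, N i j ≠ .real q) → j = j')
    (h2' : ∀ j i i', N i j = N i' j → (∀ q, N i j ≠ .real q) → i = i')
    (h3 : ∀ i q, q ∈ ra i ↔ ∃ j, L i j = some q ∧ ∀ q', N i j ≠ .real q')
    (h3' : ∀ j q, q ∈ rb j ↔ ∃ i, L i j = some q ∧ ∀ q', N i j ≠ .real q')
    (hpen : ∀ i, (∃ j, N i j = .pen) ↔ (∃ j, N j i = .pen))
    (hitem : ∀ i j, ItemOK τ N i j (N i j)) : Struct τ ra rb N := by
  have hc : Fintype.card (Option R) = Fintype.card ι := by simp [hR]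
  refine ⟨?_, ?_, nda, ndb, ?_, ?_, hpen, hitem⟩
  · intro i j j' h
    rcases h1 i j with ⟨q, hq, hLq⟩ | hn
    · rcases h1 i j' with ⟨q', hq', hLq'⟩ | hn'
      · rw [hq, hq'] at h
        cases h
        exact hL.1 i (hLq.trans hLq'.symm)
      · exact absurd (h.symm.trans hq) (hn' q)
    · exact h2 i j j' h hn
  · intro j i i' h
    rcases h1 i j with ⟨q, hq, hLq⟩ | hn
    · rcases h1 i' j with ⟨q', hq', hLq'⟩ | hn'
      · rw [hq, hq'] at h
        cases h
        exact hL.2 j (hLq.trans hLq'.symm)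
      · exact absurd (h.symm.trans hq) (hn' q)
    · exact h2' j i i' h hn
  · intro i q
    rw [h3]
    constructor
    · rintro ⟨j, hj⟩ ⟨j', hj', hn⟩
      rcases h1 i j with ⟨q', hq', hLq'⟩ | hn'
      · rw [hj] at hq'
        cases hq'
        have := hL.1 i (hj'.trans hLq'.symm)
        subst this
        exact hn q hj
      · exact hn' q hj
    · intro h
      obtain ⟨j, hj⟩ := (hL.surj hc i (some q)).1
      rcases h1 i j with ⟨q', hq', hLq'⟩ | hn'
      · rw [hj] at hLq'
        cases hLq'
        exact ⟨j, hq'⟩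
      · exact absurd ⟨j, hj, hn'⟩ h
  · intro j q
    rw [h3']
    constructor
    · rintro ⟨i, hi⟩ ⟨i', hi', hn⟩
      rcases h1 i j with ⟨q', hq', hLq'⟩ | hn'
      · rw [hi] at hq'
        cases hq'
        have := hL.2 j (hi'.trans hLq'.symm)
        subst this
        exact hn q hi
      · exact hn' q hi
    · intro h
      obtain ⟨i, hi⟩ := (hL.surj hc j (some q)).2
      rcases h1 i j with ⟨q', hq', hLq'⟩ | hn'
      · rw [hi] at hLq'
        cases hLq'
        exact ⟨i, hq'⟩
      · exact absurd ⟨i, hi, hn'⟩ h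

end W3a
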