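import Pool.Agent.W_MP_3a8340_co.Latin
import Pool.Agent.W_MP_3a8340_co.ArrTools

open Finset

set_option linter.unusedSectionVars false

namespace W3a

variable {ι R : Type} [Fintype ι] [DecidableEq ι] [Fintype R] [DecidableEq R]

/-- the label of an unchanged cell -/
def arrC_rl : Option R → CLab ι R
  | some q => .real q
  | none => .pen

/-- the array for `k = j` -/
def arrC_N1 (L : ι → ι → Option R) (i j : ι) : ι → ι → CLab ι R := fun a b =>
  if a = b then .item {a} (some a)
  else if (a = i ∧ b = j) ∨ (a = j ∧ b = i) then .pen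
  else arrC_rl (L a b)

/-- the array for `k ≠ j` -/
def arrC_N2 (L : ι → ι → Option R) (i j k : ι) : ι → ι → CLab ι R := fun a b =>
  if (a = i ∧ b = j) ∨ (a = j ∧ b = i) then .pen
  else if (a = i ∧ b = k) ∨ (a = k ∧ b = i) then .item {i, k} (some i)
  else if a = b ∧ a ≠ i ∧ a ≠ j then .item {a} (some a)
  else arrC_rl (L a b)

theorem arrC_cls1 {L : ι → ι → Option R} (hL : IsLatin L) {i j : ι}
    (hd : ∀ l, L l l = none) (a b : ι) :
    (a = b ∧ arrC_N1 L i j a b = .item {a} (some a)) ∨
    (a ≠ b ∧ a = i ∧ b = j ∧ arrC_N1 L i j a b = .pen) ∨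
    (a ≠ b ∧ a = j ∧ b = i ∧ arrC_N1 L i j a b = .pen) ∨
    (a ≠ b ∧ ¬ (a = i ∧ b = j) ∧ ¬ (a = j ∧ b = i) ∧
      ∃ q, L a b = some q ∧ arrC_N1 L i j a b = .real q) := by
  by_cases hab : a = b
  · left
    refine ⟨hab, ?_⟩
    unfold arrC_N1
    rw [if_pos hab]
  · right
    by_cases h1 : a = i ∧ b = j
    · left
      refine ⟨hab, h1.1, h1.2, ?_⟩
      unfold arrC_N1
      rw [if_neg hab, if_pos (Or.inl h1)]
    · right
      by_cases h2 : a = j ∧ b = i
      · left
        refine ⟨hab, h2.1, h2.2, ?_⟩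
        unfold arrC_N1
        rw [if_neg hab, if_pos (Or.inr h2)]
      · right
        refine ⟨hab, h1, h2, ?_⟩
        have hne : L a b ≠ none := fun h0 => hab (hL.1 a ((hd a).trans h0.symm))
        obtain ⟨q, hq⟩ := Option.ne_none_iff_exists'.mp hne
        refine ⟨q, hq, ?_⟩
        unfold arrC_N1
        rw [if_neg hab, if_neg (not_or.mpr ⟨h1, h2⟩), hq]
        rfl

theorem arrC_cls2 {L : ι → ι → Option R} (hL : IsLatin L) {i j k : ι}
    (hij : L i j = none) (hji : L j i = none)
    (hd : ∀ l, l ≠ i → l ≠ j → L l l = none) (a b : ι) :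
    (a = i ∧ b = j ∧ arrC_N2 L i j k a b = .pen) ∨
    (a = j ∧ b = i ∧ arrC_N2 L i j k a b = .pen) ∨
    (¬ (a = i ∧ b = j) ∧ ¬ (a = j ∧ b = i) ∧ a = i ∧ b = k ∧
      arrC_N2 L i j k a b = .item {i, k} (some i)) ∨
    (¬ (a = i ∧ b = j) ∧ ¬ (a = j ∧ b = i) ∧ a = k ∧ b = i ∧
      arrC_N2 L i j k a b = .item {i, k} (some i)) ∨
    (¬ (a = i ∧ b = k) ∧ ¬ (a = k ∧ b = i) ∧ a = b ∧ a ≠ i ∧ a ≠ j ∧
      arrC_N2 L i j k a b = .item {a} (some a)) ∨
    (¬ (a = i ∧ b = j) ∧ ¬ (a = j ∧ b = i) ∧ ¬ (a = i ∧ b = k) ∧ ¬ (a = k ∧ b = i) ∧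
      ¬ (a = b ∧ a ≠ i ∧ a ≠ j) ∧ ∃ q, L a b = some q ∧ arrC_N2 L i j k a b = .real q) := by
  by_cases h1 : a = i ∧ b = j
  · left
    refine ⟨h1.1, h1.2, ?_⟩
    unfold arrC_N2
    rw [if_pos (Or.inl h1)]
  right
  by_cases h2 : a = j ∧ b = i
  · left
    refine ⟨h2.1, h2.2, ?_⟩
    unfold arrC_N2
    rw [if_pos (Or.inr h2)]
  right
  have h12 := not_or.mpr ⟨h1, h2⟩
  by_cases h3 : a = i ∧ b = k
  · left
    refine ⟨h1, h2, h3.1, h3.2, ?_⟩
    unfold arrC_N2
    rw [if_neg h12, if_pos (Or.inl h3)]
  right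
  by_cases h4 : a = k ∧ b = i
  · left
    refine ⟨h1, h2, h4.1, h4.2, ?_⟩
    unfold arrC_N2
    rw [if_neg h12, if_pos (Or.inr h4)]
  right
  have h34 := not_or.mpr ⟨h3, h4⟩
  by_cases h5 : a = b ∧ a ≠ i ∧ a ≠ j
  · left
    refine ⟨h3, h4, h5.1, h5.2.1, h5.2.2, ?_⟩
    unfold arrC_N2
    rw [if_neg h12, if_neg h34, if_pos h5]
  right
  refine ⟨h1, h2, h3, h4, h5, ?_⟩
  have hne : L a b ≠ none := by
    intro h0
    by_cases hai : a = i
    · subst hai
      exact h1 ⟨rfl, hL.1 a (h0.trans hij.symm)⟩
    · by_cases haj : a = j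
      · subst haj
        exact h2 ⟨rfl, hL.1 a (h0.trans hji.symm)⟩
      · exact h5 ⟨hL.1 a ((hd a hai haj).trans h0.symm), hai, haj⟩
  obtain ⟨q, hq⟩ := Option.ne_none_iff_exists'.mp hne
  refine ⟨q, hq, ?_⟩
  unfold arrC_N2
  rw [if_neg h12, if_neg h34, if_neg h5, hq]
  rfl

omit [Fintype R] in
theorem arrC_mem_ra {i k : ι} (hik : i ≠ k) (α β : R) (l : ι) (q : R) :
    q ∈ (if l = i then ({α} : Multiset R) else if l = k then {β} else 0) ↔
      (l = i ∧ q = α) ∨ (l = k ∧ q = β) := by
  by_cases h1 : l = i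
  · have h2 : l ≠ k := fun h => hik (h1.symm.trans h)
    simp [h1, hik]
  · by_cases h2 : l = k
    · simp [h2, Ne.symm hik]
    · simp [h1, h2]

omit [Fintype R] in
theorem arrC_nodup {i k : ι} (α β : R) (l : ι) :
    (if l = i then ({α} : Multiset R) else if l = k then {β} else 0).Nodup := by
  split_ifs <;> simp

theorem arrC_case1 (τ : ι → Bool) (h4 : 4 ≤ Fintype.card ι)
    (hR : Fintype.card R + 1 = Fintype.card ι) (i j : ι) (hij : i ≠ j) (α β : R) :
    ∃ N : ι → ι → CLab ι R,
      Struct τ (fun l => if l = i then {α} else if l = j then {β} else 0)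
        (fun l => if l = i then {β} else if l = j then {α} else 0) N ∧
      N i j = .pen ∧ N j i = .pen ∧
      (∀ l, Fv (fun _ => 0) N l ≤ 1) ∧ (∀ l, 1 ≤ Sv (fun _ => 0) N l) ∧
      2 ≤ Sv (fun _ => 0) N i ∧ 2 ≤ Sv (fun _ => 0) N j ∧
      (∀ l, l ≠ i → l ≠ j → l ≠ j → Fv (fun _ => 0) N l = 0) := by
  have hc : Fintype.card (Option R) = Fintype.card ι := by simp [hR]
  obtain ⟨L, hL, hd, hLij, hLji⟩ := latin_z7 hc h4 (none : Option R) (some α) (some β)
    (by simp) (by simp) i j hij
  set N : ι → ι → CLab ι R := arrC_N1 L i j with hN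
  have cls : ∀ a b, _ := fun a b => arrC_cls1 (i := i) (j := j) hL hd a b
  rw [← hN] at cls
  have hNij : N i j = .pen := by
    rcases cls i j with h | h | h | h
    · exact absurd h.1 hij
    · exact h.2.2.2
    · exact h.2.2.2
    · exact absurd ⟨rfl, rfl⟩ h.2.1
  have hNji : N j i = .pen := by
    rcases cls j i with h | h | h | h
    · exact absurd h.1 hij.symm
    · exact h.2.2.2
    · exact h.2.2.2
    · exact absurd ⟨rfl, rfl⟩ h.2.2.1
  have hNd : ∀ l, N l l = .item {l} (some l) := by
    intro l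
    rcases cls l l with h | h | h | h
    · exact h.2
    · exact absurd rfl h.1
    · exact absurd rfl h.1
    · exact absurd rfl h.1
  have hpen : ∀ a b, (N a b).isPen = true → (a = i ∧ b = j) ∨ (a = j ∧ b = i) := by
    intro a b hp
    rcases cls a b with h | h | h | h
    · rw [h.2] at hp
      exact absurd hp (by simp [CLab.isPen])
    · exact Or.inl ⟨h.2.1, h.2.2.1⟩
    · exact Or.inr ⟨h.2.1, h.2.2.1⟩
    · obtain ⟨_, _, _, q, _, hq⟩ := h
      rw [hq] at hp
      exact absurd hp (by simp [CLab.isPen])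
  have hhd : ∀ a b, (N a b).isHd a = false := by
    intro a b
    rcases cls a b with h | h | h | h
    · rw [h.2]
      simp [CLab.isHd]
    · rw [h.2.2.2]
      rfl
    · rw [h.2.2.2]
      rfl
    · obtain ⟨_, _, _, q, _, hq⟩ := h
      rw [hq]
      rfl
  have hFv : ∀ l, Fv (fun _ => 0) N l = cnt (fun b => (N l b).isPen) := by
    intro l
    have h0 : cnt (fun b => (N l b).isHd l) = 0 := cnt_zero fun b => hhd l b
    show cnt (fun b => (N l b).isPen) + 0 + cnt (fun b => (N l b).isHd l) + 0 = _
    rw [h0]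
    rfl
  have hSv : ∀ l, Sv (fun _ => 0) N l =
      cnt (fun b => (N l b).isPen) + cnt (fun b => (N l b).isSp) := fun l => rfl
  have hsp : ∀ l, 1 ≤ cnt (fun b => (N l b).isSp) := fun l => cnt_pos l (by
    show (N l l).isSp = true
    rw [hNd l]
    rfl)
  refine ⟨N, ?_, hNij, hNji, ?_, ?_, ?_, ?_, ?_⟩
  · refine struct_of_overlay τ hR L hL _ _ N (arrC_nodup α β) (arrC_nodup β α) ?_ ?_ ?_ ?_ ?_ ?_ ?_
    · intro a b
      rcases cls a b with h | h | h | h
      · right
        intro q
        rw [h.2]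
        simp
      · right
        intro q
        rw [h.2.2.2]
        simp
      · right
        intro q
        rw [h.2.2.2]
        simp
      · left
        obtain ⟨_, _, _, q, hq, hq'⟩ := h
        exact ⟨q, hq', hq⟩
    · intro a b b' heq hnr
      rcases cls a b with h | h | h | h
      · rcases cls a b' with h' | h' | h' | h'
        · exact h.1.symm.trans h'.1
        · rw [h.2, h'.2.2.2] at heq
          exact absurd heq (by simp)
        · rw [h.2, h'.2.2.2] at heq
          exact absurd heq (by simp)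
        · obtain ⟨_, _, _, q, _, hq⟩ := h'
          rw [h.2, hq] at heq
          exact absurd heq (by simp)
      · rcases cls a b' with h' | h' | h' | h'
        · rw [h.2.2.2, h'.2] at heq
          exact absurd heq (by simp)
        · rw [h.2.2.1, h'.2.2.1]
        · exact absurd (h.2.1.symm.trans h'.2.1) hij
        · obtain ⟨_, _, _, q, _, hq⟩ := h'
          rw [h.2.2.2, hq] at heq
          exact absurd heq (by simp)
      · rcases cls a b' with h' | h' | h' | h'
        · rw [h.2.2.2, h'.2] at heq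
          exact absurd heq (by simp)
        · exact absurd (h'.2.1.symm.trans h.2.1) hij
        · rw [h.2.2.1, h'.2.2.1]
        · obtain ⟨_, _, _, q, _, hq⟩ := h'
          rw [h.2.2.2, hq] at heq
          exact absurd heq (by simp)
      · obtain ⟨_, _, _, q, _, hq⟩ := h
        exact absurd hq (hnr q)
    · intro b a a' heq hnr
      rcases cls a b with h | h | h | h
      · rcases cls a' b with h' | h' | h' | h'
        · exact h.1.trans h'.1.symm
        · rw [h.2, h'.2.2.2] at heq
          exact absurd heq (by simp)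
        · rw [h.2, h'.2.2.2] at heq
          exact absurd heq (by simp)
        · obtain ⟨_, _, _, q, _, hq⟩ := h'
          rw [h.2, hq] at heq
          exact absurd heq (by simp)
      · rcases cls a' b with h' | h' | h' | h'
        · rw [h.2.2.2, h'.2] at heq
          exact absurd heq (by simp)
        · rw [h.2.1, h'.2.1]
        · exact absurd (h'.2.2.1.symm.trans h.2.2.1) hij
        · obtain ⟨_, _, _, q, _, hq⟩ := h'
          rw [h.2.2.2, hq] at heq
          exact absurd heq (by simp)
      · rcases cls a' b with h' | h' | h' | h'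
        · rw [h.2.2.2, h'.2] at heq
          exact absurd heq (by simp)
        · exact absurd (h.2.2.1.symm.trans h'.2.2.1) hij
        · rw [h.2.1, h'.2.1]
        · obtain ⟨_, _, _, q, _, hq⟩ := h'
          rw [h.2.2.2, hq] at heq
          exact absurd heq (by simp)
      · obtain ⟨_, _, _, q, _, hq⟩ := h
        exact absurd hq (hnr q)
    · intro a q
      rw [arrC_mem_ra hij]
      constructor
      · rintro (⟨rfl, rfl⟩ | ⟨rfl, rfl⟩)
        · exact ⟨j, hLij, fun q' => by rw [hNij]; simp⟩
        · exact ⟨i, hLji, fun q' => by rw [hNji]; simp⟩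
      · rintro ⟨b, hb, hnr⟩
        rcases cls a b with h | h | h | h
        · rw [← h.1, hd a] at hb
          exact absurd hb (by simp)
        · left
          refine ⟨h.2.1, ?_⟩
          rw [h.2.1, h.2.2.1, hLij] at hb
          exact (Option.some.inj hb).symm
        · right
          refine ⟨h.2.1, ?_⟩
          rw [h.2.1, h.2.2.1, hLji] at hb
          exact (Option.some.inj hb).symm
        · obtain ⟨_, _, _, q', _, hq⟩ := h
          exact absurd hq (hnr q')
    · intro b q
      rw [arrC_mem_ra hij]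
      constructor
      · rintro (⟨rfl, rfl⟩ | ⟨rfl, rfl⟩)
        · exact ⟨j, hLji, fun q' => by rw [hNji]; simp⟩
        · exact ⟨i, hLij, fun q' => by rw [hNij]; simp⟩
      · rintro ⟨a, hb, hnr⟩
        rcases cls a b with h | h | h | h
        · rw [← h.1, hd a] at hb
          exact absurd hb (by simp)
        · right
          refine ⟨h.2.2.1, ?_⟩
          rw [h.2.1, h.2.2.1, hLij] at hb
          exact (Option.some.inj hb).symm
        · left
          refine ⟨h.2.2.1, ?_⟩
          rw [h.2.1, h.2.2.1, hLji] at hb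
          exact (Option.some.inj hb).symm
        · obtain ⟨_, _, _, q', _, hq⟩ := h
          exact absurd hq (hnr q')
    · intro a
      constructor
      · rintro ⟨b, hb⟩
        rcases hpen a b (by rw [hb]; rfl) with ⟨rfl, rfl⟩ | ⟨rfl, rfl⟩
        · exact ⟨_, hNji⟩
        · exact ⟨_, hNij⟩
      · rintro ⟨b, hb⟩
        rcases hpen b a (by rw [hb]; rfl) with ⟨rfl, rfl⟩ | ⟨rfl, rfl⟩
        · exact ⟨_, hNji⟩
        · exact ⟨_, hNij⟩
    · intro a b
      rcases cls a b with h | h | h | h
      · rw [h.2]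
        refine ⟨mem_singleton_self a, by rw [← h.1]; exact mem_singleton_self a, ?_, ?_⟩
        · exact ⟨mem_singleton_self a, fun l hl hne => absurd (mem_singleton.mp hl) hne⟩
        · intro m hm
          rw [mem_singleton.mp hm]
          exact ⟨⟨a, hNd a⟩, ⟨a, hNd a⟩⟩
      · rw [h.2.2.2]
        trivial
      · rw [h.2.2.2]
        trivial
      · obtain ⟨_, _, _, q, _, hq⟩ := h
        rw [hq]
        trivial
  · intro l
    rw [hFv]
    refine cnt_le_one fun b b' hb hb' => ?_
    rcases hpen l b hb with h | h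
    · rcases hpen l b' hb' with h' | h'
      · rw [h.2, h'.2]
      · exact absurd (h.1.symm.trans h'.1) hij
    · rcases hpen l b' hb' with h' | h'
      · exact absurd (h'.1.symm.trans h.1) hij
      · rw [h.2, h'.2]
  · intro l
    rw [hSv]
    exact (hsp l).trans (Nat.le_add_left _ _)
  · rw [hSv]
    have h1 : 1 ≤ cnt (fun b => (N i b).isPen) := cnt_pos j (by
      show (N i j).isPen = true
      rw [hNij]
      rfl)
    have h2 := hsp i
    omega
  · rw [hSv]
    have h1 : 1 ≤ cnt (fun b => (N j b).isPen) := cnt_pos i (by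
      show (N j i).isPen = true
      rw [hNji]
      rfl)
    have h2 := hsp j
    omega
  · intro l hli hlj _
    rw [hFv]
    refine cnt_zero fun b => ?_
    by_contra hne
    have hb : (N l b).isPen = true := by
      simpa using hne
    rcases hpen l b hb with h | h
    · exact hli h.1
    · exact hlj h.1

theorem arrC_case2 (τ : ι → Bool) (h4 : 4 ≤ Fintype.card ι)
    (hR : Fintype.card R + 1 = Fintype.card ι) (i j k : ι) (hij : i ≠ j) (hik : i ≠ k)
    (hkj : k ≠ j) (hτ : τ k ≠ τ i) (α β : R) :
    ∃ N : ι → ι → CLab ι R,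
      Struct τ (fun l => if l = i then {α} else if l = k then {β} else 0)
        (fun l => if l = i then {β} else if l = k then {α} else 0) N ∧
      N i j = .pen ∧ N j i = .pen ∧
      (∀ l, Fv (fun _ => 0) N l ≤ 1) ∧ (∀ l, 1 ≤ Sv (fun _ => 0) N l) ∧
      2 ≤ Sv (fun _ => 0) N i ∧ 2 ≤ Sv (fun _ => 0) N k ∧
      (∀ l, l ≠ i → l ≠ j → l ≠ k → Fv (fun _ => 0) N l = 0) := by
  have hc : Fintype.card (Option R) = Fintype.card ι := by simp [hR]
  obtain ⟨L, hL, hLij, hLji, hd, hLik, hLki⟩ := latin_z6 hc h4 (none : Option R) (some α)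
    (some β) (by simp) (by simp) i j k hij hik hkj.symm
  set N : ι → ι → CLab ι R := arrC_N2 L i j k with hN
  have cls : ∀ a b, _ := fun a b => arrC_cls2 (k := k) hL hLij hLji hd a b
  rw [← hN] at cls
  have hNij : N i j = .pen := by
    rw [hN]
    unfold arrC_N2
    rw [if_pos (Or.inl ⟨rfl, rfl⟩)]
  have hNji : N j i = .pen := by
    rw [hN]
    unfold arrC_N2
    rw [if_pos (Or.inr ⟨rfl, rfl⟩)]
  have hNik : N i k = .item {i, k} (some i) := by
    rw [hN]
    unfold arrC_N2
    rw [if_neg, if_pos (Or.inl ⟨rfl, rfl⟩)]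
    rintro (h | h)
    · exact hkj h.2
    · exact hij h.1
  have hNki : N k i = .item {i, k} (some i) := by
    rw [hN]
    unfold arrC_N2
    rw [if_neg, if_pos (Or.inr ⟨rfl, rfl⟩)]
    rintro (h | h)
    · exact hik h.1.symm
    · exact hkj h.1
  have hNd : ∀ l, l ≠ i → l ≠ j → N l l = .item {l} (some l) := by
    intro l hli hlj
    rw [hN]
    unfold arrC_N2
    rw [if_neg, if_neg, if_pos ⟨rfl, hli, hlj⟩]
    · rintro (h | h)
      · exact hli h.1
      · exact hli h.2
    · rintro (h | h)
      · exact hli h.1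
      · exact hlj h.1
  have hne1 : ∀ (l : ι), l ≠ i → (CLab.item {i, k} (some i) : CLab ι R) ≠ .item {l} (some l) := by
    intro l hl h
    injection h with _ h2
    injection h2 with h3
    exact hl h3.symm
  have hpen : ∀ a b, N a b = .pen → (a = i ∧ b = j) ∨ (a = j ∧ b = i) := by
    intro a b hp
    rcases cls a b with h | h | h | h | h | h
    · exact Or.inl ⟨h.1, h.2.1⟩
    · exact Or.inr ⟨h.1, h.2.1⟩
    · rw [h.2.2.2.2] at hp
      exact absurd hp (by simp)
    · rw [h.2.2.2.2] at hp
      exact absurd hp (by simp)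
    · rw [h.2.2.2.2.2] at hp
      exact absurd hp (by simp)
    · obtain ⟨_, _, _, _, _, q, _, hq⟩ := h
      rw [hq] at hp
      exact absurd hp (by simp)
  have hit : ∀ a b, N a b = .item {i, k} (some i) → (a = i ∧ b = k) ∨ (a = k ∧ b = i) := by
    intro a b hp
    rcases cls a b with h | h | h | h | h | h
    · rw [h.2.2] at hp
      exact absurd hp (by simp)
    · rw [h.2.2] at hp
      exact absurd hp (by simp)
    · exact Or.inl ⟨h.2.2.1, h.2.2.2.1⟩
    · exact Or.inr ⟨h.2.2.1, h.2.2.2.1⟩
    · rw [h.2.2.2.2.2] at hp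
      exact absurd hp.symm (hne1 a h.2.2.2.1)
    · obtain ⟨_, _, _, _, _, q, _, hq⟩ := h
      rw [hq] at hp
      exact absurd hp (by simp)
  have hdg : ∀ a b l, l ≠ i → N a b = .item {l} (some l) → a = l ∧ b = l := by
    intro a b l hl hp
    rcases cls a b with h | h | h | h | h | h
    · rw [h.2.2] at hp
      exact absurd hp (by simp)
    · rw [h.2.2] at hp
      exact absurd hp (by simp)
    · rw [h.2.2.2.2] at hp
      exact absurd hp (hne1 l hl)
    · rw [h.2.2.2.2] at hp
      exact absurd hp (hne1 l hl)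
    · rw [h.2.2.2.2.2] at hp
      injection hp with _ h2
      injection h2 with h3
      exact ⟨h3, h.2.2.1.symm.trans h3⟩
    · obtain ⟨_, _, _, _, _, q, _, hq⟩ := h
      rw [hq] at hp
      exact absurd hp (by simp)
  have hpen' : ∀ a b, (N a b).isPen = true → N a b = .pen := by
    intro a b hp
    cases hcell : N a b with
    | real q => rw [hcell] at hp; exact absurd hp (by simp [CLab.isPen])
    | pen => rfl
    | item S t => rw [hcell] at hp; exact absurd hp (by simp [CLab.isPen])
  have hhd : ∀ a b, (N a b).isHd a = true → a = k ∧ b = i := by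
    intro a b hp
    rcases cls a b with h | h | h | h | h | h
    · rw [h.2.2] at hp
      exact absurd hp (by simp [CLab.isHd])
    · rw [h.2.2] at hp
      exact absurd hp (by simp [CLab.isHd])
    · rw [h.2.2.2.2, h.2.2.1] at hp
      exact absurd hp (by simp [CLab.isHd])
    · exact ⟨h.2.2.1, h.2.2.2.1⟩
    · rw [h.2.2.2.2.2] at hp
      exact absurd hp (by simp [CLab.isHd])
    · obtain ⟨_, _, _, _, _, q, _, hq⟩ := h
      rw [hq] at hp
      exact absurd hp (by simp [CLab.isHd])
  have hFv : ∀ l, Fv (fun _ => 0) N l =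
      cnt (fun b => (N l b).isPen) + cnt (fun b => (N l b).isHd l) := fun l => rfl
  have hSv : ∀ l, Sv (fun _ => 0) N l =
      cnt (fun b => (N l b).isPen) + cnt (fun b => (N l b).isSp) := fun l => rfl
  have hpcz : ∀ l, l ≠ i → l ≠ j → cnt (fun b => (N l b).isPen) = 0 := by
    intro l hli hlj
    refine cnt_zero fun b => ?_
    by_contra hne
    have hb : (N l b).isPen = true := by
      simpa using hne
    rcases hpen l b (hpen' l b hb) with h | h
    · exact hli h.1
    · exact hlj h.1
  have hhz : ∀ l, l ≠ k → cnt (fun b => (N l b).isHd l) = 0 := by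
    intro l hlk
    refine cnt_zero fun b => ?_
    by_contra hne
    have hb : (N l b).isHd l = true := by
      simpa using hne
    exact hlk (hhd l b hb).1
  have hp1 : ∀ l, cnt (fun b => (N l b).isPen) ≤ 1 := by
    intro l
    refine cnt_le_one fun b b' hb hb' => ?_
    rcases hpen l b (hpen' l b hb) with h | h
    · rcases hpen l b' (hpen' l b' hb') with h' | h'
      · rw [h.2, h'.2]
      · exact absurd (h.1.symm.trans h'.1) hij
    · rcases hpen l b' (hpen' l b' hb') with h' | h'
      · exact absurd (h'.1.symm.trans h.1) hij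
      · rw [h.2, h'.2]
  have hh1 : ∀ l, cnt (fun b => (N l b).isHd l) ≤ 1 := by
    intro l
    refine cnt_le_one fun b b' hb hb' => ?_
    rw [(hhd l b hb).2, (hhd l b' hb').2]
  have hspd : ∀ l, l ≠ i → l ≠ j → 1 ≤ cnt (fun b => (N l b).isSp) := fun l hli hlj =>
    cnt_pos l (by
      show (N l l).isSp = true
      rw [hNd l hli hlj]
      rfl)
  have hpi : 1 ≤ cnt (fun b => (N i b).isPen) := cnt_pos j (by
    show (N i j).isPen = true
    rw [hNij]
    rfl)
  have hpj : 1 ≤ cnt (fun b => (N j b).isPen) := cnt_pos i (by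
    show (N j i).isPen = true
    rw [hNji]
    rfl)
  have hsi : 1 ≤ cnt (fun b => (N i b).isSp) := cnt_pos k (by
    show (N i k).isSp = true
    rw [hNik]
    rfl)
  have hsk : 2 ≤ cnt (fun b => (N k b).isSp) := cnt_two_le i k hik (by
    show (N k i).isSp = true
    rw [hNki]
    rfl) (by
    show (N k k).isSp = true
    rw [hNd k hik.symm hkj]
    rfl)
  refine ⟨N, ?_, hNij, hNji, ?_, ?_, ?_, ?_, ?_⟩
  · refine struct_of_overlay τ hR L hL _ _ N (arrC_nodup α β) (arrC_nodup β α) ?_ ?_ ?_ ?_ ?_ ?_ ?_
    · intro a b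
      rcases cls a b with h | h | h | h | h | h
      · right
        intro q
        rw [h.2.2]
        simp
      · right
        intro q
        rw [h.2.2]
        simp
      · right
        intro q
        rw [h.2.2.2.2]
        simp
      · right
        intro q
        rw [h.2.2.2.2]
        simp
      · right
        intro q
        rw [h.2.2.2.2.2]
        simp
      · left
        obtain ⟨_, _, _, _, _, q, hq, hq'⟩ := h
        exact ⟨q, hq', hq⟩
    · intro a b b' heq hnr
      rcases cls a b with h | h | h | h | h | h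
      · rcases hpen a b' (heq.symm.trans h.2.2) with h' | h'
        · rw [h.2.1, h'.2]
        · exact absurd (h.1.symm.trans h'.1) hij
      · rcases hpen a b' (heq.symm.trans h.2.2) with h' | h'
        · exact absurd (h'.1.symm.trans h.1) hij
        · rw [h.2.1, h'.2]
      · rcases hit a b' (heq.symm.trans h.2.2.2.2) with h' | h'
        · rw [h.2.2.2.1, h'.2]
        · exact absurd (h.2.2.1.symm.trans h'.1) hik
      · rcases hit a b' (heq.symm.trans h.2.2.2.2) with h' | h'
        · exact absurd (h'.1.symm.trans h.2.2.1) hik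
        · rw [h.2.2.2.1, h'.2]
      · have h' := hdg a b' a h.2.2.2.1 (heq.symm.trans h.2.2.2.2.2)
        exact h.2.2.1.symm.trans h'.2.symm
      · obtain ⟨_, _, _, _, _, q, _, hq⟩ := h
        exact absurd hq (hnr q)
    · intro b a a' heq hnr
      rcases cls a b with h | h | h | h | h | h
      · rcases hpen a' b (heq.symm.trans h.2.2) with h' | h'
        · rw [h.1, h'.1]
        · exact absurd (h'.2.symm.trans h.2.1) hij
      · rcases hpen a' b (heq.symm.trans h.2.2) with h' | h'
        · exact absurd (h.2.1.symm.trans h'.2) hij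
        · rw [h.1, h'.1]
      · rcases hit a' b (heq.symm.trans h.2.2.2.2) with h' | h'
        · rw [h.2.2.1, h'.1]
        · exact absurd (h'.2.symm.trans h.2.2.2.1) hik
      · rcases hit a' b (heq.symm.trans h.2.2.2.2) with h' | h'
        · exact absurd (h.2.2.2.1.symm.trans h'.2) hik
        · rw [h.2.2.1, h'.1]
      · have h' := hdg a' b a h.2.2.2.1 (heq.symm.trans h.2.2.2.2.2)
        exact h'.1.symm
      · obtain ⟨_, _, _, _, _, q, _, hq⟩ := h
        exact absurd hq (hnr q)
    · intro a q
      rw [arrC_mem_ra hik]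
      constructor
      · rintro (⟨rfl, rfl⟩ | ⟨rfl, rfl⟩)
        · exact ⟨k, hLik, fun q' => by rw [hNik]; simp⟩
        · exact ⟨i, hLki, fun q' => by rw [hNki]; simp⟩
      · rintro ⟨b, hb, hnr⟩
        rcases cls a b with h | h | h | h | h | h
        · rw [h.1, h.2.1, hLij] at hb
          exact absurd hb (by simp)
        · rw [h.1, h.2.1, hLji] at hb
          exact absurd hb (by simp)
        · left
          refine ⟨h.2.2.1, ?_⟩
          rw [h.2.2.1, h.2.2.2.1, hLik] at hb
          exact (Option.some.inj hb).symm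
        · right
          refine ⟨h.2.2.1, ?_⟩
          rw [h.2.2.1, h.2.2.2.1, hLki] at hb
          exact (Option.some.inj hb).symm
        · rw [← h.2.2.1, hd a h.2.2.2.1 h.2.2.2.2.1] at hb
          exact absurd hb (by simp)
        · obtain ⟨_, _, _, _, _, q', _, hq⟩ := h
          exact absurd hq (hnr q')
    · intro b q
      rw [arrC_mem_ra hik]
      constructor
      · rintro (⟨rfl, rfl⟩ | ⟨rfl, rfl⟩)
        · exact ⟨k, hLki, fun q' => by rw [hNki]; simp⟩
        · exact ⟨i, hLik, fun q' => by rw [hNik]; simp⟩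
      · rintro ⟨a, hb, hnr⟩
        rcases cls a b with h | h | h | h | h | h
        · rw [h.1, h.2.1, hLij] at hb
          exact absurd hb (by simp)
        · rw [h.1, h.2.1, hLji] at hb
          exact absurd hb (by simp)
        · right
          refine ⟨h.2.2.2.1, ?_⟩
          rw [h.2.2.1, h.2.2.2.1, hLik] at hb
          exact (Option.some.inj hb).symm
        · left
          refine ⟨h.2.2.2.1, ?_⟩
          rw [h.2.2.1, h.2.2.2.1, hLki] at hb
          exact (Option.some.inj hb).symm
        · rw [← h.2.2.1, hd a h.2.2.2.1 h.2.2.2.2.1] at hb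
          exact absurd hb (by simp)
        · obtain ⟨_, _, _, _, _, q', _, hq⟩ := h
          exact absurd hq (hnr q')
    · intro a
      constructor
      · rintro ⟨b, hb⟩
        rcases hpen a b hb with ⟨rfl, rfl⟩ | ⟨rfl, rfl⟩
        · exact ⟨_, hNji⟩
        · exact ⟨_, hNij⟩
      · rintro ⟨b, hb⟩
        rcases hpen b a hb with ⟨rfl, rfl⟩ | ⟨rfl, rfl⟩
        · exact ⟨_, hNji⟩
        · exact ⟨_, hNij⟩
    · intro a b
      have hcov : ∀ m ∈ ({i, k} : Finset ι), (∃ j', N m j' = .item {i, k} (some i)) ∧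
          (∃ i', N i' m = .item {i, k} (some i)) := by
        intro m hm
        rcases mem_insert.mp hm with hm | hm
        · rw [hm]
          exact ⟨⟨k, hNik⟩, ⟨k, hNki⟩⟩
        · rw [mem_singleton.mp hm]
          exact ⟨⟨i, hNki⟩, ⟨i, hNik⟩⟩
      have htail : TailOK τ {i, k} (some i) := by
        refine ⟨mem_insert_self i _, fun l hl hne => ?_⟩
        rcases mem_insert.mp hl with hl | hl
        · exact absurd hl hne
        · rw [mem_singleton.mp hl]
          exact hτ
      rcases cls a b with h | h | h | h | h | h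
      · rw [h.2.2]
        trivial
      · rw [h.2.2]
        trivial
      · rw [h.2.2.2.2]
        refine ⟨?_, ?_, htail, hcov⟩
        · rw [h.2.2.1]
          exact mem_insert_self i _
        · rw [h.2.2.2.1]
          exact mem_insert_of_mem (mem_singleton_self k)
      · rw [h.2.2.2.2]
        refine ⟨?_, ?_, htail, hcov⟩
        · rw [h.2.2.1]
          exact mem_insert_of_mem (mem_singleton_self k)
        · rw [h.2.2.2.1]
          exact mem_insert_self i _
      · rw [h.2.2.2.2.2]
        refine ⟨mem_singleton_self a, by rw [← h.2.2.1]; exact mem_singleton_self a, ?_, ?_⟩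
        · exact ⟨mem_singleton_self a, fun l hl hne => absurd (mem_singleton.mp hl) hne⟩
        · intro m hm
          rw [mem_singleton.mp hm]
          exact ⟨⟨a, hNd a h.2.2.2.1 h.2.2.2.2.1⟩, ⟨a, hNd a h.2.2.2.1 h.2.2.2.2.1⟩⟩
      · obtain ⟨_, _, _, _, _, q, _, hq⟩ := h
        rw [hq]
        trivial
  · intro l
    rw [hFv]
    by_cases hlk : l = k
    · rw [hlk]
      have h1 := hpcz k hik.symm hkj
      have h2 := hh1 k
      omega
    · have h1 := hhz l hlk
      have h2 := hp1 l
      omega
  · intro l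
    rw [hSv]
    by_cases hli : l = i
    · rw [hli]
      omega
    · by_cases hlj : l = j
      · rw [hlj]
        omega
      · have h1 := hspd l hli hlj
        omega
  · rw [hSv]
    omega
  · rw [hSv]
    omega
  · intro l hli hlj hlk
    rw [hFv, hpcz l hli hlj, hhz l hlk]

/-- The array of a vertex with `a_i b_j` precoloured by a colour of `P`, `i ≠ j`, when the
`F`-edges in rows `i` and `k` get real colours (`(α,β)` in row `i`, `(β,α)` in row `k`). -/
theorem kd_cross (τ : ι → Bool) (h4 : 4 ≤ Fintype.card ι)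
    (hR : Fintype.card R + 1 = Fintype.card ι) (i j k : ι) (hij : i ≠ j) (hik : i ≠ k)
    (hk : k = j ∨ τ k ≠ τ i) (α β : R) :
    ∃ N : ι → ι → CLab ι R,
      Struct τ (fun l => if l = i then {α} else if l = k then {β} else 0)
        (fun l => if l = i then {β} else if l = k then {α} else 0) N ∧
      N i j = .pen ∧ N j i = .pen ∧
      (∀ l, Fv (fun _ => 0) N l ≤ 1) ∧ (∀ l, 1 ≤ Sv (fun _ => 0) N l) ∧
      2 ≤ Sv (fun _ => 0) N i ∧ 2 ≤ Sv (fun _ => 0) N k ∧
      (∀ l, l ≠ i → l ≠ j → l ≠ k → Fv (fun _ => 0) N l = 0) := by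
  by_cases hkj : k = j
  · subst hkj
    exact arrC_case1 τ h4 hR i k hij α β
  · exact arrC_case2 τ h4 hR i j k hij hik hkj (hk.resolve_left hkj) α β

end W3a
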