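import Pool.Agent.W_MP_3a8340_co.Latin
import Pool.Agent.W_MP_3a8340_co.ArrTools

open Finset

namespace W3a

variable {ι R : Type} [Fintype ι] [DecidableEq ι] [Fintype R] [DecidableEq R]

/-- Replace the cells `none` of a Latin square in row `a` by the label `lab a`. -/
def arrkN (L : ι → ι → Option R) (lab : ι → CLab ι R) (a b : ι) : CLab ι R :=
  match L a b with
  | none => lab a
  | some q => .real q

theorem arrkN_none {L : ι → ι → Option R} {lab : ι → CLab ι R} {a b : ι} (h : L a b = none) :
    arrkN L lab a b = lab a := by
  unfold arrkN
  rw [h]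

theorem arrkN_some {L : ι → ι → Option R} {lab : ι → CLab ι R} {a b : ι} {q : R}
    (h : L a b = some q) : arrkN L lab a b = .real q := by
  unfold arrkN
  rw [h]

theorem arrkN_nonreal {L : ι → ι → Option R} {lab : ι → CLab ι R} {a b : ι}
    (h : ∀ q, arrkN L lab a b ≠ .real q) : L a b = none := by
  cases hL : L a b with
  | none => rfl
  | some q => exact absurd (arrkN_some hL) (h q)

theorem arrk_struct (τ : ι → Bool) (hR : Fintype.card R + 1 = Fintype.card ι)
    (L : ι → ι → Option R) (hL : IsLatin L) (π : ι → ι) (hπ : ∀ a, π (π a) = a)
    (hLπ : ∀ a, L a (π a) = none) (lab : ι → CLab ι R) (hlab : ∀ a q, lab a ≠ .real q)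
    (hpen : ∀ a, lab a = .pen ↔ lab (π a) = .pen)
    (hit : ∀ a S t, lab a = .item S t → a ∈ S ∧ π a ∈ S ∧ TailOK τ S t ∧
      ∀ k ∈ S, lab k = .item S t) :
    Struct τ (fun _ => 0) (fun _ => 0) (arrkN L lab) := by
  have hLπ' : ∀ a, L (π a) a = none := by
    intro a
    have h := hLπ (π a)
    rwa [hπ a] at h
  have hnone : ∀ a b, L a b = none → b = π a := fun a b h => hL.1 a (h.trans (hLπ a).symm)
  refine struct_of_overlay τ hR L hL _ _ _ (fun _ => Multiset.nodup_zero)
    (fun _ => Multiset.nodup_zero) ?_ ?_ ?_ ?_ ?_ ?_ ?_
  · intro a b
    cases h : L a b with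
    | none =>
      right
      intro q
      rw [arrkN_none h]
      exact hlab a q
    | some q => exact Or.inl ⟨q, arrkN_some h, rfl⟩
  · intro a b b' h hn
    have h1 := arrkN_nonreal hn
    have h2 : L a b' = none := arrkN_nonreal (lab := lab) (by rw [← h]; exact hn)
    exact hL.1 a (h1.trans h2.symm)
  · intro b a a' h hn
    have h1 := arrkN_nonreal hn
    have h2 : L a' b = none := arrkN_nonreal (lab := lab) (by rw [← h]; exact hn)
    exact hL.2 b (h1.trans h2.symm)
  · intro a q
    constructor
    · intro h
      exact absurd h (Multiset.notMem_zero q)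
    · rintro ⟨b, hb, hn⟩
      exact absurd (arrkN_some hb) (hn q)
  · intro b q
    constructor
    · intro h
      exact absurd h (Multiset.notMem_zero q)
    · rintro ⟨a, hb, hn⟩
      exact absurd (arrkN_some hb) (hn q)
  · intro a
    have hl : (∃ b, arrkN L lab a b = .pen) ↔ lab a = .pen := by
      constructor
      · rintro ⟨b, hb⟩
        have h1 : L a b = none := arrkN_nonreal (lab := lab) (by rw [hb]; intro q; simp)
        rwa [arrkN_none h1] at hb
      · intro h
        exact ⟨π a, by rw [arrkN_none (hLπ a)]; exact h⟩
    have hr : (∃ b, arrkN L lab b a = .pen) ↔ lab (π a) = .pen := by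
      constructor
      · rintro ⟨b, hb⟩
        have h1 : L b a = none := arrkN_nonreal (lab := lab) (by rw [hb]; intro q; simp)
        rw [arrkN_none h1] at hb
        have h2 := hnone b a h1
        rw [h2, hπ]
        exact hb
      · intro h
        exact ⟨π a, by rw [arrkN_none (hLπ' a)]; exact h⟩
    rw [hl, hr]
    exact hpen a
  · intro a b
    cases h : L a b with
    | some q =>
      rw [arrkN_some h]
      exact trivial
    | none =>
      rw [arrkN_none h]
      cases hl : lab a with
      | real q => exact trivial
      | pen => exact trivial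
      | item S t =>
        obtain ⟨h1, h2, h3, h4⟩ := hit a S t hl
        refine ⟨h1, ?_, h3, ?_⟩
        · rw [hnone a b h]
          exact h2
        · intro k hk
          have h5 := h4 k hk
          obtain ⟨-, h6, -, h7⟩ := hit k S t h5
          refine ⟨⟨π k, by rw [arrkN_none (hLπ k)]; exact h5⟩,
            ⟨π k, by rw [arrkN_none (hLπ' k)]; exact h4 _ h6⟩⟩

theorem arrk_cnt {L : ι → ι → Option R} (hL : IsLatin L) {π : ι → ι}
    (hLπ : ∀ a, L a (π a) = none) (lab : ι → CLab ι R) (p : CLab ι R → Bool)
    (hp : ∀ q, p (.real q) = false) (a : ι) :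
    cnt (fun b => p (arrkN L lab a b)) = if p (lab a) = true then 1 else 0 := by
  have hother : ∀ b, b ≠ π a → p (arrkN L lab a b) = false := by
    intro b hb
    cases h : L a b with
    | none => exact absurd (hL.1 a (h.trans (hLπ a).symm)) hb
    | some q =>
      rw [arrkN_some h]
      exact hp q
  split_ifs with h
  · exact cnt_one (π a) (by rw [arrkN_none (hLπ a)]; exact h) hother
  · refine cnt_zero fun b => ?_
    by_cases hb : b = π a
    · rw [hb, arrkN_none (hLπ a)]
      simpa using h
    · exact hother b hb

theorem arrk_Fv {L : ι → ι → Option R} (hL : IsLatin L) {π : ι → ι}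
    (hLπ : ∀ a, L a (π a) = none) (lab : ι → CLab ι R) (a : ι) :
    Fv (fun _ => 0) (arrkN L lab) a =
      (if (lab a).isPen = true then 1 else 0) + (if (lab a).isHd a = true then 1 else 0) := by
  unfold Fv
  rw [arrk_cnt hL hLπ lab CLab.isPen (fun _ => rfl) a,
    arrk_cnt hL hLπ lab (CLab.isHd a) (fun _ => rfl) a]
  rfl

theorem arrk_Sv {L : ι → ι → Option R} (hL : IsLatin L) {π : ι → ι}
    (hLπ : ∀ a, L a (π a) = none) (lab : ι → CLab ι R) (a : ι) :
    Sv (fun _ => 0) (arrkN L lab) a =
      (if (lab a).isPen = true then 1 else 0) + (if (lab a).isSp = true then 1 else 0) := by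
  unfold Sv
  rw [arrk_cnt hL hLπ lab CLab.isPen (fun _ => rfl) a,
    arrk_cnt hL hLπ lab CLab.isSp (fun _ => rfl) a]
  rfl

/-- the conditions of `KArr` from the labels -/
theorem arrk_mk (τ : ι → Bool) (hR : Fintype.card R + 1 = Fintype.card ι)
    (L : ι → ι → Option R) (hL : IsLatin L) (π : ι → ι) (hπ : ∀ a, π (π a) = a)
    (hLπ : ∀ a, L a (π a) = none) (lab : ι → CLab ι R) (hlab : ∀ a q, lab a ≠ .real q)
    (hpen : ∀ a, lab a = .pen ↔ lab (π a) = .pen)
    (hit : ∀ a S t, lab a = .item S t → a ∈ S ∧ π a ∈ S ∧ TailOK τ S t ∧
      ∀ k ∈ S, lab k = .item S t)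
    (hns : ∀ a S, lab a ≠ .item S none)
    (i j : ι) (t : Option R) (hcell : arrkN L lab i j = kcell t)
    (hF : ∀ a, (lab a).isPen = true ∨ (lab a).isHd a = true → (a = i ∨ a = j) ∧ (i = j ∨ t = none)) :
    KArr τ i j t (arrkN L lab) := by
  have hFv := arrk_Fv hL hLπ lab
  have hSv := arrk_Sv hL hLπ lab
  refine ⟨arrk_struct τ hR L hL π hπ hLπ lab hlab hpen hit, hcell, ?_, ?_, ?_, ?_⟩
  · intro a
    rw [hFv]
    cases h : lab a with
    | real q => exact absurd h (hlab a q)
    | pen => simp [CLab.isPen, CLab.isHd]
    | item S t =>
      have h0 : (CLab.item S t : CLab ι R).isPen = false := rfl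
      rw [h0, if_neg Bool.false_ne_true, zero_add]
      split_ifs <;> omega
  · intro a
    rw [hSv]
    cases h : lab a with
    | real q => exact absurd h (hlab a q)
    | pen => simp [CLab.isPen]
    | item S t =>
      cases t with
      | none => exact absurd h (hns a S)
      | some k => simp [CLab.isSp]
  · intro a hai haj
    rw [hFv]
    have h := hF a
    by_cases h1 : (lab a).isPen = true
    · rcases (h (Or.inl h1)).1 with h2 | h2
      · exact absurd h2 hai
      · exact absurd h2 haj
    · by_cases h3 : (lab a).isHd a = true
      · rcases (h (Or.inr h3)).1 with h2 | h2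
        · exact absurd h2 hai
        · exact absurd h2 haj
      · rw [if_neg h1, if_neg h3]
  · intro hij ht a
    rw [hFv]
    have h := hF a
    by_cases h1 : (lab a).isPen = true
    · rcases (h (Or.inl h1)).2 with h2 | h2
      · exact absurd h2 hij
      · exact absurd h2 ht
    · by_cases h3 : (lab a).isHd a = true
      · rcases (h (Or.inr h3)).2 with h2 | h2
        · exact absurd h2 hij
        · exact absurd h2 ht
      · rw [if_neg h1, if_neg h3]

/-- the label of a rung -/
def arrkRung (a : ι) : CLab ι R := .item {a} (some a)

theorem arrk_rung_hit (τ : ι → Bool) (a : ι) (S : Finset ι) (t : Option ι)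
    (h : (arrkRung a : CLab ι R) = .item S t) : S = {a} ∧ t = some a ∧ TailOK τ S t := by
  unfold arrkRung at h
  injection h with h1 h2
  subst h1 h2
  refine ⟨rfl, rfl, ?_⟩
  refine ⟨Finset.mem_singleton_self a, ?_⟩
  intro l hl hne
  exact absurd (Finset.mem_singleton.1 hl) hne

/-- Arrays for vertices with a precoloured `K_{n,n}`-edge, `n ≥ 4`. -/
theorem karr_std (τ : ι → Bool) (h4 : 4 ≤ Fintype.card ι)
    (hR : Fintype.card R + 1 = Fintype.card ι)
    (hτ : ∀ b, 2 ≤ (univ.filter fun l => τ l = b).card) (i j : ι) (t : Option R) :
    ∃ N : ι → ι → CLab ι R, KArr τ i j t N := by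
  classical
  have hc : Fintype.card (Option R) = Fintype.card ι := by simp [hR]
  by_cases hij : i = j
  · subst hij
    cases t with
    | none =>
      obtain ⟨k, hk⟩ : ∃ k, k ≠ i := by
        by_contra hcon
        push Not at hcon
        have : Fintype.card ι ≤ 1 := Fintype.card_le_one_iff.2 fun a b => by rw [hcon a, hcon b]
        omega
      obtain ⟨q⟩ : Nonempty R := Fintype.card_pos_iff.1 (by omega)
      obtain ⟨L, hL, hd, -⟩ := latin_z1 hc none (some q) (by simp) i k hk.symm
      refine ⟨_, arrk_mk τ hR L hL id (fun _ => rfl) hd
        (fun a => if a = i then .pen else arrkRung a) ?_ ?_ ?_ ?_ i i none ?_ ?_⟩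
      · intro a q
        by_cases h : a = i
        · rw [if_pos h]
          simp
        · rw [if_neg h]
          simp [arrkRung]
      · intro a
        rfl
      · intro a S t h
        by_cases h0 : a = i
        · rw [if_pos h0] at h
          exact absurd h (by simp)
        · rw [if_neg h0] at h
          obtain ⟨rfl, rfl, h3⟩ := arrk_rung_hit τ a S t h
          refine ⟨Finset.mem_singleton_self a, Finset.mem_singleton_self a, h3, ?_⟩
          intro k hk
          rw [Finset.mem_singleton.1 hk, if_neg h0]
          rfl
      · intro a S
        by_cases h0 : a = i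
        · rw [if_pos h0]
          simp
        · rw [if_neg h0]
          simp [arrkRung]
      · rw [arrkN_none (hd i), if_pos rfl]
        rfl
      · intro a h
        by_cases h0 : a = i
        · exact ⟨Or.inl h0, Or.inl rfl⟩
        · rw [if_neg h0] at h
          simp [arrkRung, CLab.isPen, CLab.isHd] at h
    | some q =>
      obtain ⟨k, hk⟩ : ∃ k, τ k ≠ τ i := by
        have h1 := hτ (!τ i)
        obtain ⟨k, hk⟩ := Finset.card_pos.1 (by omega : 0 < (univ.filter fun l => τ l = !τ i).card)
        refine ⟨k, ?_⟩
        have h2 := (Finset.mem_filter.1 hk).2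
        rw [h2]
        cases τ i <;> decide
      have hik : i ≠ k := by
        rintro rfl
        exact hk rfl
      obtain ⟨L, hL, h1, h2, h3, h4⟩ := latin_z3 hc none (some q) (by simp) i k hik
      have hLπ : ∀ a, L a (Equiv.swap i k a) = none := by
        intro a
        by_cases ha : a = i
        · rw [ha, Equiv.swap_apply_left]
          exact h1
        · by_cases hb : a = k
          · rw [hb, Equiv.swap_apply_right]
            exact h2
          · rw [Equiv.swap_apply_of_ne_of_ne ha hb]
            exact h3 a ha hb
      refine ⟨_, arrk_mk τ hR L hL (Equiv.swap i k) (fun a => Equiv.swap_apply_self i k a) hLπ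
        (fun a => if a = i ∨ a = k then .item {i, k} (some k) else arrkRung a) ?_ ?_ ?_ ?_ i i
          (some q) ?_ ?_⟩
      · intro a q
        by_cases h : a = i ∨ a = k
        · rw [if_pos h]
          simp
        · rw [if_neg h]
          simp [arrkRung]
      · intro a
        have hno : ∀ b, (if b = i ∨ b = k then (.item {i, k} (some k) : CLab ι R)
            else arrkRung b) ≠ .pen := by
          intro b
          by_cases h : b = i ∨ b = k
          · rw [if_pos h]
            simp
          · rw [if_neg h]
            simp [arrkRung]
        constructor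
        · intro h
          exact absurd h (hno a)
        · intro h
          exact absurd h (hno _)
      · intro a S t h
        by_cases h0 : a = i ∨ a = k
        · rw [if_pos h0] at h
          injection h with e1 e2
          subst e1 e2
          refine ⟨?_, ?_, ⟨?_, ?_⟩, ?_⟩
          · rw [Finset.mem_insert, Finset.mem_singleton]
            exact h0
          · rw [Finset.mem_insert, Finset.mem_singleton]
            rcases h0 with rfl | rfl
            · right
              exact Equiv.swap_apply_left _ _
            · left
              exact Equiv.swap_apply_right _ _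
          · simp
          · intro l hl hlk
            rw [Finset.mem_insert, Finset.mem_singleton] at hl
            rcases hl with rfl | rfl
            · exact fun e => hk e.symm
            · exact absurd rfl hlk
          · intro l hl
            rw [Finset.mem_insert, Finset.mem_singleton] at hl
            rw [if_pos hl]
        · rw [if_neg h0] at h
          obtain ⟨rfl, rfl, h5⟩ := arrk_rung_hit τ a S t h
          push Not at h0
          refine ⟨Finset.mem_singleton_self a, ?_, h5, ?_⟩
          · rw [Equiv.swap_apply_of_ne_of_ne h0.1 h0.2]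
            exact Finset.mem_singleton_self a
          · intro l hl
            rw [Finset.mem_singleton.1 hl, if_neg (by push Not; exact h0)]
            rfl
      · intro a S
        by_cases h0 : a = i ∨ a = k
        · rw [if_pos h0]
          simp
        · rw [if_neg h0]
          simp [arrkRung]
      · rw [arrkN_some h4]
        rfl
      · intro a h
        by_cases h0 : a = i
        · exact ⟨Or.inl h0, Or.inl rfl⟩
        · exfalso
          by_cases h5 : a = k
          · rw [if_pos (Or.inr h5), h5] at h
            simp [CLab.isPen, CLab.isHd] at h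
          · rw [if_neg (by push Not; exact ⟨h0, h5⟩)] at h
            simp [arrkRung, CLab.isPen, CLab.isHd] at h
  · cases t with
    | none =>
      obtain ⟨L, hL, h1, h2, h3⟩ := latin_z4 hc (none : Option R) i j hij
      have hLπ : ∀ a, L a (Equiv.swap i j a) = none := by
        intro a
        by_cases ha : a = i
        · rw [ha, Equiv.swap_apply_left]
          exact h1
        · by_cases hb : a = j
          · rw [hb, Equiv.swap_apply_right]
            exact h2
          · rw [Equiv.swap_apply_of_ne_of_ne ha hb]
            exact h3 a ha hb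
      refine ⟨_, arrk_mk τ hR L hL (Equiv.swap i j) (fun a => Equiv.swap_apply_self i j a) hLπ
        (fun a => if a = i ∨ a = j then .pen else arrkRung a) ?_ ?_ ?_ ?_ i j none ?_ ?_⟩
      · intro a q
        by_cases h : a = i ∨ a = j
        · rw [if_pos h]
          simp
        · rw [if_neg h]
          simp [arrkRung]
      · intro a
        have hpi : ∀ b, (if b = i ∨ b = j then (.pen : CLab ι R) else arrkRung b) = .pen ↔
            (b = i ∨ b = j) := by
          intro b
          by_cases h : b = i ∨ b = j
          · rw [if_pos h]
            simp [h]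
          · rw [if_neg h]
            simp only [arrkRung, h, iff_false]
            intro hcon
            cases hcon
        change (if a = i ∨ a = j then (.pen : CLab ι R) else arrkRung a) = .pen ↔
          (if Equiv.swap i j a = i ∨ Equiv.swap i j a = j then (.pen : CLab ι R) else
            arrkRung (Equiv.swap i j a)) = .pen
        rw [hpi, hpi]
        by_cases ha : a = i
        · subst ha
          rw [Equiv.swap_apply_left]
          simp
        · by_cases hb : a = j
          · subst hb
            rw [Equiv.swap_apply_right]
            simp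
          · rw [Equiv.swap_apply_of_ne_of_ne ha hb]
      · intro a S t h
        by_cases h0 : a = i ∨ a = j
        · rw [if_pos h0] at h
          exact absurd h (by simp)
        · rw [if_neg h0] at h
          obtain ⟨rfl, rfl, h5⟩ := arrk_rung_hit τ a S t h
          push Not at h0
          refine ⟨Finset.mem_singleton_self a, ?_, h5, ?_⟩
          · rw [Equiv.swap_apply_of_ne_of_ne h0.1 h0.2]
            exact Finset.mem_singleton_self a
          · intro l hl
            rw [Finset.mem_singleton.1 hl, if_neg (by push Not; exact h0)]
            rfl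
      · intro a S
        by_cases h0 : a = i ∨ a = j
        · rw [if_pos h0]
          simp
        · rw [if_neg h0]
          simp [arrkRung]
      · rw [arrkN_none h1, if_pos (Or.inl rfl)]
        rfl
      · intro a h
        by_cases h0 : a = i ∨ a = j
        · exact ⟨h0, Or.inr rfl⟩
        · rw [if_neg h0] at h
          simp [arrkRung, CLab.isPen, CLab.isHd] at h
    | some q =>
      obtain ⟨L, hL, hd, hij'⟩ := latin_z1 hc none (some q) (by simp) i j hij
      refine ⟨_, arrk_mk τ hR L hL id (fun _ => rfl) hd
        (fun a => arrkRung a) ?_ ?_ ?_ ?_ i j (some q) ?_ ?_⟩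
      · intro a q
        simp [arrkRung]
      · intro a
        rfl
      · intro a S t h
        obtain ⟨rfl, rfl, h3⟩ := arrk_rung_hit τ a S t h
        refine ⟨Finset.mem_singleton_self a, Finset.mem_singleton_self a, h3, ?_⟩
        intro k hk
        rw [Finset.mem_singleton.1 hk]
        rfl
      · intro a S
        simp [arrkRung]
      · rw [arrkN_some hij']
        rfl
      · intro a h
        simp [arrkRung, CLab.isPen, CLab.isHd] at h

end W3a
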