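import Pool.Agent.W_MP_3a8340_co.ArrTools

open Finset

namespace W3a

variable {ι R : Type} [Fintype ι] [DecidableEq ι] [Fintype R] [DecidableEq R]

/-- The real colour of a covered row. -/
def RowSt.hi {R : Type} : RowSt R → Option R
  | .high q => some q
  | _ => none

private theorem aA_mem1 (s : RowSt R) (q : R) : q ∈ s.row.1 ↔ s.hi = some q := by
  cases s with
  | dflt => simp [RowSt.row, RowSt.hi]
  | low => simp [RowSt.row, RowSt.hi]
  | high q' => simp [RowSt.row, RowSt.hi, eq_comm]

private theorem aA_mem2 (s : RowSt R) (q : R) : q ∈ s.row.2.1 ↔ s.hi = some q := by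
  cases s with
  | dflt => simp [RowSt.row, RowSt.hi]
  | low => simp [RowSt.row, RowSt.hi]
  | high q' => simp [RowSt.row, RowSt.hi, eq_comm]

private theorem aA_nd1 (s : RowSt R) : s.row.1.Nodup := by
  cases s <;> simp [RowSt.row]

private theorem aA_nd2 (s : RowSt R) : s.row.2.1.Nodup := by
  cases s <;> simp [RowSt.row]

private def aAN (L : ι → ι → Option R) (a b : ι) : CLab ι R :=
  if a = b then .item {a} (some a) else (match L a b with
    | some q => .real q
    | none => .pen)

private theorem aAN_cases (L : ι → ι → Option R) (a b : ι) :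
    (a = b ∧ aAN L a b = .item {a} (some a)) ∨
    (a ≠ b ∧ ∃ q, L a b = some q ∧ aAN L a b = .real q) ∨
    (a ≠ b ∧ L a b = none ∧ aAN L a b = .pen) := by
  unfold aAN
  by_cases h : a = b
  · left; exact ⟨h, by simp [h]⟩
  · right
    rcases hL : L a b with _ | q
    · right; exact ⟨h, rfl, by simp [h]⟩
    · left; exact ⟨h, q, rfl, by simp [h]⟩

/-- Array without links: rungs on the diagonal, the other cells `none` of `L` are pendant. -/
theorem arrA (τ : ι → Bool) (hR : Fintype.card R + 1 = Fintype.card ι)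
    (L : ι → ι → Option R) (hL : IsLatin L) (st : ι → RowSt R)
    (hdiag : ∀ l, L l l = (st l).hi) :
    ∃ N : ι → ι → CLab ι R, SS τ (fun i => (st i).row) (fun i => (st i).cov) N ∧
      (∀ a b q, a ≠ b → L a b = some q → N a b = .real q) ∧
      (∀ a b S t, N a b = .item S t → S = {a}) := by
  have hc : Fintype.card (Option R) = Fintype.card ι := by simp [hR]
  have hdd : ∀ a, aAN L a a = .item {a} (some a) := fun a => by simp [aAN]
  have hpr : ∀ i, (∃ j, aAN L i j = .pen) ↔ (st i).hi ≠ none := by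
    intro i
    constructor
    · rintro ⟨j, hj⟩ h0
      rcases aAN_cases L i j with ⟨_, h2⟩ | ⟨_, q, _, h2⟩ | ⟨h1, h2, _⟩
      · rw [h2] at hj; cases hj
      · rw [h2] at hj; cases hj
      · exact h1 (hL.1 i (by rw [h2, hdiag i, h0]))
    · intro h0
      obtain ⟨j, hj⟩ := (hL.surj hc i none).1
      refine ⟨j, ?_⟩
      rcases aAN_cases L i j with ⟨h1, _⟩ | ⟨_, q, h2, _⟩ | ⟨_, _, h3⟩
      · subst h1; rw [hdiag i] at hj; exact absurd hj h0
      · rw [hj] at h2; cases h2
      · exact h3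
  have hpc : ∀ i, (∃ j, aAN L j i = .pen) ↔ (st i).hi ≠ none := by
    intro i
    constructor
    · rintro ⟨j, hj⟩ h0
      rcases aAN_cases L j i with ⟨_, h2⟩ | ⟨_, q, _, h2⟩ | ⟨h1, h2, _⟩
      · rw [h2] at hj; cases hj
      · rw [h2] at hj; cases hj
      · exact h1 (hL.2 i (by show L j i = L i i; rw [h2, hdiag i, h0]))
    · intro h0
      obtain ⟨j, hj⟩ := (hL.surj hc i none).2
      refine ⟨j, ?_⟩
      rcases aAN_cases L j i with ⟨h1, _⟩ | ⟨_, q, h2, _⟩ | ⟨_, _, h3⟩
      · subst h1; rw [hdiag] at hj; exact absurd hj h0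
      · rw [hj] at h2; cases h2
      · exact h3
  have hS : Struct τ (fun i => (st i).row.1) (fun i => (st i).row.2.1) (aAN L) := by
    refine struct_of_overlay τ hR L hL _ _ _ (fun i => aA_nd1 _) (fun i => aA_nd2 _) ?_ ?_ ?_ ?_ ?_
      (fun i => (hpr i).trans (hpc i).symm) ?_
    · intro i j
      rcases aAN_cases L i j with ⟨_, h2⟩ | ⟨_, q, h1, h2⟩ | ⟨_, _, h2⟩
      · right; intro q; rw [h2]; simp
      · left; exact ⟨q, h2, h1⟩
      · right; intro q; rw [h2]; simp
    · intro i j j' h hn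
      rcases aAN_cases L i j with ⟨e, h2⟩ | ⟨_, q, h1, h2⟩ | ⟨_, e, h2⟩
      · rcases aAN_cases L i j' with ⟨e', h2'⟩ | ⟨_, q', h1', h2'⟩ | ⟨_, _, h2'⟩
        · rw [← e, ← e']
        · rw [h2, h2'] at h; cases h
        · rw [h2, h2'] at h; cases h
      · exact absurd h2 (hn q)
      · rcases aAN_cases L i j' with ⟨e', h2'⟩ | ⟨_, q', h1', h2'⟩ | ⟨_, e', h2'⟩
        · rw [h2, h2'] at h; cases h
        · rw [h2, h2'] at h; cases h
        · exact hL.1 i (by rw [e, e'])
    · intro j i i' h hn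
      rcases aAN_cases L i j with ⟨e, h2⟩ | ⟨_, q, h1, h2⟩ | ⟨_, e, h2⟩
      · rcases aAN_cases L i' j with ⟨e', h2'⟩ | ⟨_, q', h1', h2'⟩ | ⟨_, _, h2'⟩
        · rw [e, e']
        · rw [h2, h2'] at h; cases h
        · rw [h2, h2'] at h; cases h
      · exact absurd h2 (hn q)
      · rcases aAN_cases L i' j with ⟨e', h2'⟩ | ⟨_, q', h1', h2'⟩ | ⟨_, e', h2'⟩
        · rw [h2, h2'] at h; cases h
        · rw [h2, h2'] at h; cases h
        · exact hL.2 j (by show L i j = L i' j; rw [e, e'])
    · intro i q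
      rw [aA_mem1]
      constructor
      · intro h
        exact ⟨i, by rw [hdiag, h], fun q' => by rw [hdd]; simp⟩
      · rintro ⟨j, hj, hn⟩
        rcases aAN_cases L i j with ⟨e, _⟩ | ⟨_, q', _, h2⟩ | ⟨_, e, _⟩
        · subst e; rw [← hdiag]; exact hj
        · exact absurd h2 (hn q')
        · rw [e] at hj; cases hj
    · intro i q
      rw [aA_mem2]
      constructor
      · intro h
        exact ⟨i, by rw [hdiag, h], fun q' => by rw [hdd]; simp⟩
      · rintro ⟨j, hj, hn⟩
        rcases aAN_cases L j i with ⟨e, _⟩ | ⟨_, q', _, h2⟩ | ⟨_, e, _⟩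
        · subst e; rw [← hdiag]; exact hj
        · exact absurd h2 (hn q')
        · rw [e] at hj; cases hj
    · intro i j
      rcases aAN_cases L i j with ⟨e, h2⟩ | ⟨_, q, h1, h2⟩ | ⟨_, e, h2⟩
      · subst e
        rw [h2]
        refine ⟨by simp, by simp, ⟨by simp, ?_⟩, ?_⟩
        · intro l hl hne; simp only [mem_singleton] at hl; exact absurd hl hne
        · intro k hk
          simp only [mem_singleton] at hk
          subst hk
          exact ⟨⟨k, hdd k⟩, ⟨k, hdd k⟩⟩
      · rw [h2]; trivial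
      · rw [h2]; trivial
  have hhd : ∀ i, cnt (fun j => (aAN L i j).isHd i) = 0 := by
    intro i
    apply cnt_zero
    intro j
    rcases aAN_cases L i j with ⟨e, h2⟩ | ⟨_, q, h1, h2⟩ | ⟨_, e, h2⟩
    · rw [h2]; simp [CLab.isHd]
    · rw [h2]; rfl
    · rw [h2]; rfl
  have hsp : ∀ i, cnt (fun j => (aAN L i j).isSp) = 1 := by
    intro i
    apply cnt_one i
    · show (aAN L i i).isSp = true
      rw [hdd]; rfl
    · intro j hj
      rcases aAN_cases L i j with ⟨e, h2⟩ | ⟨_, q, h1, h2⟩ | ⟨_, e, h2⟩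
      · exact absurd e.symm hj
      · show (aAN L i j).isSp = false
        rw [h2]; rfl
      · show (aAN L i j).isSp = false
        rw [h2]; rfl
  have hpn0 : ∀ i, (st i).hi = none → cnt (fun j => (aAN L i j).isPen) = 0 := by
    intro i hi
    apply cnt_zero
    intro j
    rcases aAN_cases L i j with ⟨e, h2⟩ | ⟨_, q, h1, h2⟩ | ⟨_, e, h2⟩
    · rw [h2]; rfl
    · rw [h2]; rfl
    · exact absurd hi ((hpr i).1 ⟨j, h2⟩)
  have hpn1 : ∀ i, (st i).hi ≠ none → cnt (fun j => (aAN L i j).isPen) = 1 := by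
    intro i hi
    obtain ⟨j, hj⟩ := (hpr i).2 hi
    apply cnt_one j
    · show (aAN L i j).isPen = true
      rw [hj]; rfl
    · intro j' hj'
      rcases aAN_cases L i j' with ⟨e, h2⟩ | ⟨_, q, h1, h2⟩ | ⟨_, e, h2⟩
      · show (aAN L i j').isPen = false
        rw [h2]; rfl
      · show (aAN L i j').isPen = false
        rw [h2]; rfl
      · exact absurd (hS.rinj i j' j (by rw [h2, hj])) hj'
  refine ⟨aAN L, ⟨hS, ?_, ?_, ?_, ?_⟩, ?_, ?_⟩
  · intro i
    unfold Fv
    rw [hhd]
    rcases hst : st i with _ | _ | q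
    · rw [hpn0 i (by rw [hst]; rfl)]; simp [hst, RowSt.row]
    · rw [hpn0 i (by rw [hst]; rfl)]; simp [hst, RowSt.row]
    · rw [hpn1 i (by rw [hst]; simp [RowSt.hi])]; simp [hst, RowSt.row]
  · intro i
    unfold Sv
    rw [hsp]
    omega
  · intro i hcov
    unfold Sv
    rw [hsp]
    rcases hst : st i with _ | _ | q
    · rw [hst] at hcov; cases hcov
    · simp [hst, RowSt.row]
    · rw [hpn1 i (by rw [hst]; simp [RowSt.hi])]; simp [hst, RowSt.row]
  · intro i hcov
    unfold Fv
    rw [hhd]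
    rcases hst : st i with _ | _ | q
    · rw [hpn0 i (by rw [hst]; rfl)]; simp [hst, RowSt.row]
    · rw [hst] at hcov; cases hcov
    · rw [hst] at hcov; cases hcov
  · intro a b q hab h
    rcases aAN_cases L a b with ⟨e, _⟩ | ⟨_, q', h1, h2⟩ | ⟨_, e, _⟩
    · exact absurd e hab
    · rw [h] at h1; cases h1; exact h2
    · rw [h] at e; cases e
  · intro a b S t h
    rcases aAN_cases L a b with ⟨e, h2⟩ | ⟨_, q', h1, h2⟩ | ⟨_, e, h2⟩
    · rw [h2] at h; cases h; rfl
    · rw [h2] at h; cases h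
    · rw [h2] at h; cases h

private def aBN (u l : ι) (L : ι → ι → Option R) (a b : ι) : CLab ι R :=
  if a = b ∧ a ≠ u then .item {a} (some a) else
  if (a = u ∧ b = l) ∨ (a = l ∧ b = u) then .item {u, l} (some u) else (match L a b with
    | some q => .real q
    | none => .pen)

private theorem aBN_cases (u l : ι) (L : ι → ι → Option R) (hne : u ≠ l) (a b : ι) :
    (a = b ∧ a ≠ u ∧ aBN u l L a b = .item {a} (some a)) ∨
    (a = u ∧ b = l ∧ aBN u l L a b = .item {u, l} (some u)) ∨
    (a = l ∧ b = u ∧ aBN u l L a b = .item {u, l} (some u)) ∨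
    ((a = b → a = u) ∧ ¬ (a = u ∧ b = l) ∧ ¬ (a = l ∧ b = u) ∧
      ∃ q, L a b = some q ∧ aBN u l L a b = .real q) ∨
    ((a = b → a = u) ∧ ¬ (a = u ∧ b = l) ∧ ¬ (a = l ∧ b = u) ∧
      L a b = none ∧ aBN u l L a b = .pen) := by
  by_cases h : a = b ∧ a ≠ u
  · left; exact ⟨h.1, h.2, by unfold aBN; rw [if_pos h]⟩
  · right
    by_cases h1 : a = u ∧ b = l
    · left
      refine ⟨h1.1, h1.2, ?_⟩
      unfold aBN; rw [if_neg h, if_pos (Or.inl h1)]
    · right
      by_cases h2 : a = l ∧ b = u
      · left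
        refine ⟨h2.1, h2.2, ?_⟩
        unfold aBN; rw [if_neg h, if_pos (Or.inr h2)]
      · right
        have h3 : a = b → a = u := fun e => by
          by_contra h4; exact h ⟨e, h4⟩
        rcases hL : L a b with _ | q
        · right
          refine ⟨h3, h1, h2, rfl, ?_⟩
          unfold aBN; rw [if_neg h, if_neg (not_or.2 ⟨h1, h2⟩), hL]
        · left
          refine ⟨h3, h1, h2, q, rfl, ?_⟩
          unfold aBN; rw [if_neg h, if_neg (not_or.2 ⟨h1, h2⟩), hL]

/-- Array with one link with tail `u` and head `l`, where row `u` is not covered by a real colour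
and row `l` is: rungs at `(a,a)` for `a ≠ u`, the link at `(u,l)`, `(l,u)`, the cell `(u,u)` is
real, the other cells `none` of `L` are pendant. -/
theorem arrB (τ : ι → Bool) (hR : Fintype.card R + 1 = Fintype.card ι)
    (L : ι → ι → Option R) (hL : IsLatin L) (st : ι → RowSt R) (u l : ι) (hul : τ u ≠ τ l)
    (h1 : L u l = none) (h2 : L l u = none) (hdiag : ∀ a, a ≠ u → L a a = (st a).hi)
    (hu : (st u).hi = none) (hl : (st l).hi ≠ none) :
    ∃ N : ι → ι → CLab ι R, SS τ (fun i => (st i).row) (fun i => (st i).cov) N ∧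
      (∀ a b q, a ≠ b → L a b = some q → N a b = .real q) ∧
      (∀ a b S t, N a b = .item S t → S = {a} ∨ S = {u, l}) := by
  have hne : u ≠ l := fun h => hul (by rw [h])
  have hc : Fintype.card (Option R) = Fintype.card ι := by simp [hR]
  have hdd : ∀ a, a ≠ u → aBN u l L a a = .item {a} (some a) := fun a ha => by simp [aBN, ha]
  have hul1 : aBN u l L u l = .item {u, l} (some u) := by simp [aBN]
  have hlu1 : aBN u l L l u = .item {u, l} (some u) := by
    unfold aBN
    rw [if_neg (fun h => hne h.1.symm), if_pos (Or.inr ⟨rfl, rfl⟩)]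
  have hsing : ∀ a : ι, ({a} : Finset ι) ≠ {u, l} := by
    intro a h
    have hu' : u ∈ ({a} : Finset ι) := by rw [h]; simp
    have hl' : l ∈ ({a} : Finset ι) := by rw [h]; simp
    simp only [mem_singleton] at hu' hl'
    exact hne (hu'.trans hl'.symm)
  -- `none` cells of `L` in row / column `u`, `l`
  have hnu : ∀ b, L u b = none → b = l := fun b hb => hL.1 u (by rw [hb, h1])
  have hnu' : ∀ a, L a u = none → a = l := fun a ha => hL.2 u (by show L a u = L l u; rw [ha, h2])
  have hnl : ∀ b, L l b = none → b = u := fun b hb => hL.1 l (by rw [hb, h2])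
  have hnl' : ∀ a, L a l = none → a = u := fun a ha => hL.2 l (by show L a l = L u l; rw [ha, h1])
  have hpr : ∀ i, (∃ j, aBN u l L i j = .pen) ↔ ((st i).hi ≠ none ∧ i ≠ l) := by
    intro i
    constructor
    · rintro ⟨j, hj⟩
      rcases aBN_cases u l L hne i j with ⟨_, _, h⟩ | ⟨_, _, h⟩ | ⟨_, _, h⟩ | ⟨_, _, _, q, _, h⟩ |
        ⟨h3, h4, h5, h6, _⟩
      · rw [h] at hj; cases hj
      · rw [h] at hj; cases hj
      · rw [h] at hj; cases hj
      · rw [h] at hj; cases hj
      · have hil : i ≠ l := by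
          rintro rfl
          exact h5 ⟨rfl, hnl j h6⟩
        have hiu : i ≠ u := by
          rintro rfl
          exact h4 ⟨rfl, hnu j h6⟩
        refine ⟨fun h0 => ?_, hil⟩
        have : i = j := hL.1 i (by rw [h6, hdiag i hiu, h0])
        exact hiu (h3 this)
    · rintro ⟨h0, hil⟩
      have hiu : i ≠ u := by rintro rfl; exact h0 hu
      obtain ⟨j, hj⟩ := (hL.surj hc i none).1
      refine ⟨j, ?_⟩
      rcases aBN_cases u l L hne i j with ⟨h, _, _⟩ | ⟨h, _, _⟩ | ⟨h, _, _⟩ | ⟨_, _, _, q, h, _⟩ |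
        ⟨_, _, _, _, h⟩
      · subst h; rw [hdiag i hiu] at hj; exact absurd hj h0
      · exact absurd h hiu
      · exact absurd h hil
      · rw [hj] at h; cases h
      · exact h
  have hpc : ∀ i, (∃ j, aBN u l L j i = .pen) ↔ ((st i).hi ≠ none ∧ i ≠ l) := by
    intro i
    constructor
    · rintro ⟨j, hj⟩
      rcases aBN_cases u l L hne j i with ⟨_, _, h⟩ | ⟨_, _, h⟩ | ⟨_, _, h⟩ | ⟨_, _, _, q, _, h⟩ |
        ⟨h3, h4, h5, h6, _⟩
      · rw [h] at hj; cases hj
      · rw [h] at hj; cases hj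
      · rw [h] at hj; cases hj
      · rw [h] at hj; cases hj
      · have hil : i ≠ l := by
          rintro rfl
          exact h4 ⟨hnl' j h6, rfl⟩
        have hiu : i ≠ u := by
          rintro rfl
          exact h5 ⟨hnu' j h6, rfl⟩
        refine ⟨fun h0 => ?_, hil⟩
        have e : j = i := hL.2 i (by show L j i = L i i; rw [h6, hdiag i hiu, h0])
        exact hiu (e.symm.trans (h3 e))
    · rintro ⟨h0, hil⟩
      have hiu : i ≠ u := by rintro rfl; exact h0 hu
      obtain ⟨j, hj⟩ := (hL.surj hc i none).2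
      refine ⟨j, ?_⟩
      rcases aBN_cases u l L hne j i with ⟨h, _, _⟩ | ⟨_, h, _⟩ | ⟨_, h, _⟩ | ⟨_, _, _, q, h, _⟩ |
        ⟨_, _, _, _, h⟩
      · subst h; rw [hdiag j hiu] at hj; exact absurd hj h0
      · exact absurd h hil
      · exact absurd h hiu
      · rw [hj] at h; cases h
      · exact h
  have hS : Struct τ (fun i => (st i).row.1) (fun i => (st i).row.2.1) (aBN u l L) := by
    refine struct_of_overlay τ hR L hL _ _ _ (fun i => aA_nd1 _) (fun i => aA_nd2 _) ?_ ?_ ?_ ?_ ?_
      (fun i => (hpr i).trans (hpc i).symm) ?_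
    · intro i j
      rcases aBN_cases u l L hne i j with ⟨_, _, h⟩ | ⟨_, _, h⟩ | ⟨_, _, h⟩ | ⟨_, _, _, q, h', h⟩ |
        ⟨_, _, _, _, h⟩
      · right; intro q; rw [h]; simp
      · right; intro q; rw [h]; simp
      · right; intro q; rw [h]; simp
      · left; exact ⟨q, h, h'⟩
      · right; intro q; rw [h]; simp
    · intro i j j' he hn
      rcases aBN_cases u l L hne i j with ⟨e, eu, h⟩ | ⟨e, f, h⟩ | ⟨e, f, h⟩ | ⟨_, _, _, q, _, h⟩ |
        ⟨_, _, _, e, h⟩
      · rcases aBN_cases u l L hne i j' with ⟨e', _, h'⟩ | ⟨_, _, h'⟩ | ⟨_, _, h'⟩ |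
          ⟨_, _, _, q', _, h'⟩ | ⟨_, _, _, _, h'⟩
        · rw [← e, ← e']
        · rw [h, h'] at he; injection he with he1 _; exact absurd he1 (hsing i)
        · rw [h, h'] at he; injection he with he1 _; exact absurd he1 (hsing i)
        · rw [h, h'] at he; cases he
        · rw [h, h'] at he; cases he
      · rcases aBN_cases u l L hne i j' with ⟨e', _, h'⟩ | ⟨_, f', h'⟩ | ⟨e', _, h'⟩ |
          ⟨_, _, _, q', _, h'⟩ | ⟨_, _, _, _, h'⟩
        · rw [h, h'] at he; injection he with he1 _; exact absurd he1.symm (hsing i)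
        · rw [f, f']
        · exact absurd (e.symm.trans e') hne
        · rw [h, h'] at he; cases he
        · rw [h, h'] at he; cases he
      · rcases aBN_cases u l L hne i j' with ⟨e', _, h'⟩ | ⟨e', f', h'⟩ | ⟨e', f', h'⟩ |
          ⟨_, _, _, q', _, h'⟩ | ⟨_, _, _, _, h'⟩
        · rw [h, h'] at he; injection he with he1 _; exact absurd he1.symm (hsing i)
        · exact absurd (e'.symm.trans e) hne
        · rw [f, f']
        · rw [h, h'] at he; cases he
        · rw [h, h'] at he; cases he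
      · exact absurd h (hn q)
      · rcases aBN_cases u l L hne i j' with ⟨_, _, h'⟩ | ⟨_, _, h'⟩ | ⟨_, _, h'⟩ |
          ⟨_, _, _, q', _, h'⟩ | ⟨_, _, _, e', h'⟩
        · rw [h, h'] at he; cases he
        · rw [h, h'] at he; cases he
        · rw [h, h'] at he; cases he
        · rw [h, h'] at he; cases he
        · exact hL.1 i (by rw [e, e'])
    · intro j i i' he hn
      rcases aBN_cases u l L hne i j with ⟨e, eu, h⟩ | ⟨e, f, h⟩ | ⟨e, f, h⟩ | ⟨_, _, _, q, _, h⟩ |
        ⟨_, _, _, e, h⟩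
      · rcases aBN_cases u l L hne i' j with ⟨e', _, h'⟩ | ⟨_, _, h'⟩ | ⟨_, _, h'⟩ |
          ⟨_, _, _, q', _, h'⟩ | ⟨_, _, _, _, h'⟩
        · rw [e, e']
        · rw [h, h'] at he; injection he with he1 _; exact absurd he1 (hsing i)
        · rw [h, h'] at he; injection he with he1 _; exact absurd he1 (hsing i)
        · rw [h, h'] at he; cases he
        · rw [h, h'] at he; cases he
      · rcases aBN_cases u l L hne i' j with ⟨e', _, h'⟩ | ⟨e', _, h'⟩ | ⟨_, f', h'⟩ |
          ⟨_, _, _, q', _, h'⟩ | ⟨_, _, _, _, h'⟩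
        · rw [h, h'] at he; injection he with he1 _; exact absurd he1.symm (hsing i')
        · rw [e, e']
        · exact absurd (f'.symm.trans f) hne
        · rw [h, h'] at he; cases he
        · rw [h, h'] at he; cases he
      · rcases aBN_cases u l L hne i' j with ⟨e', _, h'⟩ | ⟨_, f', h'⟩ | ⟨e', f', h'⟩ |
          ⟨_, _, _, q', _, h'⟩ | ⟨_, _, _, _, h'⟩
        · rw [h, h'] at he; injection he with he1 _; exact absurd he1.symm (hsing i')
        · exact absurd (f.symm.trans f') hne
        · rw [e, e']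
        · rw [h, h'] at he; cases he
        · rw [h, h'] at he; cases he
      · exact absurd h (hn q)
      · rcases aBN_cases u l L hne i' j with ⟨_, _, h'⟩ | ⟨_, _, h'⟩ | ⟨_, _, h'⟩ |
          ⟨_, _, _, q', _, h'⟩ | ⟨_, _, _, e', h'⟩
        · rw [h, h'] at he; cases he
        · rw [h, h'] at he; cases he
        · rw [h, h'] at he; cases he
        · rw [h, h'] at he; cases he
        · exact hL.2 j (by show L i j = L i' j; rw [e, e'])
    · intro i q
      rw [aA_mem1]
      constructor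
      · intro h
        have hiu : i ≠ u := by rintro rfl; rw [hu] at h; cases h
        exact ⟨i, by rw [hdiag i hiu, h], fun q' => by rw [hdd i hiu]; simp⟩
      · rintro ⟨j, hj, hn⟩
        rcases aBN_cases u l L hne i j with ⟨e, eu, _⟩ | ⟨e, f, _⟩ | ⟨e, f, _⟩ |
          ⟨_, _, _, q', _, h⟩ | ⟨_, _, _, e, _⟩
        · subst e; rw [← hdiag i eu]; exact hj
        · subst e; subst f; rw [h1] at hj; cases hj
        · subst e; subst f; rw [h2] at hj; cases hj
        · exact absurd h (hn q')
        · rw [e] at hj; cases hj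
    · intro i q
      rw [aA_mem2]
      constructor
      · intro h
        have hiu : i ≠ u := by rintro rfl; rw [hu] at h; cases h
        exact ⟨i, by rw [hdiag i hiu, h], fun q' => by rw [hdd i hiu]; simp⟩
      · rintro ⟨j, hj, hn⟩
        rcases aBN_cases u l L hne j i with ⟨e, eu, _⟩ | ⟨e, f, _⟩ | ⟨e, f, _⟩ |
          ⟨_, _, _, q', _, h⟩ | ⟨_, _, _, e, _⟩
        · subst e; rw [← hdiag j eu]; exact hj
        · subst e; subst f; rw [h1] at hj; cases hj
        · subst e; subst f; rw [h2] at hj; cases hj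
        · exact absurd h (hn q')
        · rw [e] at hj; cases hj
    · intro i j
      have hlink : ∀ k ∈ ({u, l} : Finset ι), (∃ j', aBN u l L k j' = .item {u, l} (some u)) ∧
          (∃ i', aBN u l L i' k = .item {u, l} (some u)) := by
        intro k hk
        simp only [mem_insert, mem_singleton] at hk
        rcases hk with rfl | rfl
        · exact ⟨⟨l, hul1⟩, ⟨l, hlu1⟩⟩
        · exact ⟨⟨u, hlu1⟩, ⟨u, hul1⟩⟩
      have htail : TailOK τ ({u, l} : Finset ι) (some u) := by
        refine ⟨by simp, ?_⟩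
        intro k hk hku
        simp only [mem_insert, mem_singleton] at hk
        rcases hk with rfl | rfl
        · exact absurd rfl hku
        · exact fun h => hul h.symm
      rcases aBN_cases u l L hne i j with ⟨e, eu, h⟩ | ⟨e, f, h⟩ | ⟨e, f, h⟩ | ⟨_, _, _, q, _, h⟩ |
        ⟨_, _, _, e, h⟩
      · subst e
        rw [h]
        refine ⟨by simp, by simp, ⟨by simp, ?_⟩, ?_⟩
        · intro k hk hne'; simp only [mem_singleton] at hk; exact absurd hk hne'
        · intro k hk
          simp only [mem_singleton] at hk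
          subst hk
          exact ⟨⟨k, h⟩, ⟨k, h⟩⟩
      · rw [h]
        exact ⟨by simp [e], by simp [f], htail, hlink⟩
      · rw [h]
        exact ⟨by simp [e], by simp [f], htail, hlink⟩
      · rw [h]; trivial
      · rw [h]; trivial
  have hrow_u : ∀ b, b ≠ l → ∃ q, aBN u l L u b = .real q := by
    intro b hb
    rcases aBN_cases u l L hne u b with ⟨_, e, _⟩ | ⟨_, f, _⟩ | ⟨e, _, _⟩ | ⟨_, _, _, q, _, h⟩ |
        ⟨_, _, _, e, _⟩
    · exact absurd rfl e
    · exact absurd f hb
    · exact absurd e hne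
    · exact ⟨q, h⟩
    · exact absurd (hnu b e) hb
  have hrow_l : ∀ b, b ≠ l → b ≠ u → ∃ q, aBN u l L l b = .real q := by
    intro b hb hb'
    rcases aBN_cases u l L hne l b with ⟨e, _, _⟩ | ⟨_, f, _⟩ | ⟨_, f, _⟩ | ⟨_, _, _, q, _, h⟩ |
        ⟨_, _, _, e, _⟩
    · exact absurd e.symm hb
    · exact absurd f hb
    · exact absurd f hb'
    · exact ⟨q, h⟩
    · exact absurd (hnl b e) hb'
  have hrow_o : ∀ a, a ≠ u → a ≠ l → ∀ b, b ≠ a →
      (∃ q, aBN u l L a b = .real q) ∨ aBN u l L a b = .pen := by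
    intro a ha ha' b hb
    rcases aBN_cases u l L hne a b with ⟨e, _, _⟩ | ⟨e, f, _⟩ | ⟨e, f, _⟩ | ⟨_, _, _, q, _, h⟩ |
        ⟨_, _, _, e, h⟩
    · exact absurd e.symm hb
    · exact absurd e ha
    · exact absurd e ha'
    · exact Or.inl ⟨q, h⟩
    · exact Or.inr h
  have hpn0 : ∀ i, ((st i).hi = none ∨ i = l) → cnt (fun j => (aBN u l L i j).isPen) = 0 := by
    intro i hi
    apply cnt_zero
    intro j
    rcases hx : aBN u l L i j with q | _ | ⟨S, t⟩
    · rfl
    · exfalso
      have := (hpr i).1 ⟨j, hx⟩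
      rcases hi with h | h
      · exact this.1 h
      · exact this.2 h
    · rfl
  have hpn1 : ∀ i, (st i).hi ≠ none → i ≠ l → cnt (fun j => (aBN u l L i j).isPen) = 1 := by
    intro i hi hil
    obtain ⟨j, hj⟩ := (hpr i).2 ⟨hi, hil⟩
    apply cnt_one j
    · show (aBN u l L i j).isPen = true
      rw [hj]; rfl
    · intro j' hj'
      show (aBN u l L i j').isPen = false
      rcases hx : aBN u l L i j' with q | _ | ⟨S, t⟩
      · rfl
      · exact absurd (hS.rinj i j' j (by rw [hx, hj])) hj'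
      · rfl
  have hhd0 : ∀ i, i ≠ l → cnt (fun j => (aBN u l L i j).isHd i) = 0 := by
    intro i hil
    apply cnt_zero
    intro j
    rcases aBN_cases u l L hne i j with ⟨_, _, h⟩ | ⟨e, _, h⟩ | ⟨e, _, h⟩ | ⟨_, _, _, q, _, h⟩ |
        ⟨_, _, _, _, h⟩
    · rw [h]; simp [CLab.isHd]
    · rw [h]; simp [CLab.isHd, e]
    · exact absurd e hil
    · rw [h]; rfl
    · rw [h]; rfl
  have hhd1 : cnt (fun j => (aBN u l L l j).isHd l) = 1 := by
    apply cnt_one u
    · show (aBN u l L l u).isHd l = true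
      rw [hlu1]; simp [CLab.isHd, hne]
    · intro j hj
      show (aBN u l L l j).isHd l = false
      by_cases hjl : j = l
      · rw [hjl, hdd l (Ne.symm hne)]; simp [CLab.isHd]
      · obtain ⟨q, hq⟩ := hrow_l j hjl hj
        rw [hq]; rfl
  have hsp1 : ∀ i, i ≠ l → cnt (fun j => (aBN u l L i j).isSp) = 1 := by
    intro i hil
    by_cases hiu : i = u
    · subst hiu
      apply cnt_one l
      · show (aBN i l L i l).isSp = true
        rw [hul1]; rfl
      · intro j hj
        show (aBN i l L i j).isSp = false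
        obtain ⟨q, hq⟩ := hrow_u j hj
        rw [hq]; rfl
    · apply cnt_one i
      · show (aBN u l L i i).isSp = true
        rw [hdd i hiu]; rfl
      · intro j hj
        show (aBN u l L i j).isSp = false
        rcases hrow_o i hiu hil j hj with ⟨q, hq⟩ | hq
        · rw [hq]; rfl
        · rw [hq]; rfl
  have hsp2 : cnt (fun j => (aBN u l L l j).isSp) = 2 := by
    apply cnt_two l u (Ne.symm hne)
    · show (aBN u l L l l).isSp = true
      rw [hdd l (Ne.symm hne)]; rfl
    · show (aBN u l L l u).isSp = true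
      rw [hlu1]; rfl
    · intro j hj hj'
      show (aBN u l L l j).isSp = false
      obtain ⟨q, hq⟩ := hrow_l j hj hj'
      rw [hq]; rfl
  have hstl : ∃ q, st l = .high q := by
    rcases hst : st l with _ | _ | q
    · rw [hst] at hl; exact absurd rfl hl
    · rw [hst] at hl; exact absurd rfl hl
    · exact ⟨q, rfl⟩
  refine ⟨aBN u l L, ⟨hS, ?_, ?_, ?_, ?_⟩, ?_, ?_⟩
  · intro i
    unfold Fv
    by_cases hil : i = l
    · subst hil
      rw [hhd1, hpn0 i (Or.inr rfl)]
      obtain ⟨q, hq⟩ := hstl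
      simp [hq, RowSt.row]
    · rw [hhd0 i hil]
      rcases hst : st i with _ | _ | q
      · rw [hpn0 i (Or.inl (by rw [hst]; rfl))]; simp [hst, RowSt.row]
      · rw [hpn0 i (Or.inl (by rw [hst]; rfl))]; simp [hst, RowSt.row]
      · rw [hpn1 i (by rw [hst]; simp [RowSt.hi]) hil]; simp [hst, RowSt.row]
  · intro i
    unfold Sv
    by_cases hil : i = l
    · subst hil; rw [hsp2]; omega
    · rw [hsp1 i hil]; omega
  · intro i hcov
    unfold Sv
    by_cases hil : i = l
    · subst hil; rw [hsp2]; omega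
    · rw [hsp1 i hil]
      rcases hst : st i with _ | _ | q
      · rw [hst] at hcov; cases hcov
      · simp [hst, RowSt.row]
      · rw [hpn1 i (by rw [hst]; simp [RowSt.hi]) hil]; simp [hst, RowSt.row]
  · intro i hcov
    unfold Fv
    by_cases hil : i = l
    · subst hil
      obtain ⟨q, hq⟩ := hstl
      rw [hq] at hcov; cases hcov
    · rw [hhd0 i hil]
      rcases hst : st i with _ | _ | q
      · rw [hpn0 i (Or.inl (by rw [hst]; rfl))]; simp [hst, RowSt.row]
      · rw [hst] at hcov; cases hcov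
      · rw [hst] at hcov; cases hcov
  · intro a b q hab h
    rcases aBN_cases u l L hne a b with ⟨e, _, _⟩ | ⟨e, f, _⟩ | ⟨e, f, _⟩ | ⟨_, _, _, q', h', h''⟩ |
        ⟨_, _, _, e, _⟩
    · exact absurd e hab
    · subst e; subst f; rw [h1] at h; cases h
    · subst e; subst f; rw [h2] at h; cases h
    · rw [h] at h'; cases h'; exact h''
    · rw [h] at e; cases e
  · intro a b S t h
    rcases aBN_cases u l L hne a b with ⟨_, _, h'⟩ | ⟨_, _, h'⟩ | ⟨_, _, h'⟩ | ⟨_, _, _, q', _, h'⟩ |
        ⟨_, _, _, _, h'⟩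
    · rw [h'] at h; injection h with h3 _; exact Or.inl h3.symm
    · rw [h'] at h; injection h with h3 _; exact Or.inr h3.symm
    · rw [h'] at h; injection h with h3 _; exact Or.inr h3.symm
    · rw [h'] at h; cases h
    · rw [h'] at h; cases h

end W3a
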