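import Pool.Agent.W_MP_3a8340_co.ArrTools
import Pool.Agent.W_MP_66dfad_lc_h47.Konig

open Finset

namespace W3a

variable {ι R : Type} [Fintype ι] [DecidableEq ι] [Fintype R] [DecidableEq R]

/-- The two cyclic permutations. -/
theorem arrBad2_cycles (h4 : 4 ≤ Fintype.card ι) (m l : ι) (hml : m ≠ l) :
    ∃ f f' g g' : ι → ι,
      (∀ i j, (i ≠ l ∧ j = f i) ↔ (j ≠ l ∧ i = f' j)) ∧
      (∀ i j, (i ≠ m ∧ j = g i) ↔ (j ≠ m ∧ i = g' j)) ∧
      (∀ i, i ≠ l → f i ≠ i) ∧ (∀ i, i ≠ m → g i ≠ i) ∧ (∀ i, f i ≠ g i) ∧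
      (∀ i, i ≠ l → f' i ≠ i) ∧ (∀ i, i ≠ m → g' i ≠ i) ∧ (∀ i, f' i ≠ g' i) ∧
      (∀ i, f i ≠ l) ∧ (∀ i, f' i ≠ l) ∧ (∀ i, g i ≠ m) ∧ (∀ i, g' i ≠ m) := by
  classical
  set X := {x : ι // x ≠ m ∧ x ≠ l} with hX
  have hcard : Fintype.card X = Fintype.card ι - 2 := by
    rw [Fintype.card_subtype]
    have h1 : (univ.filter fun x : ι => x ≠ m ∧ x ≠ l) = univ \ {m, l} := by
      ext x
      simp
    rw [h1, Finset.card_sdiff_of_subset (subset_univ _), Finset.card_pair hml, Finset.card_univ]
  obtain ⟨k, hk⟩ : ∃ k, Fintype.card ι - 2 = k := ⟨_, rfl⟩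
  have hk2 : 2 ≤ k := by omega
  let e : X ≃ Fin k := Fintype.equivFinOfCardEq (hcard.trans hk)
  let p : ι → Fin (k + 1) := fun a => if h : a ≠ m ∧ a ≠ l then (e ⟨a, h⟩).succ else 0
  let v : Fin (k + 1) → ι := Fin.cases m (fun i => (e.symm i : ι))
  let w : Fin (k + 1) → ι := Fin.cases l (fun i => (e.symm i : ι))
  have hpm : p m = 0 := by simp [p]
  have hpl : p l = 0 := by simp [p]
  have hpx : ∀ i : Fin k, p (e.symm i) = i.succ := by
    intro i
    have h := (e.symm i).2
    simp [p, h]
  have hpv : ∀ t, p (v t) = t := by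
    intro t
    refine Fin.cases ?_ (fun i => ?_) t
    · exact hpm
    · exact hpx i
  have hpw : ∀ t, p (w t) = t := by
    intro t
    refine Fin.cases ?_ (fun i => ?_) t
    · exact hpl
    · exact hpx i
  have hvl : ∀ t, v t ≠ l := by
    intro t
    refine Fin.cases ?_ (fun i => ?_) t
    · exact hml
    · exact (e.symm i).2.2
  have hwm : ∀ t, w t ≠ m := by
    intro t
    refine Fin.cases ?_ (fun i => ?_) t
    · exact hml.symm
    · exact (e.symm i).2.1
  have hvp : ∀ a, a ≠ l → v (p a) = a := by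
    intro a ha
    by_cases hm : a = m
    · rw [hm, hpm]; rfl
    · have : p a = (e ⟨a, hm, ha⟩).succ := by simp [p, hm, ha]
      rw [this]
      show ((e.symm (e ⟨a, hm, ha⟩) : X) : ι) = a
      simp
  have hwp : ∀ a, a ≠ m → w (p a) = a := by
    intro a ha
    by_cases hl : a = l
    · rw [hl, hpl]; rfl
    · have : p a = (e ⟨a, ha, hl⟩).succ := by simp [p, ha, hl]
      rw [this]
      show ((e.symm (e ⟨a, ha, hl⟩) : X) : ι) = a
      simp
  have hone : (1 : Fin (k + 1)) ≠ 0 := by
    intro h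
    have := congrArg Fin.val h
    rw [Fin.val_one', Fin.val_zero, Nat.mod_eq_of_lt (by omega)] at this
    omega
  have htwo : (1 : Fin (k + 1)) + 1 ≠ 0 := by
    intro h
    have := congrArg Fin.val h
    rw [Fin.val_add, Fin.val_one', Fin.val_zero, Nat.mod_eq_of_lt (show 1 < k + 1 by omega),
      Nat.mod_eq_of_lt (by omega)] at this
    omega
  refine ⟨fun i => v (p i + 1), fun j => v (p j - 1), fun i => w (p i - 1), fun j => w (p j + 1),
    ?_, ?_, ?_, ?_, ?_, ?_, ?_, ?_, ?_, ?_, ?_, ?_⟩
  · intro i j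
    constructor
    · rintro ⟨hi, rfl⟩
      refine ⟨hvl _, ?_⟩
      simp only [hpv, add_sub_cancel_right, hvp i hi]
    · rintro ⟨hj, rfl⟩
      refine ⟨hvl _, ?_⟩
      simp only [hpv, sub_add_cancel, hvp j hj]
  · intro i j
    constructor
    · rintro ⟨hi, rfl⟩
      refine ⟨hwm _, ?_⟩
      simp only [hpw, sub_add_cancel, hwp i hi]
    · rintro ⟨hj, rfl⟩
      refine ⟨hwm _, ?_⟩
      simp only [hpw, add_sub_cancel_right, hwp j hj]
  · intro i _ h
    have := congrArg p h
    simp only [hpv] at this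
    exact hone (by simpa using this)
  · intro i _ h
    have := congrArg p h
    simp only [hpw] at this
    exact hone (by simpa using this)
  · intro i h
    have := congrArg p h
    simp only [hpv, hpw] at this
    apply htwo
    rw [sub_eq_add_neg, add_right_inj, eq_neg_iff_add_eq_zero] at this
    exact this
  · intro i _ h
    have := congrArg p h
    simp only [hpv] at this
    exact hone (by simpa using this)
  · intro i _ h
    have := congrArg p h
    simp only [hpw] at this
    exact hone (by simpa using this)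
  · intro i h
    have := congrArg p h
    simp only [hpv, hpw] at this
    apply htwo
    rw [sub_eq_add_neg, add_right_inj, eq_comm, eq_neg_iff_add_eq_zero] at this
    exact this
  · intro i; exact hvl _
  · intro i; exact hvl _
  · intro i; exact hwm _
  · intro i; exact hwm _

/-- All rows are covered with real colours, `q'` in row `m` and `q` in the others. -/
theorem arr_bad2 (τ : ι → Bool) (h4 : 4 ≤ Fintype.card ι)
    (hR : Fintype.card R + 1 = Fintype.card ι) (m l : ι) (hml : τ m ≠ τ l) (q q' : R)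
    (hq : q ≠ q') (st : ι → RowSt R) (hm : st m = .high q') (ho : ∀ a, a ≠ m → st a = .high q) :
    ∃ N : ι → ι → CLab ι R, SS τ (fun i => (st i).row) (fun i => (st i).cov) N := by
  classical
  have hne : m ≠ l := fun h => hml (by rw [h])
  obtain ⟨f, f', g, g', hf, hg, hfi, hgi, hfg, hfi', hgi', hfg', hfl, hfl', hgm, hgm'⟩ :=
    arrBad2_cycles h4 m l hne
  obtain ⟨d, hd⟩ : ∃ d, Fintype.card ι = d + 3 := ⟨Fintype.card ι - 3, by omega⟩
  -- the cells which are coloured by König
  let E : ι → ι → Prop := fun i j => i ≠ j ∧ ¬ (i = m ∧ j = l) ∧ ¬ (i = l ∧ j = m) ∧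
    ¬ (i ≠ l ∧ j = f i) ∧ ¬ (i ≠ m ∧ j = g i)
  have hrow : ∀ i, (univ.filter fun j => E i j).card = d := by
    intro i
    have key : ∀ a b c : ι, a ≠ b → a ≠ c → b ≠ c →
        (∀ j, E i j ↔ j ≠ a ∧ j ≠ b ∧ j ≠ c) → (univ.filter fun j => E i j).card = d := by
      intro a b c hab hac hbc h
      have h1 : (univ.filter fun j => E i j) = univ \ {a, b, c} := by
        ext j
        simp [h j]
      rw [h1, Finset.card_sdiff_of_subset (subset_univ _), Finset.card_univ, hd,
        Finset.card_eq_three.2 ⟨a, b, c, hab, hac, hbc, rfl⟩]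
      rfl
    by_cases him : i = m
    · subst him
      refine key i l (f i) hne (hfi i hne).symm (hfl i).symm fun j => ⟨?_, ?_⟩
      · rintro ⟨h1, h2, h3, h4', h5⟩
        exact ⟨fun h => h1 h.symm, fun h => h2 ⟨rfl, h⟩, fun h => h4' ⟨hne, h⟩⟩
      · rintro ⟨h1, h2, h3⟩
        exact ⟨fun h => h1 h.symm, fun h => h2 h.2, fun h => hne h.1, fun h => h3 h.2,
          fun h => h.1 rfl⟩
    · by_cases hil : i = l
      · subst hil
        refine key i m (g i) (Ne.symm hne) (hgi i him).symm (hgm i).symm fun j => ⟨?_, ?_⟩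
        · rintro ⟨h1, h2, h3, h4', h5⟩
          exact ⟨fun h => h1 h.symm, fun h => h3 ⟨rfl, h⟩, fun h => h5 ⟨him, h⟩⟩
        · rintro ⟨h1, h2, h3⟩
          exact ⟨fun h => h1 h.symm, fun h => him h.1, fun h => h2 h.2, fun h => h.1 rfl,
            fun h => h3 h.2⟩
      · refine key i (f i) (g i) (hfi i hil).symm (hgi i him).symm (hfg i) fun j => ⟨?_, ?_⟩
        · rintro ⟨h1, h2, h3, h4', h5⟩
          exact ⟨fun h => h1 h.symm, fun h => h4' ⟨hil, h⟩, fun h => h5 ⟨him, h⟩⟩
        · rintro ⟨h1, h2, h3⟩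
          exact ⟨fun h => h1 h.symm, fun h => him h.1, fun h => hil h.1, fun h => h2 h.2,
            fun h => h3 h.2⟩
  have hcol : ∀ j, (univ.filter fun i => E i j).card = d := by
    intro j
    have hE : ∀ i, E i j ↔ i ≠ j ∧ ¬ (i = m ∧ j = l) ∧ ¬ (i = l ∧ j = m) ∧
        ¬ (j ≠ l ∧ i = f' j) ∧ ¬ (j ≠ m ∧ i = g' j) := by
      intro i
      simp only [E, hf i j, hg i j]
    have key : ∀ a b c : ι, a ≠ b → a ≠ c → b ≠ c →
        (∀ i, E i j ↔ i ≠ a ∧ i ≠ b ∧ i ≠ c) → (univ.filter fun i => E i j).card = d := by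
      intro a b c hab hac hbc h
      have h1 : (univ.filter fun i => E i j) = univ \ {a, b, c} := by
        ext i
        simp [h i]
      rw [h1, Finset.card_sdiff_of_subset (subset_univ _), Finset.card_univ, hd,
        Finset.card_eq_three.2 ⟨a, b, c, hab, hac, hbc, rfl⟩]
      rfl
    by_cases hjm : j = m
    · subst hjm
      refine key j l (f' j) hne (hfi' j hne).symm (hfl' j).symm fun i => ?_
      rw [hE i]
      simp only [ne_eq, not_true_eq_false, false_and, not_false_eq_true, and_true, true_and,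
        hne, and_false]
    · by_cases hjl : j = l
      · subst hjl
        refine key j m (g' j) (Ne.symm hne) (hgi' j hjm).symm (hgm' j).symm fun i => ?_
        rw [hE i]
        simp only [ne_eq, not_true_eq_false, false_and, not_false_eq_true, and_true, true_and,
          hjm, and_false]
      · refine key j (f' j) (g' j) (hfi' j hjl).symm (hgi' j hjm).symm (hfg' j) fun i => ?_
        rw [hE i]
        simp only [ne_eq, hjm, hjl, and_false, not_false_eq_true, true_and]
  obtain ⟨c, hc1, hc2, hc3, hc4, hc5⟩ := Pool.Agent.W_MP_66dfad_lc_h47.konig E d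
    (fun i => (hrow i).le) (fun j => (hcol j).le)
  -- the colours
  have hRd : Fintype.card {r : R // r ≠ q ∧ r ≠ q'} = d := by
    rw [Fintype.card_subtype]
    have h1 : (univ.filter fun x : R => x ≠ q ∧ x ≠ q') = univ \ {q, q'} := by
      ext x
      simp
    rw [h1, Finset.card_sdiff_of_subset (subset_univ _), Finset.card_pair hq, Finset.card_univ]
    omega
  let ec : {r : R // r ≠ q ∧ r ≠ q'} ≃ Fin d := Fintype.equivFinOfCardEq hRd
  let col : ℕ → R := fun t => if h : t < d then (ec.symm ⟨t, h⟩ : R) else q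
  have hcolne : ∀ t, t < d → col t ≠ q ∧ col t ≠ q' := by
    intro t ht
    simp only [col, ht, dif_pos]
    exact (ec.symm ⟨t, ht⟩).2
  have hcolinj : ∀ t t', t < d → t' < d → col t = col t' → t = t' := by
    intro t t' ht ht' h
    simp only [col, ht, ht', dif_pos] at h
    have := ec.symm.injective (Subtype.ext h)
    simpa using this
  have hcolsurj : ∀ r, r ≠ q → r ≠ q' → ∃ t, t < d ∧ col t = r := by
    intro r h1 h2
    refine ⟨ec ⟨r, h1, h2⟩, (ec ⟨r, h1, h2⟩).2, ?_⟩
    simp [col]
  let N : ι → ι → CLab ι R := fun i j =>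
    if i = j then (if i = m then .real q else .item {i} (some i))
    else if (i = m ∧ j = l) ∨ (i = l ∧ j = m) then .item {m, l} (some m)
    else if i ≠ l ∧ j = f i then .pen
    else if i ≠ m ∧ j = g i then .real q'
    else .real (col (c i j))
  have nA : N m m = .real q := by simp [N]
  have nA' : ∀ i, i ≠ m → N i i = .item {i} (some i) := by
    intro i hi
    simp [N, hi]
  have nB : N m l = .item {m, l} (some m) := by simp [N, hne]
  have nB' : N l m = .item {m, l} (some m) := by simp [N, hne.symm]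
  have nC : ∀ i j, i ≠ l → j = f i → N i j = .pen := by
    intro i j hi hj
    have h1 : i ≠ j := by rw [hj]; exact (hfi i hi).symm
    have h2 : ¬ ((i = m ∧ j = l) ∨ (i = l ∧ j = m)) := by
      rintro (⟨-, h⟩ | ⟨h, -⟩)
      · exact hfl i (hj ▸ h)
      · exact hi h
    simp only [N]
    rw [if_neg h1, if_neg h2, if_pos ⟨hi, hj⟩]
  have nD : ∀ i j, i ≠ m → j = g i → N i j = .real q' := by
    intro i j hi hj
    have h1 : i ≠ j := by rw [hj]; exact (hgi i hi).symm
    have h2 : ¬ ((i = m ∧ j = l) ∨ (i = l ∧ j = m)) := by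
      rintro (⟨h, -⟩ | ⟨-, h⟩)
      · exact hi h
      · exact hgm i (hj ▸ h)
    have h3 : ¬ (i ≠ l ∧ j = f i) := fun h => hfg i (h.2.symm.trans hj)
    simp only [N]
    rw [if_neg h1, if_neg h2, if_neg h3, if_pos ⟨hi, hj⟩]
  have nE : ∀ i j, E i j → N i j = .real (col (c i j)) := by
    intro i j h
    obtain ⟨h1, h2, h3, h4', h5⟩ := h
    have h6 : ¬ ((i = m ∧ j = l) ∨ (i = l ∧ j = m)) := by
      rintro (h | h)
      · exact h2 h
      · exact h3 h
    simp only [N]
    rw [if_neg h1, if_neg h6, if_neg h4', if_neg h5]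
  have hcases : ∀ i j, (i = m ∧ j = m) ∨ (i ≠ m ∧ j = i) ∨ (i = m ∧ j = l) ∨ (i = l ∧ j = m) ∨
      (i ≠ l ∧ j = f i) ∨ (i ≠ m ∧ j = g i) ∨ E i j := by
    intro i j
    by_cases h1 : i = j
    · by_cases h2 : i = m
      · exact Or.inl ⟨h2, h1 ▸ h2⟩
      · exact Or.inr (Or.inl ⟨h2, h1.symm⟩)
    · by_cases h2 : i = m ∧ j = l
      · exact Or.inr (Or.inr (Or.inl h2))
      · by_cases h3 : i = l ∧ j = m
        · exact Or.inr (Or.inr (Or.inr (Or.inl h3)))
        · by_cases h4' : i ≠ l ∧ j = f i
          · exact Or.inr (Or.inr (Or.inr (Or.inr (Or.inl h4'))))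
          · by_cases h5 : i ≠ m ∧ j = g i
            · exact Or.inr (Or.inr (Or.inr (Or.inr (Or.inr (Or.inl h5)))))
            · exact Or.inr (Or.inr (Or.inr (Or.inr (Or.inr (Or.inr ⟨h1, h2, h3, h4', h5⟩)))))
  -- characterisation of the labels
  have kpen : ∀ i j, N i j = .pen ↔ (i ≠ l ∧ j = f i) := by
    intro i j
    constructor
    · intro h
      rcases hcases i j with ⟨rfl, rfl⟩ | ⟨h1, rfl⟩ | ⟨rfl, rfl⟩ | ⟨rfl, rfl⟩ | h1 | ⟨h1, h2⟩ | h1
      · rw [nA] at h; cases h
      · rw [nA' _ h1] at h; cases h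
      · rw [nB] at h; cases h
      · rw [nB'] at h; cases h
      · exact h1
      · rw [nD _ _ h1 h2] at h; cases h
      · rw [nE _ _ h1] at h; cases h
    · rintro ⟨h1, h2⟩
      exact nC i j h1 h2
  have kq : ∀ i j, N i j = .real q ↔ (i = m ∧ j = m) := by
    intro i j
    constructor
    · intro h
      rcases hcases i j with h1 | ⟨h1, rfl⟩ | ⟨rfl, rfl⟩ | ⟨rfl, rfl⟩ | ⟨h1, h2⟩ | ⟨h1, h2⟩ | h1
      · exact h1
      · rw [nA' _ h1] at h; cases h
      · rw [nB] at h; cases h
      · rw [nB'] at h; cases h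
      · rw [nC _ _ h1 h2] at h; cases h
      · rw [nD _ _ h1 h2] at h
        cases h
        exact absurd rfl hq
      · rw [nE _ _ h1] at h
        injection h with h'
        exact absurd h' (hcolne _ (hc1 i j h1)).1
    · rintro ⟨rfl, rfl⟩
      exact nA
  have kq' : ∀ i j, N i j = .real q' ↔ (i ≠ m ∧ j = g i) := by
    intro i j
    constructor
    · intro h
      rcases hcases i j with ⟨rfl, rfl⟩ | ⟨h1, rfl⟩ | ⟨rfl, rfl⟩ | ⟨rfl, rfl⟩ | ⟨h1, h2⟩ | h1 | h1
      · rw [nA] at h
        cases h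
        exact absurd rfl hq
      · rw [nA' _ h1] at h; cases h
      · rw [nB] at h; cases h
      · rw [nB'] at h; cases h
      · rw [nC _ _ h1 h2] at h; cases h
      · exact h1
      · rw [nE _ _ h1] at h
        injection h with h'
        exact absurd h' (hcolne _ (hc1 i j h1)).2
    · rintro ⟨h1, h2⟩
      exact nD i j h1 h2
  have kr : ∀ r, r ≠ q → r ≠ q' → ∀ i j, N i j = .real r ↔ (E i j ∧ col (c i j) = r) := by
    intro r hr hr' i j
    constructor
    · intro h
      rcases hcases i j with ⟨rfl, rfl⟩ | ⟨h1, rfl⟩ | ⟨rfl, rfl⟩ | ⟨rfl, rfl⟩ | ⟨h1, h2⟩ |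
        ⟨h1, h2⟩ | h1
      · rw [nA] at h
        injection h with h'
        exact absurd h'.symm hr
      · rw [nA' _ h1] at h; cases h
      · rw [nB] at h; cases h
      · rw [nB'] at h; cases h
      · rw [nC _ _ h1 h2] at h; cases h
      · rw [nD _ _ h1 h2] at h
        injection h with h'
        exact absurd h'.symm hr'
      · rw [nE _ _ h1] at h
        injection h with h'
        exact ⟨h1, h'⟩
    · rintro ⟨h1, h2⟩
      rw [nE _ _ h1, h2]
  have kitem : ∀ i j S t, N i j = .item S t → (i ≠ m ∧ j = i ∧ S = {i} ∧ t = some i) ∨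
      (((i = m ∧ j = l) ∨ (i = l ∧ j = m)) ∧ S = {m, l} ∧ t = some m) := by
    intro i j S t h
    rcases hcases i j with ⟨rfl, rfl⟩ | ⟨h1, rfl⟩ | ⟨rfl, rfl⟩ | ⟨rfl, rfl⟩ | ⟨h1, h2⟩ |
        ⟨h1, h2⟩ | h1
    · rw [nA] at h; cases h
    · rw [nA' _ h1] at h
      injection h with h2 h3
      exact Or.inl ⟨h1, rfl, h2.symm, h3.symm⟩
    · rw [nB] at h
      injection h with h2 h3
      exact Or.inr ⟨Or.inl ⟨rfl, rfl⟩, h2.symm, h3.symm⟩
    · rw [nB'] at h
      injection h with h2 h3
      exact Or.inr ⟨Or.inr ⟨rfl, rfl⟩, h2.symm, h3.symm⟩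
    · rw [nC _ _ h1 h2] at h; cases h
    · rw [nD _ _ h1 h2] at h; cases h
    · rw [nE _ _ h1] at h; cases h
  have hpairne : ∀ i : ι, ({i} : Finset ι) ≠ {m, l} := by
    intro i h
    have := congrArg Finset.card h
    rw [Finset.card_singleton, Finset.card_pair hne] at this
    omega
  -- statuses
  have hra : ∀ i, (fun i => (st i).row) i = if i = m then ({q'}, {q'}, 0, 0, 0) else
      (({q}, {q}, 0, 0, 0) : RowIn R) := by
    intro i
    by_cases hi : i = m
    · subst hi
      simp [hm, RowSt.row]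
    · simp [ho i hi, hi, RowSt.row]
  have hra1 : ∀ i r, r ∈ ((st i).row).1 ↔ (if i = m then r = q' else r = q) := by
    intro i r
    have := hra i
    simp only at this
    rw [this]
    by_cases hi : i = m
    · simp [hi]
    · simp [hi]
  have hrb1 : ∀ i r, r ∈ ((st i).row).2.1 ↔ (if i = m then r = q' else r = q) := by
    intro i r
    have := hra i
    simp only at this
    rw [this]
    by_cases hi : i = m
    · simp [hi]
    · simp [hi]
  have hz : ∀ i, ((st i).row).2.2.1 = 0 ∧ ((st i).row).2.2.2.1 = 0 ∧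
      ((st i).row).2.2.2.2 = 0 := by
    intro i
    have := hra i
    simp only at this
    rw [this]
    by_cases hi : i = m
    · simp [hi]
    · simp [hi]
  have hcov : ∀ i, (st i).cov = true := by
    intro i
    by_cases hi : i = m
    · subst hi
      rw [hm]; rfl
    · rw [ho i hi]; rfl
  -- counting
  have hd1 : ∀ i j, (N i j).isHd i = true ↔ (i = l ∧ j = m) := by
    intro i j
    constructor
    · intro h
      cases hN : N i j with
      | real r => rw [hN] at h; simp [CLab.isHd] at h
      | pen => rw [hN] at h; simp [CLab.isHd] at h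
      | item S t =>
        rcases kitem i j S t hN with ⟨_, _, _, h4'⟩ | ⟨h1, _, h4'⟩
        · rw [hN, h4'] at h
          simp [CLab.isHd] at h
        · rw [hN, h4'] at h
          rcases h1 with ⟨h1, h2⟩ | ⟨h1, h2⟩
          · subst h1
            simp [CLab.isHd] at h
          · exact ⟨h1, h2⟩
    · rintro ⟨rfl, rfl⟩
      rw [nB']
      simp [CLab.isHd, hne]
  have hpen1 : ∀ i j, (N i j).isPen = true ↔ (i ≠ l ∧ j = f i) := by
    intro i j
    rw [← kpen i j]
    cases N i j <;> simp [CLab.isPen]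
  have hF : ∀ i, Fv (fun i => (st i).row) N i ≤ 1 := by
    intro i
    unfold Fv
    simp only [(hz i).1, (hz i).2.1, add_zero]
    by_cases hi : i = l
    · rw [cnt_zero (f := fun j => (N i j).isPen) fun j => by
        rw [Bool.eq_false_iff]
        intro h
        exact ((hpen1 i j).1 h).1 hi, zero_add]
      exact cnt_le_one fun j j' h h' => by
        rw [((hd1 i j).1 h).2, ((hd1 i j').1 h').2]
    · rw [cnt_zero (f := fun j => (N i j).isHd i) fun j => by
        rw [Bool.eq_false_iff]
        intro h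
        exact hi ((hd1 i j).1 h).1, add_zero]
      exact cnt_le_one fun j j' h h' => by
        rw [((hpen1 i j).1 h).2, ((hpen1 i j').1 h').2]
  have hS : ∀ i, 2 ≤ Sv (fun i => (st i).row) N i := by
    intro i
    unfold Sv
    simp only [(hz i).1, (hz i).2.2, add_zero]
    by_cases hi : i = l
    · subst hi
      have h1 : 2 ≤ cnt fun j => (N i j).isSp := by
        refine cnt_two_le i m hne.symm ?_ ?_
        · simp [nA' i hne.symm, CLab.isSp]
        · simp [nB', CLab.isSp]
      omega
    · have h1 : 1 ≤ cnt fun j => (N i j).isPen := cnt_pos (f i) ((hpen1 i (f i)).2 ⟨hi, rfl⟩)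
      have h2 : 1 ≤ cnt fun j => (N i j).isSp := by
        by_cases him : i = m
        · subst him
          exact cnt_pos l (by simp [nB, CLab.isSp])
        · exact cnt_pos i (by simp [nA' i him, CLab.isSp])
      omega
  refine ⟨N, ⟨?_, hF, fun i => (hS i).trans' (by norm_num), fun i _ => hS i, fun i h => ?_⟩⟩
  swap
  · rw [hcov i] at h
    cases h
  refine ⟨?_, ?_, ?_, ?_, ?_, ?_, ?_, ?_⟩
  · -- rinj
    intro i j j' h
    cases hN : N i j with
    | pen =>
      have h1 := (kpen i j).1 hN
      have h2 := (kpen i j').1 (h ▸ hN)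
      rw [h1.2, h2.2]
    | item S t =>
      rcases kitem i j S t hN with ⟨h1, h2, h3, _⟩ | ⟨h1, h3, _⟩ <;>
        rcases kitem i j' S t (h ▸ hN) with ⟨h1', h2', h3', _⟩ | ⟨h1', h3', _⟩
      · rw [h2, h2']
      · exact absurd (h3.symm.trans h3') (hpairne i)
      · exact absurd (h3'.symm.trans h3) (hpairne i)
      · rcases h1 with ⟨a, b⟩ | ⟨a, b⟩ <;> rcases h1' with ⟨a', b'⟩ | ⟨a', b'⟩
        · rw [b, b']
        · exact absurd (a.symm.trans a') hne
        · exact absurd (a'.symm.trans a) hne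
        · rw [b, b']
    | real r =>
      by_cases h1 : r = q
      · subst h1
        rw [((kq i j).1 hN).2, ((kq i j').1 (h ▸ hN)).2]
      · by_cases h2 : r = q'
        · subst h2
          rw [((kq' i j).1 hN).2, ((kq' i j').1 (h ▸ hN)).2]
        · have h3 := (kr r h1 h2 i j).1 hN
          have h4' := (kr r h1 h2 i j').1 (h ▸ hN)
          refine hc2 i j j' h3.1 h4'.1 (hcolinj _ _ (hc1 _ _ h3.1) (hc1 _ _ h4'.1) ?_)
          rw [h3.2, h4'.2]
  · -- cinj
    intro j i i' h
    cases hN : N i j with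
    | pen =>
      have h1 := (hf i j).1 ((kpen i j).1 hN)
      have h2 := (hf i' j).1 ((kpen i' j).1 (h ▸ hN))
      rw [h1.2, h2.2]
    | item S t =>
      rcases kitem i j S t hN with ⟨h1, h2, h3, _⟩ | ⟨h1, h3, _⟩ <;>
        rcases kitem i' j S t (h ▸ hN) with ⟨h1', h2', h3', _⟩ | ⟨h1', h3', _⟩
      · rw [← h2, ← h2']
      · exact absurd (h3.symm.trans h3') (hpairne i)
      · exact absurd (h3'.symm.trans h3) (hpairne i')
      · rcases h1 with ⟨a, b⟩ | ⟨a, b⟩ <;> rcases h1' with ⟨a', b'⟩ | ⟨a', b'⟩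
        · rw [a, a']
        · exact absurd (b'.symm.trans b) hne
        · exact absurd (b.symm.trans b') hne
        · rw [a, a']
    | real r =>
      by_cases h1 : r = q
      · subst h1
        rw [((kq i j).1 hN).1, ((kq i' j).1 (h ▸ hN)).1]
      · by_cases h2 : r = q'
        · subst h2
          rw [((hg i j).1 ((kq' i j).1 hN)).2, ((hg i' j).1 ((kq' i' j).1 (h ▸ hN))).2]
        · have h3 := (kr r h1 h2 i j).1 hN
          have h4' := (kr r h1 h2 i' j).1 (h ▸ hN)
          refine hc3 i i' j h3.1 h4'.1 (hcolinj _ _ (hc1 _ _ h3.1) (hc1 _ _ h4'.1) ?_)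
          rw [h3.2, h4'.2]
  · intro i
    have := hra i
    simp only at this
    show ((st i).row).1.Nodup
    rw [this]
    by_cases hi : i = m <;> simp [hi]
  · intro i
    have := hra i
    simp only at this
    show ((st i).row).2.1.Nodup
    rw [this]
    by_cases hi : i = m <;> simp [hi]
  · -- rowa
    intro i r
    rw [hra1 i r]
    by_cases h1 : r = q
    · subst h1
      simp only [kq]
      by_cases hi : i = m
      · simp [hi, hq]
      · simp [hi]
    · by_cases h2 : r = q'
      · subst h2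
        simp only [kq']
        by_cases hi : i = m
        · simp [hi]
        · simp [hi, h1]
      · simp only [kr r h1 h2]
        have hR' : ¬ (if i = m then r = q' else r = q) := by
          split_ifs
          · exact h2
          · exact h1
        refine iff_of_true ?_ hR'
        obtain ⟨t, ht, htr⟩ := hcolsurj r h1 h2
        obtain ⟨j, hj, hj'⟩ := hc4 i (hrow i) t ht
        exact ⟨j, hj, by rw [hj', htr]⟩
  · -- rowb
    intro j r
    rw [hrb1 j r]
    by_cases h1 : r = q
    · subst h1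
      simp only [kq]
      by_cases hj : j = m
      · simp [hj, hq]
      · simp [hj]
    · by_cases h2 : r = q'
      · subst h2
        simp only [kq', hg]
        by_cases hj : j = m
        · simp [hj]
        · simp [hj, h1]
      · simp only [kr r h1 h2]
        have hR' : ¬ (if j = m then r = q' else r = q) := by
          split_ifs
          · exact h2
          · exact h1
        refine iff_of_true ?_ hR'
        obtain ⟨t, ht, htr⟩ := hcolsurj r h1 h2
        obtain ⟨i, hi, hi'⟩ := hc5 j (hcol j) t ht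
        exact ⟨i, hi, by rw [hi', htr]⟩
  · -- pen
    intro i
    have h1 : (∃ j, N i j = .pen) ↔ i ≠ l := by
      constructor
      · rintro ⟨j, hj⟩
        exact ((kpen i j).1 hj).1
      · intro h
        exact ⟨f i, (kpen i (f i)).2 ⟨h, rfl⟩⟩
    have h2 : (∃ j, N j i = .pen) ↔ i ≠ l := by
      constructor
      · rintro ⟨j, hj⟩
        exact ((hf j i).1 ((kpen j i).1 hj)).1
      · intro h
        exact ⟨f' i, (kpen (f' i) i).2 ((hf (f' i) i).2 ⟨h, rfl⟩)⟩
    rw [h1, h2]
  · -- item
    intro i j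
    cases hN : N i j with
    | pen => trivial
    | real r => trivial
    | item S t =>
      rcases kitem i j S t hN with ⟨h1, h2, h3, h4'⟩ | ⟨h1, h3, h4'⟩
      · subst h2 h3 h4'
        refine ⟨by simp, by simp, ⟨by simp, ?_⟩, ?_⟩
        · intro x hx hxne
          rw [Finset.mem_singleton] at hx
          exact absurd hx hxne
        · intro x hx
          rw [Finset.mem_singleton] at hx
          subst hx
          exact ⟨⟨x, nA' x h1⟩, ⟨x, nA' x h1⟩⟩
      · subst h3 h4'
        have hmem : i ∈ ({m, l} : Finset ι) ∧ j ∈ ({m, l} : Finset ι) := by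
          rcases h1 with ⟨a, b⟩ | ⟨a, b⟩ <;> simp [a, b]
        refine ⟨hmem.1, hmem.2, ⟨by simp, ?_⟩, ?_⟩
        · intro x hx hxne
          rw [Finset.mem_insert, Finset.mem_singleton] at hx
          rcases hx with hx | hx
          · exact absurd hx hxne
          · rw [hx]; exact hml.symm
        · intro x hx
          rw [Finset.mem_insert, Finset.mem_singleton] at hx
          rcases hx with hx | hx
          · subst hx
            exact ⟨⟨l, nB⟩, ⟨l, nB'⟩⟩
          · subst hx
            exact ⟨⟨m, nB'⟩, ⟨m, nB⟩⟩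

end W3a
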