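import Pool.Agent.W_MP_3a8340_co.Latin
import Pool.Agent.W_MP_3a8340_co.ArrA
import Pool.Agent.W_MP_3a8340_co.ArrBad2

open Finset

namespace W3a

variable {ι R : Type} [Fintype ι] [DecidableEq ι] [Fintype R] [DecidableEq R]

private theorem ss_other (τ : ι → Bool)
    (hτ : ∀ b, 2 ≤ (univ.filter fun l => τ l = b).card) (m : ι) : ∃ u, τ u ≠ τ m := by
  have h := hτ (!τ m)
  have hne : (univ.filter fun l => τ l = !τ m).Nonempty := by
    rw [← Finset.card_pos]; omega
  obtain ⟨u, hu⟩ := hne
  refine ⟨u, ?_⟩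
  rw [Finset.mem_filter] at hu
  rw [hu.2]
  cases τ m <;> simp

private theorem ss_hi_some {R : Type} {s : RowSt R} {q : R} (h : s.hi = some q) :
    s = .high q := by
  cases s with
  | dflt => simp [RowSt.hi] at h
  | low => simp [RowSt.hi] at h
  | high q' => simp only [RowSt.hi, Option.some.injEq] at h; rw [h]

/-- Self-sufficient arrays for all statuses, `n ≥ 4`. -/
theorem ss_std (τ : ι → Bool) (h4 : 4 ≤ Fintype.card ι)
    (hR : Fintype.card R + 1 = Fintype.card ι)
    (hτ : ∀ b, 2 ≤ (univ.filter fun l => τ l = b).card) (st : ι → RowSt R) :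
    ∃ N : ι → ι → CLab ι R, SS τ (fun i => (st i).row) (fun i => (st i).cov) N := by
  have hc : Fintype.card (Option R) = Fintype.card ι := by simp [hR]
  by_cases hbad : ∃ m c, (∀ l, l ≠ m → (st l).hi = c) ∧ (st m).hi ≠ c
  · obtain ⟨m, c, hl, hm⟩ := hbad
    obtain ⟨u, hu⟩ := ss_other τ hτ m
    have hum : u ≠ m := fun h => hu (by rw [h])
    cases c with
    | none =>
      obtain ⟨q, hq⟩ := Option.ne_none_iff_exists'.mp hm
      obtain ⟨L, hL, h1, h2, h3, h4'⟩ := latin_z3 hc none (some q) (by simp) m u hum.symm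
      obtain ⟨N, hN, -⟩ := arrB τ hR L hL st u m hu h2 h1 (fun a ha => by
        by_cases ham : a = m
        · rw [ham, h4', hq]
        · rw [h3 a ham ha, hl a ham]) (hl u hum) hm
      exact ⟨N, hN⟩
    | some q =>
      by_cases hm0 : (st m).hi = none
      · obtain ⟨L, hL, h1, h2, h3⟩ := latin_z7 hc h4 (some q) none none (by simp) (by simp) m u
          hum.symm
        obtain ⟨N, hN, -⟩ := arrB τ hR L hL st m u hu.symm h2 h3 (fun a ha => by
          rw [h1, hl a ha]) hm0 (by rw [hl u hum]; simp)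
        exact ⟨N, hN⟩
      · obtain ⟨q', hq'⟩ := Option.ne_none_iff_exists'.mp hm0
        refine arr_bad2 τ h4 hR m u hu.symm q q' (fun h => hm (by rw [hq', h])) st
          (ss_hi_some hq') (fun a ha => ss_hi_some (hl a ha))
  · obtain ⟨L, hL, hd⟩ := chang hc (fun l => (st l).hi) hbad
    obtain ⟨N, hN, -⟩ := arrA τ hR L hL st hd
    exact ⟨N, hN⟩

end W3a
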