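import Pool.Agent.W_MP_3a8340_co.ArrTools

open Finset

namespace W3a

variable {ι R : Type} [Fintype ι] [DecidableEq ι] [Fintype R] [DecidableEq R]

omit [Fintype R] [DecidableEq R] in
private theorem arrW_cnt_upd {f g : ι → Bool} (j0 : ι) (h : ∀ j, j ≠ j0 → f j = g j)
    (hf : f j0 = true) (hg : g j0 = false) : cnt f = cnt g + 1 := by
  unfold cnt
  have h1 : univ.filter (fun j => f j = true) = insert j0 (univ.filter (fun j => g j = true)) := by
    ext j
    simp only [mem_filter, mem_univ, true_and, mem_insert]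
    by_cases hj : j = j0
    · subst hj
      simp [hf]
    · simp [hj, h j hj]
  rw [h1, Finset.card_insert_of_notMem]
  simp [hg]

omit [DecidableEq ι] in
private theorem arrW_cnt_congr {f g : ι → Bool} (h : ∀ j, f j = g j) : cnt f = cnt g := by
  have : f = g := funext h
  rw [this]

/-- Crossing at a non-`K` vertex: the real cells `(i,k)`, `(k,i)` are replaced by a link. -/
theorem cross_w (τ : ι → Bool) (st : ι → RowSt R) (N : ι → ι → CLab ι R)
    (hN : SS τ (fun i => (st i).row) (fun i => (st i).cov) N) (i k : ι) (hik : τ k ≠ τ i)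
    (hi : st i ≠ .dflt) (α β : R) (hα : N i k = .real α) (hβ : N k i = .real β)
    (hno : ∀ a b t, N a b ≠ .item {i, k} t) :
    ∃ N' : ι → ι → CLab ι R,
      Struct τ (fun l => (st l).row.1 + (if l = i then {α} else if l = k then {β} else 0))
        (fun l => (st l).row.2.1 + (if l = i then {β} else if l = k then {α} else 0)) N' ∧
      (∀ l, Fv (fun i => (st i).row) N' l ≤ 1) ∧ (∀ l, 1 ≤ Sv (fun i => (st i).row) N' l) ∧
      2 ≤ Sv (fun i => (st i).row) N' i ∧ 2 ≤ Sv (fun i => (st i).row) N' k ∧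
      (∀ l, (st l).cov = false → l ≠ k → Fv (fun i => (st i).row) N' l = 0) := by
  have hne : k ≠ i := fun h => hik (by rw [h])
  have hne' : i ≠ k := hne.symm
  obtain ⟨t, ht⟩ : ∃ t : Option ι, t = if st k = .dflt then some i else none := ⟨_, rfl⟩
  obtain ⟨N', hN'⟩ : ∃ N' : ι → ι → CLab ι R, N' = fun a b =>
    if (a = i ∧ b = k) ∨ (a = k ∧ b = i) then CLab.item {i, k} t else N a b := ⟨_, rfl⟩
  have e1 : N' i k = .item {i, k} t := by rw [hN']; simp
  have e2 : N' k i = .item {i, k} t := by rw [hN']; simp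
  have e3 : ∀ a b, ¬ ((a = i ∧ b = k) ∨ (a = k ∧ b = i)) → N' a b = N a b := by
    intro a b h
    rw [hN']
    exact if_neg h
  have e4 : ∀ a b, ((a = i ∧ b = k) ∨ (a = k ∧ b = i)) → N' a b = .item {i, k} t := by
    intro a b h
    rw [hN']
    exact if_pos h
  have e5 : ∀ a b, ((a = i ∧ b = k) ∨ (a = k ∧ b = i)) → ∃ q, N a b = .real q := by
    rintro a b (⟨rfl, rfl⟩ | ⟨rfl, rfl⟩)
    · exact ⟨α, hα⟩
    · exact ⟨β, hβ⟩
  -- cells keeping their label
  have e6 : ∀ a b c, (∀ q, c ≠ CLab.real q) → N a b = c → N' a b = c := by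
    intro a b c hc h
    rw [e3 a b, h]
    intro h'
    obtain ⟨q, hq⟩ := e5 a b h'
    exact hc q (h.symm.trans hq)
  have e7 : ∀ a b q, N' a b = .real q ↔
      (N a b = .real q ∧ ¬ ((a = i ∧ b = k) ∨ (a = k ∧ b = i))) := by
    intro a b q
    by_cases h : (a = i ∧ b = k) ∨ (a = k ∧ b = i)
    · rw [e4 a b h]
      simp [h]
    · rw [e3 a b h]
      simp [h]
  have e8 : ∀ a b, N' a b = .pen ↔ N a b = .pen := by
    intro a b
    by_cases h : (a = i ∧ b = k) ∨ (a = k ∧ b = i)
    · obtain ⟨q, hq⟩ := e5 a b h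
      rw [e4 a b h, hq]
      simp
    · rw [e3 a b h]
  have hαr : α ∉ (st i).row.1 := (hN.st.rowa i α).mp ⟨k, hα⟩
  have hβr : β ∉ (st k).row.1 := (hN.st.rowa k β).mp ⟨i, hβ⟩
  have hαc : α ∉ (st k).row.2.1 := (hN.st.rowb k α).mp ⟨i, hα⟩
  have hβc : β ∉ (st i).row.2.1 := (hN.st.rowb i β).mp ⟨k, hβ⟩
  have hcov : (st i).cov = true := by
    cases h : st i with
    | dflt => exact absurd h hi
    | low => rfl
    | high q => rfl
  have nd : ∀ (s : Multiset R) (a : R), s.Nodup → a ∉ s → (s + {a}).Nodup := by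
    intro s a hs ha
    rw [add_comm, Multiset.singleton_add, Multiset.nodup_cons]
    exact ⟨ha, hs⟩
  have cA : ∀ l, l ≠ i → l ≠ k → ∀ j, N' l j = N l j := by
    intro l h1 h2 j
    apply e3
    rintro (⟨h, -⟩ | ⟨h, -⟩)
    · exact h1 h
    · exact h2 h
  have cP : ∀ a, cnt (fun j => (N' a j).isPen) = cnt (fun j => (N a j).isPen) := by
    intro a
    apply arrW_cnt_congr
    intro j
    by_cases h : (a = i ∧ j = k) ∨ (a = k ∧ j = i)
    · obtain ⟨q, hq⟩ := e5 a j h
      rw [e4 a j h, hq]
      rfl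
    · rw [e3 a j h]
  have cHi : cnt (fun j => (N' i j).isHd i) = cnt (fun j => (N i j).isHd i) := by
    apply arrW_cnt_congr
    intro j
    by_cases h : j = k
    · rw [h, e1, hα, ht]
      by_cases hk : st k = .dflt
      · rw [if_pos hk]; simp [CLab.isHd]
      · rw [if_neg hk]; rfl
    · rw [e3 i j]
      rintro (⟨-, h'⟩ | ⟨h', -⟩)
      · exact h h'
      · exact hne' h'
  have cSi : cnt (fun j => (N i j).isSp) ≤ cnt (fun j => (N' i j).isSp) := by
    unfold cnt
    apply Finset.card_le_card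
    intro j hj
    simp only [mem_filter, mem_univ, true_and] at hj ⊢
    rw [e6 i j (N i j) ?_ rfl]
    · exact hj
    · intro q hq
      rw [hq] at hj
      exact Bool.false_ne_true hj
  have cKj : ∀ j, j ≠ i → N' k j = N k j := by
    intro j h
    apply e3
    rintro (⟨h', -⟩ | ⟨-, h'⟩)
    · exact hne h'
    · exact h h'
  have cHk1 : st k = .dflt → cnt (fun j => (N' k j).isHd k) = cnt (fun j => (N k j).isHd k) + 1 := by
    intro hk
    apply arrW_cnt_upd i
    · intro j hj
      rw [cKj j hj]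
    · rw [e2, ht, if_pos hk]
      simp [CLab.isHd, hne']
    · rw [hβ]
      rfl
  have cSk1 : st k = .dflt → cnt (fun j => (N' k j).isSp) = cnt (fun j => (N k j).isSp) + 1 := by
    intro hk
    apply arrW_cnt_upd i
    · intro j hj
      rw [cKj j hj]
    · rw [e2, ht, if_pos hk]
      rfl
    · rw [hβ]
      rfl
  have cHk2 : st k ≠ .dflt → cnt (fun j => (N' k j).isHd k) = cnt (fun j => (N k j).isHd k) := by
    intro hk
    apply arrW_cnt_congr
    intro j
    by_cases h : j = i
    · rw [h, e2, hβ, ht, if_neg hk]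
      rfl
    · rw [cKj j h]
  have cSk2 : st k ≠ .dflt → cnt (fun j => (N' k j).isSp) = cnt (fun j => (N k j).isSp) := by
    intro hk
    apply arrW_cnt_congr
    intro j
    by_cases h : j = i
    · rw [h, e2, hβ, ht, if_neg hk]
      rfl
    · rw [cKj j h]
  have fA : ∀ l, l ≠ i → l ≠ k → Fv (fun i => (st i).row) N' l = Fv (fun i => (st i).row) N l := by
    intro l h1 h2
    unfold Fv
    simp only [cA l h1 h2]
  have sA : ∀ l, l ≠ i → l ≠ k → Sv (fun i => (st i).row) N' l = Sv (fun i => (st i).row) N l := by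
    intro l h1 h2
    unfold Sv
    simp only [cA l h1 h2]
  have fi : Fv (fun i => (st i).row) N' i = Fv (fun i => (st i).row) N i := by
    unfold Fv
    rw [cP, cHi]
  have si : Sv (fun i => (st i).row) N i ≤ Sv (fun i => (st i).row) N' i := by
    unfold Sv
    rw [cP]
    omega
  have fk1 : st k = .dflt → Fv (fun i => (st i).row) N' k = 1 := by
    intro hk
    have h1 := hN.can k (by simp only [hk]; rfl)
    unfold Fv at h1 ⊢
    rw [cP, cHk1 hk]
    omega
  have sk1 : st k = .dflt → 2 ≤ Sv (fun i => (st i).row) N' k := by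
    intro hk
    have h1 := hN.ge k
    unfold Sv at h1 ⊢
    rw [cP, cSk1 hk]
    omega
  have fk2 : st k ≠ .dflt → Fv (fun i => (st i).row) N' k = Fv (fun i => (st i).row) N k := by
    intro hk
    unfold Fv
    rw [cP, cHk2 hk]
  have sk2 : st k ≠ .dflt → 2 ≤ Sv (fun i => (st i).row) N' k := by
    intro hk
    have hcov' : (st k).cov = true := by
      cases h : st k with
      | dflt => exact absurd h hk
      | low => rfl
      | high q => rfl
    have h1 := hN.need k hcov'
    unfold Sv at h1 ⊢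
    rw [cP, cSk2 hk]
    exact h1
  have s2i : 2 ≤ Sv (fun i => (st i).row) N' i := (hN.need i hcov).trans si
  have s2k : 2 ≤ Sv (fun i => (st i).row) N' k := by
    by_cases hk : st k = .dflt
    · exact sk1 hk
    · exact sk2 hk
  refine ⟨N', ⟨?_, ?_, ?_, ?_, ?_, ?_, ?_, ?_⟩, ?_, ?_, s2i, s2k, ?_⟩
  · -- rinj
    intro a b b' h
    by_cases h1 : (a = i ∧ b = k) ∨ (a = k ∧ b = i)
    · by_cases h2 : (a = i ∧ b' = k) ∨ (a = k ∧ b' = i)
      · rcases h1 with ⟨h1, h1'⟩ | ⟨h1, h1'⟩
        · rcases h2 with ⟨h2, h2'⟩ | ⟨h2, h2'⟩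
          · rw [h1', h2']
          · exact absurd (h2.symm.trans h1) hne
        · rcases h2 with ⟨h2, h2'⟩ | ⟨h2, h2'⟩
          · exact absurd (h1.symm.trans h2) hne
          · rw [h1', h2']
      · rw [e4 a b h1, e3 a b' h2] at h
        exact absurd h.symm (hno a b' t)
    · by_cases h2 : (a = i ∧ b' = k) ∨ (a = k ∧ b' = i)
      · rw [e3 a b h1, e4 a b' h2] at h
        exact absurd h (hno a b t)
      · rw [e3 a b h1, e3 a b' h2] at h
        exact hN.st.rinj a b b' h
  · -- cinj
    intro b a a' h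
    by_cases h1 : (a = i ∧ b = k) ∨ (a = k ∧ b = i)
    · by_cases h2 : (a' = i ∧ b = k) ∨ (a' = k ∧ b = i)
      · rcases h1 with ⟨h1, h1'⟩ | ⟨h1, h1'⟩
        · rcases h2 with ⟨h2, h2'⟩ | ⟨h2, h2'⟩
          · rw [h1, h2]
          · exact absurd (h1'.symm.trans h2') hne
        · rcases h2 with ⟨h2, h2'⟩ | ⟨h2, h2'⟩
          · exact absurd (h2'.symm.trans h1') hne
          · rw [h1, h2]
      · rw [e4 a b h1, e3 a' b h2] at h
        exact absurd h.symm (hno a' b t)
    · by_cases h2 : (a' = i ∧ b = k) ∨ (a' = k ∧ b = i)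
      · rw [e3 a b h1, e4 a' b h2] at h
        exact absurd h (hno a b t)
      · rw [e3 a b h1, e3 a' b h2] at h
        exact hN.st.cinj b a a' h
  · -- nda
    intro l
    show ((st l).row.1 + (if l = i then {α} else if l = k then {β} else 0)).Nodup
    have h0 : (st l).row.1.Nodup := hN.st.nda l
    by_cases h1 : l = i
    · subst h1
      rw [if_pos rfl]
      exact nd _ _ h0 hαr
    · by_cases h2 : l = k
      · subst h2
        rw [if_neg h1, if_pos rfl]
        exact nd _ _ h0 hβr
      · rw [if_neg h1, if_neg h2, add_zero]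
        exact h0
  · -- ndb
    intro l
    show ((st l).row.2.1 + (if l = i then {β} else if l = k then {α} else 0)).Nodup
    have h0 : (st l).row.2.1.Nodup := hN.st.ndb l
    by_cases h1 : l = i
    · subst h1
      rw [if_pos rfl]
      exact nd _ _ h0 hβc
    · by_cases h2 : l = k
      · subst h2
        rw [if_neg h1, if_pos rfl]
        exact nd _ _ h0 hαc
      · rw [if_neg h1, if_neg h2, add_zero]
        exact h0
  · -- rowa
    intro l q
    show (∃ j, N' l j = .real q) ↔
      q ∉ (st l).row.1 + (if l = i then {α} else if l = k then {β} else 0)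
    have h0 : (∃ j, N l j = .real q) ↔ q ∉ (st l).row.1 := hN.st.rowa l q
    by_cases h1 : l = i
    · subst h1
      rw [if_pos rfl, Multiset.mem_add, Multiset.mem_singleton, not_or, ← h0]
      constructor
      · rintro ⟨j, hj⟩
        rw [e7] at hj
        refine ⟨⟨j, hj.1⟩, ?_⟩
        rintro rfl
        exact hj.2 (Or.inl ⟨rfl, hN.st.rinj l j k (hj.1.trans hα.symm)⟩)
      · rintro ⟨⟨j, hj⟩, hq⟩
        refine ⟨j, (e7 _ _ _).mpr ⟨hj, ?_⟩⟩
        rintro (⟨-, h⟩ | ⟨h, -⟩)
        · rw [h, hα] at hj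
          exact hq (CLab.real.inj hj).symm
        · exact hne' h
    · by_cases h2 : l = k
      · subst h2
        rw [if_neg h1, if_pos rfl, Multiset.mem_add, Multiset.mem_singleton, not_or, ← h0]
        constructor
        · rintro ⟨j, hj⟩
          rw [e7] at hj
          refine ⟨⟨j, hj.1⟩, ?_⟩
          rintro rfl
          exact hj.2 (Or.inr ⟨rfl, hN.st.rinj l j i (hj.1.trans hβ.symm)⟩)
        · rintro ⟨⟨j, hj⟩, hq⟩
          refine ⟨j, (e7 _ _ _).mpr ⟨hj, ?_⟩⟩
          rintro (⟨h, -⟩ | ⟨-, h⟩)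
          · exact h1 h
          · rw [h, hβ] at hj
            exact hq (CLab.real.inj hj).symm
      · rw [if_neg h1, if_neg h2, add_zero, ← h0]
        constructor
        · rintro ⟨j, hj⟩
          rw [e7] at hj
          exact ⟨j, hj.1⟩
        · rintro ⟨j, hj⟩
          refine ⟨j, (e7 _ _ _).mpr ⟨hj, ?_⟩⟩
          rintro (⟨h, -⟩ | ⟨h, -⟩)
          · exact h1 h
          · exact h2 h
  · -- rowb
    intro l q
    show (∃ j, N' j l = .real q) ↔
      q ∉ (st l).row.2.1 + (if l = i then {β} else if l = k then {α} else 0)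
    have h0 : (∃ j, N j l = .real q) ↔ q ∉ (st l).row.2.1 := hN.st.rowb l q
    by_cases h1 : l = i
    · subst h1
      rw [if_pos rfl, Multiset.mem_add, Multiset.mem_singleton, not_or, ← h0]
      constructor
      · rintro ⟨j, hj⟩
        rw [e7] at hj
        refine ⟨⟨j, hj.1⟩, ?_⟩
        rintro rfl
        exact hj.2 (Or.inr ⟨hN.st.cinj l j k (hj.1.trans hβ.symm), rfl⟩)
      · rintro ⟨⟨j, hj⟩, hq⟩
        refine ⟨j, (e7 _ _ _).mpr ⟨hj, ?_⟩⟩
        rintro (⟨-, h⟩ | ⟨h, -⟩)
        · exact hne' h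
        · rw [h, hβ] at hj
          exact hq (CLab.real.inj hj).symm
    · by_cases h2 : l = k
      · subst h2
        rw [if_neg h1, if_pos rfl, Multiset.mem_add, Multiset.mem_singleton, not_or, ← h0]
        constructor
        · rintro ⟨j, hj⟩
          rw [e7] at hj
          refine ⟨⟨j, hj.1⟩, ?_⟩
          rintro rfl
          exact hj.2 (Or.inl ⟨hN.st.cinj l j i (hj.1.trans hα.symm), rfl⟩)
        · rintro ⟨⟨j, hj⟩, hq⟩
          refine ⟨j, (e7 _ _ _).mpr ⟨hj, ?_⟩⟩
          rintro (⟨h, -⟩ | ⟨-, h⟩)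
          · rw [h, hα] at hj
            exact hq (CLab.real.inj hj).symm
          · exact h1 h
      · rw [if_neg h1, if_neg h2, add_zero, ← h0]
        constructor
        · rintro ⟨j, hj⟩
          rw [e7] at hj
          exact ⟨j, hj.1⟩
        · rintro ⟨j, hj⟩
          refine ⟨j, (e7 _ _ _).mpr ⟨hj, ?_⟩⟩
          rintro (⟨-, h⟩ | ⟨-, h⟩)
          · exact h2 h
          · exact h1 h
  · -- pen
    intro a
    simp only [e8]
    exact hN.st.pen a
  · -- item
    intro a b
    by_cases h : (a = i ∧ b = k) ∨ (a = k ∧ b = i)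
    · rw [e4 a b h]
      refine ⟨?_, ?_, ?_, ?_⟩
      · rcases h with ⟨rfl, -⟩ | ⟨rfl, -⟩ <;> simp
      · rcases h with ⟨-, rfl⟩ | ⟨-, rfl⟩ <;> simp
      · rw [ht]
        by_cases hk : st k = .dflt
        · rw [if_pos hk]
          refine ⟨by simp, fun l hl hli => ?_⟩
          simp only [mem_insert, mem_singleton] at hl
          rcases hl with rfl | rfl
          · exact absurd rfl hli
          · exact hik
        · rw [if_neg hk]
          refine ⟨Finset.card_pair hne', fun l hl l' hl' hll => ?_⟩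
          simp only [mem_insert, mem_singleton] at hl hl'
          rcases hl with rfl | rfl
          · rcases hl' with rfl | rfl
            · exact absurd rfl hll
            · exact fun h => hik h.symm
          · rcases hl' with rfl | rfl
            · exact hik
            · exact absurd rfl hll
      · intro l hl
        simp only [mem_insert, mem_singleton] at hl
        rcases hl with rfl | rfl
        · exact ⟨⟨k, e1⟩, ⟨k, e2⟩⟩
        · exact ⟨⟨i, e2⟩, ⟨i, e1⟩⟩
    · rw [e3 a b h]
      have h0 := hN.st.item a b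
      cases hc : N a b with
      | real q => exact trivial
      | pen => exact trivial
      | item S t' =>
        rw [hc] at h0
        refine ⟨h0.1, h0.2.1, h0.2.2.1, fun l hl => ?_⟩
        obtain ⟨⟨j', hj'⟩, ⟨i', hi'⟩⟩ := h0.2.2.2 l hl
        exact ⟨⟨j', e6 _ _ _ (by simp) hj'⟩, ⟨i', e6 _ _ _ (by simp) hi'⟩⟩
  · intro l
    by_cases h1 : l = i
    · rw [h1, fi]
      exact hN.le i
    · by_cases h2 : l = k
      · rw [h2]
        by_cases hk : st k = .dflt
        · rw [fk1 hk]
        · rw [fk2 hk]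
          exact hN.le k
      · rw [fA l h1 h2]
        exact hN.le l
  · intro l
    by_cases h1 : l = i
    · rw [h1]
      omega
    · by_cases h2 : l = k
      · rw [h2]
        omega
      · rw [sA l h1 h2]
        exact hN.ge l
  · intro l hl hlk
    have h1 : l ≠ i := by
      rintro rfl
      rw [hl] at hcov
      exact Bool.false_ne_true hcov
    rw [fA l h1 hlk]
    exact hN.can l hl

end W3a
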