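import Pool.Agent.W_MP_3a8340_co.Defs

open Finset

namespace W3a

variable {ι R : Type} [Fintype ι] [DecidableEq ι] [DecidableEq R]

theorem compat_Fv_add (t u : ι → RowIn R) (N : ι → ι → CLab ι R) (i : ι) :
    Fv (fun i => t i + u i) N i = Fv t N i + (u i).2.2.1 + (u i).2.2.2.1 := by
  unfold Fv
  simp only [Prod.snd_add, Prod.fst_add]
  ring

theorem compat_Sv_add (t u : ι → RowIn R) (N : ι → ι → CLab ι R) (i : ι) :
    Sv (fun i => t i + u i) N i = Sv t N i + (u i).2.2.1 + (u i).2.2.2.2 := by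
  unfold Sv
  simp only [Prod.snd_add, Prod.fst_add]
  ring

theorem compat_struct (τ : ι → Bool) (t u : ι → RowIn R) (N : ι → ι → CLab ι R)
    (h : Struct τ (fun i => (t i).1) (fun i => (t i).2.1) N)
    (hu : ∀ i, (u i).1 = 0 ∧ (u i).2.1 = 0) :
    Struct τ (fun i => ((fun i => t i + u i) i).1) (fun i => ((fun i => t i + u i) i).2.1) N := by
  have h1 : (fun i => ((fun i => t i + u i) i).1) = fun i => (t i).1 := by
    funext i
    simp [(hu i).1]
  have h2 : (fun i => ((fun i => t i + u i) i).2.1) = fun i => (t i).2.1 := by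
    funext i
    simp [(hu i).2]
  rw [h1, h2]
  exact h

/-- Compatible designs: the kernel rows (`kr i = true`) of `F` get suitable labels. -/
theorem compat_pair (P : Type) (τ : ι → Bool) (tx tw : ι → RowIn R)
    (Nx Nw : ι → ι → CLab ι R)
    (hx : Struct τ (fun i => (tx i).1) (fun i => (tx i).2.1) Nx)
    (hw : Struct τ (fun i => (tw i).1) (fun i => (tw i).2.1) Nw)
    (lx : ∀ i, Fv tx Nx i ≤ 1) (lw : ∀ i, Fv tw Nw i ≤ 1)
    (gx : ∀ i, 1 ≤ Sv tx Nx i) (gw : ∀ i, 1 ≤ Sv tw Nw i)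
    (kr : ι → Bool)
    (nx : ∀ i, kr i = false → 2 ≤ Sv tx Nx i) (nw : ∀ i, kr i = false → 2 ≤ Sv tw Nw i)
    (hc : ∀ i, kr i = true → (Sv tx Nx i < 2 ∨ Sv tw Nw i < 2) →
      (Fv tx Nx i = 0 ∨ Fv tw Nw i = 0)) :
    ∃ fk : ι → GLab R P, (∀ i, (fk i).isKer = true) ∧ (∀ i, kr i = false → fk i = .norm) ∧
      LG τ (fun i => tx i + (fk i).row) Nx ∧ LG τ (fun i => tw i + (fk i).flip.row) Nw := by
  let fk : ι → GLab R P := fun i =>
    if 2 ≤ Sv tx Nx i ∧ 2 ≤ Sv tw Nw i then .norm else if Fv tx Nx i = 0 then .inn else .out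
  have hk : ∀ i, fk i = .norm ∧ (2 ≤ Sv tx Nx i ∧ 2 ≤ Sv tw Nw i) ∨
      fk i = .inn ∧ Fv tx Nx i = 0 ∨ fk i = .out ∧ Fv tw Nw i = 0 := by
    intro i
    by_cases h1 : 2 ≤ Sv tx Nx i ∧ 2 ≤ Sv tw Nw i
    · left
      exact ⟨if_pos h1, h1⟩
    · right
      by_cases h2 : Fv tx Nx i = 0
      · left
        exact ⟨(if_neg h1).trans (if_pos h2), h2⟩
      · right
        refine ⟨(if_neg h1).trans (if_neg h2), ?_⟩
        have h3 : kr i = true := by
          by_contra h3
          rw [Bool.not_eq_true] at h3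
          exact h1 ⟨nx i h3, nw i h3⟩
        have h4 : Sv tx Nx i < 2 ∨ Sv tw Nw i < 2 := by
          by_contra h4
          push Not at h4
          exact h1 h4
        rcases hc i h3 h4 with h5 | h5
        · exact absurd h5 h2
        · exact h5
  refine ⟨fk, fun i => ?_, fun i hi => if_pos ⟨nx i hi, nw i hi⟩, ⟨?_, ?_, ?_⟩, ⟨?_, ?_, ?_⟩⟩
  · rcases hk i with ⟨h, -⟩ | ⟨h, -⟩ | ⟨h, -⟩ <;> rw [h] <;> rfl
  · refine compat_struct τ tx (fun i => (fk i).row) Nx hx fun i => ?_
    rcases hk i with ⟨h, -⟩ | ⟨h, -⟩ | ⟨h, -⟩ <;> simp only [h] <;> exact ⟨rfl, rfl⟩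
  · intro i
    rw [compat_Fv_add tx (fun i => (fk i).row)]
    have h0 := lx i
    rcases hk i with ⟨h, h'⟩ | ⟨h, h'⟩ | ⟨h, h'⟩ <;> simp only [h, GLab.row] <;> simp <;> omega
  · intro i
    rw [compat_Sv_add tx (fun i => (fk i).row)]
    have h0 := gx i
    rcases hk i with ⟨h, h'⟩ | ⟨h, h'⟩ | ⟨h, h'⟩ <;> simp only [h, GLab.row] <;> simp <;> omega
  · refine compat_struct τ tw (fun i => (fk i).flip.row) Nw hw fun i => ?_
    rcases hk i with ⟨h, -⟩ | ⟨h, -⟩ | ⟨h, -⟩ <;> simp only [h] <;> exact ⟨rfl, rfl⟩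
  · intro i
    rw [compat_Fv_add tw (fun i => (fk i).flip.row)]
    have h0 := lw i
    rcases hk i with ⟨h, h'⟩ | ⟨h, h'⟩ | ⟨h, h'⟩ <;> simp only [h, GLab.row, GLab.flip] <;>
      simp <;> omega
  · intro i
    rw [compat_Sv_add tw (fun i => (fk i).flip.row)]
    have h0 := gw i
    rcases hk i with ⟨h, h'⟩ | ⟨h, h'⟩ | ⟨h, h'⟩ <;> simp only [h, GLab.row, GLab.flip] <;>
      simp <;> omega

/-- Self-sufficient designs are compatible. -/
theorem ss_pair (P : Type) (τ : ι → Bool) (tx tw ex ew : ι → RowIn R) (cx cw : ι → Bool)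
    (Nx Nw : ι → ι → CLab ι R) (hx : SS τ tx cx Nx) (hw : SS τ tw cw Nw)
    (fm : ι → Bool) (lab : ι → GLab R P)
    (h1 : ∀ i, fm i = true → ex i + (lab i).row = tx i ∧ ew i + (lab i).flip.row = tw i ∧
      cx i = true ∧ cw i = true)
    (h2 : ∀ i, fm i = false → ex i = tx i ∧ ew i = tw i) :
    ∃ fl : ι → GLab R P, (∀ i, fm i = true → fl i = lab i) ∧
      (∀ i, fm i = false → (fl i).isKer = true) ∧
      LG τ (fun i => ex i + (fl i).row) Nx ∧ LG τ (fun i => ew i + (fl i).flip.row) Nw := by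
  have hcan : ∀ i, (!fm i) = true → (Sv tx Nx i < 2 ∨ Sv tw Nw i < 2) →
      (Fv tx Nx i = 0 ∨ Fv tw Nw i = 0) := by
    intro i _ h
    rcases h with h | h
    · left
      apply hx.can
      by_contra hc
      rw [Bool.not_eq_false] at hc
      have := hx.need i hc
      omega
    · right
      apply hw.can
      by_contra hc
      rw [Bool.not_eq_false] at hc
      have := hw.need i hc
      omega
  obtain ⟨fk, hk1, hk2, hLx, hLw⟩ := compat_pair P τ tx tw Nx Nw hx.st hw.st hx.le hw.le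
    hx.ge hw.ge (fun i => !fm i)
    (fun i hi => hx.need i (h1 i (by simpa using hi)).2.2.1)
    (fun i hi => hw.need i (h1 i (by simpa using hi)).2.2.2) hcan
  have ex1 : (fun i => ex i + ((fun i => if fm i = true then lab i else fk i) i).row) =
      fun i => tx i + (fk i).row := by
    funext i
    by_cases hi : fm i = true
    · have h3 := hk2 i (by simp [hi])
      simp only [hi, if_true, h3]
      rw [(h1 i hi).1]
      simp [GLab.row]
    · have h4 : fm i = false := by simpa using hi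
      simp only [h4, Bool.false_eq_true, if_false]
      rw [(h2 i h4).1]
  have ex2 : (fun i => ew i + ((fun i => if fm i = true then lab i else fk i) i).flip.row) =
      fun i => tw i + (fk i).flip.row := by
    funext i
    by_cases hi : fm i = true
    · have h3 := hk2 i (by simp [hi])
      simp only [hi, if_true, h3]
      rw [(h1 i hi).2.1]
      simp [GLab.row, GLab.flip]
    · have h4 : fm i = false := by simpa using hi
      simp only [h4, Bool.false_eq_true, if_false]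
      rw [(h2 i h4).2]
  refine ⟨fun i => if fm i = true then lab i else fk i, fun i hi => if_pos hi, fun i hi => ?_,
    ?_, ?_⟩
  · have h4 : ¬ fm i = true := by simp [hi]
    simp only [if_neg h4]
    exact hk1 i
  · rw [ex1]
    exact hLx
  · rw [ex2]
    exact hLw

end W3a
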