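import Pool.Agent.W_MP_3a8340_co.CrossW
import Pool.Agent.W_MP_3a8340_co.ArrSS
import Pool.Agent.W_MP_3a8340_co.ArrK
import Pool.Agent.W_MP_3a8340_co.ArrC
import Pool.Agent.W_MP_3a8340_co.ArrW
import Pool.Agent.W_MP_3a8340_co.Compat

open Finset

namespace W3a

section p4

variable {ι R : Type} [Fintype ι] [DecidableEq ι] [Fintype R] [DecidableEq R]

theorem p4_Fv_congr (t u : ι → RowIn R) (N : ι → ι → CLab ι R) (i : ι)
    (h : (t i).2.2 = (u i).2.2) : Fv t N i = Fv u N i := by
  unfold Fv
  rw [h]

theorem p4_Sv_congr (t u : ι → RowIn R) (N : ι → ι → CLab ι R) (i : ι)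
    (h : (t i).2.2 = (u i).2.2) : Sv t N i = Sv u N i := by
  unfold Sv
  rw [h]

theorem p4_nofix {fk : ι → GLab R Unit} (h : ∀ i, (fk i).isKer = true) (i : ι) (c : Unit) :
    fk i ≠ .fix c := by
  intro hc
  have := h i
  rw [hc] at this
  simp [GLab.isKer] at this

/-- Only kernel labels. -/
theorem p4_ker (τ : ι → Bool) (ex ew : ι → RowIn R) (Nx Nw : ι → ι → CLab ι R)
    (hx : Struct τ (fun i => (ex i).1) (fun i => (ex i).2.1) Nx)
    (hw : Struct τ (fun i => (ew i).1) (fun i => (ew i).2.1) Nw)
    (lx : ∀ i, Fv ex Nx i ≤ 1) (lw : ∀ i, Fv ew Nw i ≤ 1)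
    (gx : ∀ i, 1 ≤ Sv ex Nx i) (gw : ∀ i, 1 ≤ Sv ew Nw i)
    (hc : ∀ i, Fv ex Nx i = 0 ∨ Fv ew Nw i = 0) :
    ∃ fl : ι → GLab R Unit, (∀ i c, fl i ≠ .fix c) ∧
      LG τ (fun i => ex i + (fl i).row) Nx ∧ LG τ (fun i => ew i + (fl i).flip.row) Nw := by
  obtain ⟨fk, h1, -, h3, h4⟩ := compat_pair Unit τ ex ew Nx Nw hx hw lx lw gx gw
    (fun _ => true) (fun i hi => by simp at hi) (fun i hi => by simp at hi)
    (fun i _ _ => hc i)
  exact ⟨fk, p4_nofix h1, h3, h4⟩

/-- Real labels in the rows with `kr i = false`, kernel labels in the other rows. -/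
theorem p4_comb (τ : ι → Bool) (ex ew : ι → RowIn R) (Nx Nw : ι → ι → CLab ι R)
    (kr : ι → Bool) (a b : ι → R)
    (hx : Struct τ (fun i => (ex i).1 + if kr i = true then 0 else {a i})
      (fun i => (ex i).2.1 + if kr i = true then 0 else {b i}) Nx)
    (hw : Struct τ (fun i => (ew i).1 + if kr i = true then 0 else {a i})
      (fun i => (ew i).2.1 + if kr i = true then 0 else {b i}) Nw)
    (lx : ∀ i, Fv ex Nx i ≤ 1) (lw : ∀ i, Fv ew Nw i ≤ 1)
    (gx : ∀ i, 1 ≤ Sv ex Nx i) (gw : ∀ i, 1 ≤ Sv ew Nw i)
    (nx : ∀ i, kr i = false → 2 ≤ Sv ex Nx i) (nw : ∀ i, kr i = false → 2 ≤ Sv ew Nw i)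
    (hc : ∀ i, kr i = true → (Fv ex Nx i = 0 ∨ Fv ew Nw i = 0)) :
    ∃ fl : ι → GLab R Unit, (∀ i c, fl i ≠ .fix c) ∧
      LG τ (fun i => ex i + (fl i).row) Nx ∧ LG τ (fun i => ew i + (fl i).flip.row) Nw := by
  let rr : ι → RowIn R := fun i => if kr i = true then 0 else ({a i}, {b i}, 0, 0, 0)
  let tx : ι → RowIn R := fun i => ex i + rr i
  let tw : ι → RowIn R := fun i => ew i + rr i
  have hrr : ∀ i, (rr i).2.2 = 0 := by
    intro i
    by_cases h : kr i = true
    · simp only [rr, if_pos h]
      rfl
    · simp only [rr, if_neg h]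
      rfl
  have hrr1 : ∀ i, (rr i).1 = if kr i = true then 0 else {a i} := by
    intro i
    by_cases h : kr i = true
    · simp only [rr, if_pos h]
      rfl
    · simp only [rr, if_neg h]
  have hrr2 : ∀ i, (rr i).2.1 = if kr i = true then 0 else {b i} := by
    intro i
    by_cases h : kr i = true
    · simp only [rr, if_pos h]
      rfl
    · simp only [rr, if_neg h]
  have htx : ∀ i, (tx i).2.2 = (ex i).2.2 := fun i => by
    change (ex i).2.2 + (rr i).2.2 = _
    rw [hrr, add_zero]
  have htw : ∀ i, (tw i).2.2 = (ew i).2.2 := fun i => by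
    change (ew i).2.2 + (rr i).2.2 = _
    rw [hrr, add_zero]
  have hx' : Struct τ (fun i => (tx i).1) (fun i => (tx i).2.1) Nx := by
    have e1 : (fun i => (tx i).1) = fun i => (ex i).1 + if kr i = true then 0 else {a i} := by
      funext i
      change (ex i).1 + (rr i).1 = _
      rw [hrr1]
    have e2 : (fun i => (tx i).2.1) = fun i => (ex i).2.1 + if kr i = true then 0 else {b i} := by
      funext i
      change (ex i).2.1 + (rr i).2.1 = _
      rw [hrr2]
    rw [e1, e2]
    exact hx
  have hw' : Struct τ (fun i => (tw i).1) (fun i => (tw i).2.1) Nw := by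
    have e1 : (fun i => (tw i).1) = fun i => (ew i).1 + if kr i = true then 0 else {a i} := by
      funext i
      change (ew i).1 + (rr i).1 = _
      rw [hrr1]
    have e2 : (fun i => (tw i).2.1) = fun i => (ew i).2.1 + if kr i = true then 0 else {b i} := by
      funext i
      change (ew i).2.1 + (rr i).2.1 = _
      rw [hrr2]
    rw [e1, e2]
    exact hw
  have fx : ∀ i, Fv tx Nx i = Fv ex Nx i := fun i => p4_Fv_congr _ _ _ _ (htx i)
  have fw : ∀ i, Fv tw Nw i = Fv ew Nw i := fun i => p4_Fv_congr _ _ _ _ (htw i)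
  have sx : ∀ i, Sv tx Nx i = Sv ex Nx i := fun i => p4_Sv_congr _ _ _ _ (htx i)
  have sw : ∀ i, Sv tw Nw i = Sv ew Nw i := fun i => p4_Sv_congr _ _ _ _ (htw i)
  obtain ⟨fk, k1, k2, k3, k4⟩ := compat_pair Unit τ tx tw Nx Nw hx' hw'
    (fun i => by rw [fx]; exact lx i) (fun i => by rw [fw]; exact lw i)
    (fun i => by rw [sx]; exact gx i) (fun i => by rw [sw]; exact gw i) kr
    (fun i hi => by rw [sx]; exact nx i hi) (fun i hi => by rw [sw]; exact nw i hi)
    (fun i hi _ => by rw [fx, fw]; exact hc i hi)
  refine ⟨fun i => if kr i = true then fk i else .real (a i) (b i), fun i c => ?_, ?_, ?_⟩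
  · by_cases h : kr i = true
    · simp only [if_pos h]
      exact p4_nofix k1 i c
    · simp only [if_neg h]
      intro h'
      cases h'
  · have e : (fun i => ex i + (if kr i = true then fk i else .real (a i) (b i)).row) =
        fun i => tx i + (fk i).row := by
      funext i
      by_cases h : kr i = true
      · simp only [if_pos h, tx, rr, add_zero]
      · have h' : kr i = false := by simpa using h
        simp only [tx, rr, if_neg h, k2 i h', GLab.row, add_zero]
    rw [e]
    exact k3
  · have e : (fun i => ew i + (if kr i = true then fk i else .real (a i) (b i)).flip.row) =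
        fun i => tw i + (fk i).flip.row := by
      funext i
      by_cases h : kr i = true
      · simp only [if_pos h, tw, rr, add_zero]
      · have h' : kr i = false := by simpa using h
        simp only [tw, rr, if_neg h, k2 i h', GLab.row, GLab.flip, add_zero]
    rw [e]
    exact k4

theorem p4_zero_row {τ : ι → Bool} {N : ι → ι → CLab ι R} {f : ι → RowIn R}
    (h : LG τ (fun i => (0 : RowIn R) + f i) N) : LG τ f N := by
  have e : (fun i => (0 : RowIn R) + f i) = f := by
    funext i
    exact zero_add _
  rw [e] at h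
  exact h

theorem p4_struct {τ : ι → Bool} {N : ι → ι → CLab ι R} {ex : ι → RowIn R} {i k : ι} {α β : R}
    (hik : i ≠ k)
    (h : Struct τ (fun l => (ex l).1 + (if l = i then {α} else if l = k then {β} else 0))
      (fun l => (ex l).2.1 + (if l = i then {β} else if l = k then {α} else 0)) N) :
    Struct τ (fun l => (ex l).1 + if decide (l ≠ i ∧ l ≠ k) = true then 0
        else {if l = i then α else β})
      (fun l => (ex l).2.1 + if decide (l ≠ i ∧ l ≠ k) = true then 0
        else {if l = i then β else α}) N := by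
  have e1 : (fun l => (ex l).1 + if decide (l ≠ i ∧ l ≠ k) = true then 0
        else {if l = i then α else β}) =
      fun l => (ex l).1 + (if l = i then {α} else if l = k then {β} else 0) := by
    funext l
    by_cases h1 : l = i
    · simp [h1]
    · by_cases h2 : l = k
      · subst h2
        simp [h1]
      · simp [h1, h2]
  have e2 : (fun l => (ex l).2.1 + if decide (l ≠ i ∧ l ≠ k) = true then 0
        else {if l = i then β else α}) =
      fun l => (ex l).2.1 + (if l = i then {β} else if l = k then {α} else 0) := by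
    funext l
    by_cases h1 : l = i
    · simp [h1]
    · by_cases h2 : l = k
      · subst h2
        simp [h1]
      · simp [h1, h2]
  rw [e1, e2]
  exact h

theorem p4_struct0 {τ : ι → Bool} {N : ι → ι → CLab ι R} {i k : ι} {α β : R}
    (h : Struct τ (fun l => if l = i then {α} else if l = k then {β} else 0)
      (fun l => if l = i then {β} else if l = k then {α} else 0) N) :
    Struct τ (fun l => ((fun _ => 0 : ι → RowIn R) l).1 +
        (if l = i then {α} else if l = k then {β} else 0))
      (fun l => ((fun _ => 0 : ι → RowIn R) l).2.1 +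
        (if l = i then {β} else if l = k then {α} else 0)) N := by
  have e1 : (fun l => ((fun _ => 0 : ι → RowIn R) l).1 +
        (if l = i then {α} else if l = k then {β} else 0)) =
      fun l => if l = i then {α} else if l = k then {β} else 0 := by
    funext l
    exact zero_add _
  have e2 : (fun l => ((fun _ => 0 : ι → RowIn R) l).2.1 +
        (if l = i then {β} else if l = k then {α} else 0)) =
      fun l => if l = i then {β} else if l = k then {α} else 0 := by
    funext l
    exact zero_add _
  rw [e1, e2]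
  exact h

/-- Two vertices with precoloured edges `a_p b_u`, `a_p b_u'` (or transposed). -/
theorem p4_kk (τ : ι → Bool) (h4 : 4 ≤ Fintype.card ι)
    (hR : Fintype.card R + 1 = Fintype.card ι) (p u u' k : ι) (hpu : p ≠ u) (hpu' : p ≠ u')
    (hpk : p ≠ k) (hk : k = u ∨ τ k ≠ τ p) (hk' : k = u' ∨ τ k ≠ τ p)
    (huu : ∀ l, l ≠ p → l ≠ k → ¬ (l = u ∧ l = u')) :
    ∃ (Nx Nw : ι → ι → CLab ι R) (fl : ι → GLab R Unit),
      (∀ l c, fl l ≠ .fix c) ∧ Nx p u = .pen ∧ Nx u p = .pen ∧ Nw p u' = .pen ∧ Nw u' p = .pen ∧
      LG τ (fun l => (fl l).row) Nx ∧ LG τ (fun l => (fl l).flip.row) Nw := by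
  have hRpos : 0 < Fintype.card R := by omega
  obtain ⟨q0⟩ := Fintype.card_pos_iff.1 hRpos
  obtain ⟨Nx, x1, x2, x3, x4, x5, x6, x7, x8⟩ := kd_cross τ h4 hR p u k hpu hpk hk q0 q0
  obtain ⟨Nw, w1, w2, w3, w4, w5, w6, w7, w8⟩ := kd_cross τ h4 hR p u' k hpu' hpk hk' q0 q0
  obtain ⟨fl, f1, f2, f3⟩ := p4_comb τ (fun _ => 0) (fun _ => 0) Nx Nw
    (fun l => decide (l ≠ p ∧ l ≠ k)) (fun l => if l = p then q0 else q0)
    (fun l => if l = p then q0 else q0) (p4_struct hpk (p4_struct0 x1))
    (p4_struct hpk (p4_struct0 w1)) x4 w4 x5 w5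
    (by
      intro l hl
      have : ¬ (l ≠ p ∧ l ≠ k) := by simpa using hl
      by_cases h1 : l = p
      · rw [h1]
        exact x6
      · by_cases h2 : l = k
        · rw [h2]
          exact x7
        · exact absurd ⟨h1, h2⟩ this)
    (by
      intro l hl
      have : ¬ (l ≠ p ∧ l ≠ k) := by simpa using hl
      by_cases h1 : l = p
      · rw [h1]
        exact w6
      · by_cases h2 : l = k
        · rw [h2]
          exact w7
        · exact absurd ⟨h1, h2⟩ this)
    (by
      intro l hl
      obtain ⟨h1, h2⟩ : l ≠ p ∧ l ≠ k := by simpa using hl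
      by_cases h3 : l = u
      · right
        exact w8 l h1 (fun h5 => huu l h1 h2 ⟨h3, h5⟩) h2
      · left
        exact x8 l h1 h3 h2)
  exact ⟨Nx, Nw, fl, f1, x2, x3, w2, w3, p4_zero_row f2, p4_zero_row f3⟩

theorem p4_other (τ : ι → Bool) (hτ : ∀ b, 2 ≤ (univ.filter fun l => τ l = b).card) (p : ι) :
    ∃ k, τ k ≠ τ p ∧ p ≠ k := by
  have h := hτ (!τ p)
  have h1 : 0 < (univ.filter fun l => τ l = !τ p).card := by omega
  obtain ⟨k, hk⟩ := Finset.card_pos.1 h1
  have h2 : τ k = !τ p := (Finset.mem_filter.1 hk).2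
  have h3 : τ k ≠ τ p := by
    rw [h2]
    cases τ p <;> simp
  exact ⟨k, h3, fun h => h3 (by rw [h])⟩

/-- The mixed case with exactly one covered row. -/
theorem p4_kn (τ : ι → Bool) (h4 : 4 ≤ Fintype.card ι)
    (hR : Fintype.card R + 1 = Fintype.card ι)
    (hτ : ∀ b, 2 ≤ (univ.filter fun l => τ l = b).card)
    (hτ6 : 6 ≤ Fintype.card ι → ∀ b, 3 ≤ (univ.filter fun l => τ l = b).card)
    (st : ι → RowSt R) (a b : ι) (hab : a ≠ b) (ha : st a ≠ .dflt) (hb : st b = .dflt)
    (i j : ι) (hij : (i = a ∧ j = b) ∨ (i = b ∧ j = a)) :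
    ∃ (Nx Nw : ι → ι → CLab ι R) (fl : ι → GLab R Unit),
      (∀ l c, fl l ≠ .fix c) ∧ Nx i j = .pen ∧
      LG τ (fun l => (fl l).row) Nx ∧
      LG τ (fun l => (st l).row + (fl l).flip.row) Nw := by
  have hcb : (st b).cov = false := by rw [hb]; rfl
  rcases cross_or_star τ h4 hR hτ hτ6 st a b hab ha hb with
    ⟨N, k, α, β, hSS, hkτ, hα, hβ, hno⟩ | ⟨N, hst, hle, hge, h0a, h0b⟩
  · obtain ⟨Nw, w1, w2, w3, w4, w5, w6⟩ := cross_w τ st N hSS a k hkτ ha α β hα hβ hno
    have hak : a ≠ k := fun h => hkτ (by rw [h])
    obtain ⟨Nx, x1, x2, x3, x4, x5, x6, x7, x8⟩ :=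
      kd_cross τ h4 hR a b k hab hak (Or.inr hkτ) α β
    obtain ⟨fl, f1, f2, f3⟩ := p4_comb τ (fun _ => 0) (fun l => (st l).row) Nx Nw
      (fun l => decide (l ≠ a ∧ l ≠ k)) (fun l => if l = a then α else β)
      (fun l => if l = a then β else α) (p4_struct hak (p4_struct0 x1))
      (p4_struct (ex := fun l => (st l).row) hak w1) x4 w2 x5 w3
      (by
        intro l hl
        have : ¬ (l ≠ a ∧ l ≠ k) := by simpa using hl
        by_cases h1 : l = a
        · rw [h1]
          exact x6
        · by_cases h2 : l = k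
          · rw [h2]
            exact x7
          · exact absurd ⟨h1, h2⟩ this)
      (by
        intro l hl
        have : ¬ (l ≠ a ∧ l ≠ k) := by simpa using hl
        by_cases h1 : l = a
        · rw [h1]
          exact w4
        · by_cases h2 : l = k
          · rw [h2]
            exact w5
          · exact absurd ⟨h1, h2⟩ this)
      (by
        intro l hl
        obtain ⟨h1, h2⟩ : l ≠ a ∧ l ≠ k := by simpa using hl
        by_cases h3 : l = b
        · right
          exact w6 l (by rw [h3]; exact hcb) h2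
        · left
          exact x8 l h1 h3 h2)
    refine ⟨Nx, Nw, fl, f1, ?_, p4_zero_row f2, f3⟩
    rcases hij with ⟨rfl, rfl⟩ | ⟨rfl, rfl⟩
    · exact x2
    · exact x3
  · obtain ⟨Nx, hK⟩ := karr_std τ h4 hR hτ i j (none : Option R)
    obtain ⟨fl, f1, f2, f3⟩ := p4_ker τ (fun _ => 0) (fun l => (st l).row) Nx N hK.st hst
      hK.le hle hK.ge hge (by
        intro l
        by_cases h1 : l = i
        · right
          rw [h1]
          rcases hij with ⟨rfl, rfl⟩ | ⟨rfl, rfl⟩
          · exact h0a
          · exact h0b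
        · by_cases h2 : l = j
          · right
            rw [h2]
            rcases hij with ⟨rfl, rfl⟩ | ⟨rfl, rfl⟩
            · exact h0b
            · exact h0a
          · left
            exact hK.can l h1 h2)
    exact ⟨Nx, N, fl, f1, hK.cell, p4_zero_row f2, f3⟩

end p4

/-- The pair lemma for `n ≥ 4`. -/
theorem pairProp_four {ι R : Type} [Fintype ι] [DecidableEq ι] [Fintype R] [DecidableEq R]
    (τ : ι → Bool) (h4 : 4 ≤ Fintype.card ι) (hR : Fintype.card R + 1 = Fintype.card ι)
    (hτ : ∀ b, 2 ≤ (univ.filter fun l => τ l = b).card)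
    (hτ6 : 6 ≤ Fintype.card ι → ∀ b, 3 ≤ (univ.filter fun l => τ l = b).card) :
    PairProp (ι := ι) (R := R) τ := by
  refine ⟨?_, ?_, ?_⟩
  · -- no precoloured cell
    intro st st' fm hfm
    obtain ⟨Nx, hx⟩ := ss_std τ h4 hR hτ st
    obtain ⟨Nw, hw⟩ := ss_std τ h4 hR hτ st'
    have hlab : ∀ s : RowSt R, s.lab.row = s.row ∧ s.lab.flip.row = s.row := by
      intro s
      cases s <;> exact ⟨rfl, rfl⟩
    have hcov : ∀ s : RowSt R, s ≠ .dflt → s.cov = true := by
      intro s hs
      cases s
      · exact absurd rfl hs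
      · rfl
      · rfl
    obtain ⟨fl, f1, f2, f3, f4⟩ := ss_pair Unit τ (fun i => (st i).row) (fun i => (st' i).row)
      (fun i => if fm i = true then 0 else (st i).row)
      (fun i => if fm i = true then 0 else (st' i).row)
      (fun i => (st i).cov) (fun i => (st' i).cov) Nx Nw hx hw fm (fun i => (st i).lab)
      (by
        intro i hi
        obtain ⟨h1, h2⟩ := hfm i hi
        refine ⟨?_, ?_, hcov _ h2, ?_⟩
        · simp only [if_pos hi, zero_add]
          exact (hlab _).1
        · simp only [if_pos hi, zero_add]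
          rw [← h1]
          exact (hlab _).2
        · rw [← h1]
          exact hcov _ h2)
      (by
        intro i hi
        have h : ¬ fm i = true := by simp [hi]
        exact ⟨if_neg h, if_neg h⟩)
    refine ⟨Nx, Nw, fl, f1, fun i hi c hc => ?_, f3, f4⟩
    have := f2 i hi
    rw [hc] at this
    simp [GLab.isKer] at this
  · -- one precoloured cell
    intro i j t st hst
    by_cases hcase : i = j ∨ t ≠ none ∨ (st i = .dflt ∧ st j = .dflt)
    · obtain ⟨Nx, hK⟩ := karr_std τ h4 hR hτ i j t
      obtain ⟨Nw, hw⟩ := ss_std τ h4 hR hτ st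
      have hcan : ∀ l, st l = .dflt → Fv (fun i => (st i).row) Nw l = 0 := fun l hl =>
        hw.can l (by
          change (st l).cov = false
          rw [hl]
          rfl)
      obtain ⟨fl, f1, f2, f3⟩ := p4_ker τ (fun _ => 0) (fun l => (st l).row) Nx Nw hK.st hw.st
        hK.le hw.le hK.ge hw.ge (by
          intro l
          by_cases hij : i = j
          · subst hij
            by_cases hl : l = i
            · right
              rw [hl]
              exact hcan i (by rcases hst with h | h <;> exact h)
            · left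
              exact hK.can l hl hl
          · rcases hcase with h | h | ⟨h, h'⟩
            · exact absurd h hij
            · left
              exact hK.can' hij h l
            · by_cases hl : l = i
              · right
                rw [hl]
                exact hcan i h
              · by_cases hl' : l = j
                · right
                  rw [hl']
                  exact hcan j h'
                · left
                  exact hK.can l hl hl')
      exact ⟨Nx, Nw, fl, f1, hK.cell, p4_zero_row f2, f3⟩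
    · push Not at hcase
      obtain ⟨hij, ht, hdd⟩ := hcase
      subst ht
      by_cases hi : st i = .dflt
      · have hj : st j ≠ .dflt := hdd hi
        exact p4_kn τ h4 hR hτ hτ6 st j i (Ne.symm hij) hj hi i j (Or.inr ⟨rfl, rfl⟩)
      · have hj : st j = .dflt := by
          rcases hst with h | h
          · exact absurd h hi
          · exact h
        exact p4_kn τ h4 hR hτ hτ6 st i j hij hi hj i j (Or.inl ⟨rfl, rfl⟩)
  · -- two precoloured cells
    intro i j t i' j' t' hii hjj
    by_cases hcase : t = none ∧ t' = none ∧ i ≠ j ∧ i' ≠ j' ∧ (i = j' ∨ j = i')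
    · obtain ⟨rfl, rfl, hij, hij', hc⟩ := hcase
      by_cases h1 : i = j'
      · subst h1
        by_cases h2 : j = i'
        · subst h2
          obtain ⟨Nx, Nw, fl, f0, f1, f2, f3, f4, f5, f6⟩ := p4_kk τ h4 hR i j j j hij hij hij
            (Or.inl rfl) (Or.inl rfl) (fun l _ hl h => hl h.1)
          exact ⟨Nx, Nw, fl, f0, f1, f4, f5, f6⟩
        · obtain ⟨k, hk, hik⟩ := p4_other τ hτ i
          obtain ⟨Nx, Nw, fl, f0, f1, f2, f3, f4, f5, f6⟩ := p4_kk τ h4 hR i j i' k hij hii hik
            (Or.inr hk) (Or.inr hk) (fun l _ _ h => h2 (h.1.symm.trans h.2))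
          exact ⟨Nx, Nw, fl, f0, f1, f4, f5, f6⟩
      · have h2 : j = i' := by
          rcases hc with h | h
          · exact absurd h h1
          · exact h
        subst h2
        obtain ⟨k, hk, hjk⟩ := p4_other τ hτ j
        obtain ⟨Nx, Nw, fl, f0, f1, f2, f3, f4, f5, f6⟩ := p4_kk τ h4 hR j i j' k (Ne.symm hij)
          hjj hjk (Or.inr hk) (Or.inr hk) (fun l _ _ h => h1 (h.1.symm.trans h.2))
        exact ⟨Nx, Nw, fl, f0, f2, f3, f5, f6⟩
    · obtain ⟨Nx, hx⟩ := karr_std τ h4 hR hτ i j t
      obtain ⟨Nw, hw⟩ := karr_std τ h4 hR hτ i' j' t'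
      obtain ⟨fl, f1, f2, f3⟩ := p4_ker τ (fun _ => 0) (fun _ => 0) Nx Nw hx.st hw.st
        hx.le hw.le hx.ge hw.ge (by
          intro l
          by_contra hcon
          push Not at hcon
          obtain ⟨hx0, hw0⟩ := hcon
          have e1 : l = i ∨ l = j := by
            by_contra h
            push Not at h
            exact hx0 (hx.can l h.1 h.2)
          have e2 : l = i' ∨ l = j' := by
            by_contra h
            push Not at h
            exact hw0 (hw.can l h.1 h.2)
          have e3 : i = j ∨ t = none := by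
            by_contra h
            push Not at h
            exact hx0 (hx.can' h.1 h.2 l)
          have e4 : i' = j' ∨ t' = none := by
            by_contra h
            push Not at h
            exact hw0 (hw.can' h.1 h.2 l)
          apply hcase
          rcases e1 with h1 | h1
          · rcases e2 with h2 | h2
            · exact absurd (h1.symm.trans h2) hii
            · have e5 : i ≠ j := fun h => hjj (h.symm.trans (h1.symm.trans h2))
              have e6 : i' ≠ j' := fun h => hii ((h1.symm.trans h2).trans h.symm)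
              exact ⟨e3.resolve_left e5, e4.resolve_left e6, e5, e6, Or.inl (h1.symm.trans h2)⟩
          · rcases e2 with h2 | h2
            · have e5 : i ≠ j := fun h => hii (h.trans (h1.symm.trans h2))
              have e6 : i' ≠ j' := fun h => hjj ((h1.symm.trans h2).trans h)
              exact ⟨e3.resolve_left e5, e4.resolve_left e6, e5, e6, Or.inr (h1.symm.trans h2)⟩
            · exact absurd (h1.symm.trans h2) hjj)
      exact ⟨Nx, Nw, fl, f1, hx.cell, hw.cell, p4_zero_row f2, p4_zero_row f3⟩

/-- A suitable class function. -/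
theorem exists_tau (n : ℕ) (h4 : 4 ≤ n) : ∃ τ : Fin n → Bool,
    (∀ b, 2 ≤ (univ.filter fun l => τ l = b).card) ∧
    (6 ≤ n → ∀ b, 3 ≤ (univ.filter fun l => τ l = b).card) := by
  refine ⟨fun l => decide (l.val < n / 2), ?_⟩
  have h1 : (univ.filter fun l : Fin n => decide (l.val < n / 2) = true).card = n / 2 := by
    have := Fin.card_filter_val_lt (n := n) (m := n / 2)
    simp only [decide_eq_true_eq]
    rw [this]
    omega
  have h2 : (univ.filter fun l : Fin n => decide (l.val < n / 2) = false).card = n - n / 2 := by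
    have h3 := Finset.card_filter_add_card_filter_not (s := (univ : Finset (Fin n)))
      (fun l : Fin n => decide (l.val < n / 2) = true)
    rw [h1, Finset.card_univ, Fintype.card_fin] at h3
    have h5 : (univ.filter fun l : Fin n => decide (l.val < n / 2) = false) =
        univ.filter fun l : Fin n => ¬ (decide (l.val < n / 2) = true) := by
      ext l
      simp
    rw [h5]
    omega
  constructor
  · intro b
    cases b
    · rw [h2]
      omega
    · rw [h1]
      omega
  · intro h6 b
    cases b
    · rw [h2]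
      omega
    · rw [h1]
      omega

end W3a
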