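import Pool.Agent.W_MP_3a8340_co.Defs

open Finset

namespace W3a

section RegAux

/-- parity of a bit vector -/
private def regPar {d : ℕ} (s : Fin d → Bool) : Bool := decide (Odd (∑ j, (s j).toNat))

private def regFlip {d : ℕ} (s : Fin d → Bool) (j : Fin d) : Fin d → Bool :=
  Function.update s j (!s j)

private theorem regFlip_self {d : ℕ} (s : Fin d → Bool) (j : Fin d) : regFlip s j j = !s j := by
  unfold regFlip
  rw [Function.update_self]

private theorem regFlip_ne {d : ℕ} (s : Fin d → Bool) {j k : Fin d} (h : k ≠ j) :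
    regFlip s j k = s k := by
  unfold regFlip
  rw [Function.update_of_ne h]

private theorem regFlip_flip {d : ℕ} (s : Fin d → Bool) (j : Fin d) :
    regFlip (regFlip s j) j = s := by
  funext k
  by_cases h : k = j
  · subst h
    rw [regFlip_self, regFlip_self, Bool.not_not]
  · rw [regFlip_ne _ h, regFlip_ne _ h]

private theorem regFlip_ne_self {d : ℕ} (s : Fin d → Bool) (j : Fin d) : regFlip s j ≠ s := by
  intro h
  have h1 := congrFun h j
  rw [regFlip_self] at h1
  cases hs : s j <;> rw [hs] at h1 <;> cases h1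

private theorem regFlip_inj {d : ℕ} (s : Fin d → Bool) : Function.Injective (regFlip s) := by
  intro j k h
  by_contra hne
  have h1 := congrFun h j
  rw [regFlip_self, regFlip_ne _ hne] at h1
  cases hs : s j <;> rw [hs] at h1 <;> cases h1

private theorem regPar_flip {d : ℕ} (s : Fin d → Bool) (j : Fin d) :
    regPar (regFlip s j) ≠ regPar s := by
  unfold regPar
  have h1 : ∑ k, (regFlip s j k).toNat = (!s j).toNat + ∑ k ∈ univ.erase j, (s k).toNat := by
    rw [← Finset.add_sum_erase _ _ (Finset.mem_univ j), regFlip_self]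
    congr 1
    refine Finset.sum_congr rfl fun k hk => ?_
    rw [regFlip_ne _ (Finset.ne_of_mem_erase hk)]
  have h2 : ∑ k, (s k).toNat = (s j).toNat + ∑ k ∈ univ.erase j, (s k).toNat := by
    rw [← Finset.add_sum_erase _ _ (Finset.mem_univ j)]
  rw [h1, h2]
  intro h
  rw [decide_eq_decide] at h
  cases hs : s j
  · rw [hs] at h
    simp only [Bool.not_false, Bool.toNat_true, Bool.toNat_false, zero_add] at h
    rw [add_comm, Nat.odd_add_one] at h
    by_cases h3 : Odd (∑ k ∈ univ.erase j, (s k).toNat)
    · exact h.2 h3 h3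
    · exact h3 (h.1 h3)
  · rw [hs] at h
    simp only [Bool.not_true, Bool.toNat_true, Bool.toNat_false, zero_add] at h
    rw [add_comm, Nat.odd_add_one] at h
    by_cases h3 : Odd (∑ k ∈ univ.erase j, (s k).toNat)
    · exact h.1 h3 h3
    · exact h3 (h.2 h3)

private theorem reg_xor_right (a b c : Bool) (h : xor a c = xor b c) : a = b := by
  cases a <;> cases b <;> cases c <;> simp_all

private theorem reg_xor_left (a b c : Bool) (h : xor c a = xor c b) : a = b := by
  cases a <;> cases b <;> cases c <;> simp_all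

end RegAux

/-- Every finite bipartite graph of maximum degree at most `d` is an induced subgraph of a
`d`-regular bipartite graph. -/
theorem exists_regular_super {V : Type*} [Fintype V] (G : SimpleGraph V) [DecidableRel G.Adj]
    (side : V → Bool) (hside : ∀ v w, G.Adj v w → side v ≠ side w) (d : ℕ)
    (hd : ∀ v, G.degree v ≤ d) :
    ∃ (W : Type) (_ : Fintype W) (_ : DecidableEq W) (G' : SimpleGraph W)
      (_ : DecidableRel G'.Adj) (side' : W → Bool) (φ : V → W), Function.Injective φ ∧
      (∀ v w, G'.Adj (φ v) (φ w) ↔ G.Adj v w) ∧ (∀ v w, G'.Adj v w → side' v ≠ side' w) ∧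
      G'.IsRegularOfDegree d := by
  classical
  obtain ⟨e⟩ : Nonempty (V ≃ Fin (Fintype.card V)) := ⟨Fintype.equivFin V⟩
  let R : Fin (Fintype.card V) × (Fin d → Bool) → Fin (Fintype.card V) × (Fin d → Bool) → Prop :=
    fun x y => (x.2 = y.2 ∧ G.Adj (e.symm x.1) (e.symm y.1)) ∨
      (x.1 = y.1 ∧ ∃ j : Fin d, j.val < d - G.degree (e.symm x.1) ∧ y.2 = regFlip x.2 j)
  have hsymm : ∀ x y, R x y → R y x := by
    rintro ⟨a, s⟩ ⟨b, t⟩ (⟨h1, h2⟩ | ⟨h1, j, hj, h2⟩)
    · exact Or.inl ⟨h1.symm, h2.symm⟩
    · right
      simp only at h1 h2 hj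
      subst h1
      refine ⟨rfl, j, hj, ?_⟩
      show s = regFlip t j
      rw [h2, regFlip_flip]
  have hirr : ∀ x, ¬ R x x := by
    rintro ⟨a, s⟩ (⟨_, h2⟩ | ⟨_, j, _, h2⟩)
    · exact G.irrefl h2
    · exact regFlip_ne_self s j h2.symm
  let G' : SimpleGraph (Fin (Fintype.card V) × (Fin d → Bool)) :=
    { Adj := R
      symm := ⟨hsymm⟩
      loopless := ⟨hirr⟩ }
  refine ⟨Fin (Fintype.card V) × (Fin d → Bool), inferInstance, inferInstance, G',
    Classical.decRel _, fun x => xor (side (e.symm x.1)) (regPar x.2),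
    fun v => (e v, fun _ => false), ?_, ?_, ?_, ?_⟩
  · intro v w h
    exact e.injective (congrArg Prod.fst h)
  · intro v w
    show R _ _ ↔ _
    constructor
    · rintro (⟨_, h2⟩ | ⟨_, j, _, h2⟩)
      · simpa using h2
      · exact absurd h2.symm (regFlip_ne_self _ j)
    · intro h
      exact Or.inl ⟨rfl, by simpa using h⟩
  · rintro ⟨a, s⟩ ⟨b, t⟩ (⟨h1, h2⟩ | ⟨h1, j, hj, h2⟩) hh
    · simp only at h1 h2 hh
      subst h1
      exact hside _ _ h2 (reg_xor_right _ _ _ hh)
    · simp only at h1 h2 hh
      subst h1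
      rw [h2] at hh
      exact regPar_flip s j (reg_xor_left _ _ _ hh).symm
  · rintro ⟨a, s⟩
    rw [← SimpleGraph.card_neighborFinset_eq_degree]
    have hN : ∀ inst : Fintype (G'.neighborSet (a, s)),
        @SimpleGraph.neighborFinset _ G' (a, s) inst =
        (G.neighborFinset (e.symm a)).image (fun b => (e b, s)) ∪
          (univ.filter fun j : Fin d => j.val < d - G.degree (e.symm a)).image
            (fun j => (a, regFlip s j)) := by
      intro inst
      ext ⟨b, t⟩
      rw [SimpleGraph.mem_neighborFinset, Finset.mem_union, Finset.mem_image, Finset.mem_image]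
      show R _ _ ↔ _
      constructor
      · rintro (⟨h1, h2⟩ | ⟨h1, j, hj, h2⟩)
        · left
          refine ⟨e.symm b, ?_, ?_⟩
          · rw [SimpleGraph.mem_neighborFinset]
            exact h2
          · simp only at h1
            rw [h1, Equiv.apply_symm_apply]
        · right
          refine ⟨j, ?_, ?_⟩
          · rw [Finset.mem_filter]
            exact ⟨Finset.mem_univ _, hj⟩
          · simp only at h1 h2
            rw [h1, h2]
      · rintro (⟨c, hc, h1⟩ | ⟨j, hj, h1⟩)
        · rw [SimpleGraph.mem_neighborFinset] at hc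
          rw [Prod.mk.injEq] at h1
          left
          refine ⟨h1.2, ?_⟩
          show G.Adj (e.symm a) (e.symm b)
          rw [← h1.1, Equiv.symm_apply_apply]
          exact hc
        · rw [Finset.mem_filter] at hj
          rw [Prod.mk.injEq] at h1
          exact Or.inr ⟨h1.1, j, hj.2, h1.2.symm⟩
    rw [hN, Finset.card_union_of_disjoint, Finset.card_image_of_injective,
      Finset.card_image_of_injective]
    · rw [SimpleGraph.card_neighborFinset_eq_degree]
      have h1 : (univ.filter fun j : Fin d => j.val < d - G.degree (e.symm a)).card =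
          d - G.degree (e.symm a) := by
        rw [Fin.card_filter_val_lt]
        exact min_eq_right (Nat.sub_le _ _)
      rw [h1]
      have := hd (e.symm a)
      omega
    · intro j k h
      exact regFlip_inj s (congrArg Prod.snd h)
    · intro b c h
      exact e.injective (congrArg Prod.fst h)
    · rw [Finset.disjoint_left]
      rintro ⟨b, t⟩ h1 h2
      rw [Finset.mem_image] at h1 h2
      obtain ⟨c, _, h1⟩ := h1
      obtain ⟨j, _, h2⟩ := h2
      rw [Prod.mk.injEq] at h1 h2
      exact regFlip_ne_self s j (h2.2.trans h1.2.symm)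

/-- The extension statement for `d`-regular graphs and `K_{n,n}` with colours `Fin (d + n)`. -/
def CoreN (n : ℕ) : Prop :=
  ∀ (V : Type) [Fintype V] [DecidableEq V] (G : SimpleGraph V) [DecidableRel G.Adj]
    (side : V → Bool), (∀ v w, G.Adj v w → side v ≠ side w) → ∀ d, 1 ≤ d →
    G.IsRegularOfDegree d → ∀ M : PreM V (Fin n) (Fin (d + n)), Sep G M →
    ∃ (K : V → Fin n → Fin n → Fin (d + n)) (A B : V → V → Fin n → Fin (d + n)),
      Proper G K A B ∧ Extends M K A B

/-- change of the colours of a precolouring -/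
private def regMap {V ι C D : Type} (f : C → D) (M : PreM V ι C) : PreM V ι D :=
  ⟨fun v i j => (M.kc v i j).map f, fun v w i => (M.ga v w i).map f,
    fun v w i => (M.gb v w i).map f⟩

private theorem reg_sep {V ι C D : Type} {G : SimpleGraph V} (f : C → D) {M : PreM V ι C}
    (hM : Sep G M) : Sep G (regMap f M) := by
  have hk : ∀ v i j, (regMap f M).kc v i j ≠ none ↔ M.kc v i j ≠ none := fun v i j => by
    unfold regMap
    simp
  have ha : ∀ v i j, (regMap f M).ga v i j ≠ none ↔ M.ga v i j ≠ none := fun v i j => by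
    unfold regMap
    simp
  have hb : ∀ v i j, (regMap f M).gb v i j ≠ none ↔ M.gb v i j ≠ none := fun v i j => by
    unfold regMap
    simp
  have hk' : ∀ v i j, (regMap f M).kc v i j = none ↔ M.kc v i j = none := fun v i j => by
    unfold regMap
    simp
  have ha' : ∀ v i j, (regMap f M).ga v i j = none ↔ M.ga v i j = none := fun v i j => by
    unfold regMap
    simp
  have hb' : ∀ v i j, (regMap f M).gb v i j = none ↔ M.gb v i j = none := fun v i j => by
    unfold regMap
    simp
  refine ⟨?_, ?_, ?_, ?_, ?_, ?_, ?_, ?_, ?_, ?_, ?_, ?_, ?_, ?_, ?_, ?_⟩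
  · intro v w i
    show (M.ga v w i).map f = (M.ga w v i).map f
    rw [hM.sa]
  · intro v w i
    show (M.gb v w i).map f = (M.gb w v i).map f
    rw [hM.sb]
  · intro v w i h
    exact hM.adja v w i ((ha _ _ _).1 h)
  · intro v w i h
    exact hM.adjb v w i ((hb _ _ _).1 h)
  · intro v i j i' j' h h'
    exact hM.kk v i j i' j' ((hk _ _ _).1 h) ((hk _ _ _).1 h')
  · intro v i j w k h
    exact (ha' _ _ _).2 (hM.ka v i j w k ((hk _ _ _).1 h))
  · intro v i j w k h
    exact (hb' _ _ _).2 (hM.kb v i j w k ((hk _ _ _).1 h))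
  · intro v w i w' k h
    exact (hb' _ _ _).2 (hM.ab v w i w' k ((ha _ _ _).1 h))
  · intro v u w z i h h1 h2
    exact hM.na v u w z i ((ha _ _ _).1 h) h1 ((ha _ _ _).1 h2)
  · intro v u w z i h h1 h2
    exact hM.nb v u w z i ((hb _ _ _).1 h) h1 ((hb _ _ _).1 h2)
  · intro v w w' i h h'
    exact hM.aa v w w' i ((ha _ _ _).1 h) ((ha _ _ _).1 h')
  · intro v w w' i h h'
    exact hM.bb v w w' i ((hb _ _ _).1 h) ((hb _ _ _).1 h')
  · intro v i j w z h h1
    exact (ha' _ _ _).2 (hM.kna v i j w z ((hk _ _ _).1 h) h1)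
  · intro v i j w z h h1
    exact (hb' _ _ _).2 (hM.knb v i j w z ((hk _ _ _).1 h) h1)
  · intro v i j w j' h h1
    exact (hk' _ _ _).2 (hM.kki v i j w j' ((hk _ _ _).1 h) h1)
  · intro v i j w i' h h1
    exact (hk' _ _ _).2 (hM.kkj v i j w i' ((hk _ _ _).1 h) h1)

theorem coreN_of_core (n r : ℕ) (hr : r ≤ n) (h : Core (Fin n) (Fin r)) : CoreN n := by
  intro V _ _ G _ side hside d hd hreg M hM
  have hcard : Fintype.card (Fin (d + n)) = Fintype.card (Fin r ⊕ Fin (d + (n - r))) := by
    rw [Fintype.card_sum, Fintype.card_fin, Fintype.card_fin, Fintype.card_fin]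
    omega
  let E : Fin (d + n) ≃ Fin r ⊕ Fin (d + (n - r)) := Fintype.equivOfCardEq hcard
  obtain ⟨K, A, B, hp, hx⟩ := h V G side hside d (n - r) hd hreg (Fin (d + (n - r)))
    (by rw [Fintype.card_fin, Fintype.card_fin]; omega) (by rw [Fintype.card_fin])
    (regMap E M) (reg_sep E hM)
  refine ⟨fun v i j => E.symm (K v i j), fun v w i => E.symm (A v w i),
    fun v w i => E.symm (B v w i), ?_, ?_⟩
  · constructor
    · intro v w i hvw
      show E.symm _ = E.symm _
      rw [hp.sa v w i hvw]
    · intro v w i hvw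
      show E.symm _ = E.symm _
      rw [hp.sb v w i hvw]
    · intro v i j j' he
      exact hp.kr v i j j' (E.symm.injective he)
    · intro v i j j' he
      exact hp.kc v i j j' (E.symm.injective he)
    · intro v w w' i h1 h2 he
      exact hp.aa v w w' i h1 h2 (E.symm.injective he)
    · intro v w w' i h1 h2 he
      exact hp.bb v w w' i h1 h2 (E.symm.injective he)
    · intro v w i j h1 he
      exact hp.ka v w i j h1 (E.symm.injective he)
    · intro v w i j h1 he
      exact hp.kb v w i j h1 (E.symm.injective he)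
  · constructor
    · intro v i j c hc
      have h1 : K v i j = E c := hx.kc v i j (E c) (by
        show (M.kc v i j).map E = some (E c)
        rw [hc]
        rfl)
      show E.symm (K v i j) = c
      rw [h1, Equiv.symm_apply_apply]
    · intro v w i c hc
      have h1 : A v w i = E c := hx.ga v w i (E c) (by
        show (M.ga v w i).map E = some (E c)
        rw [hc]
        rfl)
      show E.symm (A v w i) = c
      rw [h1, Equiv.symm_apply_apply]
    · intro v w i c hc
      have h1 : B v w i = E c := hx.gb v w i (E c) (by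
        show (M.gb v w i).map E = some (E c)
        rw [hc]
        rfl)
      show E.symm (B v w i) = c
      rw [h1, Equiv.symm_apply_apply]

end W3a
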