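import Pool.Agent.W_MP_3a8340_co.Defs

open Finset

namespace W3a

variable {ι R : Type} [Fintype ι] [DecidableEq ι] [DecidableEq R] [Fintype R]

instance (τ : ι → Bool) (ra rb : ι → Multiset R) (N : ι → ι → CLab ι R) :
    Decidable (Struct τ ra rb N) :=
  decidable_of_iff
    ((∀ i j j', N i j = N i j' → j = j') ∧ (∀ j i i', N i j = N i' j → i = i') ∧
      (∀ i, (ra i).Nodup) ∧ (∀ i, (rb i).Nodup) ∧
      (∀ i q, (∃ j, N i j = .real q) ↔ q ∉ ra i) ∧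
      (∀ j q, (∃ i, N i j = .real q) ↔ q ∉ rb j) ∧
      (∀ i, (∃ j, N i j = .pen) ↔ (∃ j, N j i = .pen)) ∧ (∀ i j, ItemOK τ N i j (N i j)))
    ⟨fun ⟨a, b, c, d, e, f, g, h⟩ => ⟨a, b, c, d, e, f, g, h⟩,
      fun h => ⟨h.rinj, h.cinj, h.nda, h.ndb, h.rowa, h.rowb, h.pen, h.item⟩⟩

instance (τ : ι → Bool) (t : ι → RowIn R) (N : ι → ι → CLab ι R) : Decidable (LG τ t N) :=
  decidable_of_iff
    (Struct τ (fun i => (t i).1) (fun i => (t i).2.1) N ∧ (∀ i, Fv t N i ≤ 1) ∧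
      (∀ i, 2 ≤ Sv t N i))
    ⟨fun ⟨a, b, c⟩ => ⟨a, b, c⟩, fun h => ⟨h.st, h.le, h.ge⟩⟩

end W3a
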