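import Pool.Agent.W_MP_3a8340_co.Compat
import Pool.Agent.W_MP_3a8340_co.Dec

open Finset

namespace W3a

private theorem small_st (s : RowSt (Fin 0)) : s = .dflt ∨ s = .low := by
  rcases s with _ | _ | q
  · exact Or.inl rfl
  · exact Or.inr rfl
  · exact q.elim0

private theorem small_fun1 (t : Fin 1 → RowIn (Fin 0)) : t = ![t 0] := by
  funext i
  fin_cases i
  rfl

private theorem small_fun2 (t : Fin 2 → RowIn (Fin 0)) : t = ![t 0, t 1] := by
  funext i
  fin_cases i <;> rfl

/-- The rung array for `n = 1`. -/
private def smallA : Fin 1 → Fin 1 → CLab (Fin 1) (Fin 0) := fun _ _ => .item {0} (some 0)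

/-- The pendant array for `n = 1`. -/
private def smallP : Fin 1 → Fin 1 → CLab (Fin 1) (Fin 0) := fun _ _ => .pen

private def smallGood (r : RowIn (Fin 0)) : Prop :=
  r = (0, 0, 1, 0, 0) ∨ r = (0, 0, 1, 0, 1) ∨ r = (0, 0, 0, 1, 1) ∨ r = (0, 0, 0, 0, 1)

private instance (r : RowIn (Fin 0)) : Decidable (smallGood r) := by
  unfold smallGood
  infer_instance

private theorem smallA_good (t : Fin 1 → RowIn (Fin 0)) (h : smallGood (t 0)) :
    LG (fun _ => false) t smallA := by
  rw [small_fun1 t]
  rcases h with h | h | h | h <;> rw [h] <;> decide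

/-- The pair lemma for `n = 1`. -/
theorem pairProp_one : PairProp (ι := Fin 1) (R := Fin 0) (fun _ => false) := by
  refine ⟨?_, ?_, ?_⟩
  · intro st st' fm hfm
    rcases h : fm 0 with _ | _
    · have hk : ∀ s s' : RowSt (Fin 0), ∃ f : GLab (Fin 0) Unit, (∀ c, f ≠ .fix c) ∧
          smallGood (s.row + f.row) ∧ smallGood (s'.row + f.flip.row) := by
        intro s s'
        rcases small_st s with rfl | rfl <;> rcases small_st s' with rfl | rfl
        · exact ⟨.inn, by simp, by decide, by decide⟩
        · exact ⟨.inn, by simp, by decide, by decide⟩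
        · exact ⟨.out, by simp, by decide, by decide⟩
        · exact ⟨.norm, by simp, by decide, by decide⟩
      obtain ⟨f, hf, hx, hw⟩ := hk (st 0) (st' 0)
      refine ⟨smallA, smallA, fun _ => f, ?_, fun _ _ => hf, smallA_good _ ?_, smallA_good _ ?_⟩
      · intro i hi
        rw [Subsingleton.elim i 0, h] at hi
        exact absurd hi Bool.false_ne_true
      · simpa only [h, Bool.false_eq_true, if_false] using hx
      · simpa only [h, Bool.false_eq_true, if_false] using hw
    · obtain ⟨h1, h2⟩ := hfm 0 h
      have h3 : st 0 = .low := (small_st (st 0)).resolve_left h2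
      refine ⟨smallA, smallA, fun _ => .fix (), ?_, ?_, smallA_good _ ?_, smallA_good _ ?_⟩
      · intro i _
        rw [Subsingleton.elim i 0, h3]
        rfl
      · intro i hi
        rw [Subsingleton.elim i 0, h] at hi
        exact absurd hi.symm Bool.false_ne_true
      · simp only [h, if_true]
        decide
      · simp only [h, if_true]
        decide
  · intro i j t st hst
    have h0 : st 0 = .dflt := by
      rcases hst with h | h
      · rwa [Subsingleton.elim i 0] at h
      · rwa [Subsingleton.elim j 0] at h
    have ht : t = none := by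
      rcases t with _ | q
      · rfl
      · exact q.elim0
    refine ⟨smallP, smallA, fun _ => .out, fun _ _ => by simp, ?_, ?_, smallA_good _ ?_⟩
    · rw [ht]
      rfl
    · rw [small_fun1 (fun l => GLab.row ((fun _ => GLab.out : Fin 1 → GLab (Fin 0) Unit) l))]
      decide
    · simp only [h0]
      decide
  · intro i j t i' j' t' hi
    exact absurd (Subsingleton.elim i i') hi

/-- The array of a vertex without precoloured `K_{2,2}`-edge. -/
private def smallB (a b : Bool) : Fin 2 → Fin 2 → CLab (Fin 2) (Fin 0) :=
  ![![.item {0} (some 0), .item {0, 1} (if b = false then some 0 else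
        if a = false then some 1 else none)],
    ![.item {0, 1} (if b = false then some 0 else if a = false then some 1 else none),
      .item {1} (some 1)]]

/-- The array of a vertex with precoloured `K_{2,2}`-edge. -/
private def smallK : Fin 2 → Fin 2 → Fin 2 → Fin 2 → CLab (Fin 2) (Fin 0)
  | 0, 0 => ![![.pen, .item {0, 1} (some 0)], ![.item {0, 1} (some 0), .item {1} (some 1)]]
  | 1, 1 => ![![.item {0} (some 0), .item {0, 1} (some 1)], ![.item {0, 1} (some 1), .pen]]
  | _, _ => ![![.item {0} (some 0), .pen], ![.pen, .item {1} (some 1)]]

private def smallRow (a : Bool) : RowIn (Fin 0) := if a = false then 0 else (0, 0, 1, 0, 0)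

private theorem smallB_good (st : Fin 2 → RowSt (Fin 0)) :
    ∃ N : Fin 2 → Fin 2 → CLab (Fin 2) (Fin 0), LG (fun i => decide (i = 0)) (fun i => (st i).row) N := by
  rw [small_fun2 (fun i => (st i).row)]
  rcases small_st (st 0) with h0 | h0 <;> rcases small_st (st 1) with h1 | h1 <;>
    simp only [h0, h1]
  · exact ⟨smallB false false, by decide⟩
  · exact ⟨smallB false true, by decide⟩
  · exact ⟨smallB true false, by decide⟩
  · exact ⟨smallB true true, by decide⟩

private theorem smallK_good (i j : Fin 2) :
    smallK i j i j = .pen ∧ LG (fun i => decide (i = 0)) (fun _ => (0 : RowIn (Fin 0))) (smallK i j) := by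
  revert i j
  decide

/-- The pair lemma for `n = 2`. -/
theorem pairProp_two : PairProp (ι := Fin 2) (R := Fin 0) (fun i => decide (i = 0)) := by
  have hnone : ∀ t : Option (Fin 0), t = none := by
    rintro (_ | q)
    · rfl
    · exact q.elim0
  refine ⟨?_, ?_, ?_⟩
  · intro st st' fm hfm
    obtain ⟨Nx, hx⟩ := smallB_good st
    obtain ⟨Nw, hw⟩ := smallB_good st'
    refine ⟨Nx, Nw, fun i => if fm i = true then .fix () else .norm, ?_, ?_, ?_, ?_⟩
    · intro i hi
      have h3 : st i = .low := (small_st (st i)).resolve_left (hfm i hi).2
      rw [h3]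
      exact if_pos hi
    · intro i hi c
      simp [hi]
    · have : (fun i => (if fm i = true then 0 else (st i).row) +
          ((if fm i = true then GLab.fix () else GLab.norm : GLab (Fin 0) Unit)).row) =
          fun i => (st i).row := by
        funext i
        rcases h : fm i with _ | _
        · simp [GLab.row]
        · have h3 : st i = .low := (small_st (st i)).resolve_left (hfm i h).2
          simp [h3, GLab.row, RowSt.row]
      rw [this]
      exact hx
    · have : (fun i => (if fm i = true then 0 else (st' i).row) +
          ((if fm i = true then GLab.fix () else GLab.norm : GLab (Fin 0) Unit)).flip.row) =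
          fun i => (st' i).row := by
        funext i
        rcases h : fm i with _ | _
        · simp [GLab.row, GLab.flip]
        · have h3 : st i = .low := (small_st (st i)).resolve_left (hfm i h).2
          rw [(hfm i h).1] at h3
          simp [h3, GLab.row, RowSt.row, GLab.flip]
      rw [this]
      exact hw
  · intro i j t st _
    obtain ⟨Nw, hw⟩ := smallB_good st
    refine ⟨smallK i j, Nw, fun _ => .norm, fun _ _ => by simp, ?_, (smallK_good i j).2, ?_⟩
    · rw [hnone t]
      exact (smallK_good i j).1
    · have : (fun l => (st l).row + (GLab.norm : GLab (Fin 0) Unit).flip.row) =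
          fun l => (st l).row := by
        funext l
        simp [GLab.row, GLab.flip]
      rw [this]
      exact hw
  · intro i j t i' j' t' _ _
    refine ⟨smallK i j, smallK i' j', fun _ => .norm, fun _ _ => by simp, ?_, ?_,
      (smallK_good i j).2, (smallK_good i' j').2⟩
    · rw [hnone t]
      exact (smallK_good i j).1
    · rw [hnone t']
      exact (smallK_good i' j').1

end W3a
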