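import Pool.Agent.W_MP_3a8340_co.Std
import Pool.Agent.W_MP_3a8340_co.Pair4
import Pool.Agent.W_MP_3a8340_co.Small
import Pool.Agent.W_MP_3a8340_co.N3Core
import Pool.Agent.W_MP_3a8340_co.Reg

open Finset

namespace W3a

theorem coreN_all (n : ℕ) (hn : 1 ≤ n) : CoreN n := by
  rcases Nat.lt_or_ge n 4 with h | h
  · interval_cases n
    · exact coreN_of_core 1 0 (by omega) (core_of_pairProp _ pairProp_one)
    · exact coreN_of_core 2 0 (by omega) (core_of_pairProp _ pairProp_two)
    · exact coreN_of_core 3 2 (by omega) core_three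
  · obtain ⟨τ, h2, h6⟩ := exists_tau n h
    exact coreN_of_core n (n - 1) (by omega) (core_of_pairProp τ
      (pairProp_four τ (by simpa using h) (by simp; omega) h2 (by simpa using h6)))

end W3a
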