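import Pool.Agent.W_MP_3a8340_co.Kernel

open Finset

namespace W3a

/-! ### Boolean descriptions of labels and counting -/

def asmReal {ι R : Type} : CLab ι R → Bool
  | .real _ => true
  | _ => false

/-- normal item -/
def asmNm {ι R : Type} : CLab ι R → Bool
  | .item _ none => true
  | _ => false

def asmItem {ι R : Type} : CLab ι R → Bool
  | .item _ _ => true
  | _ => false

def asmGReal {R P : Type} : GLab R P → Bool
  | .real _ _ => true
  | _ => false

def asmGFix {R P : Type} : GLab R P → Bool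
  | .fix _ => true
  | _ => false

def asmGInn {R P : Type} : GLab R P → Bool
  | .inn => true
  | _ => false

def asmGSpc {R P : Type} : GLab R P → Bool
  | .inn => true
  | .out => true
  | _ => false

def asmGNorm {R P : Type} : GLab R P → Bool
  | .norm => true
  | _ => false

theorem asm_flip_ker {R P : Type} (l : GLab R P) : l.flip.isKer = l.isKer := by
  cases l <;> rfl

section counts
variable {V R P : Type}

theorem asm_card_partition (s : Finset V) (f : V → GLab R P) :
    (s.filter fun w => asmGReal (f w) = true).card + (s.filter fun w => asmGFix (f w) = true).card +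
      (s.filter fun w => asmGSpc (f w) = true).card + (s.filter fun w => asmGNorm (f w) = true).card
      = s.card := by
  simp only [Finset.card_filter, ← Finset.sum_add_distrib]
  rw [Finset.card_eq_sum_ones]
  refine Finset.sum_congr rfl fun w _ => ?_
  cases f w <;> rfl

theorem asm_ker_partition (s : Finset V) (f : V → GLab R P) :
    (s.filter fun w => (f w).isKer = true).card =
      (s.filter fun w => asmGSpc (f w) = true).card +
      (s.filter fun w => asmGNorm (f w) = true).card := by
  simp only [Finset.card_filter, ← Finset.sum_add_distrib]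
  refine Finset.sum_congr rfl fun w _ => ?_
  cases f w <;> rfl

theorem asm_row_fix (s : Finset V) (f : V → GLab R P) :
    (∑ w ∈ s, (f w).row).2.2.1 = (s.filter fun w => asmGFix (f w) = true).card := by
  rw [Prod.snd_sum, Prod.snd_sum, Prod.fst_sum, Finset.card_filter]
  refine Finset.sum_congr rfl fun w _ => ?_
  cases f w <;> rfl

theorem asm_row_inn (s : Finset V) (f : V → GLab R P) :
    (∑ w ∈ s, (f w).row).2.2.2.1 = (s.filter fun w => asmGInn (f w) = true).card := by
  rw [Prod.snd_sum, Prod.snd_sum, Prod.snd_sum, Prod.fst_sum, Finset.card_filter]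
  refine Finset.sum_congr rfl fun w _ => ?_
  cases f w <;> rfl

theorem asm_row_spc (s : Finset V) (f : V → GLab R P) :
    (∑ w ∈ s, (f w).row).2.2.2.2 = (s.filter fun w => asmGSpc (f w) = true).card := by
  rw [Prod.snd_sum, Prod.snd_sum, Prod.snd_sum, Prod.snd_sum, Finset.card_filter]
  refine Finset.sum_congr rfl fun w _ => ?_
  cases f w <;> rfl

theorem asm_row_a (s : Finset V) (f : V → GLab R P) :
    Multiset.card (∑ w ∈ s, (f w).row).1 = (s.filter fun w => asmGReal (f w) = true).card := by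
  rw [Prod.fst_sum, Multiset.card_sum, Finset.card_filter]
  refine Finset.sum_congr rfl fun w _ => ?_
  cases f w <;> rfl

/-- two neighbours with the same real colour are equal -/
theorem asm_nodup_a (s : Finset V) (f : V → GLab R P)
    (h : (∑ w ∈ s, (f w).row).1.Nodup) {w w' : V} (hw : w ∈ s) (hw' : w' ∈ s) {a b b' : R}
    (h1 : f w = .real a b) (h2 : f w' = .real a b') : w = w' := by
  classical
  by_contra hne
  rw [Prod.fst_sum] at h
  have hsub : ({w, w'} : Finset V) ⊆ s := by
    intro x hx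
    rcases Finset.mem_insert.1 hx with rfl | hx
    · exact hw
    · rw [Finset.mem_singleton.1 hx]; exact hw'
  have h3 : ∑ x ∈ ({w, w'} : Finset V), (f x).row.1 ≤ ∑ x ∈ s, (f x).row.1 :=
    Finset.sum_le_sum_of_subset hsub
  have h4 := Multiset.nodup_of_le h3 h
  rw [Finset.sum_pair hne, h1, h2] at h4
  have h5 : (({a} : Multiset R) + {a}).Nodup := h4
  rw [Multiset.nodup_add] at h5
  exact (Multiset.disjoint_left.1 h5.2.2) (Multiset.mem_singleton_self a) (Multiset.mem_singleton_self a)

theorem asm_nodup_b (s : Finset V) (f : V → GLab R P)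
    (h : (∑ w ∈ s, (f w).row).2.1.Nodup) {w w' : V} (hw : w ∈ s) (hw' : w' ∈ s) {a a' b : R}
    (h1 : f w = .real a b) (h2 : f w' = .real a' b) : w = w' := by
  classical
  by_contra hne
  rw [Prod.snd_sum, Prod.fst_sum] at h
  have hsub : ({w, w'} : Finset V) ⊆ s := by
    intro x hx
    rcases Finset.mem_insert.1 hx with rfl | hx
    · exact hw
    · rw [Finset.mem_singleton.1 hx]; exact hw'
  have h3 : ∑ x ∈ ({w, w'} : Finset V), (f x).row.2.1 ≤ ∑ x ∈ s, (f x).row.2.1 :=
    Finset.sum_le_sum_of_subset hsub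
  have h4 := Multiset.nodup_of_le h3 h
  rw [Finset.sum_pair hne, h1, h2] at h4
  have h5 : (({b} : Multiset R) + {b}).Nodup := h4
  rw [Multiset.nodup_add] at h5
  exact (Multiset.disjoint_left.1 h5.2.2) (Multiset.mem_singleton_self b) (Multiset.mem_singleton_self b)

theorem asm_mem_a (s : Finset V) (f : V → GLab R P) {w : V} (hw : w ∈ s) {a b : R}
    (h1 : f w = .real a b) : a ∈ (∑ w ∈ s, (f w).row).1 := by
  rw [Prod.fst_sum, Multiset.mem_sum]
  exact ⟨w, hw, by rw [h1]; exact Multiset.mem_singleton_self a⟩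

theorem asm_mem_b (s : Finset V) (f : V → GLab R P) {w : V} (hw : w ∈ s) {a b : R}
    (h1 : f w = .real a b) : b ∈ (∑ w ∈ s, (f w).row).2.1 := by
  rw [Prod.snd_sum, Prod.fst_sum, Multiset.mem_sum]
  exact ⟨w, hw, by rw [h1]; exact Multiset.mem_singleton_self b⟩

end counts

section cells
variable {ι R : Type} [Fintype ι] [DecidableEq ι] [DecidableEq R]

theorem asm_cell_partition (f : ι → CLab ι R) :
    cnt (fun j => asmReal (f j)) + cnt (fun j => (f j).isPen) + cnt (fun j => (f j).isSp) +
      cnt (fun j => asmNm (f j)) = Fintype.card ι := by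
  unfold cnt
  simp only [Finset.card_filter, ← Finset.sum_add_distrib]
  rw [← Finset.card_univ, Finset.card_eq_sum_ones]
  refine Finset.sum_congr rfl fun w _ => ?_
  rcases f w with _ | _ | ⟨S, _ | t⟩ <;> rfl

theorem asm_item_partition (f : ι → CLab ι R) :
    cnt (fun j => asmItem (f j)) = cnt (fun j => (f j).isSp) + cnt (fun j => asmNm (f j)) := by
  unfold cnt
  simp only [Finset.card_filter, ← Finset.sum_add_distrib]
  refine Finset.sum_congr rfl fun w _ => ?_
  rcases f w with _ | _ | ⟨S, _ | t⟩ <;> rfl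

theorem asm_real_cells [Fintype R] (f : ι → CLab ι R) (m : Multiset R)
    (h : ∀ q, (∃ j, f j = .real q) ↔ q ∉ m) :
    Fintype.card R ≤ cnt (fun j => asmReal (f j)) + Multiset.card m := by
  classical
  have h1 : (univ.filter fun q => q ∉ m).card ≤ cnt (fun j => asmReal (f j)) := by
    unfold cnt
    have hex : ∀ q, q ∉ m → ∃ j, f j = .real q := fun q hq => (h q).2 hq
    rcases isEmpty_or_nonempty ι with hι | hι
    · have h0 : (univ.filter fun q => q ∉ m) = ∅ := by
        rw [Finset.filter_eq_empty_iff]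
        intro q _ hq
        obtain ⟨j, -⟩ := hex q hq
        exact hι.false j
      rw [h0, Finset.card_empty]
      exact Nat.zero_le _
    choose! j hj using hex
    refine Finset.card_le_card_of_injOn j ?_ ?_
    · intro q hq
      simp only [coe_filter, mem_univ, true_and, Set.mem_ofPred_eq] at hq ⊢
      rw [hj q hq]
      rfl
    · intro q hq q' hq' he
      simp only [coe_filter, mem_univ, true_and, Set.mem_ofPred_eq] at hq hq'
      have h2 := hj q hq
      have h3 := hj q' hq'
      rw [he, h3] at h2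
      cases h2
      rfl
  have h2 : (univ.filter fun q => q ∈ m).card ≤ Multiset.card m := by
    have : (univ.filter fun q => q ∈ m) = m.toFinset := by
      ext q; simp
    rw [this]
    exact Multiset.toFinset_card_le m
  have h3 := Finset.card_filter_add_card_filter_not (s := (univ : Finset R)) (fun q => q ∈ m)
  rw [Finset.card_univ] at h3
  omega

end cells

/-! ### The items -/

section items
variable {V ι R P : Type} [Fintype V] [DecidableEq V] [Fintype ι] [DecidableEq ι]
  [DecidableEq R]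

/-- local items -/
abbrev AsmLoc (N : V → ι → ι → CLab ι R) : Type :=
  {x : V × Finset ι × Option ι // ∃ i j, N x.1 i j = .item x.2.1 x.2.2}

/-- layer items -/
abbrev AsmLay (G : SimpleGraph V) (side : V → Bool) (g : V → V → ι → GLab R P) : Type :=
  {y : V × V × ι // side y.1 = false ∧ G.Adj y.1 y.2.1 ∧ (g y.1 y.2.1 y.2.2).isKer = true}

variable {G : SimpleGraph V} {side : V → Bool} {N : V → ι → ι → CLab ι R}
  {g : V → V → ι → GLab R P}

def asmRows : AsmLoc N ⊕ AsmLay G side g → Finset (V × ι)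
  | .inl x => x.1.2.1.image (fun k => (x.1.1, k))
  | .inr y => {(y.1.1, y.1.2.2), (y.1.2.1, y.1.2.2)}

def asmGTail (v w : V) (i : ι) : GLab R P → Option (V × ι)
  | .out => some (v, i)
  | .inn => some (w, i)
  | _ => none

def asmTail : AsmLoc N ⊕ AsmLay G side g → Option (V × ι)
  | .inl x => x.1.2.2.map (fun k => (x.1.1, k))
  | .inr y => asmGTail y.1.1 y.1.2.1 y.1.2.2 (g y.1.1 y.1.2.1 y.1.2.2)

theorem asm_mem_rows_inl (x : AsmLoc N) (v : V) (i : ι) :
    (v, i) ∈ asmRows (G := G) (side := side) (g := g) (.inl x) ↔ x.1.1 = v ∧ i ∈ x.1.2.1 := by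
  unfold asmRows
  simp only [mem_image, Prod.mk.injEq]
  constructor
  · rintro ⟨k, hk, h1, rfl⟩
    exact ⟨h1, hk⟩
  · rintro ⟨h1, h2⟩
    exact ⟨i, h2, h1, rfl⟩

theorem asm_mem_rows_inr (y : AsmLay G side g) (v : V) (i : ι) :
    (v, i) ∈ asmRows (N := N) (.inr y) ↔ y.1.2.2 = i ∧ (y.1.1 = v ∨ y.1.2.1 = v) := by
  unfold asmRows
  simp only [mem_insert, mem_singleton, Prod.mk.injEq]
  constructor
  · rintro (⟨h1, h2⟩ | ⟨h1, h2⟩)
    · exact ⟨h2.symm, Or.inl h1.symm⟩
    · exact ⟨h2.symm, Or.inr h1.symm⟩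
  · rintro ⟨h1, h2 | h2⟩
    · exact Or.inl ⟨h2.symm, h1.symm⟩
    · exact Or.inr ⟨h2.symm, h1.symm⟩

/-- the counting lemma -/
theorem asm_count [DecidableRel G.Adj] (hside : ∀ v w, G.Adj v w → side v ≠ side w)
    (v : V) (i : ι) (T : Finset (AsmLoc N ⊕ AsmLay G side g)) (pl : CLab ι R → Bool)
    (pg : GLab R P → Bool)
    (hloc : ∀ x : AsmLoc N, Sum.inl x ∈ T → x.1.1 = v ∧
      (∃ j, N v i j = .item x.1.2.1 x.1.2.2) ∧ pl (.item x.1.2.1 x.1.2.2) = true)
    (hlay : ∀ y : AsmLay G side g, Sum.inr y ∈ T → y.1.2.2 = i ∧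
      ((y.1.1 = v ∧ pg (g v y.1.2.1 i) = true) ∨ (y.1.2.1 = v ∧ pg (g v y.1.1 i) = true))) :
    T.card ≤ cnt (fun j => pl (N v i j)) +
      ((G.neighborFinset v).filter fun w => pg (g v w i) = true).card := by
  classical
  let f : AsmLoc N ⊕ AsmLay G side g → ι ⊕ V := fun e => match e with
    | .inl x => .inl (if h : ∃ j, N v i j = .item x.1.2.1 x.1.2.2 then h.choose else i)
    | .inr y => .inr (if y.1.1 = v then y.1.2.1 else y.1.1)
  unfold cnt
  rw [← Finset.card_disjSum]
  refine Finset.card_le_card_of_injOn f ?_ ?_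
  · rintro (x | y) he
    · obtain ⟨-, h2, h3⟩ := hloc x he
      have e1 : f (.inl x) = .inl h2.choose := by
        simp only [f, dif_pos h2]
      rw [e1, Finset.mem_coe, Finset.inl_mem_disjSum, mem_filter]
      refine ⟨mem_univ _, ?_⟩
      show pl (N v i h2.choose) = true
      rw [h2.choose_spec]
      exact h3
    · obtain ⟨h1, h2⟩ := hlay y he
      have hadj := y.2.2.1
      rcases h2 with ⟨h2, h3⟩ | ⟨h2, h3⟩
      · have e1 : f (.inr y) = .inr y.1.2.1 := by
          simp only [f, if_pos h2]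
        rw [e1, Finset.mem_coe, Finset.inr_mem_disjSum, mem_filter, SimpleGraph.mem_neighborFinset]
        exact ⟨h2 ▸ hadj, h3⟩
      · have hne : y.1.1 ≠ v := by
          intro h
          rw [h, h2] at hadj
          exact hadj.ne rfl
        have e1 : f (.inr y) = .inr y.1.1 := by
          simp only [f, if_neg hne]
        rw [e1, Finset.mem_coe, Finset.inr_mem_disjSum, mem_filter, SimpleGraph.mem_neighborFinset]
        exact ⟨h2 ▸ hadj.symm, h3⟩
  · rintro (x | y) he (x' | y') he' hf
    · obtain ⟨h1, h2, h3⟩ := hloc x he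
      obtain ⟨h1', h2', h3'⟩ := hloc x' he'
      simp only [f, dif_pos h2, dif_pos h2', Sum.inl.injEq] at hf
      have e1 := h2.choose_spec
      have e2 := h2'.choose_spec
      rw [hf, e2] at e1
      simp only [CLab.item.injEq] at e1
      congr 1
      apply Subtype.ext
      exact Prod.ext (h1.trans h1'.symm) (Prod.ext e1.1.symm e1.2.symm)
    · simp [f] at hf
    · simp [f] at hf
    · obtain ⟨h1, h2⟩ := hlay y he
      obtain ⟨h1', h2'⟩ := hlay y' he'
      have hadj := y.2.2.1
      have hadj' := y'.2.2.1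
      have hs := y.2.1
      have hs' := y'.2.1
      have hss := hside _ _ hadj
      have hss' := hside _ _ hadj'
      simp only [f, Sum.inr.injEq] at hf
      congr 1
      apply Subtype.ext
      by_cases c1 : y.1.1 = v
      · by_cases c2 : y'.1.1 = v
        · rw [if_pos c1, if_pos c2] at hf
          exact Prod.ext (c1.trans c2.symm) (Prod.ext hf (h1.trans h1'.symm))
        · rw [if_pos c1, if_neg c2] at hf
          exfalso
          apply hss
          rw [hs, hf, hs']
      · by_cases c2 : y'.1.1 = v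
        · rw [if_neg c1, if_pos c2] at hf
          exfalso
          apply hss'
          rw [hs', ← hf, hs]
        · rw [if_neg c1, if_neg c2] at hf
          have d1 : y.1.2.1 = v := by
            rcases h2 with h2 | h2
            · exact absurd h2.1 c1
            · exact h2.1
          have d2 : y'.1.2.1 = v := by
            rcases h2' with h2 | h2
            · exact absurd h2.1 c2
            · exact h2.1
          exact Prod.ext hf (Prod.ext (d1.trans d2.symm) (h1.trans h1'.symm))

/-- the data of a good design -/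
structure AsmCtx (G : SimpleGraph V) [DecidableRel G.Adj] (side : V → Bool) (τ : ι → Bool)
    (N : V → ι → ι → CLab ι R) (g : V → V → ι → GLab R P) (d s r : ℕ) : Prop where
  hside : ∀ v w, G.Adj v w → side v ≠ side w
  hreg : G.IsRegularOfDegree d
  hR : r + s = Fintype.card ι
  hflip : ∀ v w i, G.Adj v w → g w v i = (g v w i).flip
  hLG : ∀ v, LG τ (fun i => ∑ w ∈ G.neighborFinset v, (g v w i).row) (N v)

variable [DecidableRel G.Adj] {τ : ι → Bool} {d s r : ℕ}

theorem AsmCtx.loc (h : AsmCtx G side τ N g d s r) (x : AsmLoc N) :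
    TailOK τ x.1.2.1 x.1.2.2 ∧ ∀ k ∈ x.1.2.1, ∃ j, N x.1.1 k j = .item x.1.2.1 x.1.2.2 := by
  obtain ⟨i, j, hij⟩ := x.2
  have h1 := (h.hLG x.1.1).st.item i j
  rw [hij] at h1
  obtain ⟨-, -, h2, h3⟩ := h1
  exact ⟨h2, fun k hk => (h3 k hk).1⟩

theorem AsmCtx.rowItem (h : AsmCtx G side τ N g d s r) {v : V} {i j : ι} {S : Finset ι}
    {t : Option ι} (hij : N v i j = .item S t) : i ∈ S ∧ j ∈ S := by
  have h1 := (h.hLG v).st.item i j
  rw [hij] at h1
  exact ⟨h1.1, h1.2.1⟩

/-- number of items and fixed colours at a row -/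
theorem AsmCtx.total [Fintype R] (h : AsmCtx G side τ N g d s r) (hr : Fintype.card R = r)
    (v : V) (i : ι) :
    cnt (fun j => (N v i j).isSp) + cnt (fun j => asmNm (N v i j)) +
      cnt (fun j => (N v i j).isPen) +
      ((G.neighborFinset v).filter fun w => asmGSpc (g v w i) = true).card +
      ((G.neighborFinset v).filter fun w => asmGNorm (g v w i) = true).card +
      ((G.neighborFinset v).filter fun w => asmGFix (g v w i) = true).card ≤ d + s := by
  have h1 : cnt (fun j => asmReal (N v i j)) + cnt (fun j => (N v i j).isPen) +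
      cnt (fun j => (N v i j).isSp) + cnt (fun j => asmNm (N v i j)) = Fintype.card ι :=
    asm_cell_partition (fun j => N v i j)
  have h2 : ((G.neighborFinset v).filter fun w => asmGReal (g v w i) = true).card +
      ((G.neighborFinset v).filter fun w => asmGFix (g v w i) = true).card +
      ((G.neighborFinset v).filter fun w => asmGSpc (g v w i) = true).card +
      ((G.neighborFinset v).filter fun w => asmGNorm (g v w i) = true).card =
      (G.neighborFinset v).card :=
    asm_card_partition (G.neighborFinset v) (fun w => g v w i)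
  have h3 : Fintype.card R ≤ cnt (fun j => asmReal (N v i j)) +
      Multiset.card (∑ w ∈ G.neighborFinset v, (g v w i).row).1 :=
    asm_real_cells (fun j => N v i j) _ ((h.hLG v).st.rowa i)
  rw [asm_row_a (G.neighborFinset v) (fun w => g v w i)] at h3
  have h5 : (G.neighborFinset v).card = d := h.hreg v
  have h6 := h.hR
  omega

theorem AsmCtx.heads (h : AsmCtx G side τ N g d s r) (v : V) (i : ι) :
    cnt (fun j => (N v i j).isPen) +
      ((G.neighborFinset v).filter fun w => asmGFix (g v w i) = true).card +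
      cnt (fun j => (N v i j).isHd i) +
      ((G.neighborFinset v).filter fun w => asmGInn (g v w i) = true).card ≤ 1 := by
  have h1 := (h.hLG v).le i
  unfold Fv at h1
  rw [asm_row_fix, asm_row_inn] at h1
  exact h1

theorem AsmCtx.specials (h : AsmCtx G side τ N g d s r) (v : V) (i : ι) :
    2 ≤ cnt (fun j => (N v i j).isPen) +
      ((G.neighborFinset v).filter fun w => asmGFix (g v w i) = true).card +
      cnt (fun j => (N v i j).isSp) +
      ((G.neighborFinset v).filter fun w => asmGSpc (g v w i) = true).card := by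
  have h1 := (h.hLG v).ge i
  unfold Sv at h1
  rw [asm_row_fix, asm_row_spc] at h1
  exact h1

def asmFc : GLab R P → Finset P
  | .fix c => {c}
  | _ => ∅

/-- the colours of `P` already used at a row -/
def asmFx (G : SimpleGraph V) [DecidableRel G.Adj] [DecidableEq P] (N : V → ι → ι → CLab ι R)
    (g : V → V → ι → GLab R P) (penc : V → P) (u : V × ι) : Finset P :=
  (if (∃ j, N u.1 u.2 j = .pen) then {penc u.1} else ∅) ∪
    (G.neighborFinset u.1).biUnion fun w => asmFc (g u.1 w u.2)

theorem asm_fx_pen [DecidableEq P] (penc : V → P) {v : V} {i j : ι} (h : N v i j = .pen) :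
    penc v ∈ asmFx G N g penc (v, i) := by
  unfold asmFx
  rw [if_pos ⟨j, h⟩]
  simp

theorem asm_fx_fix [DecidableEq P] (penc : V → P) {v w : V} {i : ι} {c : P} (hvw : G.Adj v w)
    (h : g v w i = .fix c) : c ∈ asmFx G N g penc (v, i) := by
  unfold asmFx
  rw [mem_union]
  right
  rw [mem_biUnion]
  refine ⟨w, (G.mem_neighborFinset v w).2 hvw, ?_⟩
  simp only [h, asmFc, mem_singleton]

theorem asm_fx_card [DecidableEq P] (penc : V → P) (v : V) (i : ι) :
    (asmFx G N g penc (v, i)).card ≤ cnt (fun j => (N v i j).isPen) +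
      ((G.neighborFinset v).filter fun w => asmGFix (g v w i) = true).card := by
  unfold asmFx
  refine (Finset.card_union_le _ _).trans (add_le_add ?_ ?_)
  · by_cases hp : ∃ j, N v i j = .pen
    · rw [if_pos hp, Finset.card_singleton]
      obtain ⟨j, hj⟩ := hp
      unfold cnt
      rw [Nat.succ_le_iff, Finset.card_pos]
      exact ⟨j, by simp [hj, CLab.isPen]⟩
    · rw [if_neg hp, Finset.card_empty]
      exact Nat.zero_le _
  · refine Finset.card_biUnion_le.trans ?_
    rw [Finset.card_filter]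
    refine Finset.sum_le_sum fun w _ => ?_
    show (asmFc (g v w i)).card ≤ _
    cases g v w i <;> simp [asmFc, asmGFix]

/-- the class of a row -/
def asmCls (side : V → Bool) (τ : ι → Bool) (u : V × ι) : Bool := xor (side u.1) (τ u.2)

theorem asm_pair_cls {U : Type} [DecidableEq U] (cls : U → Bool) (a b : U) (h : cls a ≠ cls b) :
    ∃ u w, cls u = false ∧ cls w = true ∧ ({a, b} : Finset U) = {u, w} := by
  cases ha : cls a
  · refine ⟨a, b, ha, ?_, rfl⟩
    rw [ha] at h
    cases hb : cls b
    · rw [hb] at h; exact absurd rfl h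
    · rfl
  · refine ⟨b, a, ?_, ha, Finset.pair_comm _ _⟩
    rw [ha] at h
    cases hb : cls b
    · rfl
    · rw [hb] at h; exact absurd rfl h

theorem asm_cls_loc (side : V → Bool) {τ : ι → Bool} (v : V) {i k : ι} (h : τ i ≠ τ k) :
    asmCls side τ (v, i) ≠ asmCls side τ (v, k) := by
  unfold asmCls
  intro h1
  apply h
  revert h1
  cases side v <;> cases τ i <;> cases τ k <;> simp

theorem asm_cls_lay {side : V → Bool} (τ : ι → Bool) {v w : V} (i : ι) (h : side v ≠ side w) :
    asmCls side τ (v, i) ≠ asmCls side τ (w, i) := by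
  unfold asmCls
  intro h1
  apply h
  revert h1
  cases side v <;> cases side w <;> cases τ i <;> simp

theorem AsmCtx.hn (h : AsmCtx G side τ N g d s r) (e : AsmLoc N ⊕ AsmLay G side g)
    (he : asmTail e = none) : ∃ u w, asmCls side τ u = false ∧ asmCls side τ w = true ∧
      asmRows e = {u, w} := by
  rcases e with x | y
  · obtain ⟨h1, -⟩ := h.loc x
    have ht : x.1.2.2 = none := by
      simpa [asmTail] using he
    rw [ht] at h1
    obtain ⟨h2, h3⟩ := h1
    obtain ⟨i, k, hik, hS⟩ := Finset.card_eq_two.1 h2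
    have h4 : asmRows (G := G) (side := side) (g := g) (.inl x) = {(x.1.1, i), (x.1.1, k)} := by
      simp [asmRows, hS, Finset.image_insert]
    rw [h4]
    exact asm_pair_cls _ _ _ (asm_cls_loc side _ (h3 i (by rw [hS]; simp) k (by rw [hS]; simp) hik))
  · exact asm_pair_cls _ _ _ (asm_cls_lay τ _ (h.hside _ _ y.2.2.1))

theorem AsmCtx.hs (h : AsmCtx G side τ N g d s r) (e : AsmLoc N ⊕ AsmLay G side g)
    (t : V × ι) (he : asmTail e = some t) : t ∈ asmRows e ∧
      ∀ u ∈ asmRows e, u ≠ t → asmCls side τ u ≠ asmCls side τ t := by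
  rcases e with x | y
  · obtain ⟨h1, -⟩ := h.loc x
    cases ht : x.1.2.2 with
    | none => simp [asmTail, ht] at he
    | some k =>
      rw [ht] at h1
      obtain ⟨h2, h3⟩ := h1
      have h4 : t = (x.1.1, k) := by
        simp only [asmTail, ht, Option.map_some, Option.some.injEq] at he
        exact he.symm
      subst h4
      refine ⟨(asm_mem_rows_inl x _ _).2 ⟨rfl, h2⟩, ?_⟩
      rintro ⟨v, i⟩ hu hne
      obtain ⟨rfl, hi⟩ := (asm_mem_rows_inl x _ _).1 hu
      refine asm_cls_loc side _ (h3 i hi ?_)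
      rintro rfl
      exact hne rfl
  · have hss := h.hside _ _ y.2.2.1
    have hrow : asmRows (N := N) (.inr y) = {(y.1.1, y.1.2.2), (y.1.2.1, y.1.2.2)} := rfl
    rw [hrow]
    have ht : t = (y.1.1, y.1.2.2) ∨ t = (y.1.2.1, y.1.2.2) := by
      simp only [asmTail] at he
      revert he
      cases g y.1.1 y.1.2.1 y.1.2.2 <;> simp only [asmGTail, Option.some.injEq, reduceCtorEq,
        false_imp_iff] <;> intro he
      · exact Or.inl he.symm
      · exact Or.inr he.symm
    rcases ht with rfl | rfl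
    · refine ⟨by simp, ?_⟩
      intro u hu hne
      rcases Finset.mem_insert.1 hu with rfl | hu
      · exact absurd rfl hne
      · rw [Finset.mem_singleton.1 hu]
        exact (asm_cls_lay τ _ hss).symm
    · refine ⟨by simp, ?_⟩
      intro u hu hne
      rcases Finset.mem_insert.1 hu with rfl | hu
      · exact asm_cls_lay τ _ hss
      · exact absurd (Finset.mem_singleton.1 hu) hne

theorem AsmCtx.hinj (h : AsmCtx G side τ N g d s r) (e e' : AsmLoc N ⊕ AsmLay G side g)
    (he : asmTail e = none) (he' : asmTail e' = none) (hr : asmRows e = asmRows e') : e = e' := by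
  have key : ∀ (x : AsmLoc N) (y : AsmLay G side g),
      asmRows (G := G) (side := side) (g := g) (.inl x) ≠ asmRows (N := N) (.inr y) := by
    intro x y hxy
    have m1 : (y.1.1, y.1.2.2) ∈ asmRows (G := G) (side := side) (g := g) (.inl x) := by
      rw [hxy]; exact (asm_mem_rows_inr y _ _).2 ⟨rfl, Or.inl rfl⟩
    have m2 : (y.1.2.1, y.1.2.2) ∈ asmRows (G := G) (side := side) (g := g) (.inl x) := by
      rw [hxy]; exact (asm_mem_rows_inr y _ _).2 ⟨rfl, Or.inr rfl⟩
    have n1 := ((asm_mem_rows_inl x _ _).1 m1).1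
    have n2 := ((asm_mem_rows_inl x _ _).1 m2).1
    exact y.2.2.1.ne (n1.symm.trans n2)
  rcases e with x | y <;> rcases e' with x' | y'
  · have ht : x.1.2.2 = none := by simpa [asmTail] using he
    have ht' : x'.1.2.2 = none := by simpa [asmTail] using he'
    obtain ⟨h1, -⟩ := h.loc x
    rw [ht] at h1
    obtain ⟨i, k, -, hS⟩ := Finset.card_eq_two.1 h1.1
    have m1 : (x.1.1, i) ∈ asmRows (G := G) (side := side) (g := g) (.inl x) :=
      (asm_mem_rows_inl x _ _).2 ⟨rfl, by rw [hS]; simp⟩
    rw [hr] at m1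
    have hv := ((asm_mem_rows_inl x' _ _).1 m1).1
    congr 1
    apply Subtype.ext
    refine Prod.ext hv.symm (Prod.ext ?_ (ht.trans ht'.symm))
    ext l
    have h2 := asm_mem_rows_inl (G := G) (side := side) (g := g) x x.1.1 l
    have h3 := asm_mem_rows_inl (G := G) (side := side) (g := g) x' x.1.1 l
    rw [hr] at h2
    constructor
    · intro hl
      exact (h3.1 (h2.2 ⟨rfl, hl⟩)).2
    · intro hl
      exact (h2.1 (h3.2 ⟨hv, hl⟩)).2
  · exact absurd hr (key x y')
  · exact absurd hr.symm (key x' y)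
  · have m1 : (y.1.1, y.1.2.2) ∈ asmRows (N := N) (.inr y') := by
      rw [← hr]; exact (asm_mem_rows_inr y _ _).2 ⟨rfl, Or.inl rfl⟩
    have m2 : (y.1.2.1, y.1.2.2) ∈ asmRows (N := N) (.inr y') := by
      rw [← hr]; exact (asm_mem_rows_inr y _ _).2 ⟨rfl, Or.inr rfl⟩
    obtain ⟨hi, h1⟩ := (asm_mem_rows_inr y' _ _).1 m1
    obtain ⟨-, h2⟩ := (asm_mem_rows_inr y' _ _).1 m2
    have hs := y.2.1
    have hs' := y'.2.1
    have hss := h.hside _ _ y.2.2.1
    have hss' := h.hside _ _ y'.2.2.1
    have e1 : y'.1.1 = y.1.1 := by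
      rcases h1 with h1 | h1
      · exact h1
      · exfalso
        apply hss'
        rw [hs', h1, hs]
    have e2 : y'.1.2.1 = y.1.2.1 := by
      rcases h2 with h2 | h2
      · exfalso
        apply hss
        rw [hs, ← h2, hs']
      · exact h2
    congr 1
    apply Subtype.ext
    exact Prod.ext e1.symm (Prod.ext e2.symm hi.symm)

theorem AsmCtx.countHd (h : AsmCtx G side τ N g d s r) (v : V) (i : ι)
    (T : Finset (AsmLoc N ⊕ AsmLay G side g))
    (hT : ∀ e ∈ T, (v, i) ∈ asmRows e ∧ asmTail e ≠ none ∧ asmTail e ≠ some (v, i)) :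
    T.card ≤ cnt (fun j => (N v i j).isHd i) +
      ((G.neighborFinset v).filter fun w => asmGInn (g v w i) = true).card := by
  refine asm_count h.hside v i T (fun c => c.isHd i) asmGInn ?_ ?_
  · intro x hx
    obtain ⟨h1, h2, h3⟩ := hT _ hx
    obtain ⟨hv, hi⟩ := (asm_mem_rows_inl x _ _).1 h1
    obtain ⟨j, hj⟩ := (h.loc x).2 i hi
    rw [hv] at hj
    refine ⟨hv, ⟨j, hj⟩, ?_⟩
    cases ht : x.1.2.2 with
    | none => simp [asmTail, ht] at h2
    | some k =>
      simp only [CLab.isHd, decide_eq_true_eq]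
      rintro rfl
      apply h3
      simp [asmTail, ht, hv]
  · intro y hy
    obtain ⟨h1, h2, h3⟩ := hT _ hy
    obtain ⟨hi, hv⟩ := (asm_mem_rows_inr y _ _).1 h1
    refine ⟨hi, ?_⟩
    simp only [asmTail] at h2 h3
    have hfl := h.hflip y.1.1 y.1.2.1 y.1.2.2 y.2.2.1
    rw [hi] at h2 h3 hfl
    cases hg : g y.1.1 y.1.2.1 i with
    | norm => rw [hg] at h2; exact absurd rfl h2
    | fix c => rw [hg] at h2; exact absurd rfl h2
    | real a b => rw [hg] at h2; exact absurd rfl h2
    | out =>
      rw [hg] at h3 hfl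
      have hne : y.1.1 ≠ v := by
        rintro rfl
        exact h3 rfl
      have hv' : y.1.2.1 = v := hv.resolve_left hne
      right
      refine ⟨hv', ?_⟩
      rw [← hv', hfl]
      rfl
    | inn =>
      rw [hg] at h3
      have hne : y.1.2.1 ≠ v := by
        rintro rfl
        exact h3 rfl
      have hv' : y.1.1 = v := hv.resolve_right hne
      left
      refine ⟨hv', ?_⟩
      rw [← hv', hg]
      rfl

theorem AsmCtx.countNm (h : AsmCtx G side τ N g d s r) (v : V) (i : ι)
    (T : Finset (AsmLoc N ⊕ AsmLay G side g))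
    (hT : ∀ e ∈ T, (v, i) ∈ asmRows e ∧ asmTail e = none) :
    T.card ≤ cnt (fun j => asmNm (N v i j)) +
      ((G.neighborFinset v).filter fun w => asmGNorm (g v w i) = true).card := by
  refine asm_count h.hside v i T asmNm asmGNorm ?_ ?_
  · intro x hx
    obtain ⟨h1, h2⟩ := hT _ hx
    obtain ⟨hv, hi⟩ := (asm_mem_rows_inl x _ _).1 h1
    obtain ⟨j, hj⟩ := (h.loc x).2 i hi
    rw [hv] at hj
    refine ⟨hv, ⟨j, hj⟩, ?_⟩
    have ht : x.1.2.2 = none := by simpa [asmTail] using h2
    rw [ht]
    rfl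
  · intro y hy
    obtain ⟨h1, h2⟩ := hT _ hy
    obtain ⟨hi, hv⟩ := (asm_mem_rows_inr y _ _).1 h1
    refine ⟨hi, ?_⟩
    simp only [asmTail] at h2
    have hfl := h.hflip y.1.1 y.1.2.1 y.1.2.2 y.2.2.1
    have hk := y.2.2.2
    rw [hi] at h2 hfl hk
    have hg : g y.1.1 y.1.2.1 i = .norm := by
      revert h2 hk
      cases g y.1.1 y.1.2.1 i <;> simp [asmGTail, GLab.isKer]
    rcases hv with hv | hv
    · left
      refine ⟨hv, ?_⟩
      rw [← hv, hg]
      rfl
    · right
      refine ⟨hv, ?_⟩
      rw [← hv, hfl, hg]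
      rfl

theorem AsmCtx.countAll (h : AsmCtx G side τ N g d s r) (v : V) (i : ι)
    (T : Finset (AsmLoc N ⊕ AsmLay G side g)) (hT : ∀ e ∈ T, (v, i) ∈ asmRows e) :
    T.card ≤ cnt (fun j => asmItem (N v i j)) +
      ((G.neighborFinset v).filter fun w => (g v w i).isKer = true).card := by
  refine asm_count h.hside v i T asmItem GLab.isKer ?_ ?_
  · intro x hx
    have h1 := hT _ hx
    obtain ⟨hv, hi⟩ := (asm_mem_rows_inl x _ _).1 h1
    obtain ⟨j, hj⟩ := (h.loc x).2 i hi
    rw [hv] at hj
    exact ⟨hv, ⟨j, hj⟩, rfl⟩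
  · intro y hy
    have h1 := hT _ hy
    obtain ⟨hi, hv⟩ := (asm_mem_rows_inr y _ _).1 h1
    refine ⟨hi, ?_⟩
    have hfl := h.hflip y.1.1 y.1.2.1 y.1.2.2 y.2.2.1
    have hk := y.2.2.2
    rw [hi] at hfl hk
    rcases hv with hv | hv
    · left
      exact ⟨hv, by rw [← hv]; exact hk⟩
    · right
      exact ⟨hv, by rw [← hv, hfl, asm_flip_ker]; exact hk⟩


/-- the layer item of an edge with a kernel label -/
def asmLi (h : AsmCtx G side τ N g d s r) (v w : V) (i : ι) (hvw : G.Adj v w)
    (hk : (g v w i).isKer = true) : AsmLay G side g :=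
  if hs : side v = false then ⟨(v, w, i), hs, hvw, hk⟩
  else ⟨(w, v, i), by
    have h1 := h.hside v w hvw
    revert h1 hs
    cases side v <;> cases side w <;> simp, hvw.symm, by
    rw [h.hflip v w i hvw, asm_flip_ker]; exact hk⟩

theorem asmLi_rows (h : AsmCtx G side τ N g d s r) (v w : V) (i : ι) (hvw : G.Adj v w)
    (hk : (g v w i).isKer = true) : (v, i) ∈ asmRows (N := N) (.inr (asmLi h v w i hvw hk)) := by
  rw [asm_mem_rows_inr]
  unfold asmLi
  split_ifs with hs
  · exact ⟨rfl, Or.inl rfl⟩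
  · exact ⟨rfl, Or.inr rfl⟩

theorem asmLi_symm (h : AsmCtx G side τ N g d s r) (v w : V) (i : ι) (hvw : G.Adj v w)
    (hk : (g v w i).isKer = true) (hk' : (g w v i).isKer = true) :
    asmLi h v w i hvw hk = asmLi h w v i hvw.symm hk' := by
  have h1 := h.hside v w hvw
  apply Subtype.ext
  unfold asmLi
  by_cases hs : side v = false
  · have hs' : ¬ side w = false := by
      rw [hs] at h1
      exact fun h2 => h1 h2.symm
    rw [dif_pos hs, dif_neg hs']
  · have hs' : side w = false := by
      revert h1 hs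
      cases side v <;> cases side w <;> simp
    rw [dif_neg hs, dif_pos hs']

theorem asmLi_inj (h : AsmCtx G side τ N g d s r) (v w w' : V) (i : ι) (hvw : G.Adj v w)
    (hk : (g v w i).isKer = true) (hvw' : G.Adj v w') (hk' : (g v w' i).isKer = true)
    (he : asmLi h v w i hvw hk = asmLi h v w' i hvw' hk') : w = w' := by
  have h1 := congrArg Subtype.val he
  unfold asmLi at h1
  by_cases hs : side v = false
  · rw [dif_pos hs, dif_pos hs] at h1
    simp only [Prod.mk.injEq] at h1
    exact h1.2.1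
  · rw [dif_neg hs, dif_neg hs] at h1
    simp only [Prod.mk.injEq] at h1
    exact h1.1

theorem AsmCtx.exists_colouring [Fintype R] [Fintype P] [DecidableEq P]
    (h : AsmCtx G side τ N g d s r) (hr : Fintype.card R = r) (hP : Fintype.card P = d + s)
    (penc : V → P) :
    ∃ c : AsmLoc N ⊕ AsmLay G side g → P,
      (∀ e, ∀ u ∈ asmRows e, c e ∉ asmFx G N g penc u) ∧
      (∀ e e' u, u ∈ asmRows e → u ∈ asmRows e' → c e = c e' → e = e') := by
  have : DecidableEq (AsmLoc N ⊕ AsmLay G side g) := Classical.decEq _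
  refine gs_theorem (asmCls side τ) asmRows asmTail (fun e => h.hn e) (fun e t => h.hs e t)
    (fun e e' => h.hinj e e') (asmFx G N g penc) ?_ ?_ ?_
  · rintro ⟨v, i⟩
    refine le_trans (add_le_add (asm_fx_card penc v i) (h.countHd v i _ ?_)) ?_
    · intro e he
      rw [mem_filter] at he
      exact he.2
    · have := h.heads v i
      omega
  · rintro ⟨v, i⟩
    refine le_trans (Nat.add_le_add_right (h.countNm v i _ ?_) 2) ?_
    · intro e he
      rw [mem_filter] at he
      exact he.2
    · have h1 := h.specials v i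
      have h2 := h.total hr v i
      omega
  · rintro ⟨v, i⟩
    refine le_trans (add_le_add (h.countAll v i _ ?_) (asm_fx_card penc v i)) ?_
    · intro e he
      rw [mem_filter] at he
      exact he.2
    · have h2 := h.total hr v i
      have h3 : cnt (fun j => asmItem (N v i j)) =
          cnt (fun j => (N v i j).isSp) + cnt (fun j => asmNm (N v i j)) :=
        asm_item_partition (fun j => N v i j)
      have h4 := asm_ker_partition (G.neighborFinset v) (fun w => g v w i)
      omega

end items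

theorem asm_cell_cases {ι R : Type} (c : CLab ι R) :
    (∃ q, c = .real q) ∨ c = .pen ∨ ∃ S t, c = .item S t := by
  cases c <;> simp

theorem asm_lay_cases {R P : Type} (l : GLab R P) :
    (∃ a b, l = .real a b) ∨ (∃ c, l = .fix c) ∨ l.isKer = true := by
  cases l <;> simp [GLab.isKer]

/-- A good design gives a proper edge colouring. -/
theorem assembly {V ι R P : Type} [Fintype V] [DecidableEq V] [Fintype ι] [DecidableEq ι]
    [Fintype R] [DecidableEq R] [Fintype P] [DecidableEq P]
    (G : SimpleGraph V) [DecidableRel G.Adj] (side : V → Bool)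
    (hside : ∀ v w, G.Adj v w → side v ≠ side w)
    (d s : ℕ) (hreg : G.IsRegularOfDegree d)
    (hR : Fintype.card R + s = Fintype.card ι) (hP : Fintype.card P = d + s)
    (τ : ι → Bool) (N : V → ι → ι → CLab ι R) (g : V → V → ι → GLab R P) (penc : V → P)
    (hflip : ∀ v w i, G.Adj v w → g w v i = (g v w i).flip)
    (hLG : ∀ v, LG τ (fun i => ∑ w ∈ G.neighborFinset v, (g v w i).row) (N v)) :
    ∃ (K : V → ι → ι → R ⊕ P) (A B : V → V → ι → R ⊕ P), Proper G K A B ∧
      (∀ v i j c, (N v i j).col (penc v) = some c → K v i j = c) ∧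
      (∀ v w i c, G.Adj v w → (g v w i).acol = some c → A v w i = c) ∧
      (∀ v w i c, G.Adj v w → (g v w i).bcol = some c → B v w i = c) := by
  have h : AsmCtx G side τ N g d s (Fintype.card R) := ⟨hside, hreg, hR, hflip, hLG⟩
  obtain ⟨c, hc1, hc2⟩ := h.exists_colouring rfl hP penc
  -- the colours of the cells
  have hK : ∀ v i j, ∃ x : R ⊕ P, (∀ q, N v i j = .real q → x = .inl q) ∧
      (N v i j = .pen → x = .inr (penc v)) ∧
      (∀ S t (hh : N v i j = .item S t), x = .inr (c (.inl ⟨(v, S, t), i, j, hh⟩))) := by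
    intro v i j
    rcases asm_cell_cases (N v i j) with ⟨q, hq⟩ | hp | ⟨S, t, hi⟩
    · refine ⟨.inl q, ?_, ?_, ?_⟩
      · intro q' hq'
        rw [hq] at hq'
        cases hq'
        rfl
      · intro hp
        rw [hq] at hp
        cases hp
      · intro S t hh
        exact absurd (hq.symm.trans hh) (by simp)
    · refine ⟨.inr (penc v), ?_, fun _ => rfl, ?_⟩
      · intro q' hq'
        rw [hp] at hq'
        cases hq'
      · intro S t hh
        exact absurd (hp.symm.trans hh) (by simp)
    · refine ⟨.inr (c (.inl ⟨(v, S, t), i, j, hi⟩)), ?_, ?_, ?_⟩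
      · intro q' hq'
        rw [hi] at hq'
        cases hq'
      · intro hp
        rw [hi] at hp
        cases hp
      · intro S' t' hh
        have h1 := hi.symm.trans hh
        cases h1
        rfl
  choose K hK1 hK2 hK3 using hK
  have hA : ∀ v w i, ∃ x : R ⊕ P, G.Adj v w → (∀ a b, g v w i = .real a b → x = .inl a) ∧
      (∀ c', g v w i = .fix c' → x = .inr c') ∧
      (∀ (hvw : G.Adj v w) (hk : (g v w i).isKer = true),
        x = .inr (c (.inr (asmLi h v w i hvw hk)))) := by
    intro v w i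
    by_cases hvw : G.Adj v w
    · rcases asm_lay_cases (g v w i) with ⟨a, b, hg⟩ | ⟨c', hg⟩ | hk
      · refine ⟨.inl a, fun _ => ⟨?_, ?_, ?_⟩⟩
        · intro a' b' hg'
          rw [hg] at hg'
          cases hg'
          rfl
        · intro c' hg'
          rw [hg] at hg'
          cases hg'
        · intro _ hk
          exact absurd hk (by rw [hg]; simp [GLab.isKer])
      · refine ⟨.inr c', fun _ => ⟨?_, ?_, ?_⟩⟩
        · intro a' b' hg'
          rw [hg] at hg'
          cases hg'
        · intro c' hg'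
          rw [hg] at hg'
          cases hg'
          rfl
        · intro _ hk
          exact absurd hk (by rw [hg]; simp [GLab.isKer])
      · refine ⟨.inr (c (.inr (asmLi h v w i hvw hk))), fun _ => ⟨?_, ?_, ?_⟩⟩
        · intro a' b' hg'
          rw [hg'] at hk
          simp [GLab.isKer] at hk
        · intro c' hg'
          rw [hg'] at hk
          simp [GLab.isKer] at hk
        · intro _ _
          rfl
    · exact ⟨K v i i, fun h' => absurd h' hvw⟩
  have hB : ∀ v w i, ∃ x : R ⊕ P, G.Adj v w → (∀ a b, g v w i = .real a b → x = .inl b) ∧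
      (∀ c', g v w i = .fix c' → x = .inr c') ∧
      (∀ (hvw : G.Adj v w) (hk : (g v w i).isKer = true),
        x = .inr (c (.inr (asmLi h v w i hvw hk)))) := by
    intro v w i
    by_cases hvw : G.Adj v w
    · rcases asm_lay_cases (g v w i) with ⟨a, b, hg⟩ | ⟨c', hg⟩ | hk
      · refine ⟨.inl b, fun _ => ⟨?_, ?_, ?_⟩⟩
        · intro a' b' hg'
          rw [hg] at hg'
          cases hg'
          rfl
        · intro c' hg'
          rw [hg] at hg'
          cases hg'
        · intro _ hk
          exact absurd hk (by rw [hg]; simp [GLab.isKer])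
      · refine ⟨.inr c', fun _ => ⟨?_, ?_, ?_⟩⟩
        · intro a' b' hg'
          rw [hg] at hg'
          cases hg'
        · intro c' hg'
          rw [hg] at hg'
          cases hg'
          rfl
        · intro _ hk
          exact absurd hk (by rw [hg]; simp [GLab.isKer])
      · refine ⟨.inr (c (.inr (asmLi h v w i hvw hk))), fun _ => ⟨?_, ?_, ?_⟩⟩
        · intro a' b' hg'
          rw [hg'] at hk
          simp [GLab.isKer] at hk
        · intro c' hg'
          rw [hg'] at hk
          simp [GLab.isKer] at hk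
        · intro _ _
          rfl
    · exact ⟨K v i i, fun h' => absurd h' hvw⟩
  choose A hA' using hA
  choose B hB' using hB
  -- basic facts
  have hpenrow : ∀ v i j, N v i j = .pen → ∃ j', N v j j' = .pen := fun v i j hp =>
    ((hLG v).st.pen j).2 ⟨i, hp⟩
  have hone : ∀ v i j w c', N v i j = .pen → G.Adj v w → g v w i = .fix c' → False := by
    intro v i j w c' hp hvw hg
    have h1 := h.heads v i
    have h2 : 1 ≤ cnt (fun j => (N v i j).isPen) := by
      unfold cnt
      rw [Nat.succ_le_iff, Finset.card_pos]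
      exact ⟨j, by simp [hp, CLab.isPen]⟩
    have h3 : 1 ≤ ((G.neighborFinset v).filter fun w => asmGFix (g v w i) = true).card := by
      rw [Nat.succ_le_iff, Finset.card_pos]
      exact ⟨w, by simp [hg, asmGFix, hvw]⟩
    omega
  have htwo : ∀ v i w w' c' c'', G.Adj v w → G.Adj v w' → g v w i = .fix c' →
      g v w' i = .fix c'' → w = w' := by
    intro v i w w' c' c'' hvw hvw' hg hg'
    have h1 := h.heads v i
    by_contra hne
    have h3 : 2 ≤ ((G.neighborFinset v).filter fun w => asmGFix (g v w i) = true).card := by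
      rw [← Finset.card_pair hne]
      apply Finset.card_le_card
      intro x hx
      rcases Finset.mem_insert.1 hx with rfl | hx
      · simp [hg, asmGFix, hvw]
      · rw [Finset.mem_singleton.1 hx]
        simp [hg', asmGFix, hvw']
    omega
  have hrowi : ∀ v i j S t (hh : N v i j = .item S t),
      (v, i) ∈ asmRows (G := G) (side := side) (g := g) (.inl ⟨(v, S, t), i, j, hh⟩) ∧
      (v, j) ∈ asmRows (G := G) (side := side) (g := g) (.inl ⟨(v, S, t), i, j, hh⟩) := by
    intro v i j S t hh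
    obtain ⟨h1, h2⟩ := h.rowItem hh
    exact ⟨(asm_mem_rows_inl _ _ _).2 ⟨rfl, h1⟩, (asm_mem_rows_inl _ _ _).2 ⟨rfl, h2⟩⟩
  have hfl : ∀ v w i, G.Adj v w → (g v w i).isKer = true → (g w v i).isKer = true := by
    intro v w i hvw hk
    rw [hflip v w i hvw, asm_flip_ker]
    exact hk
  refine ⟨K, A, B, ?_, ?_, ?_, ?_⟩
  · constructor
    · -- sa
      intro v w i hvw
      obtain ⟨a1, a2, a3⟩ := hA' v w i hvw
      obtain ⟨b1, b2, b3⟩ := hA' w v i hvw.symm
      have hf := hflip v w i hvw
      rcases asm_lay_cases (g v w i) with ⟨a, b, hg⟩ | ⟨c', hg⟩ | hk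
      · rw [a1 a b hg, b1 a b (by rw [hf, hg]; rfl)]
      · rw [a2 c' hg, b2 c' (by rw [hf, hg]; rfl)]
      · rw [a3 hvw hk, b3 hvw.symm (hfl v w i hvw hk),
          asmLi_symm h v w i hvw hk (hfl v w i hvw hk)]
    · -- sb
      intro v w i hvw
      obtain ⟨a1, a2, a3⟩ := hB' v w i hvw
      obtain ⟨b1, b2, b3⟩ := hB' w v i hvw.symm
      have hf := hflip v w i hvw
      rcases asm_lay_cases (g v w i) with ⟨a, b, hg⟩ | ⟨c', hg⟩ | hk
      · rw [a1 a b hg, b1 a b (by rw [hf, hg]; rfl)]
      · rw [a2 c' hg, b2 c' (by rw [hf, hg]; rfl)]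
      · rw [a3 hvw hk, b3 hvw.symm (hfl v w i hvw hk),
          asmLi_symm h v w i hvw hk (hfl v w i hvw hk)]
    · -- kr
      intro v i j j' hKK
      apply (hLG v).st.rinj i
      rcases asm_cell_cases (N v i j) with ⟨q, hq⟩ | hp | ⟨S, t, hi⟩ <;>
        rcases asm_cell_cases (N v i j') with ⟨q', hq'⟩ | hp' | ⟨S', t', hi'⟩
      · rw [hK1 _ _ _ _ hq, hK1 _ _ _ _ hq', Sum.inl.injEq] at hKK
        rw [hq, hq', hKK]
      · rw [hK1 _ _ _ _ hq, hK2 _ _ _ hp'] at hKK
        cases hKK
      · rw [hK1 _ _ _ _ hq, hK3 _ _ _ _ _ hi'] at hKK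
        cases hKK
      · rw [hK2 _ _ _ hp, hK1 _ _ _ _ hq'] at hKK
        cases hKK
      · rw [hp, hp']
      · rw [hK2 _ _ _ hp, hK3 _ _ _ _ _ hi', Sum.inr.injEq] at hKK
        exact absurd (hKK ▸ asm_fx_pen penc hp) (hc1 _ _ (hrowi v i j' S' t' hi').1)
      · rw [hK3 _ _ _ _ _ hi, hK1 _ _ _ _ hq'] at hKK
        cases hKK
      · rw [hK3 _ _ _ _ _ hi, hK2 _ _ _ hp', Sum.inr.injEq] at hKK
        exact absurd (hKK ▸ asm_fx_pen penc hp') (hc1 _ _ (hrowi v i j S t hi).1)
      · rw [hK3 _ _ _ _ _ hi, hK3 _ _ _ _ _ hi', Sum.inr.injEq] at hKK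
        have h1 := hc2 _ _ _ (hrowi v i j S t hi).1 (hrowi v i j' S' t' hi').1 hKK
        simp only [Sum.inl.injEq, Subtype.mk.injEq, Prod.mk.injEq, true_and] at h1
        rw [hi, hi', h1.1, h1.2]
    · -- kc
      intro v j i i' hKK
      apply (hLG v).st.cinj j
      rcases asm_cell_cases (N v i j) with ⟨q, hq⟩ | hp | ⟨S, t, hi⟩ <;>
        rcases asm_cell_cases (N v i' j) with ⟨q', hq'⟩ | hp' | ⟨S', t', hi'⟩
      · rw [hK1 _ _ _ _ hq, hK1 _ _ _ _ hq', Sum.inl.injEq] at hKK
        rw [hq, hq', hKK]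
      · rw [hK1 _ _ _ _ hq, hK2 _ _ _ hp'] at hKK
        cases hKK
      · rw [hK1 _ _ _ _ hq, hK3 _ _ _ _ _ hi'] at hKK
        cases hKK
      · rw [hK2 _ _ _ hp, hK1 _ _ _ _ hq'] at hKK
        cases hKK
      · rw [hp, hp']
      · rw [hK2 _ _ _ hp, hK3 _ _ _ _ _ hi', Sum.inr.injEq] at hKK
        obtain ⟨j', hj'⟩ := hpenrow v i j hp
        exact absurd (hKK ▸ asm_fx_pen penc hj') (hc1 _ _ (hrowi v i' j S' t' hi').2)
      · rw [hK3 _ _ _ _ _ hi, hK1 _ _ _ _ hq'] at hKK
        cases hKK
      · rw [hK3 _ _ _ _ _ hi, hK2 _ _ _ hp', Sum.inr.injEq] at hKK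
        obtain ⟨j', hj'⟩ := hpenrow v i' j hp'
        exact absurd (hKK ▸ asm_fx_pen penc hj') (hc1 _ _ (hrowi v i j S t hi).2)
      · rw [hK3 _ _ _ _ _ hi, hK3 _ _ _ _ _ hi', Sum.inr.injEq] at hKK
        have h1 := hc2 _ _ _ (hrowi v i j S t hi).2 (hrowi v i' j S' t' hi').2 hKK
        simp only [Sum.inl.injEq, Subtype.mk.injEq, Prod.mk.injEq, true_and] at h1
        rw [hi, hi', h1.1, h1.2]
    · -- aa
      intro v w w' i hvw hvw' hAA
      obtain ⟨a1, a2, a3⟩ := hA' v w i hvw
      obtain ⟨b1, b2, b3⟩ := hA' v w' i hvw'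
      rcases asm_lay_cases (g v w i) with ⟨a, b, hg⟩ | ⟨c', hg⟩ | hk <;>
        rcases asm_lay_cases (g v w' i) with ⟨a', b', hg'⟩ | ⟨c'', hg'⟩ | hk'
      · rw [a1 _ _ hg, b1 _ _ hg', Sum.inl.injEq] at hAA
        subst hAA
        exact asm_nodup_a (G.neighborFinset v) (fun w => g v w i) ((hLG v).st.nda i)
          ((G.mem_neighborFinset v w).2 hvw) ((G.mem_neighborFinset v w').2 hvw') hg hg'
      · rw [a1 _ _ hg, b2 _ hg'] at hAA
        cases hAA
      · rw [a1 _ _ hg, b3 hvw' hk'] at hAA
        cases hAA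
      · rw [a2 _ hg, b1 _ _ hg'] at hAA
        cases hAA
      · exact htwo v i w w' c' c'' hvw hvw' hg hg'
      · rw [a2 _ hg, b3 hvw' hk', Sum.inr.injEq] at hAA
        exact absurd (hAA ▸ asm_fx_fix penc hvw hg) (hc1 _ _ (asmLi_rows h v w' i hvw' hk'))
      · rw [a3 hvw hk, b1 _ _ hg'] at hAA
        cases hAA
      · rw [a3 hvw hk, b2 _ hg', Sum.inr.injEq] at hAA
        exact absurd (hAA ▸ asm_fx_fix penc hvw' hg') (hc1 _ _ (asmLi_rows h v w i hvw hk))
      · rw [a3 hvw hk, b3 hvw' hk', Sum.inr.injEq] at hAA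
        have h1 := hc2 _ _ _ (asmLi_rows h v w i hvw hk) (asmLi_rows h v w' i hvw' hk') hAA
        exact asmLi_inj h v w w' i hvw hk hvw' hk' (Sum.inr.inj h1)
    · -- bb
      intro v w w' i hvw hvw' hAA
      obtain ⟨a1, a2, a3⟩ := hB' v w i hvw
      obtain ⟨b1, b2, b3⟩ := hB' v w' i hvw'
      rcases asm_lay_cases (g v w i) with ⟨a, b, hg⟩ | ⟨c', hg⟩ | hk <;>
        rcases asm_lay_cases (g v w' i) with ⟨a', b', hg'⟩ | ⟨c'', hg'⟩ | hk'
      · rw [a1 _ _ hg, b1 _ _ hg', Sum.inl.injEq] at hAA
        subst hAA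
        exact asm_nodup_b (G.neighborFinset v) (fun w => g v w i) ((hLG v).st.ndb i)
          ((G.mem_neighborFinset v w).2 hvw) ((G.mem_neighborFinset v w').2 hvw') hg hg'
      · rw [a1 _ _ hg, b2 _ hg'] at hAA
        cases hAA
      · rw [a1 _ _ hg, b3 hvw' hk'] at hAA
        cases hAA
      · rw [a2 _ hg, b1 _ _ hg'] at hAA
        cases hAA
      · exact htwo v i w w' c' c'' hvw hvw' hg hg'
      · rw [a2 _ hg, b3 hvw' hk', Sum.inr.injEq] at hAA
        exact absurd (hAA ▸ asm_fx_fix penc hvw hg) (hc1 _ _ (asmLi_rows h v w' i hvw' hk'))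
      · rw [a3 hvw hk, b1 _ _ hg'] at hAA
        cases hAA
      · rw [a3 hvw hk, b2 _ hg', Sum.inr.injEq] at hAA
        exact absurd (hAA ▸ asm_fx_fix penc hvw' hg') (hc1 _ _ (asmLi_rows h v w i hvw hk))
      · rw [a3 hvw hk, b3 hvw' hk', Sum.inr.injEq] at hAA
        have h1 := hc2 _ _ _ (asmLi_rows h v w i hvw hk) (asmLi_rows h v w' i hvw' hk') hAA
        exact asmLi_inj h v w w' i hvw hk hvw' hk' (Sum.inr.inj h1)
    · -- ka
      intro v w i j hvw hKA
      obtain ⟨a1, a2, a3⟩ := hA' v w i hvw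
      rcases asm_cell_cases (N v i j) with ⟨q, hq⟩ | hp | ⟨S, t, hi⟩ <;>
        rcases asm_lay_cases (g v w i) with ⟨a, b, hg⟩ | ⟨c', hg⟩ | hk
      · rw [hK1 _ _ _ _ hq, a1 _ _ hg, Sum.inl.injEq] at hKA
        subst hKA
        exact (((hLG v).st.rowa i q).1 ⟨j, hq⟩) (asm_mem_a (G.neighborFinset v)
          (fun w => g v w i) ((G.mem_neighborFinset v w).2 hvw) hg)
      · rw [hK1 _ _ _ _ hq, a2 _ hg] at hKA
        cases hKA
      · rw [hK1 _ _ _ _ hq, a3 hvw hk] at hKA
        cases hKA
      · rw [hK2 _ _ _ hp, a1 _ _ hg] at hKA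
        cases hKA
      · exact hone v i j w c' hp hvw hg
      · rw [hK2 _ _ _ hp, a3 hvw hk, Sum.inr.injEq] at hKA
        exact absurd (hKA ▸ asm_fx_pen penc hp) (hc1 _ _ (asmLi_rows h v w i hvw hk))
      · rw [hK3 _ _ _ _ _ hi, a1 _ _ hg] at hKA
        cases hKA
      · rw [hK3 _ _ _ _ _ hi, a2 _ hg, Sum.inr.injEq] at hKA
        exact absurd (hKA ▸ asm_fx_fix penc hvw hg) (hc1 _ _ (hrowi v i j S t hi).1)
      · rw [hK3 _ _ _ _ _ hi, a3 hvw hk, Sum.inr.injEq] at hKA
        have h1 := hc2 _ _ _ (hrowi v i j S t hi).1 (asmLi_rows h v w i hvw hk) hKA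
        cases h1
    · -- kb
      intro v w i j hvw hKA
      obtain ⟨a1, a2, a3⟩ := hB' v w j hvw
      rcases asm_cell_cases (N v i j) with ⟨q, hq⟩ | hp | ⟨S, t, hi⟩ <;>
        rcases asm_lay_cases (g v w j) with ⟨a, b, hg⟩ | ⟨c', hg⟩ | hk
      · rw [hK1 _ _ _ _ hq, a1 _ _ hg, Sum.inl.injEq] at hKA
        subst hKA
        exact (((hLG v).st.rowb j q).1 ⟨i, hq⟩) (asm_mem_b (G.neighborFinset v)
          (fun w => g v w j) ((G.mem_neighborFinset v w).2 hvw) hg)
      · rw [hK1 _ _ _ _ hq, a2 _ hg] at hKA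
        cases hKA
      · rw [hK1 _ _ _ _ hq, a3 hvw hk] at hKA
        cases hKA
      · rw [hK2 _ _ _ hp, a1 _ _ hg] at hKA
        cases hKA
      · obtain ⟨j', hj'⟩ := hpenrow v i j hp
        exact hone v j j' w c' hj' hvw hg
      · rw [hK2 _ _ _ hp, a3 hvw hk, Sum.inr.injEq] at hKA
        obtain ⟨j', hj'⟩ := hpenrow v i j hp
        exact absurd (hKA ▸ asm_fx_pen penc hj') (hc1 _ _ (asmLi_rows h v w j hvw hk))
      · rw [hK3 _ _ _ _ _ hi, a1 _ _ hg] at hKA
        cases hKA
      · rw [hK3 _ _ _ _ _ hi, a2 _ hg, Sum.inr.injEq] at hKA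
        exact absurd (hKA ▸ asm_fx_fix penc hvw hg) (hc1 _ _ (hrowi v i j S t hi).2)
      · rw [hK3 _ _ _ _ _ hi, a3 hvw hk, Sum.inr.injEq] at hKA
        have h1 := hc2 _ _ _ (hrowi v i j S t hi).2 (asmLi_rows h v w j hvw hk) hKA
        cases h1
  · intro v i j c' hcol
    rcases asm_cell_cases (N v i j) with ⟨q, hq⟩ | hp | ⟨S, t, hi⟩
    · rw [hq] at hcol
      simp only [CLab.col, Option.some.injEq] at hcol
      rw [hK1 _ _ _ _ hq, hcol]
    · rw [hp] at hcol
      simp only [CLab.col, Option.some.injEq] at hcol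
      rw [hK2 _ _ _ hp, hcol]
    · rw [hi] at hcol
      simp [CLab.col] at hcol
  · intro v w i c' hvw hcol
    obtain ⟨a1, a2, a3⟩ := hA' v w i hvw
    cases hg : g v w i with
    | norm => rw [hg] at hcol; simp [GLab.acol] at hcol
    | out => rw [hg] at hcol; simp [GLab.acol] at hcol
    | inn => rw [hg] at hcol; simp [GLab.acol] at hcol
    | fix x =>
      rw [hg] at hcol
      simp only [GLab.acol, Option.some.injEq] at hcol
      rw [a2 _ hg, hcol]
    | real a b =>
      rw [hg] at hcol
      simp only [GLab.acol, Option.some.injEq] at hcol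
      rw [a1 _ _ hg, hcol]
  · intro v w i c' hvw hcol
    obtain ⟨a1, a2, a3⟩ := hB' v w i hvw
    cases hg : g v w i with
    | norm => rw [hg] at hcol; simp [GLab.bcol] at hcol
    | out => rw [hg] at hcol; simp [GLab.bcol] at hcol
    | inn => rw [hg] at hcol; simp [GLab.bcol] at hcol
    | fix x =>
      rw [hg] at hcol
      simp only [GLab.bcol, Option.some.injEq] at hcol
      rw [a2 _ hg, hcol]
    | real a b =>
      rw [hg] at hcol
      simp only [GLab.bcol, Option.some.injEq] at hcol
      rw [a1 _ _ hg, hcol]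

end W3a
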