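import Pool.Agent.W_MP_3a8340_co.HallSum

open Finset

namespace W3a

theorem changLabel_sum_min (E s : ℕ) (u : ℕ) :
    ∑ i ∈ range u, min E (s - E * i) = min s (u * E) := by
  induction u with
  | zero => simp
  | succ u ih =>
    rw [sum_range_succ, ih, Nat.succ_mul]
    rcases le_total s (E * u) with h | h
    · rw [Nat.sub_eq_zero_of_le h]
      have h1 : s ≤ u * E := by rw [mul_comm]; exact h
      rw [min_eq_left h1, min_eq_left (h1.trans (Nat.le_add_right _ _))]
      simp
    · have h1 : u * E ≤ s := by rw [mul_comm]; exact h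
      rw [min_eq_right h1, mul_comm E u]
      omega

/-- Weights on `r` big classes and `u ≥ 3` single classes: a zero-sum labelling.  `w i` are the
sizes of the big classes. -/
theorem label_many (n r u E : ℕ) (hn : n = r + u + E) (hu : 3 ≤ u) (hE : 2 ≤ E)
    (hrE : r ≤ E) (w : Fin r → ℕ) :
    ∃ (x : Fin r → ℕ) (y : Fin u → ℕ), (∀ i, x i < n) ∧ (∀ j, y j < n) ∧
      Function.Injective x ∧ Function.Injective y ∧ (∀ i j, x i ≠ y j) ∧
      n ∣ ∑ i, w i * x i + ∑ j, y j := by
  set T : ℕ := ∑ i : Fin r, w i * (i : ℕ) + ∑ j : Fin u, (r + (j : ℕ)) with hT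
  obtain ⟨s, hs, hsd⟩ : ∃ s < n, n ∣ T + s := by
    have hn0 : 0 < n := by omega
    rcases Nat.eq_zero_or_pos (T % n) with h0 | h0
    · exact ⟨0, hn0, by simpa using Nat.dvd_of_mod_eq_zero h0⟩
    · refine ⟨n - T % n, by omega, ?_⟩
      have hm := Nat.mod_lt T hn0
      have hd := Nat.div_add_mod T n
      refine ⟨T / n + 1, ?_⟩
      rw [mul_add, mul_one]
      omega
  have hsu : s ≤ u * E := by
    obtain ⟨u', rfl⟩ : ∃ u', u = u' + 3 := ⟨u - 3, by omega⟩
    obtain ⟨E', rfl⟩ : ∃ E', E = E' + 2 := ⟨E - 2, by omega⟩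
    have : s < u' + 3 + 2 * (E' + 2) := by omega
    nlinarith
  set δ : Fin u → ℕ := fun j => min E (s - E * (u - 1 - (j : ℕ))) with hδ
  have hδsum : ∑ j, δ j = s := by
    have h1 := changLabel_sum_min E s u
    rw [min_eq_left hsu, ← sum_range_reflect] at h1
    rw [← h1, Finset.sum_range]
  have hδE : ∀ j, δ j ≤ E := fun j => min_le_left _ _
  have hδm : ∀ i j : Fin u, i ≤ j → δ i ≤ δ j := by
    intro i j hij
    refine min_le_min le_rfl (Nat.sub_le_sub_left (Nat.mul_le_mul_left E ?_) s)
    have : (i : ℕ) ≤ j := hij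
    omega
  refine ⟨fun i => (i : ℕ), fun j => r + (j : ℕ) + δ j, ?_, ?_, ?_, ?_, ?_, ?_⟩
  · intro i
    show (i : ℕ) < n
    have := i.2
    omega
  · intro j
    show r + (j : ℕ) + δ j < n
    have := j.2
    have := hδE j
    omega
  · intro i j hij
    exact Fin.ext hij
  · intro i j hij
    change r + (i : ℕ) + δ i = r + (j : ℕ) + δ j at hij
    rcases lt_trichotomy i j with h | h | h
    · have h1 := hδm i j h.le
      have h2 : (i : ℕ) < j := h
      omega
    · exact h
    · have h1 := hδm j i h.le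
      have h2 : (j : ℕ) < i := h
      omega
  · intro i j
    show (i : ℕ) ≠ r + (j : ℕ) + δ j
    have := i.2
    omega
  · have h : ∑ i : Fin r, w i * (i : ℕ) + ∑ j : Fin u, (r + (j : ℕ) + δ j) = T + s := by
      rw [sum_add_distrib (f := fun j : Fin u => r + (j : ℕ)), hδsum, hT, add_assoc]
    show n ∣ ∑ i : Fin r, w i * (i : ℕ) + ∑ j : Fin u, (r + (j : ℕ) + δ j)
    rw [h]
    exact hsd

theorem changLabel_sum_odd (t : ℕ) : ∑ i ∈ range (2 * t + 1), ((i : ℤ) - t) = 0 := by
  induction t with
  | zero => simp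
  | succ t ih =>
    have h : 2 * (t + 1) + 1 = (2 * t + 1) + 1 + 1 := by ring
    rw [h, sum_range_succ, sum_range_succ]
    have h2 : ∑ i ∈ range (2 * t + 1), ((i : ℤ) - ((t + 1 : ℕ) : ℤ)) = -(2 * t + 1) := by
      have : ∀ i ∈ range (2 * t + 1), ((i : ℤ) - ((t + 1 : ℕ) : ℤ)) = ((i : ℤ) - t) + (-1) := by
        intro i _
        push_cast
        ring
      rw [sum_congr rfl this, sum_add_distrib, ih]
      simp
    rw [h2]
    push_cast
    ring

/-- two single classes: symmetric labels -/
theorem changLabel_two (r : ℕ) (hr : 1 ≤ r) :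
    ∃ (x : Fin r → ℤ) (y : Fin 2 → ℤ), (∀ i, 2 * |x i| < 2 * r + 2) ∧
      (∀ j, 2 * |y j| < 2 * r + 2) ∧
      Function.Injective x ∧ Function.Injective y ∧ (∀ i j, x i ≠ y j) ∧
      ∑ i, 2 * x i + ∑ j, y j = 0 := by
  rcases Nat.even_or_odd' r with ⟨t, h | h⟩
  · -- even: -t..-1, 1..t
    subst h
    have ht : 1 ≤ t := by omega
    refine ⟨fun i => if (i : ℕ) < t then (i : ℤ) - t else (i : ℤ) - t + 1,
      ![-(t + 1 : ℤ), t + 1], ?_, ?_, ?_, ?_, ?_, ?_⟩
    · intro i
      have := i.2
      show 2 * |if (i : ℕ) < t then (i : ℤ) - t else (i : ℤ) - t + 1| < 2 * ((2 * t : ℕ) : ℤ) + 2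
      have h3 : |if (i : ℕ) < t then (i : ℤ) - t else (i : ℤ) - t + 1| ≤ t := by
        rw [abs_le]
        split_ifs <;> constructor <;> omega
      omega
    · intro j
      have h3 : |(![-(t + 1 : ℤ), t + 1] : Fin 2 → ℤ) j| = t + 1 := by
        fin_cases j
        · show |-(t + 1 : ℤ)| = t + 1
          rw [abs_neg, abs_of_nonneg (by positivity)]
        · show |(t + 1 : ℤ)| = t + 1
          rw [abs_of_nonneg (by positivity)]
      rw [h3]
      push_cast
      omega
    · intro i j hij
      change (if (i : ℕ) < t then (i : ℤ) - t else (i : ℤ) - t + 1) =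
        if (j : ℕ) < t then (j : ℤ) - t else (j : ℤ) - t + 1 at hij
      apply Fin.ext
      split_ifs at hij <;> omega
    · intro i j hij
      fin_cases i <;> fin_cases j
      · rfl
      · exfalso
        change -(t + 1 : ℤ) = t + 1 at hij
        omega
      · exfalso
        change (t + 1 : ℤ) = -(t + 1) at hij
        omega
      · rfl
    · intro i j hij
      have hi := i.2
      change (if (i : ℕ) < t then (i : ℤ) - t else (i : ℤ) - t + 1) = _ at hij
      fin_cases j
      · change _ = -(t + 1 : ℤ) at hij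
        split_ifs at hij <;> omega
      · change _ = (t + 1 : ℤ) at hij
        split_ifs at hij <;> omega
    · rw [Fin.sum_univ_two]
      show ∑ i : Fin (2 * t), 2 * (if (i : ℕ) < t then (i : ℤ) - t else (i : ℤ) - t + 1) +
        (-(t + 1 : ℤ) + (t + 1)) = 0
      have h3 : ∑ i : Fin (2 * t), 2 * (if (i : ℕ) < t then (i : ℤ) - t else (i : ℤ) - t + 1) =
          ∑ i ∈ range (2 * t), 2 * (if i < t then (i : ℤ) - t else (i : ℤ) - t + 1) := by
        rw [Finset.sum_range]
      rw [h3, ← mul_sum, two_mul t, sum_range_add]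
      have h4 : ∑ x ∈ range t, (if x < t then (x : ℤ) - t else (x : ℤ) - t + 1) =
          ∑ x ∈ range t, ((x : ℤ) - t) := by
        apply sum_congr rfl
        intro x hx
        rw [if_pos (mem_range.1 hx)]
      have h5 : ∑ x ∈ range t, (if t + x < t then ((t + x : ℕ) : ℤ) - t
          else ((t + x : ℕ) : ℤ) - t + 1) = ∑ x ∈ range t, ((x : ℤ) + 1) := by
        apply sum_congr rfl
        intro x hx
        rw [if_neg (by omega)]
        push_cast
        ring
      rw [h4, h5, ← sum_range_reflect, ← sum_add_distrib]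
      have h6 : ∀ x ∈ range t, (((t - 1 - x : ℕ) : ℤ) - t) + ((x : ℤ) + 1) = 0 := by
        intro x hx
        have := mem_range.1 hx
        omega
      rw [sum_congr rfl h6]
      simp
  · -- odd: -t..t
    subst h
    refine ⟨fun i => (i : ℤ) - t, ![-(t + 1 : ℤ), t + 1], ?_, ?_, ?_, ?_, ?_, ?_⟩
    · intro i
      have := i.2
      show 2 * |(i : ℤ) - t| < 2 * ((2 * t + 1 : ℕ) : ℤ) + 2
      have h3 : |(i : ℤ) - t| ≤ t := by
        rw [abs_le]
        constructor <;> omega
      omega
    · intro j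
      have h3 : |(![-(t + 1 : ℤ), t + 1] : Fin 2 → ℤ) j| = t + 1 := by
        fin_cases j
        · show |-(t + 1 : ℤ)| = t + 1
          rw [abs_neg, abs_of_nonneg (by positivity)]
        · show |(t + 1 : ℤ)| = t + 1
          rw [abs_of_nonneg (by positivity)]
      rw [h3]
      push_cast
      omega
    · intro i j hij
      change (i : ℤ) - t = (j : ℤ) - t at hij
      apply Fin.ext
      omega
    · intro i j hij
      fin_cases i <;> fin_cases j
      · rfl
      · exfalso
        change -(t + 1 : ℤ) = t + 1 at hij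
        omega
      · exfalso
        change (t + 1 : ℤ) = -(t + 1) at hij
        omega
      · rfl
    · intro i j hij
      have hi := i.2
      change (i : ℤ) - t = _ at hij
      fin_cases j
      · change _ = -(t + 1 : ℤ) at hij
        omega
      · change _ = (t + 1 : ℤ) at hij
        omega
    · rw [Fin.sum_univ_two]
      show ∑ i : Fin (2 * t + 1), 2 * ((i : ℤ) - t) + (-(t + 1 : ℤ) + (t + 1)) = 0
      have h3 := changLabel_sum_odd t
      rw [Finset.sum_range] at h3
      rw [← mul_sum, h3]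
      ring

/-- from integer labels to the Latin square -/
theorem changLabel_finish {ι κ : Type} [Fintype ι] [DecidableEq ι] [Fintype κ] [DecidableEq κ]
    (hcard : Fintype.card κ = Fintype.card ι) (hpos : 0 < Fintype.card ι) (q : ι → κ)
    (lab : κ → ℤ) (hlab : ∀ a ∈ univ.image q, ∀ b ∈ univ.image q, a ≠ b →
      lab a ≠ lab b ∧ |lab a - lab b| < Fintype.card ι)
    (hs : (Fintype.card ι : ℤ) ∣ ∑ l, lab (q l)) :
    ∃ L : ι → ι → κ, IsLatin L ∧ ∀ l, L l l = q l := by
  have : NeZero (Fintype.card ι) := ⟨hpos.ne'⟩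
  set n := Fintype.card ι with hn
  have hinj : Set.InjOn (fun a => (lab a : ZMod n)) (univ.image q : Finset κ) := by
    intro a ha b hb hab
    by_contra hne
    obtain ⟨h1, h2⟩ := hlab a ha b hb hne
    have h3 : ((lab a - lab b : ℤ) : ZMod n) = 0 := by
      push_cast
      exact sub_eq_zero.2 hab
    rw [ZMod.intCast_zmod_eq_zero_iff_dvd] at h3
    have h4 := Int.eq_zero_of_abs_lt_dvd h3 h2
    exact h1 (sub_eq_zero.1 h4)
  obtain ⟨g, hg⟩ := Finset.exists_equiv_extend_of_card_eq (α := κ) (β := ZMod n)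
    (t := univ) (by rw [hcard, card_univ, ZMod.card]) (s := univ.image q)
    (f := fun a => (lab a : ZMod n)) (subset_univ _) hinj
  set e : κ ≃ ZMod n := g.trans (Equiv.subtypeUnivEquiv (fun x => mem_univ x)) with he
  have hee : ∀ l, e (q l) = (lab (q l) : ZMod n) := by
    intro l
    exact hg (q l) (mem_image_of_mem q (mem_univ l))
  refine latin_of_sum (G := ZMod n) (by rw [ZMod.card]) e q ?_
  rw [sum_congr rfl (fun l _ => hee l)]
  have : ((∑ l, lab (q l) : ℤ) : ZMod n) = 0 := by
    rw [ZMod.intCast_zmod_eq_zero_iff_dvd]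
    exact hs
  rw [← this]
  push_cast
  rfl

/-- The diagonal pattern with `2 ≤ E ≤ k - 2`, where `k` is the number of symbols used and
`n = k + E`. -/
theorem latin_label {ι κ : Type} [Fintype ι] [DecidableEq ι] [Fintype κ] [DecidableEq κ]
    (hcard : Fintype.card κ = Fintype.card ι) (q : ι → κ)
    (h1 : (univ.image q).card + 2 ≤ Fintype.card ι)
    (h2 : Fintype.card ι + 2 ≤ 2 * (univ.image q).card) :
    ∃ L : ι → ι → κ, IsLatin L ∧ ∀ l, L l l = q l := by
  classical
  set K := univ.image q with hK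
  set n := Fintype.card ι with hn
  set m : κ → ℕ := fun a => #{l | q l = a} with hm
  have hm1 : ∀ a ∈ K, 1 ≤ m a := by
    intro a ha
    obtain ⟨l, -, rfl⟩ := mem_image.1 ha
    exact card_pos.2 ⟨l, by simp⟩
  have hmsum : ∑ a ∈ K, m a = n := by
    rw [hn, ← card_univ, card_eq_sum_card_image q univ]
  set big := K.filter (fun a => 2 ≤ m a) with hbig
  set sing := K.filter (fun a => ¬ 2 ≤ m a) with hsing
  have hbs : big.card + sing.card = K.card := card_filter_add_card_filter_not _
  have hms : ∀ a ∈ sing, m a = 1 := by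
    intro a ha
    have h3 := mem_filter.1 ha
    have := hm1 a h3.1
    have := h3.2
    omega
  have hsum2 : ∑ a ∈ big, m a + sing.card = n := by
    have h3 : ∑ a ∈ sing, m a = sing.card := by
      rw [sum_congr rfl hms]
      simp
    rw [← hmsum, ← sum_filter_add_sum_filter_not K (fun a => 2 ≤ m a), ← h3]
  have hbig2 : 2 * big.card ≤ ∑ a ∈ big, m a := by
    rw [mul_comm, ← smul_eq_mul]
    exact card_nsmul_le_sum _ _ _ (fun a ha => (mem_filter.1 ha).2)
  set r := big.card with hr
  set u := sing.card with hu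
  have hu2 : 2 ≤ u := by omega
  have eb : big ≃ Fin r := big.equivFin
  have es : sing ≃ Fin u := sing.equivFin
  -- labels from functions on `Fin`
  have key : ∀ (x : Fin r → ℤ) (y : Fin u → ℤ) (hx : Function.Injective x)
      (hy : Function.Injective y) (hxy : ∀ i j, x i ≠ y j)
      (hxx : ∀ i j, |x i - x j| < n) (hyy : ∀ i j, |y i - y j| < n)
      (hxy' : ∀ i j, |x i - y j| < n)
      (hs : (n : ℤ) ∣ ∑ i, (m (eb.symm i) : ℤ) * x i + ∑ j, y j),
      ∃ L : ι → ι → κ, IsLatin L ∧ ∀ l, L l l = q l := by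
    intro x y hx hy hxy hxx hyy hxy' hs
    set lab : κ → ℤ := fun a => if h : a ∈ big then x (eb ⟨a, h⟩) else
      if h' : a ∈ sing then y (es ⟨a, h'⟩) else 0 with hlab
    have hlb : ∀ a (h : a ∈ big), lab a = x (eb ⟨a, h⟩) := fun a h => dif_pos h
    have hnb : ∀ a, a ∈ sing → a ∉ big := by
      intro a ha hb
      exact (mem_filter.1 ha).2 (mem_filter.1 hb).2
    have hls : ∀ a (h : a ∈ sing), lab a = y (es ⟨a, h⟩) := by
      intro a h
      rw [hlab]
      show (if h : a ∈ big then x (eb ⟨a, h⟩) else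
        if h' : a ∈ sing then y (es ⟨a, h'⟩) else 0) = _
      rw [dif_neg (hnb a h), dif_pos h]
    have hcov : ∀ a ∈ K, a ∈ big ∨ a ∈ sing := by
      intro a ha
      by_cases h : 2 ≤ m a
      · exact Or.inl (mem_filter.2 ⟨ha, h⟩)
      · exact Or.inr (mem_filter.2 ⟨ha, h⟩)
    refine changLabel_finish hcard (by omega) q lab ?_ ?_
    · intro a ha b hb hab
      rcases hcov a ha with h | h <;> rcases hcov b hb with h' | h'
      · rw [hlb a h, hlb b h']
        refine ⟨fun h3 => hab ?_, hxx _ _⟩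
        have := eb.injective (hx h3)
        exact congrArg Subtype.val this
      · rw [hlb a h, hls b h']
        exact ⟨hxy _ _, hxy' _ _⟩
      · rw [hls a h, hlb b h', abs_sub_comm]
        exact ⟨(hxy _ _).symm, hxy' _ _⟩
      · rw [hls a h, hls b h']
        refine ⟨fun h3 => hab ?_, hyy _ _⟩
        have := es.injective (hy h3)
        exact congrArg Subtype.val this
    · have h3 : ∑ l, lab (q l) = ∑ a ∈ K, (m a : ℤ) * lab a := by
        rw [sum_comp lab q]
        apply sum_congr rfl
        intro a _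
        rw [nsmul_eq_mul]
      have h4 : ∑ a ∈ big, (m a : ℤ) * lab a = ∑ i, (m (eb.symm i) : ℤ) * x i := by
        rw [← sum_coe_sort big, ← Equiv.sum_comp eb.symm]
        apply sum_congr rfl
        intro i _
        rw [hlb _ (eb.symm i).2]
        simp
      have h5 : ∑ a ∈ sing, (m a : ℤ) * lab a = ∑ j, y j := by
        rw [← sum_coe_sort sing, ← Equiv.sum_comp es.symm]
        apply sum_congr rfl
        intro j _
        rw [hls _ (es.symm j).2, hms _ (es.symm j).2]
        simp
      rw [h3, ← sum_filter_add_sum_filter_not K (fun a => 2 ≤ m a), h4, h5]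
      exact hs
  rcases Nat.lt_or_ge u 3 with h3 | h3
  · -- u = 2
    have hu' : u = 2 := by omega
    have hrn : n = 2 * r + 2 := by omega
    have hmb : ∀ a ∈ big, m a = 2 := by
      have h4 : ∑ a ∈ big, m a = ∑ a ∈ big, 2 := by
        rw [sum_const, smul_eq_mul]
        omega
      intro a ha
      exact ((sum_eq_sum_iff_of_le (fun b hb => (mem_filter.1 hb).2)).1 h4.symm a ha).symm
    obtain ⟨x, y, hx1, hy1, hx, hy, hxy, hs⟩ := changLabel_two r (by omega)
    have habs : ∀ a b : ℤ, 2 * |a| < 2 * r + 2 → 2 * |b| < 2 * r + 2 → |a - b| < n := by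
      intro a b ha hb
      have h5 := abs_sub a b
      rw [hrn]
      push_cast
      omega
    refine key x (y ∘ Fin.cast hu') hx (hy.comp (Fin.cast_injective hu')) (fun i j => hxy i _)
      (fun i j => habs _ _ (hx1 i) (hx1 j)) (fun i j => habs _ _ (hy1 _) (hy1 _))
      (fun i j => habs _ _ (hx1 i) (hy1 _)) ?_
    have h4 : ∑ i, (m (eb.symm i) : ℤ) * x i + ∑ j, (y ∘ Fin.cast hu') j = 0 := by
      rw [← hs]
      congr 1
      · apply sum_congr rfl
        intro i _
        rw [hmb _ (eb.symm i).2]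
        rfl
      · exact Equiv.sum_comp (finCongr hu') y
    rw [h4]
    exact dvd_zero _
  · obtain ⟨x, y, hx1, hy1, hx, hy, hxy, hs⟩ := label_many n r u (n - r - u) (by omega) h3
      (by omega) (by omega) (fun i => m (eb.symm i))
    have habs : ∀ a b : ℕ, a < n → b < n → |(a : ℤ) - b| < n := by
      intro a b ha hb
      rw [abs_lt]
      constructor <;> omega
    refine key (fun i => (x i : ℤ)) (fun j => (y j : ℤ)) (fun i j h => hx (Int.ofNat.inj h))
      (fun i j h => hy (Int.ofNat.inj h)) (fun i j h => hxy i j (Int.ofNat.inj h))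
      (fun i j => habs _ _ (hx1 i) (hx1 j)) (fun i j => habs _ _ (hy1 i) (hy1 j))
      (fun i j => habs _ _ (hx1 i) (hy1 j)) ?_
    exact_mod_cast hs

end W3a
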