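import Pool.Agent.W_MP_3a8340_co.HallSum

open Finset

namespace W3a

/-- Prolongation of a square along a transversal. -/
private def cs_prol {α : Type} [DecidableEq α] (L : α → α → α) (t : α ≃ α) :
    Option α → Option α → Option α
  | some a, some b => if b = t a then none else some (L a b)
  | some a, none => some (L a (t a))
  | none, some b => some (L (t.symm b) b)
  | none, none => none

private theorem cs_prol_ss {α : Type} [DecidableEq α] (L : α → α → α) (t : α ≃ α) (a b : α)
    (h : ¬ b = t a) : cs_prol L t (some a) (some b) = some (L a b) := if_neg h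

private theorem cs_prol_latin {α : Type} [DecidableEq α] (L : α → α → α) (t : α ≃ α)
    (hL : IsLatin L) (ht : Function.Injective fun a => L a (t a)) :
    IsLatin (cs_prol L t) := by
  refine ⟨?_, ?_⟩
  · intro i j j' h
    rcases i with _ | a
    · rcases j with _ | b <;> rcases j' with _ | b'
      · rfl
      · simp [cs_prol] at h
      · simp [cs_prol] at h
      · simp only [cs_prol, Option.some.injEq] at h
        have h1 : t.symm b = t.symm b' := by
          apply ht
          simpa using h
        exact congrArg some (t.symm.injective h1)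
    · rcases j with _ | b <;> rcases j' with _ | b'
      · rfl
      · simp only [cs_prol] at h
        split_ifs at h with h1
        · have := hL.1 a (Option.some.inj h)
          exact absurd this.symm h1
      · simp only [cs_prol] at h
        split_ifs at h with h1
        · have := hL.1 a (Option.some.inj h)
          exact absurd this h1
      · simp only [cs_prol] at h
        split_ifs at h with h1 h2 h2
        · rw [h1, h2]
        · exact congrArg some (hL.1 a (Option.some.inj h))
  · intro j i i' h
    rcases j with _ | b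
    · rcases i with _ | a <;> rcases i' with _ | a'
      · rfl
      · simp [cs_prol] at h
      · simp [cs_prol] at h
      · simp only [cs_prol, Option.some.injEq] at h
        exact congrArg some (ht h)
    · rcases i with _ | a <;> rcases i' with _ | a'
      · rfl
      · simp only [cs_prol] at h
        split_ifs at h with h1
        · have := hL.2 b (Option.some.inj h)
          exact absurd (by rw [← this]; simp) h1
      · simp only [cs_prol] at h
        split_ifs at h with h1
        · have := hL.2 b (Option.some.inj h)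
          exact absurd (by rw [this]; simp) h1
      · simp only [cs_prol] at h
        split_ifs at h with h1 h2 h2
        · rw [h1] at h2
          exact congrArg some (t.injective h2)
        · exact congrArg some (hL.2 b (Option.some.inj h))

/-- The midpoint square on `ZMod m`, `h + h = 1`. -/
private def cs_mid {m : ℕ} (h : ZMod m) : ZMod m → ZMod m → ZMod m := fun x y => (x + y) * h

private theorem cs_half {m : ℕ} {h : ZMod m} (hh : h + h = 1) {a b : ZMod m}
    (e : a * h = b * h) : a = b := by
  have : a * (h + h) = b * (h + h) := by rw [mul_add, mul_add, e]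
  rwa [hh, mul_one, mul_one] at this

private theorem cs_mid_latin {m : ℕ} {h : ZMod m} (hh : h + h = 1) : IsLatin (cs_mid h) := by
  refine ⟨?_, ?_⟩
  · intro x y y' e
    have := cs_half hh e
    exact add_left_cancel this
  · intro y x x' e
    have := cs_half hh e
    exact add_right_cancel this

private theorem cs_mid_idem {m : ℕ} {h : ZMod m} (hh : h + h = 1) (x : ZMod m) :
    cs_mid h x x = x := by
  unfold cs_mid
  rw [add_mul, ← mul_add, hh, mul_one]

/-- The idempotent square on `Option (ZMod m)`. -/
private def cs_L1 {m : ℕ} (h : ZMod m) :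
    Option (ZMod m) → Option (ZMod m) → Option (ZMod m) :=
  cs_prol (cs_mid h) (Equiv.addRight (1 : ZMod m))

private theorem cs_L1_latin {m : ℕ} {h : ZMod m} (hh : h + h = 1) : IsLatin (cs_L1 h) := by
  apply cs_prol_latin _ _ (cs_mid_latin hh)
  intro x y e
  simp only [cs_mid, Equiv.coe_addRight] at e
  have e1 := cs_half hh e
  have e2 : (x + x) = (y + y) := by
    have : x + (x + 1) = (x + x) + 1 := by ring
    rw [this] at e1
    have : y + (y + 1) = (y + y) + 1 := by ring
    rw [this] at e1
    exact add_right_cancel e1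
  have : (x + x) * h = (y + y) * h := by rw [e2]
  have hx := cs_mid_idem hh x
  have hy := cs_mid_idem hh y
  unfold cs_mid at hx hy
  rw [hx, hy] at this
  exact this

private theorem cs_L1_idem {m : ℕ} {h : ZMod m} (hh : h + h = 1) (h1 : (1 : ZMod m) ≠ 0)
    (x : Option (ZMod m)) : cs_L1 h x x = x := by
  rcases x with _ | x
  · rfl
  · have : ¬ (x = x + 1) := by
      intro e
      apply h1
      have : x + 0 = x + 1 := by rw [add_zero]; exact e
      exact (add_left_cancel this).symm
    unfold cs_L1
    rw [cs_prol_ss _ _ _ _ this, cs_mid_idem hh]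

/-- The square with one coincidence on `Option (Option (ZMod m))`. -/
private def cs_L2 {m : ℕ} (h : ZMod m) :
    Option (Option (ZMod m)) → Option (Option (ZMod m)) → Option (Option (ZMod m)) :=
  cs_prol (cs_L1 h) (Equiv.optionCongr (Equiv.addRight (2 : ZMod m)))

private theorem cs_L1_trans {m : ℕ} {h : ZMod m} (hh : h + h = 1) (h1 : (1 : ZMod m) ≠ 0)
    (x : ZMod m) : cs_L1 h (some x) (some (x + 2)) = some (x + 1) := by
  have : ¬ (x + 2 = x + 1) := by
    intro e
    apply h1
    have e1 := add_left_cancel e
    have : (2 : ZMod m) = 1 + 1 := by norm_num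
    rw [this] at e1
    have : (1 : ZMod m) + 1 = 1 + 0 := by rw [add_zero]; exact e1
    exact add_left_cancel this
  unfold cs_L1
  rw [cs_prol_ss _ _ _ _ this]
  have h2 := cs_mid_idem hh (x + 1)
  unfold cs_mid at h2 ⊢
  rw [show x + (x + 2) = (x + 1) + (x + 1) by ring, h2]

private theorem cs_L2_latin {m : ℕ} {h : ZMod m} (hh : h + h = 1) (h1 : (1 : ZMod m) ≠ 0) :
    IsLatin (cs_L2 h) := by
  apply cs_prol_latin _ _ (cs_L1_latin hh)
  intro x y e
  rcases x with _ | x <;> rcases y with _ | y
  · rfl
  · exfalso
    simp only [Equiv.optionCongr_apply, Option.map_none, Option.map_some,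
      Equiv.coe_addRight, cs_L1_trans hh h1] at e
    simp [cs_L1, cs_prol] at e
  · exfalso
    simp only [Equiv.optionCongr_apply, Option.map_none, Option.map_some,
      Equiv.coe_addRight, cs_L1_trans hh h1] at e
    simp [cs_L1, cs_prol] at e
  · simp only [Equiv.optionCongr_apply, Option.map_some,
      Equiv.coe_addRight, cs_L1_trans hh h1] at e
    exact congrArg some (add_right_cancel (Option.some.inj e))

private theorem cs_L2_some {m : ℕ} {h : ZMod m} (hh : h + h = 1) (h1 : (1 : ZMod m) ≠ 0)
    (h2 : (2 : ZMod m) ≠ 0) (x : ZMod m) :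
    cs_L2 h (some (some x)) (some (some x)) = some (some x) := by
  have : ¬ (some x = some (x + 2)) := by
    intro e
    apply h2
    have e := Option.some.inj e
    have : x + 0 = x + 2 := by rw [add_zero]; exact e
    exact (add_left_cancel this).symm
  unfold cs_L2
  rw [cs_prol_ss _ _ _ _ this, cs_L1_idem hh h1]

private theorem cs_L2_none {m : ℕ} {h : ZMod m} :
    cs_L2 h (some none) (some none) = none := by
  simp [cs_L2, cs_prol]

private theorem cs_L2_none' {m : ℕ} {h : ZMod m} :
    cs_L2 h none none = none := rfl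

private theorem cs_exists_half (k : ℕ) : ∃ h : ZMod (2 * k + 1), h + h = 1 := by
  refine ⟨((k + 1 : ℕ) : ZMod (2 * k + 1)), ?_⟩
  rw [← Nat.cast_add]
  have : k + 1 + (k + 1) = (2 * k + 1) + 1 := by ring
  rw [this, Nat.cast_add, ZMod.natCast_self, zero_add, Nat.cast_one]

/-- Transport of squares. -/
private theorem cs_transport {ι κ α : Type} (L : α → α → α) (hL : IsLatin L) (e : ι ≃ α)
    (f : κ ≃ α) (q : ι → κ) (hq : ∀ l, L (e l) (e l) = f (q l)) :
    ∃ L : ι → ι → κ, IsLatin L ∧ ∀ l, L l l = q l := by
  refine ⟨fun i j => f.symm (L (e i) (e j)), ⟨?_, ?_⟩, ?_⟩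
  · intro i j j' h
    exact e.injective (hL.1 _ (f.symm.injective h))
  · intro j i i' h
    exact e.injective (hL.2 _ (f.symm.injective h))
  · intro l
    show f.symm (L (e l) (e l)) = q l
    rw [hq, Equiv.symm_apply_apply]

private theorem cs_card_zmod (m : ℕ) [NeZero m] : Fintype.card (ZMod m) = m := ZMod.card m

/-- All diagonal symbols distinct. -/
theorem latin_inj {ι κ : Type} [Fintype ι] [DecidableEq ι] [Fintype κ] [DecidableEq κ]
    (hcard : Fintype.card κ = Fintype.card ι) (h3 : Fintype.card ι ≠ 2) (q : ι → κ)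
    (hq : Function.Injective q) :
    ∃ L : ι → ι → κ, IsLatin L ∧ ∀ l, L l l = q l := by
  have hbij : Function.Bijective q :=
    (Fintype.bijective_iff_injective_and_card q).2 ⟨hq, hcard.symm⟩
  let Q : ι ≃ κ := Equiv.ofBijective q hbij
  have hQ : ∀ l, Q l = q l := fun l => rfl
  rcases Nat.even_or_odd' (Fintype.card ι) with ⟨k, hk | hk⟩
  · -- even
    rcases Nat.lt_or_ge k 2 with hk2 | hk2
    · interval_cases k
      · have : IsEmpty ι := Fintype.card_eq_zero_iff.1 (by omega)
        exact ⟨fun i => isEmptyElim i, ⟨fun i => isEmptyElim i, fun i => isEmptyElim i⟩,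
          fun i => isEmptyElim i⟩
      · omega
    · obtain ⟨k', rfl⟩ : ∃ k', k = k' + 1 := ⟨k - 1, by omega⟩
      obtain ⟨h, hh⟩ := cs_exists_half k'
      haveI : Fact (1 < 2 * k' + 1) := ⟨by omega⟩
      have h1 : (1 : ZMod (2 * k' + 1)) ≠ 0 := one_ne_zero
      have hc : Fintype.card ι = Fintype.card (Option (ZMod (2 * k' + 1))) := by
        rw [Fintype.card_option, ZMod.card, hk]
        ring
      let e : ι ≃ Option (ZMod (2 * k' + 1)) := Fintype.equivOfCardEq hc
      apply cs_transport (cs_L1 h) (cs_L1_latin hh) e (Q.symm.trans e) q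
      intro l
      rw [cs_L1_idem hh h1, ← hQ, Equiv.trans_apply, Equiv.symm_apply_apply]
  · obtain ⟨h, hh⟩ := cs_exists_half k
    have hc : Fintype.card ι = Fintype.card (ZMod (2 * k + 1)) := by
      rw [ZMod.card, hk]
    let e : ι ≃ ZMod (2 * k + 1) := Fintype.equivOfCardEq hc
    apply cs_transport (cs_mid h) (cs_mid_latin hh) e (Q.symm.trans e) q
    intro l
    rw [cs_mid_idem hh, ← hQ, Equiv.trans_apply, Equiv.symm_apply_apply]

private theorem cs_sum_range (n : ℕ) [NeZero n] :
    ∑ g : ZMod n, g = ((∑ i ∈ Finset.range n, i : ℕ) : ZMod n) := by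
  obtain ⟨k, rfl⟩ : ∃ k, n = k + 1 := ⟨n - 1, by have := NeZero.ne n; omega⟩
  rw [Nat.cast_sum, ← Fin.sum_univ_eq_sum_range (fun i => (i : ZMod (k + 1))) (k + 1)]
  apply Finset.sum_congr rfl
  intro i _
  exact (Fin.cast_val_eq_self i).symm

private theorem cs_sum_even (k : ℕ) [NeZero (2 * k)] :
    ∑ g : ZMod (2 * k), g = ((k : ℕ) : ZMod (2 * k)) := by
  rw [cs_sum_range, Finset.sum_range_id]
  have hk : 0 < k := by
    have := NeZero.ne (2 * k)
    omega
  have h1 : 2 * k * (2 * k - 1) / 2 = k * (2 * k - 1) := by
    rw [mul_assoc, Nat.mul_div_cancel_left _ (by norm_num)]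
  rw [h1]
  have h2 : k * (2 * k - 1) + 2 * k = 2 * k * k + k := by
    obtain ⟨j, rfl⟩ : ∃ j, k = j + 1 := ⟨k - 1, by omega⟩
    have : 2 * (j + 1) - 1 = 2 * j + 1 := by omega
    rw [this]
    ring
  have h3 : ((k * (2 * k - 1) + 2 * k : ℕ) : ZMod (2 * k)) = ((2 * k * k + k : ℕ) : ZMod (2 * k)) := by
    rw [h2]
  rw [Nat.cast_add, ZMod.natCast_self, add_zero, Nat.cast_add, Nat.cast_mul (2 * k) k,
    ZMod.natCast_self, zero_mul, zero_add] at h3
  exact h3

private theorem cs_two_points {κ G : Type} [DecidableEq G] (e0 : κ ≃ G) (a b : κ) (c d : G)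
    (hab : a ≠ b) (hcd : c ≠ d) : ∃ e : κ ≃ G, e a = c ∧ e b = d := by
  let σ1 : G ≃ G := Equiv.swap (e0 a) c
  let σ2 : G ≃ G := Equiv.swap (σ1 (e0 b)) d
  have h1 : σ1 (e0 a) = c := Equiv.swap_apply_left _ _
  have h2 : c ≠ σ1 (e0 b) := by
    intro h
    rw [← h1] at h
    exact hab (e0.injective (σ1.injective h))
  refine ⟨(e0.trans σ1).trans σ2, ?_, ?_⟩
  · rw [Equiv.trans_apply, Equiv.trans_apply, h1]
    exact Equiv.swap_apply_of_ne_of_ne h2 hcd
  · rw [Equiv.trans_apply, Equiv.trans_apply]
    exact Equiv.swap_apply_left _ _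

/-- Exactly one coincidence on the diagonal. -/
theorem latin_one {ι κ : Type} [Fintype ι] [DecidableEq ι] [Fintype κ] [DecidableEq κ]
    (hcard : Fintype.card κ = Fintype.card ι) (h4 : 4 ≤ Fintype.card ι) (q : ι → κ)
    (x y : ι) (hxy : x ≠ y) (hq : q x = q y)
    (hq' : ∀ l l', q l = q l' → l = l' ∨ (l = x ∧ l' = y) ∨ (l = y ∧ l' = x)) :
    ∃ L : ι → ι → κ, IsLatin L ∧ ∀ l, L l l = q l := by
  have hinj : Set.InjOn q ((univ.erase y : Finset ι) : Set ι) := by
    intro a ha b hb h
    rcases hq' a b h with h | ⟨_, h⟩ | ⟨h, _⟩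
    · exact h
    · simp [h] at hb
    · simp [h] at ha
  have hcardS : ((univ.erase y).image q).card = Fintype.card κ - 1 := by
    rw [Finset.card_image_of_injOn hinj, Finset.card_erase_of_mem (mem_univ y), Finset.card_univ,
      hcard]
  have hcompl : (((univ.erase y).image q)ᶜ).card = 1 := by
    rw [Finset.card_compl, hcardS]
    omega
  obtain ⟨w, hw⟩ := Finset.card_eq_one.1 hcompl
  have hwq : ∀ l, q l ≠ w := by
    intro l h
    have : w ∈ ((univ.erase y).image q)ᶜ := by rw [hw]; simp
    rw [Finset.mem_compl] at this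
    apply this
    by_cases hly : l = y
    · rw [hly, ← hq] at h
      exact Finset.mem_image.2 ⟨x, by simp [hxy], h⟩
    · exact Finset.mem_image.2 ⟨l, by simp [hly], h⟩
  rcases Nat.even_or_odd' (Fintype.card ι) with ⟨k, hk | hk⟩
  · -- even
    haveI : NeZero (2 * k) := ⟨by omega⟩
    have hc : Fintype.card κ = Fintype.card (ZMod (2 * k)) := by
      rw [ZMod.card, hcard, hk]
    have h0k : (0 : ZMod (2 * k)) ≠ ((k : ℕ) : ZMod (2 * k)) := by
      intro h
      have h' := h.symm
      rw [ZMod.natCast_eq_zero_iff] at h'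
      have := Nat.le_of_dvd (by omega) h'
      omega
    obtain ⟨e, he1, he2⟩ := cs_two_points (Fintype.equivOfCardEq hc) (q x) w 0
      ((k : ℕ) : ZMod (2 * k)) (hwq x) h0k
    apply latin_of_sum (hcard.symm.trans hc) e q
    rw [← Finset.add_sum_erase univ (fun j => e (q j)) (mem_univ y)]
    rw [← hq, he1, zero_add]
    have hs : ∑ j ∈ univ.erase y, e (q j) = ∑ c ∈ (univ.erase y).image q, e c := by
      rw [Finset.sum_image]
      exact hinj
    rw [hs]
    have h5 := Finset.sum_add_sum_compl ((univ.erase y).image q) (fun c => e c)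
    rw [hw, Finset.sum_singleton, he2, Equiv.sum_comp e (fun g => g), cs_sum_even] at h5
    have h6 : ∑ c ∈ (univ.erase y).image q, e c + ((k : ℕ) : ZMod (2 * k)) =
        0 + ((k : ℕ) : ZMod (2 * k)) := by rw [h5, zero_add]
    exact add_right_cancel h6
  · -- odd
    obtain ⟨k', rfl⟩ : ∃ k', k = k' + 1 := ⟨k - 1, by omega⟩
    obtain ⟨h, hh⟩ := cs_exists_half k'
    haveI : Fact (1 < 2 * k' + 1) := ⟨by omega⟩
    have h1 : (1 : ZMod (2 * k' + 1)) ≠ 0 := one_ne_zero
    have h2 : (2 : ZMod (2 * k' + 1)) ≠ 0 := by
      intro h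
      have h' : ((2 : ℕ) : ZMod (2 * k' + 1)) = 0 := by exact_mod_cast h
      rw [ZMod.natCast_eq_zero_iff] at h'
      have := Nat.le_of_dvd (by omega) h'
      omega
    have hc : Fintype.card ι = Fintype.card (Option (Option (ZMod (2 * k' + 1)))) := by
      rw [Fintype.card_option, Fintype.card_option, ZMod.card, hk]
      ring
    obtain ⟨e, he1, he2⟩ := cs_two_points (Fintype.equivOfCardEq hc) x y (some none) none
      hxy (by simp)
    -- the symbols
    let g : ι → κ := fun l => if l = y then w else q l
    have hg : Function.Injective g := by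
      intro a b hab
      simp only [g] at hab
      split_ifs at hab with ha hb hb
      · rw [ha, hb]
      · exact absurd hab.symm (hwq b)
      · exact absurd hab (hwq a)
      · exact hinj (by simp [ha]) (by simp [hb]) hab
    have hgb : Function.Bijective g :=
      (Fintype.bijective_iff_injective_and_card g).2 ⟨hg, hcard.symm⟩
    let Q : ι ≃ κ := Equiv.ofBijective g hgb
    have hQ : ∀ l, Q l = g l := fun l => rfl
    have hQs : ∀ l, Q.symm (g l) = l := fun l => by rw [← hQ, Equiv.symm_apply_apply]
    -- symbol map: q x ↦ none (omega), w ↦ some none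
    apply cs_transport (cs_L2 h) (cs_L2_latin hh h1) e
      ((Q.symm.trans e).trans (Equiv.swap (some none) none)) q
    intro l
    rw [Equiv.trans_apply, Equiv.trans_apply]
    by_cases hly : l = y
    · have hqx : q l = g x := by simp [g, hxy, hly, hq]
      rw [hqx, hQs, he1, hly, he2, cs_L2_none', Equiv.swap_apply_left]
    · have hql : q l = g l := by simp [g, hly]
      rw [hql, hQs]
      by_cases hlx : l = x
      · rw [hlx, he1, cs_L2_none, Equiv.swap_apply_left]
      · have hn1 : e l ≠ some none := fun h => hlx (e.injective (h.trans he1.symm))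
        have hn2 : e l ≠ none := fun h => hly (e.injective (h.trans he2.symm))
        rw [Equiv.swap_apply_of_ne_of_ne hn1 hn2]
        rcases hel : e l with _ | _ | z
        · exact absurd hel hn2
        · exact absurd hel hn1
        · exact cs_L2_some hh h1 h2 z

/-- A constant diagonal. -/
theorem latin_const {ι κ : Type} [Fintype ι] [DecidableEq ι] [Fintype κ] [DecidableEq κ]
    (hcard : Fintype.card κ = Fintype.card ι) (c : κ) :
    ∃ L : ι → ι → κ, IsLatin L ∧ ∀ l, L l l = c := by
  have hne : Fintype.card κ ≠ 0 := by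
    intro h
    have := Fintype.card_eq_zero_iff.1 h
    exact isEmptyElim c
  haveI : NeZero (Fintype.card κ) := ⟨hne⟩
  have hc : Fintype.card κ = Fintype.card (ZMod (Fintype.card κ)) := by
    rw [ZMod.card]
  let e0 : κ ≃ ZMod (Fintype.card κ) := Fintype.equivOfCardEq hc
  let e : κ ≃ ZMod (Fintype.card κ) := e0.trans (Equiv.swap (e0 c) 0)
  have he : e c = 0 := by
    show Equiv.swap (e0 c) 0 (e0 c) = 0
    exact Equiv.swap_apply_left _ _
  exact latin_of_sum (hcard.symm.trans hc) e (fun _ => c) (by simp [he])

end W3a
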