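import Pool.Agent.W_MP_3a8340_co.ChangPerm
import Pool.Agent.W_MP_3a8340_co.ChangSmall
import Pool.Agent.W_MP_3a8340_co.ChangLabel

open Finset

namespace W3a

/-- the symbols of `q` do not change when the index `m` is removed -/
private theorem chang_image_erase {ι κ : Type} [Fintype ι] [DecidableEq ι] [DecidableEq κ]
    (q : ι → κ) (m l : ι) (hl : l ≠ m) (hq : q l = q m) :
    (univ.erase m).image q = univ.image q := by
  apply Subset.antisymm
  · exact image_subset_image (erase_subset _ _)
  · intro c hc
    obtain ⟨l', -, rfl⟩ := mem_image.1 hc
    by_cases h : l' = m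
    · rw [h, ← hq]
      exact mem_image_of_mem q (mem_erase.2 ⟨hl, mem_univ _⟩)
    · exact mem_image_of_mem q (mem_erase.2 ⟨h, mem_univ _⟩)

/-- exactly one coincidence -/
private theorem chang_one {ι κ : Type} [Fintype ι] [DecidableEq ι] [DecidableEq κ]
    (q : ι → κ) (h : (univ.image q).card + 1 = Fintype.card ι) :
    ∃ x y, x ≠ y ∧ q x = q y ∧
      ∀ l l', q l = q l' → l = l' ∨ (l = x ∧ l' = y) ∨ (l = y ∧ l' = x) := by
  have hninj : ¬ Function.Injective q := by
    intro hinj
    rw [card_image_of_injective _ hinj, card_univ] at h
    omega
  rw [Function.Injective] at hninj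
  push Not at hninj
  obtain ⟨x, y, hxy, hne⟩ := hninj
  refine ⟨x, y, hne, hxy, ?_⟩
  have h1 : ((univ.erase y).image q).card = (univ.erase y).card := by
    rw [chang_image_erase q y x hne hxy, card_erase_of_mem (mem_univ _), card_univ]
    omega
  have hinj := card_image_iff.1 h1
  have hmem : ∀ l, l ≠ y → l ∈ (univ.erase y : Finset ι) := fun l hl =>
    mem_erase.2 ⟨hl, mem_univ _⟩
  intro l l' hll
  by_cases hl : l = y
  · by_cases hl' : l' = y
    · left; rw [hl, hl']
    · right; right
      refine ⟨hl, ?_⟩
      exact hinj (hmem l' hl') (hmem x hne) (by rw [← hll, hl, hxy])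
  · by_cases hl' : l' = y
    · right; left
      refine ⟨?_, hl'⟩
      exact hinj (hmem l hl) (hmem x hne) (by rw [hll, hl', hxy])
    · left
      exact hinj (hmem l hl) (hmem l' hl') hll

/-- two symbols -/
private theorem chang_two {ι κ : Type} [Fintype ι] [DecidableEq ι] [DecidableEq κ]
    (q : ι → κ) (hq : ¬ ∃ m c, (∀ l, l ≠ m → q l = c) ∧ q m ≠ c)
    (h : (univ.image q).card = 2) : DP q := by
  obtain ⟨c, c', hcc, himg⟩ := card_eq_two.1 h
  have hval : ∀ l, q l = c ∨ q l = c' := by
    intro l
    have h1 : q l ∈ univ.image q := mem_image_of_mem q (mem_univ _)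
    rw [himg, mem_insert, mem_singleton] at h1
    exact h1
  -- a symbol with multiplicity at most one gives type `(n-1, 1)`
  have key : ∀ a b : κ, a ≠ b → (∀ l, q l = a ∨ q l = b) → a ∈ univ.image q →
      2 ≤ (univ.filter fun l => q l = a).card := by
    intro a b hab hv ha
    obtain ⟨m, -, hm⟩ := mem_image.1 ha
    by_contra hcon
    apply hq
    refine ⟨m, b, fun l hl => ?_, by rw [hm]; exact hab⟩
    rcases hv l with h1 | h1
    · exfalso
      apply hcon
      have h2 : ({l, m} : Finset ι) ⊆ univ.filter fun l => q l = a := by
        intro z hz
        rw [mem_insert, mem_singleton] at hz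
        rcases hz with rfl | rfl
        · exact mem_filter.2 ⟨mem_univ _, h1⟩
        · exact mem_filter.2 ⟨mem_univ _, hm⟩
      have h3 := card_le_card h2
      rw [card_pair hl] at h3
      exact h3
    · exact h1
  refine dp_two q c c' hcc hval (key c c' hcc hval ?_) (key c' c hcc.symm (fun l => (hval l).symm) ?_)
  · rw [himg]; simp
  · rw [himg]; simp

private theorem chang_card_ne {α : Type} [Fintype α] [DecidableEq α] (a : α) :
    Fintype.card {x : α // x ≠ a} = Fintype.card α - 1 := by
  rw [Fintype.card_subtype]
  have h : (univ.filter fun x => x ≠ a) = univ.erase a := by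
    ext x
    simp
  rw [h, card_erase_of_mem (mem_univ _), card_univ]

private theorem chang_aux (n : ℕ) : ∀ (ι κ : Type) [Fintype ι] [DecidableEq ι] [Fintype κ]
    [DecidableEq κ], Fintype.card ι = n → Fintype.card κ = Fintype.card ι → ∀ q : ι → κ,
    (¬ ∃ m c, (∀ l, l ≠ m → q l = c) ∧ q m ≠ c) →
    ∃ L : ι → ι → κ, IsLatin L ∧ ∀ l, L l l = q l := by
  induction n using Nat.strong_induction_on with
  | _ n ih =>
    intro ι κ _ _ _ _ hn hcard q hq
    obtain ⟨k, hk⟩ : ∃ k, k = (univ.image q).card := ⟨_, rfl⟩
    have hkn : k ≤ n := by
      rw [hk, ← hn, ← card_univ]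
      exact card_image_le
    rcases Nat.lt_or_ge k 2 with hk2 | hk2
    · -- constant diagonal
      rcases isEmpty_or_nonempty ι with he | ⟨⟨m⟩⟩
      · exact ⟨fun i => (he.false i).elim, ⟨fun i => (he.false i).elim,
          fun i => (he.false i).elim⟩, fun i => (he.false i).elim⟩
      · obtain ⟨L, hL, hd⟩ := latin_const hcard (q m)
        refine ⟨L, hL, fun l => ?_⟩
        rw [hd l]
        have h1 : (univ.image q).card ≤ 1 := by omega
        exact card_le_one.1 h1 _ (mem_image_of_mem q (mem_univ _)) _
          (mem_image_of_mem q (mem_univ _))
    · rcases Nat.lt_or_ge k 3 with hk3 | hk3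
      · -- two symbols
        exact latin_of_dp hcard q (chang_two q hq (by omega))
      · rcases Nat.lt_or_ge n (k + 1) with h0 | h0
        · -- all symbols distinct
          have h1 : (univ.image q).card = (univ : Finset ι).card := by
            rw [card_univ, hn]
            omega
          have hinj : Function.Injective q := fun a b hab =>
            card_image_iff.1 h1 (mem_coe.2 (mem_univ a)) (mem_coe.2 (mem_univ b)) hab
          exact latin_inj hcard (by omega) q hinj
        · rcases Nat.lt_or_ge n (k + 2) with h1 | h1
          · -- one coincidence
            obtain ⟨x, y, hxy, hq1, hq2⟩ := chang_one q (by omega)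
            exact latin_one hcard (by omega) q x y hxy hq1 hq2
          · rcases Nat.lt_or_ge n (2 * k - 1) with h2 | h2
            · exact latin_label hcard q (by omega) (by omega)
            · -- remove an index of the largest class
              have hne : (univ : Finset ι).Nonempty := by
                rw [← card_pos, card_univ]
                omega
              obtain ⟨m, -, hmax⟩ := exists_max_image univ
                (fun m => (univ.filter fun l' => q l' = q m).card) hne
              have hbig : ∀ l, (univ.filter fun l' => q l' = q l).card ≤
                  (univ.filter fun l' => q l' = q m).card := fun l => hmax l (mem_univ l)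
              have hmem : ∃ l, l ≠ m ∧ q l = q m := by
                by_contra hcon
                push Not at hcon
                have h3 : (univ.filter fun l' => q l' = q m).card ≤ 1 := by
                  rw [card_le_one]
                  intro a ha b hb
                  have ha' := (mem_filter.1 ha).2
                  have hb' := (mem_filter.1 hb).2
                  have ea : a = m := by
                    by_contra h
                    exact hcon a h ha'
                  have eb : b = m := by
                    by_contra h
                    exact hcon b h hb'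
                  rw [ea, eb]
                have hinj : Function.Injective q := by
                  intro a b hab
                  have h4 := (hbig b).trans h3
                  rw [card_le_one] at h4
                  exact h4 a (mem_filter.2 ⟨mem_univ _, hab⟩) b (mem_filter.2 ⟨mem_univ _, rfl⟩)
                rw [card_image_of_injective _ hinj, card_univ] at hk
                omega
              obtain ⟨l0, hl0, hql0⟩ := hmem
              -- an unused symbol
              have hc0 : ∃ c0, c0 ∉ univ.image q := by
                by_contra hcon
                push Not at hcon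
                have h3 : univ.image q = (univ : Finset κ) := eq_univ_iff_forall.2 hcon
                rw [h3, card_univ] at hk
                omega
              obtain ⟨c0, hc0⟩ := hc0
              have hc0' : ∀ l, q l ≠ c0 := fun l h => hc0 (h ▸ mem_image_of_mem q (mem_univ l))
              let q' : {l : ι // l ≠ m} → {c : κ // c ≠ c0} := fun l => ⟨q l.1, hc0' l.1⟩
              have hcard1 : Fintype.card {l : ι // l ≠ m} = n - 1 := by
                rw [chang_card_ne, hn]
              have hcard2 : Fintype.card {c : κ // c ≠ c0} = Fintype.card {l : ι // l ≠ m} := by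
                rw [chang_card_ne, chang_card_ne, hcard]
              have himg : (univ.image q) ⊆
                  (univ : Finset {l : ι // l ≠ m}).image (fun l => q l.1) := by
                rw [← chang_image_erase q m l0 hl0 hql0]
                intro c hc
                obtain ⟨l, hl, rfl⟩ := mem_image.1 hc
                exact mem_image.2 ⟨⟨l, (mem_erase.1 hl).1⟩, mem_univ _, rfl⟩
              have hq' : ¬ ∃ m' c, (∀ l, l ≠ m' → q' l = c) ∧ q' m' ≠ c := by
                rintro ⟨m', c, h3, -⟩
                have h4 : (univ.image q) ⊆ {c.1, q m'.1} := by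
                  intro a ha
                  obtain ⟨l, -, rfl⟩ := mem_image.1 (himg ha)
                  rw [mem_insert, mem_singleton]
                  by_cases hl : l = m'
                  · right; rw [hl]
                  · left
                    exact congrArg Subtype.val (h3 l hl)
                have h5 := (card_le_card h4).trans card_le_two
                omega
              obtain ⟨L, hL, hd⟩ := ih (n - 1) (by omega) {l : ι // l ≠ m} {c : κ // c ≠ c0}
                hcard1 hcard2 q' hq'
              obtain ⟨σ, hσ1, hσ2, hσ3⟩ := dp_of_latin hcard2 q' L hL hd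
              have hDP : DP (fun l : {l : ι // l ≠ m} => q l) := by
                refine ⟨fun c => if h : c ≠ c0 then σ ⟨c, h⟩ else id, ?_, ?_, ?_⟩
                · rintro c ⟨l, rfl⟩
                  simp only
                  rw [dif_pos (hc0' l.1)]
                  exact hσ1 ⟨q l.1, hc0' l.1⟩ ⟨l, rfl⟩
                · rintro c ⟨l, rfl⟩ c' ⟨l', rfl⟩ hcc
                  simp only
                  rw [dif_pos (hc0' l.1), dif_pos (hc0' l'.1)]
                  exact hσ2 ⟨q l.1, hc0' l.1⟩ ⟨l, rfl⟩ ⟨q l'.1, hc0' l'.1⟩ ⟨l', rfl⟩
                    (fun h => hcc (congrArg Subtype.val h))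
                · intro l
                  simp only
                  rw [dif_pos (hc0' l.1)]
                  exact hσ3 l
              exact latin_of_dp hcard q
                (dp_add' q m ⟨l0, hl0, hql0⟩ hbig (by omega) hDP)

/-- Chang's theorem (1979): every diagonal pattern except the type `(n-1,1)` is the diagonal of a
Latin square. -/
theorem chang {ι κ : Type} [Fintype ι] [DecidableEq ι] [Fintype κ] [DecidableEq κ]
    (hcard : Fintype.card κ = Fintype.card ι) (q : ι → κ)
    (hq : ¬ ∃ m c, (∀ l, l ≠ m → q l = c) ∧ q m ≠ c) :
    ∃ L : ι → ι → κ, IsLatin L ∧ ∀ l, L l l = q l :=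
  chang_aux _ ι κ rfl hcard q hq

end W3a
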