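import Pool.Agent.W_MP_3a8340_co.Defs
import Pool.Agent.W_MP_66dfad_lc_h47.Konig

open Finset

namespace W3a

/-- Disjoint permutations realizing the pattern `q`: for every symbol `c` occurring in `q` a
bijection `σ c`, pairwise disjoint, with `σ (q l) l = l`. -/
def DP {ι κ : Type} (q : ι → κ) : Prop :=
  ∃ σ : κ → ι → ι, (∀ c ∈ Set.range q, Function.Bijective (σ c)) ∧
    (∀ c ∈ Set.range q, ∀ c' ∈ Set.range q, c ≠ c' → ∀ l, σ c l ≠ σ c' l) ∧
    ∀ l, σ (q l) l = l

/-- Completion by König's theorem. -/
theorem latin_of_dp {ι κ : Type} [Fintype ι] [DecidableEq ι] [Fintype κ] [DecidableEq κ]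
    (hcard : Fintype.card κ = Fintype.card ι) (q : ι → κ) (h : DP q) :
    ∃ L : ι → ι → κ, IsLatin L ∧ ∀ l, L l l = q l := by
  classical
  obtain ⟨σ, hbij, hdis, hfix⟩ := h
  set Q : Finset κ := univ.image q with hQ
  have hQr : ∀ c, c ∈ Q ↔ c ∈ Set.range q := by
    intro c
    simp [hQ]
  obtain ⟨d, hd⟩ : ∃ d, d = Fintype.card ι - Q.card := ⟨_, rfl⟩
  have hrow : ∀ i, (univ.filter fun j => ∀ c ∈ Q, σ c i ≠ j).card = d := by
    intro i
    have h1 : (univ.filter fun j => ∀ c ∈ Q, σ c i ≠ j) = (Q.image fun c => σ c i)ᶜ := by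
      ext j
      simp
    rw [h1, card_compl, card_image_of_injOn, hd]
    intro c hc c' hc' hcc
    by_contra hne
    exact hdis c ((hQr c).1 hc) c' ((hQr c').1 hc') hne i hcc
  have hcol : ∀ j, (univ.filter fun i => ∀ c ∈ Q, σ c i ≠ j).card = d := by
    intro j
    have h0 : ∀ c : Q, ∃ i, σ c i = j := fun c => (hbij c ((hQr c).1 c.2)).2 j
    choose p hp using h0
    have h1 : (univ.filter fun i => ∀ c ∈ Q, σ c i ≠ j) = (univ.image p)ᶜ := by
      ext i
      simp only [mem_filter, mem_univ, true_and, mem_compl, mem_image, not_exists]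
      constructor
      · intro h2 c hc
        exact h2 c c.2 (by rw [← hc]; exact hp c)
      · intro h2 c hc hcj
        apply h2 ⟨c, hc⟩
        exact (hbij c ((hQr c).1 hc)).1 ((hp ⟨c, hc⟩).trans hcj.symm)
    rw [h1, card_compl, card_image_of_injective, hd]
    · simp
    · intro c c' hcc
      by_contra hne
      have h3 : (c : κ) ≠ c' := fun h => hne (Subtype.ext h)
      apply hdis c ((hQr c).1 c.2) c' ((hQr c').1 c'.2) h3 (p c)
      rw [hp c, hcc, hp c']
  obtain ⟨col, hcol1, hcol2, hcol3, -, -⟩ := Pool.Agent.W_MP_66dfad_lc_h47.konig (fun i j => ∀ c ∈ Q, σ c i ≠ j) d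
    (fun i => (hrow i).le) (fun j => (hcol j).le)
  -- the symbols which are not in `Q`
  have hcardQ : Fintype.card {c // c ∉ Q} = d := by
    have h1 : Fintype.card {c // c ∉ Q} = (Qᶜ).card := by
      rw [Fintype.card_subtype]
      congr 1
      ext c
      simp
    rw [h1, card_compl, hcard, hd]
  let e : Fin d ≃ {c // c ∉ Q} := (Fintype.equivFinOfCardEq hcardQ).symm
  let L : ι → ι → κ := fun i j =>
    if h : ∀ c ∈ Q, σ c i ≠ j then e ⟨col i j, hcol1 i j h⟩
    else (by push Not at h; exact h : ∃ c ∈ Q, σ c i = j).choose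
  have hL1 : ∀ i j (h : ∀ c ∈ Q, σ c i ≠ j), L i j = e ⟨col i j, hcol1 i j h⟩ := by
    intro i j h
    simp only [L, dif_pos h]
  have hL2 : ∀ i j, (¬ ∀ c ∈ Q, σ c i ≠ j) → L i j ∈ Q ∧ σ (L i j) i = j := by
    intro i j h
    simp only [L, dif_neg h]
    exact (by push Not at h; exact h : ∃ c ∈ Q, σ c i = j).choose_spec
  refine ⟨L, ⟨?_, ?_⟩, ?_⟩
  · intro i j j' hjj
    by_cases h1 : ∀ c ∈ Q, σ c i ≠ j
    · by_cases h2 : ∀ c ∈ Q, σ c i ≠ j'
      · rw [hL1 i j h1, hL1 i j' h2] at hjj
        have h3 := e.injective (Subtype.ext hjj)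
        exact hcol2 i j j' h1 h2 (congrArg Fin.val h3)
      · exfalso
        have h3 := (hL2 i j' h2).1
        rw [← hjj, hL1 i j h1] at h3
        exact (e _).2 h3
    · by_cases h2 : ∀ c ∈ Q, σ c i ≠ j'
      · exfalso
        have h3 := (hL2 i j h1).1
        rw [hjj, hL1 i j' h2] at h3
        exact (e _).2 h3
      · rw [← (hL2 i j h1).2, ← (hL2 i j' h2).2, hjj]
  · intro j i i' hii
    have hii' : L i j = L i' j := hii
    by_cases h1 : ∀ c ∈ Q, σ c i ≠ j
    · by_cases h2 : ∀ c ∈ Q, σ c i' ≠ j
      · rw [hL1 i j h1, hL1 i' j h2] at hii'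
        have h3 := e.injective (Subtype.ext hii')
        exact hcol3 i i' j h1 h2 (congrArg Fin.val h3)
      · exfalso
        have h3 := (hL2 i' j h2).1
        rw [← hii', hL1 i j h1] at h3
        exact (e _).2 h3
    · by_cases h2 : ∀ c ∈ Q, σ c i' ≠ j
      · exfalso
        have h3 := (hL2 i j h1).1
        rw [hii', hL1 i' j h2] at h3
        exact (e _).2 h3
      · have h3 := hL2 i j h1
        have h4 := hL2 i' j h2
        rw [← hii'] at h4
        exact (hbij _ ((hQr _).1 h3.1)).1 (h3.2.trans h4.2.symm)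
  · intro l
    have hq : q l ∈ Q := (hQr _).2 ⟨l, rfl⟩
    have h1 : ¬ ∀ c ∈ Q, σ c l ≠ l := fun h => h _ hq (hfix l)
    have h2 := hL2 l l h1
    by_contra hne
    exact hdis _ ((hQr _).1 h2.1) _ ((hQr _).1 hq) hne l (h2.2.trans (hfix l).symm)

theorem dp_of_latin {ι κ : Type} [Fintype ι] [DecidableEq ι] [Fintype κ] [DecidableEq κ]
    (hcard : Fintype.card κ = Fintype.card ι) (q : ι → κ) (L : ι → ι → κ) (hL : IsLatin L)
    (hd : ∀ l, L l l = q l) : DP q := by
  have h1 : ∀ i, Function.Bijective (L i) := fun i =>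
    (Fintype.bijective_iff_injective_and_card _).2 ⟨hL.1 i, hcard.symm⟩
  have h2 : ∀ c i, ∃ j, L i j = c := fun c i => (h1 i).2 c
  choose σ hσ using h2
  refine ⟨σ, ?_, ?_, ?_⟩
  · intro c _
    rw [Fintype.bijective_iff_injective_and_card]
    refine ⟨?_, rfl⟩
    intro i i' hii
    apply hL.2 (σ c i)
    show L i (σ c i) = L i' (σ c i)
    rw [hσ c i, hii, hσ c i']
  · intro c _ c' _ hcc l hl
    apply hcc
    rw [← hσ c l, hl, hσ c' l]
  · intro l
    apply hL.1 l
    rw [hσ, hd]

/-- a permutation without fixed points -/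
theorem changPerm_derange {α : Type} [Fintype α] (h : 2 ≤ Fintype.card α) :
    ∃ f : Equiv.Perm α, ∀ x, f x ≠ x := by
  obtain ⟨n, hn⟩ : ∃ n, Fintype.card α = n + 2 := ⟨Fintype.card α - 2, by omega⟩
  let e : α ≃ Fin (n + 2) := Fintype.equivFinOfCardEq hn
  refine ⟨(e.trans (finRotate (n + 2))).trans e.symm, ?_⟩
  intro x hx
  have h1 : finRotate (n + 2) (e x) = e x := by
    apply e.symm.injective
    rw [e.symm_apply_apply]
    exact hx
  rw [finRotate_apply] at h1
  simp at h1

/-- Two symbols, both at least twice. -/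
theorem dp_two {ι κ : Type} [Fintype ι] [DecidableEq ι] [DecidableEq κ] (q : ι → κ) (c c' : κ)
    (hcc : c ≠ c') (hq : ∀ l, q l = c ∨ q l = c')
    (h1 : 2 ≤ (univ.filter fun l => q l = c).card)
    (h2 : 2 ≤ (univ.filter fun l => q l = c').card) : DP q := by
  obtain ⟨f, hf⟩ := changPerm_derange (α := {l // q l = c}) (by rwa [Fintype.card_subtype])
  obtain ⟨g, hg⟩ := changPerm_derange (α := {l // q l = c'}) (by rwa [Fintype.card_subtype])
  -- `ofSubtype f` moves exactly the elements of the class
  have hF : ∀ l, q l = c → Equiv.Perm.ofSubtype f l ≠ l := by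
    intro l hl h
    rw [Equiv.Perm.ofSubtype_apply_of_mem f hl] at h
    exact hf ⟨l, hl⟩ (Subtype.ext h)
  have hF' : ∀ l, q l ≠ c → Equiv.Perm.ofSubtype f l = l := fun l hl =>
    Equiv.Perm.ofSubtype_apply_of_not_mem f hl
  have hG : ∀ l, q l = c' → Equiv.Perm.ofSubtype g l ≠ l := by
    intro l hl h
    rw [Equiv.Perm.ofSubtype_apply_of_mem g hl] at h
    exact hg ⟨l, hl⟩ (Subtype.ext h)
  have hG' : ∀ l, q l ≠ c' → Equiv.Perm.ofSubtype g l = l := fun l hl =>
    Equiv.Perm.ofSubtype_apply_of_not_mem g hl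
  have hne : ∀ l, Equiv.Perm.ofSubtype f l ≠ Equiv.Perm.ofSubtype g l := by
    intro l h
    rcases hq l with hl | hl
    · rw [hG' l (by rw [hl]; exact hcc)] at h
      exact hF l hl h
    · rw [hF' l (by rw [hl]; exact hcc.symm)] at h
      exact hG l hl h.symm
  have hr : ∀ x ∈ Set.range q, x = c ∨ x = c' := by
    rintro _ ⟨l, rfl⟩
    exact hq l
  refine ⟨fun x => if x = c then Equiv.Perm.ofSubtype g else Equiv.Perm.ofSubtype f, ?_, ?_, ?_⟩
  · intro x _
    by_cases hx : x = c
    · simp only [hx, if_true]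
      exact (Equiv.Perm.ofSubtype g).bijective
    · simp only [hx, if_false]
      exact (Equiv.Perm.ofSubtype f).bijective
  · intro x hx y hy hxy l
    rcases hr x hx with rfl | rfl
    · rcases hr y hy with rfl | rfl
      · exact absurd rfl hxy
      · simp only [if_true, if_neg hcc.symm]
        exact (hne l).symm
    · rcases hr y hy with rfl | rfl
      · simp only [if_true, if_neg hcc.symm]
        exact hne l
      · exact absurd rfl hxy
  · intro l
    rcases hq l with hl | hl
    · simp only [hl, if_true]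
      exact hG' l (by rw [hl]; exact hcc)
    · simp only [hl, if_neg hcc.symm]
      exact hF' l (by rw [hl]; exact hcc.symm)

/-- arithmetic -/
theorem changPerm_arith {m t k n : ℕ} (h1 : t * m + k ≤ n + t) (h2 : 2 * k ≤ n + 1) (h3 : t ≤ k)
    (hm : 1 ≤ m) (ht : 1 ≤ t) : m + 2 * t ≤ n + 2 := by
  rcases Nat.lt_or_ge m 2 with h | h
  · omega
  · obtain ⟨m', rfl⟩ : ∃ m', m = m' + 2 := ⟨m - 2, by omega⟩
    obtain ⟨t', rfl⟩ : ∃ t', t = t' + 1 := ⟨t - 1, by omega⟩
    have h4 : (t' + 1) * (m' + 2) = t' * m' + 2 * t' + m' + 2 := by ring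
    rw [h4] at h1
    have h5 : 0 ≤ t' * m' := Nat.zero_le _
    omega

/-- The choice of the places `a c`. -/
theorem changPerm_choose {ι κ : Type} [Fintype ι] [DecidableEq ι] [DecidableEq κ] [Nonempty ι]
    (q : Option ι → κ) (σ : κ → ι → ι)
    (hbig : ∀ l, (univ.filter fun l' => q l' = q l).card ≤
      (univ.filter fun l' => q l' = q none).card)
    (hk : 2 * (univ.image q).card ≤ Fintype.card ι + 2)
    (hbij : ∀ c ∈ univ.image q, Function.Bijective (σ c))
    (hdis : ∀ c ∈ univ.image q, ∀ c' ∈ univ.image q, c ≠ c' → ∀ l, σ c l ≠ σ c' l)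
    (hfix : ∀ l, σ (q (some l)) l = l) :
    ∀ (t : ℕ) (C : Finset κ), C.card = t → C ⊆ (univ.image q).erase (q none) →
      ∃ a : κ → ι, (∀ c ∈ C, ∀ c' ∈ C, a c = a c' → c = c') ∧
        (∀ c ∈ C, ∀ c' ∈ C, σ c (a c) = σ c' (a c') → c = c') ∧ ∀ c ∈ C, σ c (a c) ≠ a c := by
  classical
  intro t
  induction t with
  | zero =>
    intro C hC _
    rw [card_eq_zero] at hC
    subst hC
    obtain ⟨i⟩ := (inferInstance : Nonempty ι)
    exact ⟨fun _ => i, by simp, by simp, by simp⟩
  | succ t ih =>
    intro C hC hCs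
    have hne : C.Nonempty := by
      rw [← card_pos]
      omega
    obtain ⟨c, hc, hcmin⟩ := exists_min_image C (fun c => (univ.filter fun l' => q l' = c).card) hne
    obtain ⟨a, ha1, ha2, ha3⟩ := ih (C.erase c) (by rw [card_erase_of_mem hc, hC]; rfl)
      ((erase_subset _ _).trans hCs)
    have hcQ : c ∈ univ.image q := mem_of_mem_erase (hCs hc)
    have hc0 : c ≠ q none := ne_of_mem_erase (hCs hc)
    -- the size of the class of `c`
    obtain ⟨m, hm⟩ : ∃ m, m = (univ.filter fun l' => q l' = c).card := ⟨_, rfl⟩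
    have hm1 : 1 ≤ m := by
      obtain ⟨l, -, hl⟩ := mem_image.1 hcQ
      rw [hm, Nat.one_le_iff_ne_zero, ← Nat.pos_iff_ne_zero, card_pos]
      exact ⟨l, by simp [hl]⟩
    obtain ⟨T, hT⟩ : ∃ T, T = insert (q none) C := ⟨_, rfl⟩
    have h0C : q none ∉ C := fun h => (ne_of_mem_erase (hCs h)) rfl
    have hTcard : T.card = t + 2 := by
      rw [hT, card_insert_of_notMem h0C, hC]
    have hTQ : T ⊆ univ.image q := by
      rw [hT]
      intro x hx
      rcases mem_insert.1 hx with rfl | hx
      · exact mem_image_of_mem _ (mem_univ _)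
      · exact mem_of_mem_erase (hCs hx)
    have hTm : ∀ x ∈ T, m ≤ (univ.filter fun l' => q l' = x).card := by
      rw [hT]
      intro x hx
      rcases mem_insert.1 hx with rfl | hx
      · obtain ⟨l, -, hl⟩ := mem_image.1 hcQ
        rw [hm, ← hl]
        exact hbig l
      · rw [hm]
        exact hcmin x hx
    have hsum : Fintype.card ι + 1 = ∑ x ∈ univ.image q, (univ.filter fun l' => q l' = x).card := by
      rw [← card_eq_sum_card_image q univ]
      simp
    have hsplit : (t + 2) * m + (univ.image q).card ≤ (Fintype.card ι + 1) + (t + 2) := by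
      rw [hsum, ← sum_sdiff hTQ]
      have h1 : (t + 2) * m ≤ ∑ x ∈ T, (univ.filter fun l' => q l' = x).card := by
        rw [← hTcard, ← smul_eq_mul]
        exact card_nsmul_le_sum _ _ _ hTm
      have h2 : (univ.image q \ T).card ≤
          ∑ x ∈ univ.image q \ T, (univ.filter fun l' => q l' = x).card := by
        rw [card_eq_sum_ones]
        refine sum_le_sum fun x hx => ?_
        obtain ⟨l, -, hl⟩ := mem_image.1 (mem_sdiff.1 hx).1
        rw [Nat.one_le_iff_ne_zero, ← Nat.pos_iff_ne_zero, card_pos]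
        exact ⟨l, by simp [hl]⟩
      have h3 := card_sdiff_add_card_eq_card hTQ
      omega
    have hkey := changPerm_arith (m := m) (t := t + 2) (k := (univ.image q).card)
      (n := Fintype.card ι + 1) hsplit (by omega) (by rw [← hTcard]; exact card_le_card hTQ) hm1
      (by omega)
    -- the places to be avoided
    let inv : ι → ι := fun y => ((hbij c hcQ).2 y).choose
    have hinv : ∀ y, σ c (inv y) = y := fun y => ((hbij c hcQ).2 y).choose_spec
    let bad : Finset ι := (univ.filter fun l => q (some l) = c) ∪ ((C.erase c).image a ∪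
      (C.erase c).image fun x => inv (σ x (a x)))
    have hclass : (univ.filter fun l : ι => q (some l) = c).card ≤ m := by
      rw [hm, ← card_map ⟨(some : ι → Option ι), Option.some_injective ι⟩]
      refine card_le_card fun x hx => ?_
      obtain ⟨l, hl, rfl⟩ := mem_map.1 hx
      simpa using hl
    have hbad : bad.card < Fintype.card ι := by
      have h1 : ((C.erase c).image a).card ≤ t := by
        refine card_image_le.trans ?_
        rw [card_erase_of_mem hc, hC]
        rfl
      have h2 : ((C.erase c).image fun x => inv (σ x (a x))).card ≤ t := by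
        refine card_image_le.trans ?_
        rw [card_erase_of_mem hc, hC]
        rfl
      have h3 : bad.card ≤ m + (t + t) :=
        (card_union_le _ _).trans (Nat.add_le_add hclass ((card_union_le _ _).trans
          (Nat.add_le_add h1 h2)))
      omega
    obtain ⟨x, hx⟩ : ∃ x, x ∉ bad := by
      by_contra hcon
      push Not at hcon
      have h1 : bad = univ := eq_univ_iff_forall.2 hcon
      rw [h1, card_univ] at hbad
      exact lt_irrefl _ hbad
    have hx1 : q (some x) ≠ c := fun h => hx (mem_union_left _ (by simp [h]))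
    have hx2 : ∀ y ∈ C.erase c, a y ≠ x := fun y hy h =>
      hx (mem_union_right _ (mem_union_left _ (mem_image.2 ⟨y, hy, h⟩)))
    have hx3 : ∀ y ∈ C.erase c, σ y (a y) ≠ σ c x := by
      intro y hy h
      apply hx
      refine mem_union_right _ (mem_union_right _ (mem_image.2 ⟨y, hy, ?_⟩))
      apply (hbij c hcQ).1
      rw [hinv, h]
    refine ⟨Function.update a c x, ?_, ?_, ?_⟩
    · intro y hy z hz h
      by_cases hyc : y = c
      · by_cases hzc : z = c
        · rw [hyc, hzc]
        · rw [hyc, Function.update_self, Function.update_of_ne hzc] at h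
          exact absurd h.symm (hx2 z (mem_erase.2 ⟨hzc, hz⟩))
      · by_cases hzc : z = c
        · rw [hzc, Function.update_self, Function.update_of_ne hyc] at h
          exact absurd h (hx2 y (mem_erase.2 ⟨hyc, hy⟩))
        · rw [Function.update_of_ne hyc, Function.update_of_ne hzc] at h
          exact ha1 y (mem_erase.2 ⟨hyc, hy⟩) z (mem_erase.2 ⟨hzc, hz⟩) h
    · intro y hy z hz h
      by_cases hyc : y = c
      · by_cases hzc : z = c
        · rw [hyc, hzc]
        · rw [hyc, Function.update_self, Function.update_of_ne hzc] at h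
          exact absurd h.symm (hx3 z (mem_erase.2 ⟨hzc, hz⟩))
      · by_cases hzc : z = c
        · rw [hzc, Function.update_self, Function.update_of_ne hyc] at h
          exact absurd h (hx3 y (mem_erase.2 ⟨hyc, hy⟩))
        · rw [Function.update_of_ne hyc, Function.update_of_ne hzc] at h
          exact ha2 y (mem_erase.2 ⟨hyc, hy⟩) z (mem_erase.2 ⟨hzc, hz⟩) h
    · intro y hy h
      by_cases hyc : y = c
      · rw [hyc, Function.update_self] at h
        exact hdis c hcQ (q (some x)) (mem_image_of_mem _ (mem_univ _)) hx1.symm x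
          (h.trans (hfix x).symm)
      · rw [Function.update_of_ne hyc] at h
        exact ha3 y (mem_erase.2 ⟨hyc, hy⟩) h

/-- Adding an index `none` to the largest class. -/
theorem dp_add {ι κ : Type} [Fintype ι] [DecidableEq ι] [DecidableEq κ] (q : Option ι → κ)
    (hmem : ∃ l, q (some l) = q none)
    (hbig : ∀ l, (univ.filter fun l' => q l' = q l).card ≤
      (univ.filter fun l' => q l' = q none).card)
    (hk : 2 * (univ.image q).card ≤ Fintype.card ι + 2)
    (h : DP (fun l => q (some l))) : DP q := by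
  classical
  obtain ⟨σ, hbij, hdis, hfix⟩ := h
  obtain ⟨l0, hl0⟩ := hmem
  have hne : Nonempty ι := ⟨l0⟩
  have hr : ∀ c, c ∈ Set.range q → c ∈ Set.range fun l => q (some l) := by
    rintro _ ⟨(_ | l), rfl⟩
    · exact ⟨l0, hl0⟩
    · exact ⟨l, rfl⟩
  have hr' : ∀ c, c ∈ univ.image q → c ∈ Set.range q := by
    intro c hc
    simpa using hc
  obtain ⟨a, ha1, ha2, ha3⟩ := changPerm_choose q σ hbig hk (fun c hc => hbij c (hr c (hr' c hc)))
    (fun c hc c' hc' => hdis c (hr c (hr' c hc)) c' (hr c' (hr' c' hc'))) hfix _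
    ((univ.image q).erase (q none)) rfl (Subset.refl _)
  have hC : ∀ c ∈ Set.range q, c ≠ q none → c ∈ (univ.image q).erase (q none) := by
    intro c hc hne
    refine mem_erase.2 ⟨hne, ?_⟩
    simpa using hc
  let τ : κ → Option ι → Option ι := fun c l =>
    if c = q none then l.map (σ c) else
      match l with
      | none => some (σ c (a c))
      | some i => if i = a c then none else some (σ c i)
  have τ0 : ∀ l, τ (q none) l = l.map (σ (q none)) := fun l => by simp only [τ, if_true]
  have τn : ∀ c, c ≠ q none → τ c none = some (σ c (a c)) := fun c hc => by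
    simp only [τ, if_neg hc]
  have τs : ∀ c, c ≠ q none → ∀ i, τ c (some i) = if i = a c then none else some (σ c i) :=
    fun c hc i => by simp only [τ, if_neg hc]
  refine ⟨τ, ?_, ?_, ?_⟩
  · intro c hc
    rw [Fintype.bijective_iff_injective_and_card]
    refine ⟨?_, rfl⟩
    have hinj := (hbij c (hr c hc)).1
    by_cases hc0 : c = q none
    · intro l l' hl
      subst hc0
      rw [τ0, τ0] at hl
      exact Option.map_injective hinj hl
    · rintro (_ | i) (_ | i') hl
      · rfl
      · exfalso
        rw [τn c hc0, τs c hc0] at hl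
        split_ifs at hl with h1
        exact h1 (hinj (Option.some.inj hl)).symm
      · exfalso
        rw [τn c hc0, τs c hc0] at hl
        split_ifs at hl with h1
        exact h1 (hinj (Option.some.inj hl))
      · rw [τs c hc0, τs c hc0] at hl
        split_ifs at hl with h1 h2 h2
        · rw [h1, h2]
        · rw [hinj (Option.some.inj hl)]
  · intro c hc c' hc' hcc l hl
    have hd := hdis c (hr c hc) c' (hr c' hc') hcc
    by_cases hc0 : c = q none
    · have hc0' : c' ≠ q none := fun h => hcc (hc0.trans h.symm)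
      rcases l with _ | i
      · rw [hc0, τ0, τn c' hc0'] at hl
        simp at hl
      · rw [hc0, τ0, τs c' hc0'] at hl
        split_ifs at hl with h1
        · simp at hl
        · rw [← hc0] at hl
          exact hd i (Option.some.inj hl)
    · by_cases hc0' : c' = q none
      · rcases l with _ | i
        · rw [hc0', τ0, τn c hc0] at hl
          simp at hl
        · rw [hc0', τ0, τs c hc0] at hl
          split_ifs at hl with h1
          · simp at hl
          · rw [← hc0'] at hl
            exact hd i (Option.some.inj hl)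
      · rcases l with _ | i
        · rw [τn c hc0, τn c' hc0'] at hl
          exact hcc (ha2 c (hC c hc hc0) c' (hC c' hc' hc0') (Option.some.inj hl))
        · rw [τs c hc0, τs c' hc0'] at hl
          split_ifs at hl with h1 h2 h2
          · exact hcc (ha1 c (hC c hc hc0) c' (hC c' hc' hc0') (h1.symm.trans h2))
          · exact hd i (Option.some.inj hl)
  · rintro (_ | i)
    · rw [τ0]
      rfl
    · by_cases hc0 : q (some i) = q none
      · rw [hc0, τ0, Option.map_some, ← hc0, hfix i]
      · rw [τs _ hc0, if_neg, hfix i]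
        intro h1
        have h2 := ha3 _ (hC _ ⟨some i, rfl⟩ hc0)
        rw [← h1] at h2
        exact h2 (hfix i)

/-- The same on any index set. -/
theorem dp_add' {ι κ : Type} [Fintype ι] [DecidableEq ι] [DecidableEq κ] (q : ι → κ) (m : ι)
    (hmem : ∃ l, l ≠ m ∧ q l = q m)
    (hbig : ∀ l, (univ.filter fun l' => q l' = q l).card ≤
      (univ.filter fun l' => q l' = q m).card)
    (hk : 2 * (univ.image q).card ≤ Fintype.card ι + 1)
    (h : DP (fun l : {l // l ≠ m} => q l)) : DP q := by
  classical
  let e : Option {l // l ≠ m} ≃ ι := Equiv.optionSubtypeNe m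
  have he0 : e none = m := by simp [e]
  have hes : ∀ l : {l // l ≠ m}, e (some l) = l := fun l => by simp [e]
  have hcard : ∀ c, (univ.filter fun l' => q (e l') = c).card =
      (univ.filter fun l' => q l' = c).card := by
    intro c
    rw [← card_map e.toEmbedding]
    congr 1
    ext l
    simp only [mem_map, mem_filter, mem_univ, true_and, Equiv.coe_toEmbedding]
    constructor
    · rintro ⟨x, hx, rfl⟩
      exact hx
    · intro hl
      exact ⟨e.symm l, by simpa using hl, by simp⟩
  have himg : (univ.image fun l => q (e l)) = univ.image q := by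
    ext c
    simp only [mem_image, mem_univ, true_and]
    constructor
    · rintro ⟨l, hl⟩
      exact ⟨e l, hl⟩
    · rintro ⟨l, hl⟩
      exact ⟨e.symm l, by simpa using hl⟩
  have hc1 : Fintype.card ι = Fintype.card {l // l ≠ m} + 1 := by
    rw [← Fintype.card_congr e, Fintype.card_option]
  obtain ⟨τ, h1, h2, h3⟩ := dp_add (fun l => q (e l)) (by
      obtain ⟨l, hl, hl'⟩ := hmem
      exact ⟨⟨l, hl⟩, by rw [hes, he0]; exact hl'⟩)
    (by
      intro l
      rw [hcard, hcard, he0]
      exact hbig _)
    (by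
      rw [himg]
      omega)
    (by
      have h4 : (fun l : {l // l ≠ m} => q (e (some l))) = fun l : {l // l ≠ m} => q l := by
        funext l
        rw [hes]
      rw [h4]
      exact h)
  have hr : ∀ c, c ∈ Set.range q → c ∈ Set.range fun l => q (e l) := by
    rintro _ ⟨l, rfl⟩
    exact ⟨e.symm l, by simp⟩
  refine ⟨fun c l => e (τ c (e.symm l)), ?_, ?_, ?_⟩
  · intro c hc
    exact e.bijective.comp ((h1 c (hr c hc)).comp e.symm.bijective)
  · intro c hc c' hc' hcc l hl
    exact h2 c (hr c hc) c' (hr c' hc') hcc _ (e.injective hl)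
  · intro l
    have h4 := h3 (e.symm l)
    simp only [Equiv.apply_symm_apply] at h4
    show e (τ (q l) (e.symm l)) = l
    rw [h4, Equiv.apply_symm_apply]

end W3a
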