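import Pool.Agent.W_MP_3a8340_co.ArrTools

open Finset

namespace W3a

variable {ι : Type} [Fintype ι] [DecidableEq ι]

/-- Extension of a partial relabelling to a bijection. -/
private theorem exc5_relabel {κ : Type} [Fintype κ] [DecidableEq κ]
    (hκ : Fintype.card κ = 5) (p : Fin 5 → Fin 5) (Q : Fin 5 → κ)
    (h : ∀ x y, Q x = Q y ↔ p x = p y) : ∃ g : Fin 5 → κ, Function.Injective g ∧
      ∀ x, g (p x) = Q x := by
  classical
  let f : Fin 5 → κ := fun c => if h : ∃ x, p x = c then Q h.choose else Q 0
  have hf : ∀ x, f (p x) = Q x := by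
    intro x
    have hx : ∃ y, p y = p x := ⟨x, rfl⟩
    have : f (p x) = Q hx.choose := dif_pos hx
    rw [this]
    exact (h _ _).2 hx.choose_spec
  have hinj : Set.InjOn f ((univ : Finset (Fin 5)).image p : Finset (Fin 5)) := by
    intro c hc c' hc' hcc
    simp only [coe_image, coe_univ, Set.image_univ, Set.mem_range] at hc hc'
    obtain ⟨x, rfl⟩ := hc
    obtain ⟨y, rfl⟩ := hc'
    rw [hf, hf] at hcc
    exact (h x y).1 hcc
  obtain ⟨g, hg⟩ := Finset.exists_equiv_extend_of_card_eq (α := Fin 5) (t := (univ : Finset κ))
    (by simp [hκ]) (s := (univ : Finset (Fin 5)).image p) (f := f) (subset_univ _) hinj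
  refine ⟨fun c => (g c : κ), ?_, ?_⟩
  · intro a b hab
    exact g.injective (Subtype.ext hab)
  · intro x
    have := hg (p x) (mem_image_of_mem p (mem_univ x))
    simp only [this, hf]

/-- The check of a table. -/
private def exc5Ok (p : Fin 5 → Fin 5) (T : Fin 5 → Fin 5 → Fin 5) : Prop :=
  (∀ i j j', T i j = T i j' → j = j') ∧ (∀ j i i', T i j = T i' j → i = i') ∧
    (∀ l, T l l = p l) ∧ T 0 1 = 0 ∧ T 1 2 = 0 ∧ T 2 3 = 0 ∧ T 3 0 = 0 ∧ p 4 = 0

private instance (p : Fin 5 → Fin 5) (T : Fin 5 → Fin 5 → Fin 5) : Decidable (exc5Ok p T) := by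
  unfold exc5Ok
  infer_instance

private theorem exc5_use {κ : Type} [Fintype κ] [DecidableEq κ]
    (hκ : Fintype.card κ = 5) (q : ι → κ) (e : Fin 5 ≃ ι) (p : Fin 5 → Fin 5)
    (T : Fin 5 → Fin 5 → Fin 5) (hT : exc5Ok p T)
    (h : ∀ x y, q (e x) = q (e y) ↔ p x = p y) :
    ∃ L : ι → ι → κ, IsLatin L ∧ (∀ l, L l l = q l) ∧ L (e 0) (e 1) = q (e 4) ∧
      L (e 1) (e 2) = q (e 4) ∧ L (e 2) (e 3) = q (e 4) ∧ L (e 3) (e 0) = q (e 4) := by
  obtain ⟨g, hg, hgp⟩ := exc5_relabel hκ p (fun x => q (e x)) h
  obtain ⟨h1, h2, h3, h4, h5, h6, h7, h8⟩ := hT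
  have h0 : g 0 = q (e 4) := by rw [← h8, hgp]
  refine ⟨fun a b => g (T (e.symm a) (e.symm b)), ⟨?_, ?_⟩, ?_, ?_, ?_, ?_, ?_⟩
  · intro a b b' hb
    exact e.symm.injective (h1 _ _ _ (hg hb))
  · intro a b b' hb
    exact e.symm.injective (h2 _ _ _ (hg hb))
  · intro l
    simp only [h3, hgp, Equiv.apply_symm_apply]
  · simp only [Equiv.symm_apply_apply, h4, h0]
  · simp only [Equiv.symm_apply_apply, h5, h0]
  · simp only [Equiv.symm_apply_apply, h6, h0]
  · simp only [Equiv.symm_apply_apply, h7, h0]

/-- Latin squares of order 5 with a prescribed diagonal and a prescribed symbol `z`. -/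
theorem chang_exc5 {κ : Type} [Fintype κ] [DecidableEq κ] (h5 : Fintype.card ι = 5)
    (hκ : Fintype.card κ = 5) (z : κ) (q : ι → κ) (i u k k' j : ι)
    (hall : ∀ l, l = i ∨ l = u ∨ l = k ∨ l = k' ∨ l = j)
    (hj : q j = z) (hi : q i ≠ z) (hu : q u ≠ z) (hk : q k ≠ z) (hk' : q k' ≠ z)
    (hne : ¬ (q u = q i ∧ q k = q i ∧ q k' = q i)) :
    ∃ L : ι → ι → κ, IsLatin L ∧ (∀ l, L l l = q l) ∧ L i u = z ∧ L u k = z ∧ L k k' = z ∧
      L k' i = z := by
  let ef : Fin 5 → ι := ![i, u, k, k', j]
  have hsurj : Function.Surjective ef := by
    intro l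
    rcases hall l with h | h | h | h | h
    · exact ⟨0, h.symm⟩
    · exact ⟨1, h.symm⟩
    · exact ⟨2, h.symm⟩
    · exact ⟨3, h.symm⟩
    · exact ⟨4, h.symm⟩
  have hbij : Function.Bijective ef :=
    (Fintype.bijective_iff_surjective_and_card _).2 ⟨hsurj, by simp [h5]⟩
  let e : Fin 5 ≃ ι := Equiv.ofBijective ef hbij
  have e0 : e 0 = i := rfl
  have e1 : e 1 = u := rfl
  have e2 : e 2 = k := rfl
  have e3 : e 3 = k' := rfl
  have e4 : e 4 = j := rfl
  have key : ∀ (p : Fin 5 → Fin 5) (T : Fin 5 → Fin 5 → Fin 5), exc5Ok p T →
      (∀ x y, q (e x) = q (e y) ↔ p x = p y) →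
      ∃ L : ι → ι → κ, IsLatin L ∧ (∀ l, L l l = q l) ∧ L i u = z ∧ L u k = z ∧ L k k' = z ∧
      L k' i = z := by
    intro p T hT h
    have := exc5_use hκ q e p T hT h
    rw [e0, e1, e2, e3, e4, hj] at this
    exact this
  have ker : ∀ (p : Fin 5 → Fin 5), p 4 = 0 → p 0 ≠ 0 → p 1 ≠ 0 → p 2 ≠ 0 → p 3 ≠ 0 →
      (q i = q u ↔ p 0 = p 1) → (q i = q k ↔ p 0 = p 2) → (q i = q k' ↔ p 0 = p 3) →
      (q u = q k ↔ p 1 = p 2) → (q u = q k' ↔ p 1 = p 3) → (q k = q k' ↔ p 2 = p 3) →
      (∀ x y, q (e x) = q (e y) ↔ p x = p y) := by
    intro p p4 p0 p1 p2 p3 h01 h02 h03 h12 h13 h23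
    have hlt : ∀ x y, x < y → (q (e x) = q (e y) ↔ p x = p y) := by
      intro x y hxy
      fin_cases x <;> fin_cases y <;> first
        | (exfalso; revert hxy; decide)
        | exact h01
        | exact h02
        | exact h03
        | exact h12
        | exact h13
        | exact h23
        | exact ⟨fun h => absurd (h.trans hj) hi, fun h => absurd (h.trans p4) p0⟩
        | exact ⟨fun h => absurd (h.trans hj) hu, fun h => absurd (h.trans p4) p1⟩
        | exact ⟨fun h => absurd (h.trans hj) hk, fun h => absurd (h.trans p4) p2⟩
        | exact ⟨fun h => absurd (h.trans hj) hk', fun h => absurd (h.trans p4) p3⟩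
    intro x y
    rcases lt_trichotomy x y with h | h | h
    · exact hlt x y h
    · subst h
      simp
    · rw [eq_comm, hlt y x h, eq_comm]
  by_cases a : q i = q u
  · by_cases b : q i = q k
    · -- 1112
      have c : q i ≠ q k' := fun h => hne ⟨a.symm, b.symm, h.symm⟩
      have b1 : q u = q k := a.symm.trans b
      have b2 : q u ≠ q k' := fun h => c (a.trans h)
      have b3 : q k ≠ q k' := fun h => c (b.trans h)
      refine key ![1, 1, 1, 2, 0] ![![1,0,2,3,4], ![2,1,0,4,3], ![3,4,1,0,2], ![0,3,4,2,1],
        ![4,2,3,1,0]] (by decide) (ker _ rfl (by decide) (by decide) (by decide) (by decide)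
        ?_ ?_ ?_ ?_ ?_ ?_)
      · exact iff_of_true a (by decide)
      · exact iff_of_true b (by decide)
      · exact iff_of_false c (by decide)
      · exact iff_of_true b1 (by decide)
      · exact iff_of_false b2 (by decide)
      · exact iff_of_false b3 (by decide)
    · have b1 : q u ≠ q k := fun h => b (a.trans h)
      by_cases c : q i = q k'
      · -- 1121
        have b2 : q u = q k' := a.symm.trans c
        have b3 : q k ≠ q k' := fun h => b (c.trans h.symm)
        refine key ![1, 1, 2, 1, 0] ![![1,0,3,2,4], ![4,1,0,3,2], ![3,4,2,0,1], ![0,2,4,1,3],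
          ![2,3,1,4,0]] (by decide) (ker _ rfl (by decide) (by decide) (by decide) (by decide)
          ?_ ?_ ?_ ?_ ?_ ?_)
        · exact iff_of_true a (by decide)
        · exact iff_of_false b (by decide)
        · exact iff_of_true c (by decide)
        · exact iff_of_false b1 (by decide)
        · exact iff_of_true b2 (by decide)
        · exact iff_of_false b3 (by decide)
      · have b2 : q u ≠ q k' := fun h => c (a.trans h)
        by_cases d : q k = q k'
        · -- 1122
          refine key ![1, 1, 2, 2, 0] ![![1,0,3,4,2], ![2,1,0,3,4], ![4,3,2,0,1], ![0,4,1,2,3],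
            ![3,2,4,1,0]] (by decide) (ker _ rfl (by decide) (by decide) (by decide) (by decide)
            ?_ ?_ ?_ ?_ ?_ ?_)
          · exact iff_of_true a (by decide)
          · exact iff_of_false b (by decide)
          · exact iff_of_false c (by decide)
          · exact iff_of_false b1 (by decide)
          · exact iff_of_false b2 (by decide)
          · exact iff_of_true d (by decide)
        · -- 1123
          refine key ![1, 1, 2, 3, 0] ![![1,0,3,2,4], ![2,1,0,4,3], ![4,3,2,0,1], ![0,4,1,3,2],
            ![3,2,4,1,0]] (by decide) (ker _ rfl (by decide) (by decide) (by decide) (by decide)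
            ?_ ?_ ?_ ?_ ?_ ?_)
          · exact iff_of_true a (by decide)
          · exact iff_of_false b (by decide)
          · exact iff_of_false c (by decide)
          · exact iff_of_false b1 (by decide)
          · exact iff_of_false b2 (by decide)
          · exact iff_of_false d (by decide)
  · by_cases b : q i = q k
    · have b1 : q u ≠ q k := fun h => a (b.trans h.symm)
      by_cases c : q i = q k'
      · -- 1211
        have b2 : q u ≠ q k' := fun h => a (c.trans h.symm)
        have b3 : q k = q k' := b.symm.trans c
        refine key ![1, 2, 1, 1, 0] ![![1,0,3,2,4], ![3,2,0,4,1], ![2,4,1,0,3], ![0,3,4,1,2],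
          ![4,1,2,3,0]] (by decide) (ker _ rfl (by decide) (by decide) (by decide) (by decide)
          ?_ ?_ ?_ ?_ ?_ ?_)
        · exact iff_of_false a (by decide)
        · exact iff_of_true b (by decide)
        · exact iff_of_true c (by decide)
        · exact iff_of_false b1 (by decide)
        · exact iff_of_false b2 (by decide)
        · exact iff_of_true b3 (by decide)
      · have b3 : q k ≠ q k' := fun h => c (b.trans h)
        by_cases d : q u = q k'
        · -- 1212
          refine key ![1, 2, 1, 2, 0] ![![1,0,2,3,4], ![3,2,0,4,1], ![4,3,1,0,2], ![0,1,4,2,3],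
            ![2,4,3,1,0]] (by decide) (ker _ rfl (by decide) (by decide) (by decide) (by decide)
            ?_ ?_ ?_ ?_ ?_ ?_)
          · exact iff_of_false a (by decide)
          · exact iff_of_true b (by decide)
          · exact iff_of_false c (by decide)
          · exact iff_of_false b1 (by decide)
          · exact iff_of_true d (by decide)
          · exact iff_of_false b3 (by decide)
        · -- 1213
          refine key ![1, 2, 1, 3, 0] ![![1,0,3,2,4], ![3,2,0,4,1], ![2,4,1,0,3], ![0,1,4,3,2],
            ![4,3,2,1,0]] (by decide) (ker _ rfl (by decide) (by decide) (by decide) (by decide)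
            ?_ ?_ ?_ ?_ ?_ ?_)
          · exact iff_of_false a (by decide)
          · exact iff_of_true b (by decide)
          · exact iff_of_false c (by decide)
          · exact iff_of_false b1 (by decide)
          · exact iff_of_false d (by decide)
          · exact iff_of_false b3 (by decide)
    · by_cases b1 : q u = q k
      · by_cases c : q i = q k'
        · -- 1221
          have b2 : q u ≠ q k' := fun h => a (c.trans h.symm)
          have b3 : q k ≠ q k' := fun h => b (c.trans h.symm)
          refine key ![1, 2, 2, 1, 0] ![![1,0,3,2,4], ![3,2,0,4,1], ![4,1,2,0,3], ![0,3,4,1,2],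
            ![2,4,1,3,0]] (by decide) (ker _ rfl (by decide) (by decide) (by decide) (by decide)
            ?_ ?_ ?_ ?_ ?_ ?_)
          · exact iff_of_false a (by decide)
          · exact iff_of_false b (by decide)
          · exact iff_of_true c (by decide)
          · exact iff_of_true b1 (by decide)
          · exact iff_of_false b2 (by decide)
          · exact iff_of_false b3 (by decide)
        · by_cases d : q u = q k'
          · -- 1222
            have b3 : q k = q k' := b1.symm.trans d
            refine key ![1, 2, 2, 2, 0] ![![1,0,3,4,2], ![3,2,0,1,4], ![4,1,2,0,3],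
              ![0,3,4,2,1], ![2,4,1,3,0]] (by decide) (ker _ rfl (by decide) (by decide)
              (by decide) (by decide) ?_ ?_ ?_ ?_ ?_ ?_)
            · exact iff_of_false a (by decide)
            · exact iff_of_false b (by decide)
            · exact iff_of_false c (by decide)
            · exact iff_of_true b1 (by decide)
            · exact iff_of_true d (by decide)
            · exact iff_of_true b3 (by decide)
          · -- 1223
            have b3 : q k ≠ q k' := fun h => d (b1.trans h)
            refine key ![1, 2, 2, 3, 0] ![![1,0,3,2,4], ![3,2,0,4,1], ![4,1,2,0,3],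
              ![0,4,1,3,2], ![2,3,4,1,0]] (by decide) (ker _ rfl (by decide) (by decide)
              (by decide) (by decide) ?_ ?_ ?_ ?_ ?_ ?_)
            · exact iff_of_false a (by decide)
            · exact iff_of_false b (by decide)
            · exact iff_of_false c (by decide)
            · exact iff_of_true b1 (by decide)
            · exact iff_of_false d (by decide)
            · exact iff_of_false b3 (by decide)
      · by_cases c : q i = q k'
        · -- 1231
          have b2 : q u ≠ q k' := fun h => a (c.trans h.symm)
          have b3 : q k ≠ q k' := fun h => b (c.trans h.symm)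
          refine key ![1, 2, 3, 1, 0] ![![1,0,2,4,3], ![4,2,0,3,1], ![2,1,3,0,4], ![0,3,4,1,2],
            ![3,4,1,2,0]] (by decide) (ker _ rfl (by decide) (by decide) (by decide) (by decide)
            ?_ ?_ ?_ ?_ ?_ ?_)
          · exact iff_of_false a (by decide)
          · exact iff_of_false b (by decide)
          · exact iff_of_true c (by decide)
          · exact iff_of_false b1 (by decide)
          · exact iff_of_false b2 (by decide)
          · exact iff_of_false b3 (by decide)
        · by_cases d : q u = q k'
          · -- 1232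
            have b3 : q k ≠ q k' := fun h => b1 (d.trans h.symm)
            refine key ![1, 2, 3, 2, 0] ![![1,0,2,3,4], ![3,2,0,4,1], ![4,1,3,0,2],
              ![0,4,1,2,3], ![2,3,4,1,0]] (by decide) (ker _ rfl (by decide) (by decide)
              (by decide) (by decide) ?_ ?_ ?_ ?_ ?_ ?_)
            · exact iff_of_false a (by decide)
            · exact iff_of_false b (by decide)
            · exact iff_of_false c (by decide)
            · exact iff_of_false b1 (by decide)
            · exact iff_of_true d (by decide)
            · exact iff_of_false b3 (by decide)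
          · by_cases f : q k = q k'
            · -- 1233
              refine key ![1, 2, 3, 3, 0] ![![1,0,2,4,3], ![3,2,0,1,4], ![2,4,3,0,1],
                ![0,1,4,3,2], ![4,3,1,2,0]] (by decide) (ker _ rfl (by decide) (by decide)
                (by decide) (by decide) ?_ ?_ ?_ ?_ ?_ ?_)
              · exact iff_of_false a (by decide)
              · exact iff_of_false b (by decide)
              · exact iff_of_false c (by decide)
              · exact iff_of_false b1 (by decide)
              · exact iff_of_false d (by decide)
              · exact iff_of_true f (by decide)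
            · -- 1234
              refine key ![1, 2, 3, 4, 0] ![![1,0,2,3,4], ![4,2,0,1,3], ![2,4,3,0,1],
                ![0,3,1,4,2], ![3,1,4,2,0]] (by decide) (ker _ rfl (by decide) (by decide)
                (by decide) (by decide) ?_ ?_ ?_ ?_ ?_ ?_)
              · exact iff_of_false a (by decide)
              · exact iff_of_false b (by decide)
              · exact iff_of_false c (by decide)
              · exact iff_of_false b1 (by decide)
              · exact iff_of_false d (by decide)
              · exact iff_of_false f (by decide)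

end W3a
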