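import Pool.Agent.W_MP_3a8340_co.ArrTools
import Pool.Agent.W_MP_3a8340_co.Dec

open Finset

namespace W3a

set_option linter.unusedSectionVars false

section StarTransport

variable {ι R κ Q : Type} [Fintype ι] [DecidableEq ι] [DecidableEq R]
  [Fintype κ] [DecidableEq κ] [DecidableEq Q]

/-- Relabelling of rows and real colours. -/
def CLab.starTr (e : ι ≃ κ) (g : R ≃ Q) : CLab ι R → CLab κ Q
  | .real q => .real (g q)
  | .pen => .pen
  | .item S t => .item (S.map e.toEmbedding) (t.map e)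

theorem CLab.starTr_inj (e : ι ≃ κ) (g : R ≃ Q) : Function.Injective (CLab.starTr e g) := by
  intro a b h
  cases a with
  | real q =>
    cases b with
    | real q' =>
      simp only [CLab.starTr, CLab.real.injEq] at h
      rw [g.injective h]
    | pen => simp [CLab.starTr] at h
    | item S t => simp [CLab.starTr] at h
  | pen =>
    cases b with
    | real q' => simp [CLab.starTr] at h
    | pen => rfl
    | item S t => simp [CLab.starTr] at h
  | item S t =>
    cases b with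
    | real q' => simp [CLab.starTr] at h
    | pen => simp [CLab.starTr] at h
    | item S' t' =>
      simp only [CLab.starTr, CLab.item.injEq] at h
      have h1 := Finset.map_injective _ h.1
      have h2 := Option.map_injective e.injective h.2
      rw [h1, h2]

theorem star_tr_real (e : ι ≃ κ) (g : R ≃ Q) (c : CLab κ Q) (q : R) :
    c.starTr e.symm g.symm = .real q ↔ c = .real (g q) := by
  cases c with
  | real q' =>
    simp only [CLab.starTr, CLab.real.injEq]
    exact Equiv.symm_apply_eq g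
  | pen => simp [CLab.starTr]
  | item S t => simp [CLab.starTr]

theorem star_tr_pen (e : ι ≃ κ) (g : R ≃ Q) (c : CLab κ Q) :
    c.starTr e.symm g.symm = .pen ↔ c = .pen := by
  cases c with
  | real q' => simp [CLab.starTr]
  | pen => simp [CLab.starTr]
  | item S t => simp [CLab.starTr]

theorem star_ex (e : ι ≃ κ) (p : κ → Prop) : (∃ j, p (e j)) ↔ ∃ x, p x :=
  ⟨fun ⟨j, hj⟩ => ⟨e j, hj⟩, fun ⟨x, hx⟩ => ⟨e.symm x, by rwa [Equiv.apply_symm_apply]⟩⟩

theorem star_item (e : ι ≃ κ) (g : R ≃ Q) (τ' : κ → Bool) (M : κ → κ → CLab κ Q) (i j : ι)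
    (c : CLab κ Q) (h : ItemOK τ' M (e i) (e j) c) :
    ItemOK (fun i => τ' (e i)) (fun i j => (M (e i) (e j)).starTr e.symm g.symm) i j
      (c.starTr e.symm g.symm) := by
  cases c with
  | real q => trivial
  | pen => trivial
  | item S t =>
    obtain ⟨h1, h2, h3, h4⟩ := h
    refine ⟨?_, ?_, ?_, ?_⟩
    · rw [Finset.mem_map]
      exact ⟨e i, h1, by simp⟩
    · rw [Finset.mem_map]
      exact ⟨e j, h2, by simp⟩
    · cases t with
      | none =>
        obtain ⟨h5, h6⟩ := h3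
        refine ⟨by rw [Finset.card_map]; exact h5, ?_⟩
        intro a ha b hb hab
        rw [Finset.mem_map] at ha hb
        obtain ⟨x, hx, rfl⟩ := ha
        obtain ⟨y, hy, rfl⟩ := hb
        have := h6 x hx y hy (fun h => hab (by rw [h]))
        simpa using this
      | some k =>
        obtain ⟨h5, h6⟩ := h3
        refine ⟨by rw [Finset.mem_map]; exact ⟨k, h5, rfl⟩, ?_⟩
        intro l hl hlk
        rw [Finset.mem_map] at hl
        obtain ⟨x, hx, rfl⟩ := hl
        have := h6 x hx (fun h => hlk (by rw [h]; rfl))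
        simpa using this
    · intro k hk
      rw [Finset.mem_map] at hk
      obtain ⟨x, hx, rfl⟩ := hk
      obtain ⟨⟨y, hy⟩, z, hz⟩ := h4 x hx
      refine ⟨⟨e.symm y, ?_⟩, e.symm z, ?_⟩
      · simp only [Equiv.coe_toEmbedding, Equiv.apply_symm_apply, hy]
        rfl
      · simp only [Equiv.coe_toEmbedding, Equiv.apply_symm_apply, hz]
        rfl

theorem star_struct (e : ι ≃ κ) (g : R ≃ Q) {τ' : κ → Bool} {ra' rb' : κ → Multiset Q}
    {M : κ → κ → CLab κ Q} (h : Struct τ' ra' rb' M) (ra rb : ι → Multiset R)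
    (hra : ∀ i, ra' (e i) = (ra i).map g) (hrb : ∀ i, rb' (e i) = (rb i).map g) :
    Struct (fun i => τ' (e i)) ra rb (fun i j => (M (e i) (e j)).starTr e.symm g.symm) := by
  refine ⟨?_, ?_, ?_, ?_, ?_, ?_, ?_, ?_⟩
  · intro i j j' hh
    exact e.injective (h.rinj _ _ _ (CLab.starTr_inj _ _ hh))
  · intro j i i' hh
    exact e.injective (h.cinj _ _ _ (CLab.starTr_inj _ _ hh))
  · intro i
    have := h.nda (e i)
    rw [hra] at this
    exact this.of_map
  · intro i
    have := h.ndb (e i)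
    rw [hrb] at this
    exact this.of_map
  · intro i q
    have h1 := h.rowa (e i) (g q)
    rw [hra, Multiset.mem_map_of_injective g.injective] at h1
    rw [← h1, ← star_ex e]
    exact exists_congr fun j => star_tr_real e g _ q
  · intro j q
    have h1 := h.rowb (e j) (g q)
    rw [hrb, Multiset.mem_map_of_injective g.injective] at h1
    rw [← h1, ← star_ex e]
    exact exists_congr fun i => star_tr_real e g _ q
  · intro i
    have h1 := h.pen (e i)
    rw [← star_ex e, ← star_ex e] at h1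
    refine Iff.trans (exists_congr fun j => star_tr_pen e g _) (Iff.trans h1 ?_)
    exact (exists_congr fun j => star_tr_pen e g _).symm
  · intro i j
    exact star_item e g τ' M i j _ (h.item (e i) (e j))

theorem star_cnt (e : ι ≃ κ) (f : κ → Bool) : cnt (fun j => f (e j)) = cnt f := by
  unfold cnt
  refine Finset.card_bij (fun j _ => e j) ?_ ?_ ?_
  · intro a ha
    simpa using ha
  · intro a _ b _ hab
    exact e.injective hab
  · intro b hb
    exact ⟨e.symm b, by simpa using hb, by simp⟩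

theorem star_isPen (e : ι ≃ κ) (g : R ≃ Q) (c : CLab κ Q) :
    (c.starTr e.symm g.symm).isPen = c.isPen := by
  cases c <;> rfl

theorem star_isSp (e : ι ≃ κ) (g : R ≃ Q) (c : CLab κ Q) :
    (c.starTr e.symm g.symm).isSp = c.isSp := by
  cases c with
  | real q => rfl
  | pen => rfl
  | item S t => cases t <;> rfl

theorem star_isHd (e : ι ≃ κ) (g : R ≃ Q) (c : CLab κ Q) (i : ι) :
    (c.starTr e.symm g.symm).isHd i = c.isHd (e i) := by
  cases c with
  | real q => rfl
  | pen => rfl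
  | item S t =>
    cases t with
    | none => rfl
    | some k =>
      show decide (e.symm k ≠ i) = decide (k ≠ e i)
      refine decide_eq_decide.2 ?_
      rw [ne_eq, ne_eq, Equiv.symm_apply_eq]

theorem star_Fv (e : ι ≃ κ) (g : R ≃ Q) {t : ι → RowIn R} {t' : κ → RowIn Q}
    (ht : ∀ i, (t i).2.2 = (t' (e i)).2.2) (M : κ → κ → CLab κ Q) (i : ι) :
    Fv t (fun i j => (M (e i) (e j)).starTr e.symm g.symm) i = Fv t' M (e i) := by
  unfold Fv
  simp only [star_isPen, star_isHd, ht]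
  rw [star_cnt e (fun x => (M (e i) x).isPen), star_cnt e (fun x => (M (e i) x).isHd (e i))]

theorem star_Sv (e : ι ≃ κ) (g : R ≃ Q) {t : ι → RowIn R} {t' : κ → RowIn Q}
    (ht : ∀ i, (t i).2.2 = (t' (e i)).2.2) (M : κ → κ → CLab κ Q) (i : ι) :
    Sv t (fun i j => (M (e i) (e j)).starTr e.symm g.symm) i = Sv t' M (e i) := by
  unfold Sv
  simp only [star_isPen, star_isSp, ht]
  rw [star_cnt e (fun x => (M (e i) x).isPen), star_cnt e (fun x => (M (e i) x).isSp)]

/-- Relabelling of a row status. -/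
def RowSt.starMap (g : R → Q) : RowSt R → RowSt Q
  | .dflt => .dflt
  | .low => .low
  | .high q => .high (g q)

/-- The required arrays. -/
def StarGoal (τ : ι → Bool) (st : ι → RowSt R) (i j : ι) : Prop :=
  ∃ N : ι → ι → CLab ι R,
      Struct τ (fun i => (st i).row.1) (fun i => (st i).row.2.1) N ∧
      (∀ l, Fv (fun i => (st i).row) N l ≤ 1) ∧ (∀ l, 1 ≤ Sv (fun i => (st i).row) N l) ∧
      Fv (fun i => (st i).row) N i = 0 ∧ Fv (fun i => (st i).row) N j = 0

theorem star_transport (e : ι ≃ κ) (g : R ≃ Q) (τ : ι → Bool) (st : ι → RowSt R) (i j : ι)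
    (τ' : κ → Bool) (st' : κ → RowSt Q) (hτ : ∀ i, τ i = τ' (e i))
    (hst : ∀ i, st' (e i) = (st i).starMap g) (h : StarGoal τ' st' (e i) (e j)) :
    StarGoal τ st i j := by
  obtain ⟨M, h1, h2, h3, h4, h5⟩ := h
  have ht : ∀ i, (st i).row.2.2 = (st' (e i)).row.2.2 := by
    intro i
    rw [hst]
    cases st i <;> rfl
  have hra : ∀ i, (st' (e i)).row.1 = ((st i).row.1).map g := by
    intro i
    rw [hst]
    cases st i <;> rfl
  have hrb : ∀ i, (st' (e i)).row.2.1 = ((st i).row.2.1).map g := by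
    intro i
    rw [hst]
    cases st i <;> rfl
  have hF := fun l => star_Fv e g (t := fun i => (st i).row) (t' := fun i => (st' i).row) ht M l
  have hS := fun l => star_Sv e g (t := fun i => (st i).row) (t' := fun i => (st' i).row) ht M l
  refine ⟨fun i j => (M (e i) (e j)).starTr e.symm g.symm, ?_, ?_, ?_, ?_, ?_⟩
  · have := star_struct e g h1 (fun i => (st i).row.1) (fun i => (st i).row.2.1) hra hrb
    rw [show τ = fun i => τ' (e i) from funext hτ]
    exact this
  · intro l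
    rw [hF]
    exact h2 _
  · intro l
    rw [hS]
    exact h3 _
  · rw [hF]
    exact h4
  · rw [hF]
    exact h5

end StarTransport

theorem star4_00 (b : Bool) : StarGoal (ι := Fin 4) (R := Fin 3) ![b, b, !b, !b]
    ![.high 0, .dflt, .high 0, .high 0] 0 1 := by
  refine ⟨![![.real 1, .real 2, .item {0, 2} (some 0), .item {0, 3} none],
      ![.real 2, .real 0, .real 1, .item {1, 3} (some 1)],
      ![.item {0, 2} (some 0), .real 1, .item {2} (some 2), .real 2],
      ![.item {0, 3} none, .item {1, 3} (some 1), .real 2, .real 1]], ?_⟩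
  cases b <;> decide +kernel

theorem star4_01 (b : Bool) : StarGoal (ι := Fin 4) (R := Fin 3) ![b, b, !b, !b]
    ![.high 0, .dflt, .high 0, .high 1] 0 1 := by
  refine ⟨![![.real 1, .real 2, .item {0, 2} (some 0), .item {0, 3} none],
      ![.real 2, .real 0, .real 1, .item {1, 3} (some 1)],
      ![.item {0, 2} (some 0), .real 1, .item {2} (some 2), .real 2],
      ![.item {0, 3} none, .item {1, 3} (some 1), .real 2, .real 0]], ?_⟩
  cases b <;> decide +kernel

theorem star4_10 (b : Bool) : StarGoal (ι := Fin 4) (R := Fin 3) ![b, b, !b, !b]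
    ![.high 0, .dflt, .high 1, .high 0] 0 1 := by
  refine ⟨![![.real 1, .real 2, .item {0, 2} (some 0), .item {0, 3} none],
      ![.real 2, .real 1, .real 0, .item {1, 3} (some 1)],
      ![.item {0, 2} (some 0), .real 0, .item {2} (some 2), .real 2],
      ![.item {0, 3} none, .item {1, 3} (some 1), .real 2, .real 1]], ?_⟩
  cases b <;> decide +kernel

theorem star4_11 (b : Bool) : StarGoal (ι := Fin 4) (R := Fin 3) ![b, b, !b, !b]
    ![.high 0, .dflt, .high 1, .high 1] 0 1 := by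
  refine ⟨![![.real 1, .real 2, .item {0, 2} (some 0), .item {0, 3} none],
      ![.real 2, .real 1, .real 0, .item {1, 3} (some 1)],
      ![.item {0, 2} (some 0), .real 0, .item {2} (some 2), .real 2],
      ![.item {0, 3} none, .item {1, 3} (some 1), .real 2, .real 0]], ?_⟩
  cases b <;> decide +kernel

theorem star4_12 (b : Bool) : StarGoal (ι := Fin 4) (R := Fin 3) ![b, b, !b, !b]
    ![.high 0, .dflt, .high 1, .high 2] 0 1 := by
  refine ⟨![![.real 2, .real 1, .item {0, 2} (some 0), .item {0, 3} none],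
      ![.real 1, .real 0, .real 2, .item {1, 3} (some 1)],
      ![.item {0, 2} (some 0), .real 2, .item {2} (some 2), .real 0],
      ![.item {0, 3} none, .item {1, 3} (some 1), .real 0, .real 1]], ?_⟩
  cases b <;> decide +kernel

theorem star5_00 (b b' : Bool) (s : RowSt (Fin 4)) (hs : s = .dflt ∨ s = .low) :
    StarGoal (ι := Fin 5) (R := Fin 4) ![b, b, !b, !b, b']
    ![.high 0, .dflt, .high 0, .high 0, s] 0 1 := by
  refine ⟨![![.real 1, .real 2, .item {0, 2} (some 0), .item {0, 3} none, .real 3],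
      ![.real 2, .real 3, .real 1, .item {1, 3} (some 1), .real 0],
      ![.item {0, 2} (some 0), .real 1, .item {2} (some 2), .real 3, .real 2],
      ![.item {0, 3} none, .item {1, 3} (some 1), .real 3, .real 2, .real 1],
      ![.real 3, .real 0, .real 2, .real 1, .item {4} (some 4)]], ?_⟩
  cases b <;> cases b' <;> rcases hs with rfl | rfl <;> decide +kernel

theorem star5_01 (b b' : Bool) (s : RowSt (Fin 4)) (hs : s = .dflt ∨ s = .low) :
    StarGoal (ι := Fin 5) (R := Fin 4) ![b, b, !b, !b, b']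
    ![.high 0, .dflt, .high 0, .high 1, s] 0 1 := by
  refine ⟨![![.real 3, .real 2, .item {0, 2} (some 0), .item {0, 3} none, .real 1],
      ![.real 1, .real 0, .real 3, .item {1, 3} (some 1), .real 2],
      ![.item {0, 2} (some 0), .real 1, .item {2} (some 2), .real 2, .real 3],
      ![.item {0, 3} none, .item {1, 3} (some 1), .real 2, .real 3, .real 0],
      ![.real 2, .real 3, .real 1, .real 0, .item {4} (some 4)]], ?_⟩
  cases b <;> cases b' <;> rcases hs with rfl | rfl <;> decide +kernel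

theorem star5_10 (b b' : Bool) (s : RowSt (Fin 4)) (hs : s = .dflt ∨ s = .low) :
    StarGoal (ι := Fin 5) (R := Fin 4) ![b, b, !b, !b, b']
    ![.high 0, .dflt, .high 1, .high 0, s] 0 1 := by
  refine ⟨![![.real 2, .real 3, .item {0, 2} (some 0), .item {0, 3} none, .real 1],
      ![.real 3, .real 1, .real 2, .item {1, 3} (some 1), .real 0],
      ![.item {0, 2} (some 0), .real 0, .item {2} (some 2), .real 2, .real 3],
      ![.item {0, 3} none, .item {1, 3} (some 1), .real 3, .real 1, .real 2],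
      ![.real 1, .real 2, .real 0, .real 3, .item {4} (some 4)]], ?_⟩
  cases b <;> cases b' <;> rcases hs with rfl | rfl <;> decide +kernel

theorem star5_11 (b b' : Bool) (s : RowSt (Fin 4)) (hs : s = .dflt ∨ s = .low) :
    StarGoal (ι := Fin 5) (R := Fin 4) ![b, b, !b, !b, b']
    ![.high 0, .dflt, .high 1, .high 1, s] 0 1 := by
  refine ⟨![![.real 1, .real 2, .item {0, 2} (some 0), .item {0, 3} none, .real 3],
      ![.real 2, .real 3, .real 0, .item {1, 3} (some 1), .real 1],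
      ![.item {0, 2} (some 0), .real 0, .item {2} (some 2), .real 3, .real 2],
      ![.item {0, 3} none, .item {1, 3} (some 1), .real 3, .real 2, .real 0],
      ![.real 3, .real 1, .real 2, .real 0, .item {4} (some 4)]], ?_⟩
  cases b <;> cases b' <;> rcases hs with rfl | rfl <;> decide +kernel

theorem star5_12 (b b' : Bool) (s : RowSt (Fin 4)) (hs : s = .dflt ∨ s = .low) :
    StarGoal (ι := Fin 5) (R := Fin 4) ![b, b, !b, !b, b']
    ![.high 0, .dflt, .high 1, .high 2, s] 0 1 := by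
  refine ⟨![![.real 3, .real 1, .item {0, 2} (some 0), .item {0, 3} none, .real 2],
      ![.real 1, .real 3, .real 2, .item {1, 3} (some 1), .real 0],
      ![.item {0, 2} (some 0), .real 2, .item {2} (some 2), .real 0, .real 3],
      ![.item {0, 3} none, .item {1, 3} (some 1), .real 0, .real 3, .real 1],
      ![.real 2, .real 0, .real 3, .real 1, .item {4} (some 4)]], ?_⟩
  cases b <;> cases b' <;> rcases hs with rfl | rfl <;> decide +kernel

/-- Enumerations sending given distinct elements to given distinct values. -/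
theorem star_swap {α : Type} [DecidableEq α] {n : ℕ} (g : α ≃ Fin n) (x : α) (y : Fin n) :
    ∃ g' : α ≃ Fin n, g' x = y ∧ ∀ z, g z ≠ g x → g z ≠ y → g' z = g z := by
  refine ⟨g.trans (Equiv.swap (g x) y), by simp, fun z h1 h2 => ?_⟩
  simp only [Equiv.trans_apply]
  exact Equiv.swap_apply_of_ne_of_ne h1 h2

theorem star_enum4 {α : Type} [DecidableEq α] {n : ℕ} (g0 : α ≃ Fin n) (x0 x1 x2 x3 : α)
    (y0 y1 y2 y3 : Fin n) (hx01 : x0 ≠ x1) (hx02 : x0 ≠ x2) (hx03 : x0 ≠ x3) (hx12 : x1 ≠ x2)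
    (hx13 : x1 ≠ x3) (hx23 : x2 ≠ x3) (hy01 : y0 ≠ y1) (hy02 : y0 ≠ y2) (hy03 : y0 ≠ y3)
    (hy12 : y1 ≠ y2) (hy13 : y1 ≠ y3) (hy23 : y2 ≠ y3) :
    ∃ g : α ≃ Fin n, g x0 = y0 ∧ g x1 = y1 ∧ g x2 = y2 ∧ g x3 = y3 := by
  obtain ⟨g1, h1, -⟩ := star_swap g0 x0 y0
  obtain ⟨g2, h2, h2'⟩ := star_swap g1 x1 y1
  have a0 : g2 x0 = y0 := by
    rw [h2' x0 (fun h => hx01 (g1.injective h)) (by rw [h1]; exact hy01), h1]
  obtain ⟨g3, h3, h3'⟩ := star_swap g2 x2 y2
  have b0 : g3 x0 = y0 := by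
    rw [h3' x0 (fun h => hx02 (g2.injective h)) (by rw [a0]; exact hy02), a0]
  have b1 : g3 x1 = y1 := by
    rw [h3' x1 (fun h => hx12 (g2.injective h)) (by rw [h2]; exact hy12), h2]
  obtain ⟨g4, h4, h4'⟩ := star_swap g3 x3 y3
  refine ⟨g4, ?_, ?_, ?_, h4⟩
  · rw [h4' x0 (fun h => hx03 (g3.injective h)) (by rw [b0]; exact hy03), b0]
  · rw [h4' x1 (fun h => hx13 (g3.injective h)) (by rw [b1]; exact hy13), b1]
  · rw [h4' x2 (fun h => hx23 (g3.injective h)) (by rw [h3]; exact hy23), h3]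

theorem star_enum2 {α : Type} [DecidableEq α] {n : ℕ} (g0 : α ≃ Fin n) (x0 x1 : α)
    (y0 y1 : Fin n) (hx01 : x0 ≠ x1) (hy01 : y0 ≠ y1) :
    ∃ g : α ≃ Fin n, g x0 = y0 ∧ g x1 = y1 := by
  obtain ⟨g1, h1, -⟩ := star_swap g0 x0 y0
  obtain ⟨g2, h2, h2'⟩ := star_swap g1 x1 y1
  refine ⟨g2, ?_, h2⟩
  rw [h2' x0 (fun h => hx01 (g1.injective h)) (by rw [h1]; exact hy01), h1]

theorem star_enum3 {α : Type} [DecidableEq α] {n : ℕ} (g0 : α ≃ Fin n) (x0 x1 x2 : α)
    (y0 y1 y2 : Fin n) (hx01 : x0 ≠ x1) (hx02 : x0 ≠ x2) (hx12 : x1 ≠ x2)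
    (hy01 : y0 ≠ y1) (hy02 : y0 ≠ y2) (hy12 : y1 ≠ y2) :
    ∃ g : α ≃ Fin n, g x0 = y0 ∧ g x1 = y1 ∧ g x2 = y2 := by
  obtain ⟨g2, a0, h2⟩ := star_enum2 g0 x0 x1 y0 y1 hx01 hy01
  obtain ⟨g3, h3, h3'⟩ := star_swap g2 x2 y2
  refine ⟨g3, ?_, ?_, h3⟩
  · rw [h3' x0 (fun h => hx02 (g2.injective h)) (by rw [a0]; exact hy02), a0]
  · rw [h3' x1 (fun h => hx12 (g2.injective h)) (by rw [h2]; exact hy12), h2]

/-- The five equality patterns of three colours. -/
theorem star_pattern {α : Type} [DecidableEq α] {n : ℕ} (g0 : α ≃ Fin n) (q1 q2 q3 : α)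
    (y0 y1 y2 : Fin n) (hy01 : y0 ≠ y1) (hy02 : y0 ≠ y2) (hy12 : y1 ≠ y2) :
    ∃ g : α ≃ Fin n, g q1 = y0 ∧ ((g q2 = y0 ∧ g q3 = y0) ∨ (g q2 = y0 ∧ g q3 = y1) ∨
      (g q2 = y1 ∧ g q3 = y0) ∨ (g q2 = y1 ∧ g q3 = y1) ∨ (g q2 = y1 ∧ g q3 = y2)) := by
  by_cases h21 : q2 = q1
  · subst h21
    by_cases h31 : q3 = q2
    · subst h31
      obtain ⟨g1, h1, -⟩ := star_swap g0 q3 y0
      exact ⟨g1, h1, Or.inl ⟨h1, h1⟩⟩
    · obtain ⟨g, h1, h2⟩ := star_enum2 g0 q2 q3 y0 y1 (Ne.symm h31) hy01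
      exact ⟨g, h1, Or.inr (Or.inl ⟨h1, h2⟩)⟩
  · by_cases h31 : q3 = q1
    · subst h31
      obtain ⟨g, h1, h2⟩ := star_enum2 g0 q3 q2 y0 y1 (Ne.symm h21) hy01
      exact ⟨g, h1, Or.inr (Or.inr (Or.inl ⟨h2, h1⟩))⟩
    · by_cases h32 : q3 = q2
      · subst h32
        obtain ⟨g, h1, h2⟩ := star_enum2 g0 q1 q3 y0 y1 (Ne.symm h31) hy01
        exact ⟨g, h1, Or.inr (Or.inr (Or.inr (Or.inl ⟨h2, h2⟩)))⟩
      · obtain ⟨g, h1, h2, h3⟩ := star_enum3 g0 q1 q2 q3 y0 y1 y2 (Ne.symm h21) (Ne.symm h31)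
          (Ne.symm h32) hy01 hy02 hy12
        exact ⟨g, h1, Or.inr (Or.inr (Or.inr (Or.inr ⟨h2, h3⟩)))⟩

theorem star_not {a b : Bool} (h : a ≠ b) : a = !b := by
  cases a <;> cases b <;> simp_all

variable {ι R : Type} [Fintype ι] [DecidableEq ι] [Fintype R] [DecidableEq R]

theorem star_exc4 (τ : ι → Bool) (h4 : Fintype.card ι = 4)
    (hR : Fintype.card R = 3) (i j k k' : ι) (hij : i ≠ j) (hik : i ≠ k)
    (hik' : i ≠ k') (hjk : j ≠ k) (hjk' : j ≠ k') (hkk' : k ≠ k')
    (hτk : τ k ≠ τ i) (hτk' : τ k' ≠ τ i) (hτj : τ j = τ i)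
    (st : ι → RowSt R) (q1 q2 q3 : R) (hi : st i = .high q1) (hk : st k = .high q2)
    (hk' : st k' = .high q3) (hj : st j = .dflt) : StarGoal τ st i j := by
  obtain ⟨e, e0, e1, e2, e3⟩ := star_enum4 (Fintype.equivFinOfCardEq h4) i j k k' 0 1 2 3
    hij hik hik' hjk hjk' hkk' (by decide) (by decide) (by decide) (by decide) (by decide)
    (by decide)
  obtain ⟨g, g0, hg⟩ := star_pattern (Fintype.equivFinOfCardEq hR) q1 q2 q3 0 1 2 (by decide)
    (by decide) (by decide)
  have hτ : ∀ l, τ l = (![τ i, τ i, !(τ i), !(τ i)] : Fin 4 → Bool) (e l) := by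
    intro l
    obtain ⟨x, hx⟩ : ∃ x, e.symm x = l := e.symm.surjective l
    have hx' : e l = x := by rw [← hx, e.apply_symm_apply]
    rw [hx']
    fin_cases x
    · rw [e.injective (hx'.trans e0.symm)]; rfl
    · rw [e.injective (hx'.trans e1.symm)]; exact hτj
    · rw [e.injective (hx'.trans e2.symm)]; exact star_not hτk
    · rw [e.injective (hx'.trans e3.symm)]; exact star_not hτk'
  have hst : ∀ a c : Fin 3, g q2 = a → g q3 = c → ∀ l,
      (![.high 0, .dflt, .high a, .high c] : Fin 4 → RowSt (Fin 3)) (e l) =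
        (st l).starMap g := by
    intro a c ha hc l
    obtain ⟨x, hx⟩ : ∃ x, e.symm x = l := e.symm.surjective l
    have hx' : e l = x := by rw [← hx, e.apply_symm_apply]
    rw [hx']
    fin_cases x
    · rw [e.injective (hx'.trans e0.symm), hi, ← g0]; rfl
    · rw [e.injective (hx'.trans e1.symm), hj]; rfl
    · rw [e.injective (hx'.trans e2.symm), hk, ← ha]; rfl
    · rw [e.injective (hx'.trans e3.symm), hk', ← hc]; rfl
  rcases hg with ⟨h2, h3⟩ | ⟨h2, h3⟩ | ⟨h2, h3⟩ | ⟨h2, h3⟩ | ⟨h2, h3⟩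
  · exact star_transport e g τ st i j _ _ hτ (hst _ _ h2 h3)
      (by rw [e0, e1]; exact star4_00 (τ i))
  · exact star_transport e g τ st i j _ _ hτ (hst _ _ h2 h3)
      (by rw [e0, e1]; exact star4_01 (τ i))
  · exact star_transport e g τ st i j _ _ hτ (hst _ _ h2 h3)
      (by rw [e0, e1]; exact star4_10 (τ i))
  · exact star_transport e g τ st i j _ _ hτ (hst _ _ h2 h3)
      (by rw [e0, e1]; exact star4_11 (τ i))
  · exact star_transport e g τ st i j _ _ hτ (hst _ _ h2 h3)
      (by rw [e0, e1]; exact star4_12 (τ i))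

theorem star_exc5 (τ : ι → Bool) (h4 : Fintype.card ι = 5)
    (hR : Fintype.card R = 4) (i j k k' : ι) (hij : i ≠ j) (hik : i ≠ k)
    (hik' : i ≠ k') (hjk : j ≠ k) (hjk' : j ≠ k') (hkk' : k ≠ k')
    (hτk : τ k ≠ τ i) (hτk' : τ k' ≠ τ i) (hτj : τ j = τ i)
    (st : ι → RowSt R) (q1 q2 q3 : R) (hi : st i = .high q1) (hk : st k = .high q2)
    (hk' : st k' = .high q3) (hj : st j = .dflt)
    (hu : ∀ l, l ≠ i → l ≠ j → l ≠ k → l ≠ k' → ∀ q, st l ≠ .high q) : StarGoal τ st i j := by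
  obtain ⟨e, e0, e1, e2, e3⟩ := star_enum4 (Fintype.equivFinOfCardEq h4) i j k k' 0 1 2 3
    hij hik hik' hjk hjk' hkk' (by decide) (by decide) (by decide) (by decide) (by decide)
    (by decide)
  obtain ⟨g, g0, hg⟩ := star_pattern (Fintype.equivFinOfCardEq hR) q1 q2 q3 0 1 2 (by decide)
    (by decide) (by decide)
  obtain ⟨u, hue⟩ : ∃ u, e u = 4 := e.surjective 4
  have hsu : (st u).starMap g = (RowSt.dflt : RowSt (Fin 4)) ∨
      (st u).starMap g = (RowSt.low : RowSt (Fin 4)) := by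
    have h := hu u (by rintro rfl; rw [hue] at e0; exact absurd e0 (by decide))
      (by rintro rfl; rw [hue] at e1; exact absurd e1 (by decide))
      (by rintro rfl; rw [hue] at e2; exact absurd e2 (by decide))
      (by rintro rfl; rw [hue] at e3; exact absurd e3 (by decide))
    cases hs : st u with
    | dflt => exact Or.inl rfl
    | low => exact Or.inr rfl
    | high q => exact absurd hs (h q)
  have hτ : ∀ l, τ l = (![τ i, τ i, !(τ i), !(τ i), τ u] : Fin 5 → Bool) (e l) := by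
    intro l
    obtain ⟨x, hx⟩ : ∃ x, e.symm x = l := e.symm.surjective l
    have hx' : e l = x := by rw [← hx, e.apply_symm_apply]
    rw [hx']
    fin_cases x
    · rw [e.injective (hx'.trans e0.symm)]; rfl
    · rw [e.injective (hx'.trans e1.symm)]; exact hτj
    · rw [e.injective (hx'.trans e2.symm)]; exact star_not hτk
    · rw [e.injective (hx'.trans e3.symm)]; exact star_not hτk'
    · rw [e.injective (hx'.trans hue.symm)]; rfl
  have hst : ∀ a c : Fin 4, g q2 = a → g q3 = c → ∀ l,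
      (![.high 0, .dflt, .high a, .high c, (st u).starMap g] : Fin 5 → RowSt (Fin 4)) (e l) =
        (st l).starMap g := by
    intro a c ha hc l
    obtain ⟨x, hx⟩ : ∃ x, e.symm x = l := e.symm.surjective l
    have hx' : e l = x := by rw [← hx, e.apply_symm_apply]
    rw [hx']
    fin_cases x
    · rw [e.injective (hx'.trans e0.symm), hi, ← g0]; rfl
    · rw [e.injective (hx'.trans e1.symm), hj]; rfl
    · rw [e.injective (hx'.trans e2.symm), hk, ← ha]; rfl
    · rw [e.injective (hx'.trans e3.symm), hk', ← hc]; rfl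
    · rw [e.injective (hx'.trans hue.symm)]; rfl
  rcases hg with ⟨h2, h3⟩ | ⟨h2, h3⟩ | ⟨h2, h3⟩ | ⟨h2, h3⟩ | ⟨h2, h3⟩
  · exact star_transport e g τ st i j _ _ hτ (hst _ _ h2 h3)
      (by rw [e0, e1]; exact star5_00 (τ i) (τ u) _ hsu)
  · exact star_transport e g τ st i j _ _ hτ (hst _ _ h2 h3)
      (by rw [e0, e1]; exact star5_01 (τ i) (τ u) _ hsu)
  · exact star_transport e g τ st i j _ _ hτ (hst _ _ h2 h3)
      (by rw [e0, e1]; exact star5_10 (τ i) (τ u) _ hsu)
  · exact star_transport e g τ st i j _ _ hτ (hst _ _ h2 h3)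
      (by rw [e0, e1]; exact star5_11 (τ i) (τ u) _ hsu)
  · exact star_transport e g τ st i j _ _ hτ (hst _ _ h2 h3)
      (by rw [e0, e1]; exact star5_12 (τ i) (τ u) _ hsu)

/-- The exceptional arrays for `n = 4, 5`: rows `i, k, k'` are covered with real colours, row `j`
is not covered, rows `i` and `j` can be heads. -/
theorem star_exc (τ : ι → Bool) (h45 : Fintype.card ι = 4 ∨ Fintype.card ι = 5)
    (hR : Fintype.card R + 1 = Fintype.card ι) (i j k k' : ι) (hij : i ≠ j) (hik : i ≠ k)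
    (hik' : i ≠ k') (hjk : j ≠ k) (hjk' : j ≠ k') (hkk' : k ≠ k')
    (hτk : τ k ≠ τ i) (hτk' : τ k' ≠ τ i) (hτj : τ j = τ i)
    (st : ι → RowSt R) (q1 q2 q3 : R) (hi : st i = .high q1) (hk : st k = .high q2)
    (hk' : st k' = .high q3) (hj : st j = .dflt)
    (hu : ∀ l, l ≠ i → l ≠ j → l ≠ k → l ≠ k' → ∀ q, st l ≠ .high q) :
    ∃ N : ι → ι → CLab ι R,
      Struct τ (fun i => (st i).row.1) (fun i => (st i).row.2.1) N ∧
      (∀ l, Fv (fun i => (st i).row) N l ≤ 1) ∧ (∀ l, 1 ≤ Sv (fun i => (st i).row) N l) ∧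
      Fv (fun i => (st i).row) N i = 0 ∧ Fv (fun i => (st i).row) N j = 0 := by
  rcases h45 with h4 | h5
  · exact star_exc4 τ h4 (by omega) i j k k' hij hik hik' hjk hjk' hkk' hτk hτk' hτj st q1 q2 q3
      hi hk hk' hj
  · exact star_exc5 τ h5 (by omega) i j k k' hij hik hik' hjk hjk' hkk' hτk hτk' hτj st q1 q2 q3
      hi hk hk' hj hu

end W3a
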