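import Pool.Agent.W_MP_3a8340_co.Latin
import Pool.Agent.W_MP_3a8340_co.ArrA
import Pool.Agent.W_MP_3a8340_co.ExcStar
import Pool.Agent.W_MP_3a8340_co.ExcFive

open Finset

namespace W3a

variable {ι R : Type} [Fintype ι] [DecidableEq ι] [Fintype R] [DecidableEq R]

private theorem cw_hi_some {R : Type} {s : RowSt R} {q : R} (h : s.hi = some q) :
    s = .high q := by
  cases s with
  | dflt => simp [RowSt.hi] at h
  | low => simp [RowSt.hi] at h
  | high q' => simp only [RowSt.hi, Option.some.injEq] at h; rw [h]

private theorem cw_mem (τ : ι → Bool) (i l : ι) :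
    l ∈ (univ.filter fun l => τ l = !τ i) ↔ τ l ≠ τ i := by
  rw [Finset.mem_filter]
  cases τ l <;> cases τ i <;> simp

/-- conclusion of the first alternative -/
private theorem cw_first (τ : ι → Bool) (st : ι → RowSt R) (i : ι)
    (L : ι → ι → Option R) (N : ι → ι → CLab ι R)
    (hN : SS τ (fun i => (st i).row) (fun i => (st i).cov) N)
    (hr : ∀ a b q, a ≠ b → L a b = some q → N a b = .real q) (k : ι) (hk : τ k ≠ τ i)
    (h1 : L i k ≠ none) (h2 : L k i ≠ none) (hit : ∀ a b t, N a b ≠ .item {i, k} t) :
    ∃ (N : ι → ι → CLab ι R) (k : ι) (α β : R),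
      SS τ (fun i => (st i).row) (fun i => (st i).cov) N ∧ τ k ≠ τ i ∧ N i k = .real α ∧
      N k i = .real β ∧ ∀ a b t, N a b ≠ .item {i, k} t := by
  obtain ⟨α, hα⟩ := Option.ne_none_iff_exists'.mp h1
  obtain ⟨β, hβ⟩ := Option.ne_none_iff_exists'.mp h2
  have hki : k ≠ i := fun h => hk (by rw [h])
  exact ⟨N, k, α, β, hN, hk, hr i k α hki.symm hα, hr k i β hki hβ, hit⟩

private theorem cw_single {i k a : ι} (h : i ≠ k) : ({i, k} : Finset ι) ≠ {a} := by
  intro hh
  have h1 : i ∈ ({a} : Finset ι) := by rw [← hh]; simp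
  have h2 : k ∈ ({a} : Finset ι) := by rw [← hh]; simp
  rw [Finset.mem_singleton] at h1 h2
  exact h (h1.trans h2.symm)

private theorem cw_pair {i k u m : ι} (h1 : i ≠ u) (h2 : i ≠ m) :
    ({i, k} : Finset ι) ≠ {u, m} := by
  intro hh
  have h3 : i ∈ ({u, m} : Finset ι) := by rw [← hh]; simp
  simp only [Finset.mem_insert, Finset.mem_singleton] at h3
  rcases h3 with h | h
  · exact h1 h
  · exact h2 h

private theorem cw_pair' {i k u m : ι} (h1 : k ≠ u) (h2 : k ≠ m) :
    ({i, k} : Finset ι) ≠ {u, m} := by
  intro hh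
  have h3 : k ∈ ({u, m} : Finset ι) := by rw [← hh]; simp
  simp only [Finset.mem_insert, Finset.mem_singleton] at h3
  rcases h3 with h | h
  · exact h1 h
  · exact h2 h

/-- the second part of case (e) -/
private theorem cw_small (τ : ι → Bool) (h4 : 4 ≤ Fintype.card ι) (h5 : Fintype.card ι ≤ 5)
    (hR : Fintype.card R + 1 = Fintype.card ι)
    (st : ι → RowSt R) (i j k k' : ι) (hij : i ≠ j) (hkk' : k ≠ k')
    (hτk : τ k ≠ τ i) (hτk' : τ k' ≠ τ i) (hτj : τ j = τ i)
    (hi : (st i).hi ≠ none) (hk : (st k).hi ≠ none) (hk' : (st k').hi ≠ none)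
    (hj : st j = .dflt)
    (hbad : ¬ ∃ m c, (∀ l, l ≠ m → (st l).hi = c) ∧ (st m).hi ≠ c) :
    (∃ (N : ι → ι → CLab ι R) (k : ι) (α β : R),
      SS τ (fun i => (st i).row) (fun i => (st i).cov) N ∧ τ k ≠ τ i ∧ N i k = .real α ∧
      N k i = .real β ∧ ∀ a b t, N a b ≠ .item {i, k} t) ∨
    (∃ N : ι → ι → CLab ι R,
      Struct τ (fun i => (st i).row.1) (fun i => (st i).row.2.1) N ∧
      (∀ l, Fv (fun i => (st i).row) N l ≤ 1) ∧ (∀ l, 1 ≤ Sv (fun i => (st i).row) N l) ∧
      Fv (fun i => (st i).row) N i = 0 ∧ Fv (fun i => (st i).row) N j = 0) := by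
  have hik : i ≠ k := fun h => hτk (by rw [h])
  have hik' : i ≠ k' := fun h => hτk' (by rw [h])
  have hjk : j ≠ k := fun h => hτk (by rw [← h, hτj])
  have hjk' : j ≠ k' := fun h => hτk' (by rw [← h, hτj])
  obtain ⟨q1, hq1⟩ := Option.ne_none_iff_exists'.mp hi
  obtain ⟨q2, hq2⟩ := Option.ne_none_iff_exists'.mp hk
  obtain ⟨q3, hq3⟩ := Option.ne_none_iff_exists'.mp hk'
  by_cases hu : ∃ u, u ≠ i ∧ u ≠ j ∧ u ≠ k ∧ u ≠ k' ∧ (st u).hi ≠ none
  · left
    obtain ⟨u, hui, huj, huk, huk', hu⟩ := hu
    have hc : Fintype.card (Option R) = Fintype.card ι := by simp [hR]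
    have hcard5 : ({i, u, k, k', j} : Finset ι).card = 5 := by
      rw [Finset.card_insert_of_notMem, Finset.card_insert_of_notMem,
        Finset.card_insert_of_notMem, Finset.card_pair]
      · exact hjk'.symm
      · simp only [Finset.mem_insert, Finset.mem_singleton, not_or]
        exact ⟨hkk', hjk.symm⟩
      · simp only [Finset.mem_insert, Finset.mem_singleton, not_or]
        exact ⟨huk, huk', huj⟩
      · simp only [Finset.mem_insert, Finset.mem_singleton, not_or]
        exact ⟨hui.symm, hik, hik', hij⟩
    have hle : ({i, u, k, k', j} : Finset ι).card ≤ Fintype.card ι := Finset.card_le_univ _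
    have hι5 : Fintype.card ι = 5 := by omega
    have huniv : ({i, u, k, k', j} : Finset ι) = univ :=
      (Finset.card_eq_iff_eq_univ _).mp (by rw [hcard5, hι5])
    have hall : ∀ l, l = i ∨ l = u ∨ l = k ∨ l = k' ∨ l = j := by
      intro l
      have := Finset.mem_univ l
      rw [← huniv] at this
      simpa only [Finset.mem_insert, Finset.mem_singleton] using this
    have hj0 : (st j).hi = none := by rw [hj]; rfl
    obtain ⟨L, hL, hd, h1, h2, h3, h4'⟩ := chang_exc5 (ι := ι) hι5 (hc.trans hι5) none
      (fun l => (st l).hi) i u k k' j hall hj0 hi hu hk hk' (by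
        rintro ⟨e1, e2, e3⟩
        refine hbad ⟨j, (st i).hi, ?_, ?_⟩
        · intro l hl
          rcases hall l with h | h | h | h | h
          · rw [h]
          · rw [h]; exact e1
          · rw [h]; exact e2
          · rw [h]; exact e3
          · exact absurd h hl
        · rw [hj0]; exact hi.symm)
    obtain ⟨N, hN, hr, hit⟩ := arrA τ hR L hL st hd
    refine cw_first τ st i L N hN hr k hτk ?_ ?_ ?_
    · intro h
      exact huk (hL.1 i (h1.trans h.symm))
    · intro h
      exact hik' (hL.1 k (h.trans h3.symm))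
    · intro a b t h
      exact cw_single hik (hit a b _ t h)
  · right
    push Not at hu
    refine star_exc τ (by omega) hR i j k k' hij hik hik' hjk hjk' hkk' hτk hτk' hτj st q1 q2 q3
      (cw_hi_some hq1) (cw_hi_some hq2) (cw_hi_some hq3) hj ?_
    intro l h1 h2 h3 h4' q h
    have := hu l h1 h2 h3 h4'
    rw [h] at this
    simp [RowSt.hi] at this

/-- Row `i` is covered, row `j` is not: either there is a self-sufficient array in which the
cells `(i,k)`, `(k,i)` are real for some `k` of the other class, or an array in which rows `i`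
and `j` can be heads. -/
theorem cross_or_star (τ : ι → Bool) (h4 : 4 ≤ Fintype.card ι)
    (hR : Fintype.card R + 1 = Fintype.card ι)
    (hτ : ∀ b, 2 ≤ (univ.filter fun l => τ l = b).card)
    (hτ6 : 6 ≤ Fintype.card ι → ∀ b, 3 ≤ (univ.filter fun l => τ l = b).card)
    (st : ι → RowSt R) (i j : ι) (hij : i ≠ j) (hi : st i ≠ .dflt) (hj : st j = .dflt) :
    (∃ (N : ι → ι → CLab ι R) (k : ι) (α β : R),
      SS τ (fun i => (st i).row) (fun i => (st i).cov) N ∧ τ k ≠ τ i ∧ N i k = .real α ∧
      N k i = .real β ∧ ∀ a b t, N a b ≠ .item {i, k} t) ∨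
    (∃ N : ι → ι → CLab ι R,
      Struct τ (fun i => (st i).row.1) (fun i => (st i).row.2.1) N ∧
      (∀ l, Fv (fun i => (st i).row) N l ≤ 1) ∧ (∀ l, 1 ≤ Sv (fun i => (st i).row) N l) ∧
      Fv (fun i => (st i).row) N i = 0 ∧ Fv (fun i => (st i).row) N j = 0) := by
  have hc : Fintype.card (Option R) = Fintype.card ι := by simp [hR]
  have hj0 : (st j).hi = none := by rw [hj]; rfl
  -- two elements of the other class
  have hA := hτ (!τ i)
  obtain ⟨a0, ha0, b0, hb0, hab0⟩ := Finset.one_lt_card.mp (by omega :
    1 < (univ.filter fun l => τ l = !τ i).card)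
  rw [cw_mem] at ha0 hb0
  have hother : ∀ m x : ι, ∃ u, τ u ≠ τ m ∧ u ≠ x := by
    intro m x
    have h := hτ (!τ m)
    obtain ⟨a, ha, b, hb, hab⟩ := Finset.one_lt_card.mp (by omega :
      1 < (univ.filter fun l => τ l = !τ m).card)
    rw [cw_mem] at ha hb
    by_cases hax : a = x
    · exact ⟨b, hb, fun h => hab (hax.trans h.symm)⟩
    · exact ⟨a, ha, hax⟩
  by_cases hbad : ∃ m c, (∀ l, l ≠ m → (st l).hi = c) ∧ (st m).hi ≠ c
  · left
    obtain ⟨m, c, hl, hm⟩ := hbad
    cases c with
    | none =>
      obtain ⟨q, hq⟩ := Option.ne_none_iff_exists'.mp hm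
      by_cases hmi : m = i
      · subst hmi
        obtain ⟨k, hk, hkb⟩ := hother m b0
        obtain ⟨L, hL, h1, h2, h3, h4'⟩ := latin_z3 hc none (some q) (by simp) m b0
          (fun h => hb0 (by rw [← h]))
        obtain ⟨N, hN, hr, hit⟩ := arrB τ hR L hL st b0 m hb0 h2 h1 (fun a ha => by
          by_cases ham : a = m
          · rw [ham, h4', hq]
          · rw [h3 a ham ha, hl a ham]) (hl b0 (fun h => hb0 (by rw [h]))) hm
        have hkm : k ≠ m := fun h => hk (by rw [h])
        refine cw_first τ st m L N hN hr k hk ?_ ?_ ?_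
        · intro h
          exact hkb (hL.1 m (h.trans h1.symm))
        · intro h
          exact hkb (hL.2 m (h.trans h2.symm))
        · intro a b t h
          rcases hit a b _ t h with h | h
          · exact cw_single hkm.symm h
          · exact cw_pair' hkb hkm h
      · obtain ⟨u, hu, hui⟩ := hother m i
        have hum : u ≠ m := fun h => hu (by rw [h])
        obtain ⟨L, hL, h1, h2, h3, h4'⟩ := latin_z3 hc none (some q) (by simp) m u hum.symm
        obtain ⟨N, hN, hr, hit⟩ := arrB τ hR L hL st u m hu h2 h1 (fun a ha => by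
          by_cases ham : a = m
          · rw [ham, h4', hq]
          · rw [h3 a ham ha, hl a ham]) (hl u hum) hm
        have hii : L i i = none := h3 i (Ne.symm hmi) hui.symm
        have hai : a0 ≠ i := fun h => ha0 (by rw [h])
        refine cw_first τ st i L N hN hr a0 ha0 ?_ ?_ ?_
        · intro h
          exact hai (hL.1 i (h.trans hii.symm))
        · intro h
          exact hai (hL.2 i (h.trans hii.symm))
        · intro a b t h
          rcases hit a b _ t h with h | h
          · exact cw_single hai.symm h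
          · exact cw_pair hui.symm (Ne.symm hmi) h
    | some q =>
      have hmj : m = j := by
        by_contra hne
        have := hl j (Ne.symm hne)
        rw [hj0] at this
        exact absurd this (by simp)
      subst hmj
      by_cases hτj : τ m = τ i
      · have ham : a0 ≠ m := fun h => ha0 (by rw [h, hτj])
        have hai : a0 ≠ i := fun h => ha0 (by rw [h])
        obtain ⟨L, hL, h1, h2, h3⟩ := latin_z7 hc h4 (some q) none none (by simp) (by simp) m a0
          ham.symm
        obtain ⟨N, hN, hr, hit⟩ := arrB τ hR L hL st m a0 (by rw [hτj]; exact ha0.symm) h2 h3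
          (fun a ha => by rw [h1, hl a ha]) hj0 (by rw [hl a0 ham]; simp)
        refine cw_first τ st i L N hN hr a0 ha0 ?_ ?_ ?_
        · intro h
          exact hij (hL.2 a0 (h.trans h2.symm))
        · intro h
          exact hij (hL.1 a0 (h.trans h3.symm))
        · intro a b t h
          rcases hit a b _ t h with h | h
          · exact cw_single hai.symm h
          · exact cw_pair hij hai.symm h
      · obtain ⟨k, hk, hkm⟩ := hother i m
        have hki : k ≠ i := fun h => hk (by rw [h])
        obtain ⟨L, hL, h1, h2, h3⟩ := latin_z7 hc h4 (some q) none none (by simp) (by simp) m i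
          hij.symm
        obtain ⟨N, hN, hr, hit⟩ := arrB τ hR L hL st m i hτj h2 h3
          (fun a ha => by rw [h1, hl a ha]) hj0 (by rw [hl i hij]; simp)
        refine cw_first τ st i L N hN hr k hk ?_ ?_ ?_
        · intro h
          exact hkm (hL.1 i (h.trans h3.symm))
        · intro h
          exact hkm (hL.2 i (h.trans h2.symm))
        · intro a b t h
          rcases hit a b _ t h with h | h
          · exact cw_single hki.symm h
          · exact cw_pair' hkm hki h
  · obtain ⟨L, hL, hd⟩ := chang hc (fun l => (st l).hi) hbad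
    by_cases hex : ∃ k, τ k ≠ τ i ∧ L i k ≠ none ∧ L k i ≠ none
    · left
      obtain ⟨k, hk, h1, h2⟩ := hex
      have hki : k ≠ i := fun h => hk (by rw [h])
      obtain ⟨N, hN, hr, hit⟩ := arrA τ hR L hL st hd
      refine cw_first τ st i L N hN hr k hk h1 h2 ?_
      intro a b t h
      exact cw_single hki.symm (hit a b _ t h)
    · have hex' : ∀ k, τ k ≠ τ i → L i k ≠ none → L k i = none := by
        intro k hk h1
        by_contra h2
        exact hex ⟨k, hk, h1, h2⟩
      have hi0 : (st i).hi ≠ none := by
        intro h0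
        have hii : L i i = none := (hd i).trans h0
        have hai : a0 ≠ i := fun h => ha0 (by rw [h])
        have h1 : L i a0 ≠ none := fun h => hai (hL.1 i (h.trans hii.symm))
        exact hai (hL.2 i ((hex' a0 ha0 h1).trans hii.symm))
      obtain ⟨a, ha⟩ := (hL.surj hc i none).1
      obtain ⟨b, hb⟩ := (hL.surj hc i none).2
      have hsub : (univ.filter fun l => τ l = !τ i) ⊆ {a, b} := by
        intro k hk
        rw [cw_mem] at hk
        simp only [Finset.mem_insert, Finset.mem_singleton]
        by_cases h1 : L i k = none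
        · left; exact hL.1 i (h1.trans ha.symm)
        · right; exact hL.2 i ((hex' k hk h1).trans hb.symm)
      have hcle := Finset.card_le_card hsub
      have hc2 : ({a, b} : Finset ι).card ≤ 2 := Finset.card_le_two
      have h5 : Fintype.card ι ≤ 5 := by
        by_contra h6
        have := hτ6 (by omega) (!τ i)
        omega
      have heq : (univ.filter fun l => τ l = !τ i) = {a, b} :=
        Finset.eq_of_subset_of_card_le hsub (by omega)
      have hab : a ≠ b := by
        rintro rfl
        simp only [Finset.pair_eq_singleton] at heq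
        rw [heq, Finset.card_singleton] at hA
        omega
      have haA : τ a ≠ τ i := by
        rw [← cw_mem, heq]; simp
      have hbA : τ b ≠ τ i := by
        rw [← cw_mem, heq]; simp
      have haT : (st a).hi ≠ none := by
        intro h0
        have h1 : L a a = none := (hd a).trans h0
        exact haA (by rw [hL.2 a (h1.trans ha.symm)])
      have hbT : (st b).hi ≠ none := by
        intro h0
        have h1 : L b b = none := (hd b).trans h0
        exact hbA (by rw [hL.1 b (h1.trans hb.symm)])
      have hτj : τ j = τ i := by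
        by_contra hne
        rw [← ne_eq, ← cw_mem, heq] at hne
        simp only [Finset.mem_insert, Finset.mem_singleton] at hne
        rcases hne with h | h
        · exact haT (by rw [← h]; exact hj0)
        · exact hbT (by rw [← h]; exact hj0)
      exact cw_small τ h4 h5 hR st i j a b hij hab haA hbA hτj hi0 haT hbT hj hbad

end W3a
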