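import Mathlib

/-!
# Definitions for the proof of MP_3a8340_co

`ι` is the index set of each part of `K_{n,n}` (so `n = |ι|`), `R` is the set of *real* colours,
`P` is the rest of the palette, `|R| + s = n`, `|P| = d + s`.

At every vertex `v` of `G` there is an array `N v : ι → ι → CLab ι R` describing the labels of the
edges `(v,a_i)(v,b_j)`; every edge `vw` of `G` has in every layer `i` a label `GLab R P`
(both copies `(v,a_i)(w,a_i)` and `(v,b_i)(w,b_i)` together).
-/

open Finset

namespace W3a

/-- Label of a cell of the array at a vertex: a real colour, the pendant colour of the vertex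
(one fixed colour of `P`), or a kernel item with support `S` (set of rows); `t = some k` for a
special item with tail `k`, `t = none` for a normal item. -/
inductive CLab (ι R : Type) where
  | real (q : R) : CLab ι R
  | pen : CLab ι R
  | item (S : Finset ι) (t : Option ι) : CLab ι R
deriving DecidableEq

/-- Label of an edge of `G` in a layer, seen from its first end: a normal kernel item, a special
kernel item with tail here (`out`) or with head here (`inn`), a fixed colour of `P` (on both
copies), or real colours `a` (on the `a`-copy) and `b` (on the `b`-copy). -/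
inductive GLab (R P : Type) where
  | norm : GLab R P
  | out : GLab R P
  | inn : GLab R P
  | fix (c : P) : GLab R P
  | real (a b : R) : GLab R P
deriving DecidableEq

/-- The label seen from the other end. -/
def GLab.flip {R P : Type} : GLab R P → GLab R P
  | .norm => .norm
  | .out => .inn
  | .inn => .out
  | .fix c => .fix c
  | .real a b => .real a b

def GLab.map {R P Q : Type} (f : P → Q) : GLab R P → GLab R Q
  | .norm => .norm
  | .out => .out
  | .inn => .inn
  | .fix c => .fix (f c)
  | .real a b => .real a b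

/-- The label is a kernel label. -/
def GLab.isKer {R P : Type} : GLab R P → Bool
  | .norm => true
  | .out => true
  | .inn => true
  | .fix _ => false
  | .real _ _ => false

/-- What the layer edges at a vertex contribute to one row: the real colours at `a_i`, the real
colours at `b_i`, the number of fixed colours, the number of special items with head here, the
number of special items. -/
abbrev RowIn (R : Type) := Multiset R × Multiset R × ℕ × ℕ × ℕ

def GLab.row {R P : Type} : GLab R P → RowIn R
  | .norm => 0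
  | .out => (0, 0, 0, 0, 1)
  | .inn => (0, 0, 0, 1, 1)
  | .fix _ => (0, 0, 1, 0, 0)
  | .real a b => ({a}, {b}, 0, 0, 0)

section
variable {ι R : Type} [Fintype ι] [DecidableEq ι] [DecidableEq R]

def CLab.isPen : CLab ι R → Bool
  | .pen => true
  | _ => false

/-- special item -/
def CLab.isSp : CLab ι R → Bool
  | .item _ (some _) => true
  | _ => false

/-- special item with head at row `i` (if it occurs in row `i`) -/
def CLab.isHd (i : ι) : CLab ι R → Bool
  | .item _ (some t) => decide (t ≠ i)
  | _ => false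

def cnt (f : ι → Bool) : ℕ := (univ.filter (fun j => f j = true)).card

/-- The tail condition for an item with support `S`. -/
def TailOK (τ : ι → Bool) (S : Finset ι) : Option ι → Prop
  | some k => k ∈ S ∧ ∀ l ∈ S, l ≠ k → τ l ≠ τ k
  | none => S.card = 2 ∧ ∀ i ∈ S, ∀ k ∈ S, i ≠ k → τ i ≠ τ k

instance (τ : ι → Bool) (S : Finset ι) (t : Option ι) : Decidable (TailOK τ S t) := by
  cases t <;> unfold TailOK <;> infer_instance

def ItemOK (τ : ι → Bool) (N : ι → ι → CLab ι R) (i j : ι) : CLab ι R → Prop
  | .item S t => i ∈ S ∧ j ∈ S ∧ TailOK τ S t ∧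
      ∀ k ∈ S, (∃ j', N k j' = .item S t) ∧ (∃ i', N i' k = .item S t)
  | _ => True

instance (τ : ι → Bool) (N : ι → ι → CLab ι R) (i j : ι) (c : CLab ι R) :
    Decidable (ItemOK τ N i j c) := by
  cases c <;> unfold ItemOK <;> infer_instance

/-- Structural conditions on the array at a vertex; `ra i`, `rb i` are the real colours used by
layer edges at `a_i`, `b_i`. -/
structure Struct (τ : ι → Bool) (ra rb : ι → Multiset R) (N : ι → ι → CLab ι R) : Prop where
  rinj : ∀ i j j', N i j = N i j' → j = j'
  cinj : ∀ j i i', N i j = N i' j → i = i'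
  nda : ∀ i, (ra i).Nodup
  ndb : ∀ i, (rb i).Nodup
  rowa : ∀ i q, (∃ j, N i j = .real q) ↔ q ∉ ra i
  rowb : ∀ j q, (∃ i, N i j = .real q) ↔ q ∉ rb j
  pen : ∀ i, (∃ j, N i j = .pen) ↔ (∃ j, N j i = .pen)
  item : ∀ i j, ItemOK τ N i j (N i j)

/-- `f + first` at row `i`. -/
def Fv (t : ι → RowIn R) (N : ι → ι → CLab ι R) (i : ι) : ℕ :=
  cnt (fun j => (N i j).isPen) + (t i).2.2.1 + cnt (fun j => (N i j).isHd i) + (t i).2.2.2.1

/-- `f + specials` at row `i`. -/
def Sv (t : ι → RowIn R) (N : ι → ι → CLab ι R) (i : ι) : ℕ :=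
  cnt (fun j => (N i j).isPen) + (t i).2.2.1 + cnt (fun j => (N i j).isSp) + (t i).2.2.2.2

/-- The local design at a vertex is good, `t` being the total contribution of the layers. -/
structure LG (τ : ι → Bool) (t : ι → RowIn R) (N : ι → ι → CLab ι R) : Prop where
  st : Struct τ (fun i => (t i).1) (fun i => (t i).2.1) N
  le : ∀ i, Fv t N i ≤ 1
  ge : ∀ i, 2 ≤ Sv t N i

/-- A self-sufficient design: `t` the total contribution of the layers without the `F`-edges,
`cov i` tells whether row `i` is covered by the precoloured matching. -/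
structure SS (τ : ι → Bool) (t : ι → RowIn R) (cov : ι → Bool) (N : ι → ι → CLab ι R) :
    Prop where
  st : Struct τ (fun i => (t i).1) (fun i => (t i).2.1) N
  le : ∀ i, Fv t N i ≤ 1
  ge : ∀ i, 1 ≤ Sv t N i
  need : ∀ i, cov i = true → 2 ≤ Sv t N i
  can : ∀ i, cov i = false → Fv t N i = 0

/-- The label of the cell of a vertex with a precoloured `K_{n,n}`-edge: a real colour or the
pendant colour. -/
def kcell : Option R → CLab ι R
  | none => .pen
  | some q => .real q

/-- The standard array of a vertex whose edge `a_i b_j` is precoloured (`t = none`: with a colour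
of `P`, `t = some q`: with the real colour `q`). -/
structure KArr (τ : ι → Bool) (i j : ι) (t : Option R) (N : ι → ι → CLab ι R) : Prop where
  st : Struct τ (fun _ => 0) (fun _ => 0) N
  cell : N i j = kcell t
  le : ∀ l, Fv (fun _ => 0) N l ≤ 1
  ge : ∀ l, 1 ≤ Sv (fun _ => 0) N l
  can : ∀ l, l ≠ i → l ≠ j → Fv (fun _ => 0) N l = 0
  can' : i ≠ j → t ≠ none → ∀ l, Fv (fun _ => 0) N l = 0

end

/-- Status of a row of a vertex: not covered by the precoloured matching, covered by an edge with
a colour of `P`, covered by an edge with real colour `q`. -/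
inductive RowSt (R : Type) where
  | dflt : RowSt R
  | low : RowSt R
  | high (q : R) : RowSt R
deriving DecidableEq

def RowSt.row {R : Type} : RowSt R → RowIn R
  | .dflt => 0
  | .low => (0, 0, 1, 0, 0)
  | .high q => ({q}, {q}, 0, 0, 0)

def RowSt.lab {R : Type} : RowSt R → GLab R Unit
  | .dflt => .norm
  | .low => .fix ()
  | .high q => .real q q

def RowSt.cov {R : Type} : RowSt R → Bool
  | .dflt => false
  | .low => true
  | .high _ => true

/-- The pair lemma: good designs exist for every pair of vertices matched by `F`. -/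
structure PairProp {ι R : Type} [Fintype ι] [DecidableEq ι] [DecidableEq R]
    (τ : ι → Bool) : Prop where
  nn : ∀ (st st' : ι → RowSt R) (fm : ι → Bool),
    (∀ i, fm i = true → st i = st' i ∧ st i ≠ .dflt) →
    ∃ (Nx Nw : ι → ι → CLab ι R) (fl : ι → GLab R Unit),
      (∀ i, fm i = true → fl i = (st i).lab) ∧
      (∀ i, fm i = false → ∀ c, fl i ≠ .fix c) ∧
      LG τ (fun i => (if fm i = true then 0 else (st i).row) + (fl i).row) Nx ∧
      LG τ (fun i => (if fm i = true then 0 else (st' i).row) + (fl i).flip.row) Nw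
  kn : ∀ (i j : ι) (t : Option R) (st : ι → RowSt R), (st i = .dflt ∨ st j = .dflt) →
    ∃ (Nx Nw : ι → ι → CLab ι R) (fl : ι → GLab R Unit),
      (∀ l c, fl l ≠ .fix c) ∧ Nx i j = kcell t ∧
      LG τ (fun l => (fl l).row) Nx ∧
      LG τ (fun l => (st l).row + (fl l).flip.row) Nw
  kk : ∀ (i j : ι) (t : Option R) (i' j' : ι) (t' : Option R), i ≠ i' → j ≠ j' →
    ∃ (Nx Nw : ι → ι → CLab ι R) (fl : ι → GLab R Unit),
      (∀ l c, fl l ≠ .fix c) ∧ Nx i j = kcell t ∧ Nw i' j' = kcell t' ∧
      LG τ (fun l => (fl l).row) Nx ∧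
      LG τ (fun l => (fl l).flip.row) Nw

/-! ### Precolourings and colourings in functional form -/

/-- A precolouring of `G □ K_{n,n}`: `kc v i j` is the colour of `(v,a_i)(v,b_j)`, `ga v w i` of
`(v,a_i)(w,a_i)`, `gb v w i` of `(v,b_i)(w,b_i)`. -/
structure PreM (V ι C : Type) where
  kc : V → ι → ι → Option C
  ga : V → V → ι → Option C
  gb : V → V → ι → Option C

/-- The precoloured edges form a distance-2 matching. -/
structure Sep {V ι C : Type} (G : SimpleGraph V) (M : PreM V ι C) : Prop where
  sa : ∀ v w i, M.ga v w i = M.ga w v i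
  sb : ∀ v w i, M.gb v w i = M.gb w v i
  adja : ∀ v w i, M.ga v w i ≠ none → G.Adj v w
  adjb : ∀ v w i, M.gb v w i ≠ none → G.Adj v w
  kk : ∀ v i j i' j', M.kc v i j ≠ none → M.kc v i' j' ≠ none → i = i' ∧ j = j'
  ka : ∀ v i j w k, M.kc v i j ≠ none → M.ga v w k = none
  kb : ∀ v i j w k, M.kc v i j ≠ none → M.gb v w k = none
  ab : ∀ v w i w' k, M.ga v w i ≠ none → M.gb v w' k = none
  na : ∀ v u w z i, M.ga v w i ≠ none → G.Adj v u → M.ga u z i ≠ none → u = w ∧ z = v
  nb : ∀ v u w z i, M.gb v w i ≠ none → G.Adj v u → M.gb u z i ≠ none → u = w ∧ z = v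
  aa : ∀ v w w' i, M.ga v w i ≠ none → M.ga v w' i ≠ none → w = w'
  bb : ∀ v w w' i, M.gb v w i ≠ none → M.gb v w' i ≠ none → w = w'
  kna : ∀ v i j w z, M.kc v i j ≠ none → G.Adj v w → M.ga w z i = none
  knb : ∀ v i j w z, M.kc v i j ≠ none → G.Adj v w → M.gb w z j = none
  kki : ∀ v i j w j', M.kc v i j ≠ none → G.Adj v w → M.kc w i j' = none
  kkj : ∀ v i j w i', M.kc v i j ≠ none → G.Adj v w → M.kc w i' j = none

/-- Proper edge colourings of `G □ K_{n,n}`. -/
structure Proper {V ι C : Type} (G : SimpleGraph V) (K : V → ι → ι → C)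
    (A B : V → V → ι → C) : Prop where
  sa : ∀ v w i, G.Adj v w → A v w i = A w v i
  sb : ∀ v w i, G.Adj v w → B v w i = B w v i
  kr : ∀ v i j j', K v i j = K v i j' → j = j'
  kc : ∀ v j i i', K v i j = K v i' j → i = i'
  aa : ∀ v w w' i, G.Adj v w → G.Adj v w' → A v w i = A v w' i → w = w'
  bb : ∀ v w w' i, G.Adj v w → G.Adj v w' → B v w i = B v w' i → w = w'
  ka : ∀ v w i j, G.Adj v w → K v i j ≠ A v w i
  kb : ∀ v w i j, G.Adj v w → K v i j ≠ B v w j

structure Extends {V ι C : Type} (M : PreM V ι C) (K : V → ι → ι → C)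
    (A B : V → V → ι → C) : Prop where
  kc : ∀ v i j c, M.kc v i j = some c → K v i j = c
  ga : ∀ v w i c, M.ga v w i = some c → A v w i = c
  gb : ∀ v w i c, M.gb v w i = some c → B v w i = c

/-- The colour of a cell, if it is fixed (`p` the pendant colour). -/
def CLab.col {ι R P : Type} (p : P) : CLab ι R → Option (R ⊕ P)
  | .real q => some (.inl q)
  | .pen => some (.inr p)
  | .item _ _ => none

/-- The colour of the `a`-copy. -/
def GLab.acol {R P : Type} : GLab R P → Option (R ⊕ P)
  | .fix c => some (.inr c)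
  | .real a _ => some (.inl a)
  | _ => none

/-- The colour of the `b`-copy. -/
def GLab.bcol {R P : Type} : GLab R P → Option (R ⊕ P)
  | .fix c => some (.inr c)
  | .real _ b => some (.inl b)
  | _ => none

/-- The array agrees with the precolouring of the `K_{n,n}`-edges at `v`. -/
def KAgree {V ι R P : Type} (M : PreM V ι (R ⊕ P)) (v : V) (N : ι → ι → CLab ι R) : Prop :=
  ∀ i j c, M.kc v i j = some c → (∃ p, c = .inr p ∧ N i j = .pen) ∨ (∃ q, c = .inl q ∧ N i j = .real q)

/-- The extension statement for regular graphs and `K_{n,n}`, `n = |ι|`. -/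
def Core (ι R : Type) [Fintype ι] [DecidableEq ι] [Fintype R] [DecidableEq R] : Prop :=
  ∀ (V : Type) [Fintype V] [DecidableEq V] (G : SimpleGraph V) [DecidableRel G.Adj]
    (side : V → Bool), (∀ v w, G.Adj v w → side v ≠ side w) → ∀ (d s : ℕ), 1 ≤ d →
    G.IsRegularOfDegree d → ∀ (P : Type) [Fintype P] [DecidableEq P],
    Fintype.card R + s = Fintype.card ι → Fintype.card P = d + s →
    ∀ M : PreM V ι (R ⊕ P), Sep G M →
    ∃ (K : V → ι → ι → R ⊕ P) (A B : V → V → ι → R ⊕ P), Proper G K A B ∧ Extends M K A B

/-- Latin squares. -/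
def IsLatin {ι κ : Type} (L : ι → ι → κ) : Prop :=
  (∀ i, Function.Injective (L i)) ∧ (∀ j, Function.Injective fun i => L i j)

end W3a
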