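import Pool.Agent.W_MP_3a8340_co.Assembly

open Finset

namespace W3a

theorem glue_flip_flip {R P : Type} (l : GLab R P) : l.flip.flip = l := by
  cases l <;> rfl

theorem glue_flip_acol {R P : Type} (l : GLab R P) : l.flip.acol = l.acol := by
  cases l <;> rfl

theorem glue_flip_bcol {R P : Type} (l : GLab R P) : l.flip.bcol = l.bcol := by
  cases l <;> rfl

/-- Gluing of pair designs along a perfect matching `F`. -/
theorem glue {V ι R P : Type} [Fintype V] [DecidableEq V] [Fintype ι] [DecidableEq ι]
    [Fintype R] [DecidableEq R] [Fintype P] [DecidableEq P]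
    (G : SimpleGraph V) [DecidableRel G.Adj] (side : V → Bool)
    (hside : ∀ v w, G.Adj v w → side v ≠ side w)
    (d s : ℕ) (hd : 1 ≤ d) (hreg : G.IsRegularOfDegree d)
    (hR : Fintype.card R + s = Fintype.card ι) (hP : Fintype.card P = d + s)
    (τ : ι → Bool) (F : V → V) (hF : ∀ v, G.Adj v (F v)) (hFF : ∀ v, F (F v) = v)
    (M : PreM V ι (R ⊕ P)) (hM : Sep G M)
    (g0 : V → V → ι → GLab R P) (hflip : ∀ v w i, G.Adj v w → g0 w v i = (g0 v w i).flip)
    (ha : ∀ v w i c, w ≠ F v → M.ga v w i = some c → (g0 v w i).acol = some c)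
    (hb : ∀ v w i c, w ≠ F v → M.gb v w i = some c → (g0 v w i).bcol = some c)
    (hpair : ∀ x, side x = false → ∃ (Nx Nw : ι → ι → CLab ι R) (fl : ι → GLab R P),
      LG τ (fun i => (∑ w ∈ (G.neighborFinset x).erase (F x), (g0 x w i).row) + (fl i).row) Nx ∧
      LG τ (fun i => (∑ w ∈ (G.neighborFinset (F x)).erase x, (g0 (F x) w i).row) +
        (fl i).flip.row) Nw ∧
      KAgree M x Nx ∧ KAgree M (F x) Nw ∧
      (∀ i c, M.ga x (F x) i = some c → (fl i).acol = some c) ∧
      (∀ i c, M.gb x (F x) i = some c → (fl i).bcol = some c)) :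
    ∃ (K : V → ι → ι → R ⊕ P) (A B : V → V → ι → R ⊕ P), Proper G K A B ∧ Extends M K A B := by
  classical
  have hnC : Nonempty (CLab ι R) := ⟨.pen⟩
  have hnG : Nonempty (GLab R P) := ⟨.norm⟩
  choose! Nx Nw fl h using hpair
  have hPpos : 0 < Fintype.card P := by omega
  obtain ⟨p0⟩ : Nonempty P := Fintype.card_pos_iff.1 hPpos
  have hsF : ∀ v, side v = true → side (F v) = false := by
    intro v hv
    have h1 := hside v (F v) (hF v)
    rw [hv] at h1
    cases h2 : side (F v)
    · rfl
    · exact absurd h2.symm h1
  let N : V → ι → ι → CLab ι R := fun v => if side v = false then Nx v else Nw (F v)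
  let g : V → V → ι → GLab R P := fun v w i =>
    if w = F v then (if side v = false then fl v i else (fl (F v) i).flip) else g0 v w i
  let penc : V → P := fun v =>
    if h : ∃ p, ∃ i j, M.kc v i j = some (Sum.inr p) then h.choose else p0
  have hN0 : ∀ v, side v = false → N v = Nx v := fun v hv => if_pos hv
  have hN1 : ∀ v, side v = true → N v = Nw (F v) := fun v hv => if_neg (by rw [hv]; decide)
  have hg0 : ∀ v i, side v = false → g v (F v) i = fl v i := by
    intro v i hv
    show (if F v = F v then (if side v = false then fl v i else (fl (F v) i).flip)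
      else g0 v (F v) i) = fl v i
    rw [if_pos rfl, if_pos hv]
  have hg1 : ∀ v i, side v = true → g v (F v) i = (fl (F v) i).flip := by
    intro v i hv
    show (if F v = F v then (if side v = false then fl v i else (fl (F v) i).flip)
      else g0 v (F v) i) = (fl (F v) i).flip
    rw [if_pos rfl, if_neg (by rw [hv]; decide)]
  have hg2 : ∀ v w i, w ≠ F v → g v w i = g0 v w i := fun v w i hw => if_neg hw
  have hpenc : ∀ v i j p, M.kc v i j = some (Sum.inr p) → penc v = p := by
    intro v i j p hp
    have hex : ∃ p, ∃ i j, M.kc v i j = some (Sum.inr p) := ⟨p, i, j, hp⟩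
    have e : penc v = hex.choose := dif_pos hex
    obtain ⟨i', j', hc⟩ := hex.choose_spec
    obtain ⟨e1, e2⟩ := hM.kk v i j i' j' (by rw [hp]; simp) (by rw [hc]; simp)
    subst e1 e2
    rw [e]
    have h1 : (some (Sum.inr p) : Option (R ⊕ P)) = some (Sum.inr hex.choose) := hp.symm.trans hc
    simpa using h1.symm
  have hflip' : ∀ v w i, G.Adj v w → g w v i = (g v w i).flip := by
    intro v w i hvw
    by_cases hw : w = F v
    · subst hw
      cases hv : side v
      · have hv1 : side (F v) = true := by
          have h1 := hside v (F v) (hF v)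
          rw [hv] at h1
          cases h2 : side (F v)
          · exact absurd h2.symm h1
          · rfl
        rw [hg0 v i hv]
        have h2 := hg1 (F v) i hv1
        rw [hFF v] at h2
        exact h2
      · have hv1 := hsF v hv
        rw [hg1 v i hv, glue_flip_flip]
        have h2 := hg0 (F v) i hv1
        rw [hFF v] at h2
        exact h2
    · have hw' : v ≠ F w := by
        intro h1
        apply hw
        rw [h1, hFF]
      rw [hg2 w v i hw', hg2 v w i hw]
      exact hflip v w i hvw
  have hsum : ∀ v i, ∑ w ∈ G.neighborFinset v, (g v w i).row =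
      (∑ w ∈ (G.neighborFinset v).erase (F v), (g0 v w i).row) + (g v (F v) i).row := by
    intro v i
    have hmem : F v ∈ G.neighborFinset v := by
      rw [SimpleGraph.mem_neighborFinset]
      exact hF v
    rw [← Finset.sum_erase_add _ _ hmem]
    congr 1
    refine Finset.sum_congr rfl fun w hw => ?_
    rw [hg2 v w i (Finset.ne_of_mem_erase hw)]
  have hLG : ∀ v, LG τ (fun i => ∑ w ∈ G.neighborFinset v, (g v w i).row) (N v) := by
    intro v
    simp only [hsum]
    cases hv : side v
    · rw [hN0 v hv]
      have h1 := (h v hv).1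
      simp only [hg0 v _ hv]
      exact h1
    · rw [hN1 v hv]
      have h1 := (h (F v) (hsF v hv)).2.1
      rw [hFF v] at h1
      simp only [hg1 v _ hv]
      exact h1
  obtain ⟨K, A, B, hprop, hK, hA, hB⟩ :=
    assembly G side hside d s hreg hR hP τ N g penc hflip' hLG
  have hagree : ∀ v, KAgree M v (N v) := by
    intro v
    cases hv : side v
    · rw [hN0 v hv]
      exact (h v hv).2.2.1
    · rw [hN1 v hv]
      have h1 := (h (F v) (hsF v hv)).2.2.2.1
      rw [hFF v] at h1
      exact h1
  refine ⟨K, A, B, hprop, ⟨?_, ?_, ?_⟩⟩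
  · intro v i j c hc
    apply hK
    rcases hagree v i j c hc with ⟨p, rfl, h2⟩ | ⟨q, rfl, h2⟩
    · rw [h2]
      show some (Sum.inr (penc v)) = some (Sum.inr p)
      rw [hpenc v i j p hc]
    · rw [h2]
      rfl
  · intro v w i c hc
    have hadj : G.Adj v w := hM.adja v w i (by rw [hc]; simp)
    apply hA v w i c hadj
    by_cases hw : w = F v
    · subst hw
      cases hv : side v
      · rw [hg0 v i hv]
        exact (h v hv).2.2.2.2.1 i c hc
      · rw [hg1 v i hv, glue_flip_acol]
        apply (h (F v) (hsF v hv)).2.2.2.2.1 i c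
        rw [hFF v, ← hM.sa]
        exact hc
    · rw [hg2 v w i hw]
      exact ha v w i c hw hc
  · intro v w i c hc
    have hadj : G.Adj v w := hM.adjb v w i (by rw [hc]; simp)
    apply hB v w i c hadj
    by_cases hw : w = F v
    · subst hw
      cases hv : side v
      · rw [hg0 v i hv]
        exact (h v hv).2.2.2.2.2 i c hc
      · rw [hg1 v i hv, glue_flip_bcol]
        apply (h (F v) (hsF v hv)).2.2.2.2.2 i c
        rw [hFF v, ← hM.sb]
        exact hc
    · rw [hg2 v w i hw]
      exact hb v w i c hw hc

end W3a
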