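import Pool.Agent.W_MP_3a8340_co.Defs

open Finset

namespace W3a

/-- The combinatorial core of `hall_step`: two modified bijections from a path of a permutation. -/
private theorem hallStep_aux {ι G : Type} [Fintype ι] [DecidableEq ι] [Fintype G] [DecidableEq G]
    [AddCommGroup G] (a c : ι → G) (ha : Function.Bijective a) (hc : Function.Bijective c)
    (x y : ι) (hxy : x ≠ y) (δ : G) (σ : Equiv.Perm ι)
    (hσ : ∀ j, c (σ j) = c x + δ + a y - a j)
    (S : Finset ι) (z pm o : ι) (hx : x ∉ S) (hy : y ∉ S)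
    (h2 : ∀ j ∈ S, σ.symm j ∈ S ∨ σ.symm j = y)
    (h3 : ∀ j ∈ S, σ j ∈ S ∨ σ j = z)
    (h4 : σ y ∈ S ∨ σ y = z) (h5 : pm ∈ S ∨ pm = y) (h5' : σ pm = z)
    (hzo : (z = x ∧ o = y) ∨ (z = y ∧ o = x)) :
    ∃ a' c' : ι → G, Function.Bijective a' ∧ Function.Bijective c' ∧
      ∀ j, c' j - a' j = (c j - a j) + (if j = x then δ else 0) - (if j = y then δ else 0) := by
  have hcard : Fintype.card ι = Fintype.card G := Fintype.card_of_bijective ha
  have hzS : z ∉ S := by rcases hzo with ⟨h, -⟩ | ⟨h, -⟩ <;> rw [h] <;> assumption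
  have hoS : o ∉ S := by rcases hzo with ⟨-, h⟩ | ⟨-, h⟩ <;> rw [h] <;> assumption
  have hoz : o ≠ z := by
    rcases hzo with ⟨h, h'⟩ | ⟨h, h'⟩ <;> rw [h, h']
    · exact hxy.symm
    · exact hxy
  have hzxy : z = x ∨ z = y := by rcases hzo with ⟨h, -⟩ | ⟨h, -⟩ <;> simp [h]
  have hoxy : o = x ∨ o = y := by rcases hzo with ⟨-, h⟩ | ⟨-, h⟩ <;> simp [h]
  -- the two maps
  let ta : ι → ι := fun j => if j ∈ S then σ.symm j else if j = y then pm else j
  let tc : ι → ι := fun j => if j ∈ S then σ j else if j = x then σ y else if j = y then o else j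
  have ta1 : ∀ j, j ∈ S → ta j = σ.symm j := fun j h => if_pos h
  have ta2 : ta y = pm := by show (if y ∈ S then _ else _) = _; rw [if_neg hy, if_pos rfl]
  have ta3 : ∀ j, j ∉ S → j ≠ y → ta j = j := fun j h h' => by
    show (if j ∈ S then _ else _) = _; rw [if_neg h, if_neg h']
  have tc1 : ∀ j, j ∈ S → tc j = σ j := fun j h => if_pos h
  have tc2 : tc x = σ y := by show (if x ∈ S then _ else _) = _; rw [if_neg hx, if_pos rfl]
  have tc3 : tc y = o := by
    show (if y ∈ S then _ else _) = _; rw [if_neg hy, if_neg hxy.symm, if_pos rfl]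
  have tc4 : ∀ j, j ∉ S → j ≠ x → j ≠ y → tc j = j := fun j h h' h'' => by
    show (if j ∈ S then _ else _) = _; rw [if_neg h, if_neg h', if_neg h'']
  have key1 : ∀ j j', j ∈ S → j' ∉ S → ta j = ta j' → False := by
    intro j j' hj hj' h
    rw [ta1 j hj] at h
    by_cases e : j' = y
    · rw [e, ta2] at h
      have : j = z := by rw [← h5', ← h, Equiv.apply_symm_apply]
      exact hzS (this ▸ hj)
    · rw [ta3 j' hj' e] at h
      rcases h2 j hj with h' | h'
      · exact hj' (h ▸ h')
      · exact e (h ▸ h')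
  have key2 : ∀ j, j ∉ S → j ≠ y → ta y = ta j → False := by
    intro j hj hjy h
    rw [ta2, ta3 j hj hjy] at h
    rcases h5 with h' | h'
    · exact hj (h ▸ h')
    · exact hjy (h ▸ h')
  have hta : Function.Injective ta := by
    intro j j' h
    by_cases e : j ∈ S
    · by_cases e' : j' ∈ S
      · rw [ta1 j e, ta1 j' e'] at h
        exact σ.symm.injective h
      · exact (key1 j j' e e' h).elim
    · by_cases e' : j' ∈ S
      · exact (key1 j' j e' e h.symm).elim
      · by_cases f : j = y
        · by_cases f' : j' = y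
          · rw [f, f']
          · rw [f] at h; exact (key2 j' e' f' h).elim
        · by_cases f' : j' = y
          · rw [f'] at h; exact (key2 j e f h.symm).elim
          · rw [ta3 j e f, ta3 j' e' f'] at h; exact h
  have key3 : ∀ k, (k ∈ S ∨ k = z) → k = o → False := by
    intro k hk hko
    rcases hk with h | h
    · exact hoS (hko ▸ h)
    · exact hoz (hko.symm.trans h)
  have key4 : ∀ k, (k ∈ S ∨ k = z) → ∀ j, j ∉ S → j ≠ x → j ≠ y → k = j → False := by
    intro k hk j hj hjx hjy h
    rcases hk with h' | h'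
    · exact hj (h ▸ h')
    · rw [h] at h'
      rcases hzxy with h'' | h''
      · exact hjx (h'.trans h'')
      · exact hjy (h'.trans h'')
  have key5 : ∀ j j', j ∈ S → j' ∉ S → tc j = tc j' → False := by
    intro j j' hj hj' h
    rw [tc1 j hj] at h
    by_cases e : j' = x
    · rw [e, tc2] at h
      exact hy (σ.injective h ▸ hj)
    · by_cases e' : j' = y
      · rw [e', tc3] at h
        exact key3 _ (h3 j hj) h
      · rw [tc4 j' hj' e e'] at h
        exact key4 _ (h3 j hj) j' hj' e e' h
  have key6 : ∀ j, j ∉ S → j ≠ x → tc x = tc j → False := by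
    intro j hj hjx h
    rw [tc2] at h
    by_cases e : j = y
    · rw [e, tc3] at h
      exact key3 _ h4 h
    · rw [tc4 j hj hjx e] at h
      exact key4 _ h4 j hj hjx e h
  have key7 : ∀ j, j ∉ S → j ≠ x → j ≠ y → tc y = tc j → False := by
    intro j hj hjx hjy h
    rw [tc3, tc4 j hj hjx hjy] at h
    rcases hoxy with h' | h'
    · exact hjx (h ▸ h')
    · exact hjy (h ▸ h')
  have htc : Function.Injective tc := by
    intro j j' h
    by_cases e : j ∈ S
    · by_cases e' : j' ∈ S
      · rw [tc1 j e, tc1 j' e'] at h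
        exact σ.injective h
      · exact (key5 j j' e e' h).elim
    · by_cases e' : j' ∈ S
      · exact (key5 j' j e' e h.symm).elim
      · by_cases f : j = x
        · by_cases f' : j' = x
          · rw [f, f']
          · rw [f] at h; exact (key6 j' e' f' h).elim
        · by_cases f' : j' = x
          · rw [f'] at h; exact (key6 j e f h.symm).elim
          · by_cases g : j = y
            · by_cases g' : j' = y
              · rw [g, g']
              · rw [g] at h; exact (key7 j' e' f' g' h).elim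
            · by_cases g' : j' = y
              · rw [g'] at h; exact (key7 j e f g h.symm).elim
              · rw [tc4 j e f g, tc4 j' e' f' g'] at h; exact h
  refine ⟨a ∘ ta, c ∘ tc, ?_, ?_, ?_⟩
  · exact (Fintype.bijective_iff_injective_and_card _).2 ⟨ha.1.comp hta, hcard⟩
  · exact (Fintype.bijective_iff_injective_and_card _).2 ⟨hc.1.comp htc, hcard⟩
  · intro j
    show c (tc j) - a (ta j) = _
    by_cases e : j ∈ S
    · have hjx : j ≠ x := fun h => hx (h ▸ e)
      have hjy : j ≠ y := fun h => hy (h ▸ e)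
      rw [tc1 j e, ta1 j e, if_neg hjx, if_neg hjy, hσ j]
      have h := hσ (σ.symm j)
      rw [Equiv.apply_symm_apply] at h
      rw [h]
      abel
    · by_cases f : j = x
      · subst f
        rw [tc2, ta3 j e hxy, if_pos rfl, if_neg hxy, hσ y]
        abel
      · by_cases g : j = y
        · subst g
          rw [tc3, ta2, if_neg f, if_pos rfl]
          have h := hσ pm
          rw [h5'] at h
          have h' : a pm = c x + δ + a j - c z := by rw [h]; abel
          have h'' : c o + c z = c x + c j := by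
            rcases hzo with ⟨u, v⟩ | ⟨u, v⟩ <;> rw [u, v]
            exact add_comm _ _
          rw [h']
          have h3' : c o = c x + c j - c z := by rw [← h'']; abel
          rw [h3']
          abel
        · rw [tc4 j e f g, ta3 j e g, if_neg f, if_neg g]
          abel

/-- One step of M. Hall's theorem: the differences of two bijections can be changed at two
entries, keeping the sum. -/
theorem hall_step {ι G : Type} [Fintype ι] [DecidableEq ι] [Fintype G] [DecidableEq G]
    [AddCommGroup G] (a c : ι → G) (ha : Function.Bijective a) (hc : Function.Bijective c)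
    (x y : ι) (hxy : x ≠ y) (δ : G) :
    ∃ a' c' : ι → G, Function.Bijective a' ∧ Function.Bijective c' ∧
      ∀ j, c' j - a' j = (c j - a j) + (if j = x then δ else 0) - (if j = y then δ else 0) := by
  let σ : Equiv.Perm ι := (Equiv.ofBijective a ha).trans
    ((Equiv.subLeft (c x + δ + a y)).trans (Equiv.ofBijective c hc).symm)
  have hσ : ∀ j, c (σ j) = c x + δ + a y - a j := fun j =>
    Equiv.ofBijective_apply_symm_apply c hc (c x + δ + a y - a j)
  have hex : ∃ m : ℕ, (σ ^ (m + 1)) y = x ∨ (σ ^ (m + 1)) y = y := by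
    refine ⟨orderOf σ - 1, Or.inr ?_⟩
    have h1 : 0 < orderOf σ := orderOf_pos σ
    have h2 : orderOf σ - 1 + 1 = orderOf σ := by omega
    rw [h2, pow_orderOf_eq_one]
    rfl
  obtain ⟨m, hm, hmin⟩ : ∃ m : ℕ, ((σ ^ (m + 1)) y = x ∨ (σ ^ (m + 1)) y = y) ∧
      ∀ t < m, ¬ ((σ ^ (t + 1)) y = x ∨ (σ ^ (t + 1)) y = y) :=
    ⟨Nat.find hex, Nat.find_spec hex, fun t ht => Nat.find_min hex ht⟩
  have hstep : ∀ t : ℕ, σ ((σ ^ t) y) = (σ ^ (t + 1)) y := fun t => by
    rw [pow_succ' σ t]; rfl
  let S : Finset ι := (Finset.range m).image (fun t => (σ ^ (t + 1)) y)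
  have hS : ∀ j, j ∈ S ↔ ∃ t < m, (σ ^ (t + 1)) y = j := by
    intro j
    simp only [S, Finset.mem_image, Finset.mem_range]
  have hx : x ∉ S := by
    rw [hS]; rintro ⟨t, ht, h⟩; exact hmin t ht (Or.inl h)
  have hy : y ∉ S := by
    rw [hS]; rintro ⟨t, ht, h⟩; exact hmin t ht (Or.inr h)
  have hgen : ∀ t ≤ m, (σ ^ t) y ∈ S ∨ (σ ^ t) y = y := by
    intro t ht
    rcases Nat.eq_zero_or_pos t with h | h
    · right; rw [h, pow_zero]; rfl
    · left
      rw [hS]
      exact ⟨t - 1, by omega, by rw [show t - 1 + 1 = t by omega]⟩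
  have hgen' : ∀ t ≤ m, (σ ^ (t + 1)) y ∈ S ∨ (σ ^ (t + 1)) y = (σ ^ (m + 1)) y := by
    intro t ht
    rcases Nat.lt_or_ge t m with h | h
    · left; rw [hS]; exact ⟨t, h, rfl⟩
    · right; rw [show t = m by omega]
  have h2 : ∀ j ∈ S, σ.symm j ∈ S ∨ σ.symm j = y := by
    intro j hj
    rw [hS] at hj
    obtain ⟨t, ht, rfl⟩ := hj
    rw [← hstep t, Equiv.symm_apply_apply]
    exact hgen t ht.le
  have h3 : ∀ j ∈ S, σ j ∈ S ∨ σ j = (σ ^ (m + 1)) y := by
    intro j hj
    rw [hS] at hj
    obtain ⟨t, ht, rfl⟩ := hj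
    rw [hstep (t + 1)]
    exact hgen' (t + 1) ht
  have h4 : σ y ∈ S ∨ σ y = (σ ^ (m + 1)) y := by
    have h := hgen' 0 (Nat.zero_le _)
    rw [zero_add, pow_one] at h
    exact h
  have h5 : (σ ^ m) y ∈ S ∨ (σ ^ m) y = y := hgen m le_rfl
  have h5' : σ ((σ ^ m) y) = (σ ^ (m + 1)) y := hstep m
  rcases hm with hm | hm
  · exact hallStep_aux a c ha hc x y hxy δ σ hσ S _ _ y hx hy h2 h3 h4 h5 h5' (Or.inl ⟨hm, rfl⟩)
  · exact hallStep_aux a c ha hc x y hxy δ σ hσ S _ _ x hx hy h2 h3 h4 h5 h5' (Or.inr ⟨hm, rfl⟩)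

/-- M. Hall's theorem (1952): a zero-sum family indexed by a set of size `|G|` is the family of
differences of two bijections. -/
theorem hall_sum {ι G : Type} [Fintype ι] [DecidableEq ι] [Fintype G] [DecidableEq G]
    [AddCommGroup G] (hcard : Fintype.card ι = Fintype.card G) (b : ι → G)
    (hb : ∑ j, b j = 0) :
    ∃ a c : ι → G, Function.Bijective a ∧ Function.Bijective c ∧ ∀ j, c j - a j = b j := by
  have hpos : 0 < Fintype.card ι := by rw [hcard]; exact Fintype.card_pos
  obtain ⟨y⟩ : Nonempty ι := Fintype.card_pos_iff.1 hpos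
  have key : ∀ s : Finset ι, y ∉ s → ∃ a c : ι → G, Function.Bijective a ∧ Function.Bijective c ∧
      (∀ j ∈ s, c j - a j = b j) ∧ (∀ j, j ∉ s → j ≠ y → c j - a j = 0) ∧
      c y - a y = - ∑ j ∈ s, b j := by
    intro s
    induction s using Finset.induction_on with
    | empty =>
      intro _
      let e := Fintype.equivOfCardEq hcard
      exact ⟨e, e, e.bijective, e.bijective, fun j hj => absurd hj (Finset.notMem_empty _),
        fun j _ _ => sub_self _, by simp⟩
    | insert k s hk ih =>
      intro hy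
      have hyk : k ≠ y := fun h => hy (by rw [h]; exact Finset.mem_insert_self _ _)
      have hys : y ∉ s := fun h => hy (Finset.mem_insert_of_mem h)
      obtain ⟨a, c, ha, hc, h1, h2, h3⟩ := ih hys
      obtain ⟨a', c', ha', hc', h⟩ := hall_step a c ha hc k y hyk (b k)
      refine ⟨a', c', ha', hc', ?_, ?_, ?_⟩
      · intro j hj
        rw [Finset.mem_insert] at hj
        rcases hj with rfl | hj
        · rw [h, if_pos rfl, if_neg hyk, h2 j hk hyk]
          abel
        · have hjk : j ≠ k := fun e => hk (e ▸ hj)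
          have hjy : j ≠ y := fun e => hys (e ▸ hj)
          rw [h, if_neg hjk, if_neg hjy, h1 j hj]
          abel
      · intro j hj hjy
        rw [Finset.mem_insert, not_or] at hj
        rw [h, if_neg hj.1, if_neg hjy, h2 j hj.2 hjy]
        abel
      · rw [h, if_neg hyk.symm, if_pos rfl, h3, Finset.sum_insert hk]
        abel
  obtain ⟨a, c, ha, hc, h1, -, h3⟩ := key (Finset.univ.erase y) (Finset.notMem_erase _ _)
  refine ⟨a, c, ha, hc, fun j => ?_⟩
  by_cases hj : j = y
  · rw [hj, h3]
    have h := Finset.add_sum_erase Finset.univ b (Finset.mem_univ y)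
    rw [hb] at h
    exact (eq_neg_of_add_eq_zero_left h).symm
  · exact h1 j (Finset.mem_erase.2 ⟨hj, Finset.mem_univ _⟩)

/-- Latin squares with a prescribed zero-sum diagonal. -/
theorem latin_of_sum {ι κ G : Type} [Fintype ι] [DecidableEq ι] [Fintype κ] [DecidableEq κ]
    [Fintype G] [DecidableEq G] [AddCommGroup G]
    (hcard : Fintype.card ι = Fintype.card G) (e : κ ≃ G) (q : ι → κ)
    (hq : ∑ j, e (q j) = 0) :
    ∃ L : ι → ι → κ, IsLatin L ∧ ∀ l, L l l = q l := by
  obtain ⟨a, c, ha, hc, h⟩ := hall_sum hcard (fun j => e (q j)) hq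
  refine ⟨fun i j => e.symm (c j - a i), ⟨?_, ?_⟩, ?_⟩
  · intro i j j' hjj
    exact hc.1 (sub_left_injective (e.symm.injective hjj))
  · intro j i i' hii
    exact ha.1 (sub_right_injective (e.symm.injective hii))
  · intro l
    show e.symm (c l - a l) = q l
    rw [h l, Equiv.symm_apply_apply]

end W3a
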