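import Pool.Agent.W_MP_3a8340_co.Defs
import Pool.Agent.W_MP_66dfad_lc_h47.Konig

open Finset

namespace W3a

section gs

variable {U E P : Type} [DecidableEq U] [DecidableEq E] [DecidableEq P]

/-- ranks which are injective at every row and vanish at two rows of the same class -/
structure GsRank (cls : U → Bool) (rows : E → Finset U) (rk : U → E → ℕ) : Prop where
  inj : ∀ u e e', u ∈ rows e → u ∈ rows e' → rk u e = rk u e' → e = e'
  two : ∀ e u w, u ∈ rows e → w ∈ rows e → u ≠ w → cls u = cls w → rk u e = 0

/-- existence of kernels -/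
theorem gs_kernel {cls : U → Bool} {rows : E → Finset U} {rk : U → E → ℕ} (h : GsRank cls rows rk)
    (S : Finset E) : ∃ K ⊆ S, (∀ e ∈ K, ∀ e' ∈ K, ∀ u, u ∈ rows e → u ∈ rows e' → e = e') ∧
      ∀ e ∈ S, e ∉ K → ∃ k ∈ K, ∃ u, u ∈ rows e ∧ u ∈ rows k ∧ rk u k < rk u e := by
  classical
  obtain ⟨Pr, hPr⟩ : ∃ Pr : Finset E → Finset E, ∀ R e, e ∈ Pr R ↔ (e ∈ S ∧ e ∉ R) ∧
      ∀ u ∈ rows e, cls u = false → ∀ e1, e1 ∈ S → e1 ∉ R → u ∈ rows e1 → rk u e ≤ rk u e1 :=
    ⟨fun R => S.filter fun e => e ∉ R ∧ ∀ u ∈ rows e, cls u = false → ∀ e1, e1 ∈ S → e1 ∉ R →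
      u ∈ rows e1 → rk u e ≤ rk u e1, fun R e => by simp only [mem_filter, and_assoc]⟩
  obtain ⟨Gd, hGd⟩ : ∃ Gd : Finset E → Prop, ∀ R, Gd R ↔ ∀ f ∈ R, ∃ g ∈ Pr R, ∃ w, w ∈ rows g ∧
      w ∈ rows f ∧ cls w = true ∧ rk w g < rk w f := ⟨_, fun R => Iff.rfl⟩
  obtain ⟨R, hR, hmax⟩ := exists_max_image (S.powerset.filter Gd) card
    ⟨∅, by
      rw [mem_filter, mem_powerset]
      refine ⟨empty_subset _, (hGd _).2 fun f hf => ?_⟩
      exact absurd hf (notMem_empty f)⟩
  rw [mem_filter, mem_powerset] at hR
  obtain ⟨hRS, hRg⟩ := hR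
  rw [hGd] at hRg
  -- two proposals do not share a row of class true
  have key : ∀ e ∈ Pr R, ∀ e' ∈ Pr R, ∀ w, w ∈ rows e → w ∈ rows e' → cls w = true →
      ¬ rk w e' < rk w e := by
    intro e he e' he' w hw hw' hc hlt
    have hne : e' ≠ e := by
      rintro rfl
      exact lt_irrefl _ hlt
    have heR : e ∉ R := ((hPr R e).1 he).1.2
    have hsub : ∀ g ∈ Pr R, g ≠ e → g ∈ Pr (insert e R) := by
      intro g hg hge
      rw [hPr] at hg ⊢
      refine ⟨⟨hg.1.1, by rw [mem_insert, not_or]; exact ⟨hge, hg.1.2⟩⟩, fun u hu hcu e1 he1 he1' hu1 => ?_⟩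
      exact hg.2 u hu hcu e1 he1 (fun h' => he1' (mem_insert_of_mem h')) hu1
    have hgood : Gd (insert e R) := by
      rw [hGd]
      intro f hf
      rcases mem_insert.1 hf with rfl | hf
      · exact ⟨e', hsub e' he' hne, w, hw', hw, hc, hlt⟩
      · obtain ⟨g, hg, v, hvg, hvf, hvc, hvl⟩ := hRg f hf
        by_cases hge : g = e
        · subst hge
          by_cases hvw : v = w
          · subst hvw
            exact ⟨e', hsub e' he' hne, v, hw', hvf, hc, hlt.trans hvl⟩
          · have h0 := h.two g w v hw hvg (Ne.symm hvw) (hc.trans hvc.symm)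
            rw [h0] at hlt
            exact absurd hlt (Nat.not_lt_zero _)
        · exact ⟨g, hsub g hg hge, v, hvg, hvf, hvc, hvl⟩
    have h1 := hmax (insert e R) (by
      rw [mem_filter, mem_powerset]
      exact ⟨insert_subset ((hPr R e).1 he).1.1 hRS, hgood⟩)
    rw [card_insert_of_notMem heR] at h1
    omega
  refine ⟨Pr R, fun e he => ((hPr R e).1 he).1.1, ?_, ?_⟩
  · intro e he e' he' u hu hu'
    cases hc : cls u with
    | false =>
      have h1 := ((hPr R e).1 he).2 u hu hc e' ((hPr R e').1 he').1.1 ((hPr R e').1 he').1.2 hu'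
      have h2 := ((hPr R e').1 he').2 u hu' hc e ((hPr R e).1 he).1.1 ((hPr R e).1 he).1.2 hu
      exact h.inj u e e' hu hu' (le_antisymm h1 h2)
    | true =>
      have h1 := key e he e' he' u hu hu' hc
      have h2 := key e' he' e he u hu' hu hc
      exact h.inj u e e' hu hu' (by omega)
  · intro e he heP
    by_cases heR : e ∈ R
    · obtain ⟨g, hg, w, hwg, hwe, _, hl⟩ := hRg e heR
      exact ⟨g, hg, w, hwe, hwg, hl⟩
    · rw [hPr] at heP
      have h1 : ∃ u ∈ rows e, cls u = false ∧ ∃ e1, e1 ∈ S ∧ e1 ∉ R ∧ u ∈ rows e1 ∧ rk u e1 < rk u e := by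
        by_contra hcon
        apply heP
        refine ⟨⟨he, heR⟩, fun u hu hcu e1 he1 he1' hu1 => ?_⟩
        by_contra hlt
        exact hcon ⟨u, hu, hcu, e1, he1, he1', hu1, not_le.1 hlt⟩
      obtain ⟨u, hu, hcu, e1, he1, he1', hu1, hlt⟩ := h1
      obtain ⟨b, hb, hbmin⟩ := exists_min_image (S.filter fun x => x ∉ R ∧ u ∈ rows x) (fun x => rk u x)
        ⟨e1, by rw [mem_filter]; exact ⟨he1, he1', hu1⟩⟩
      rw [mem_filter] at hb
      have hb1 := hbmin e1 (by rw [mem_filter]; exact ⟨he1, he1', hu1⟩)
      refine ⟨b, ?_, u, hu, hb.2.2, lt_of_le_of_lt hb1 hlt⟩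
      rw [hPr]
      refine ⟨⟨hb.1, hb.2.1⟩, fun v hv hcv e2 he2 he2' hv2 => ?_⟩
      by_cases hvu : v = u
      · subst hvu
        exact hbmin e2 (by rw [mem_filter]; exact ⟨he2, he2', hv2⟩)
      · rw [h.two b v u hv hb.2.2 hvu (hcv.trans hcu.symm)]
        exact Nat.zero_le _

/-- Galvin's argument -/
theorem gs_galvin [Nonempty P] {cls : U → Bool} {rows : E → Finset U} {rk : U → E → ℕ}
    (h : GsRank cls rows rk) (n : ℕ) : ∀ (S : Finset E) (L : E → Finset P), S.card = n →
      (∀ e ∈ S, ∑ u ∈ rows e, (S.filter fun e' => u ∈ rows e' ∧ rk u e' < rk u e).card < (L e).card) →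
      ∃ c : E → P, (∀ e ∈ S, c e ∈ L e) ∧
        ∀ e ∈ S, ∀ e' ∈ S, ∀ u, u ∈ rows e → u ∈ rows e' → c e = c e' → e = e' := by
  classical
  induction n using Nat.strong_induction_on with
  | _ n ih =>
    intro S L hn hS
    rcases S.eq_empty_or_nonempty with rfl | ⟨e0, he0⟩
    · exact ⟨fun _ => Classical.arbitrary P, fun e he => absurd he (notMem_empty e),
        fun e he => absurd he (notMem_empty e)⟩
    · have h0 : 0 < (L e0).card := lt_of_le_of_lt (Nat.zero_le _) (hS e0 he0)
      obtain ⟨c0, hc0⟩ := card_pos.1 h0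
      obtain ⟨K, hKS, hKd, hKk⟩ := gs_kernel h (S.filter fun e => c0 ∈ L e)
      have hKS' : ∀ e ∈ K, e ∈ S ∧ c0 ∈ L e := fun e he => mem_filter.1 (hKS he)
      have hKne : K.Nonempty := by
        by_cases h1 : e0 ∈ K
        · exact ⟨e0, h1⟩
        · obtain ⟨k, hk, _⟩ := hKk e0 (mem_filter.2 ⟨he0, hc0⟩) h1
          exact ⟨k, hk⟩
      have hcard : (S \ K).card < n := by
        rw [← hn]
        refine card_lt_card ?_
        rw [ssubset_iff_of_subset sdiff_subset]
        obtain ⟨k, hk⟩ := hKne
        exact ⟨k, (hKS' k hk).1, fun h' => (mem_sdiff.1 h').2 hk⟩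
      obtain ⟨c', hc1, hc2⟩ := ih _ hcard (S \ K) (fun e => (L e).erase c0) rfl (by
        intro e he
        rw [mem_sdiff] at he
        have hle : ∀ u ∈ rows e, ((S \ K).filter fun e' => u ∈ rows e' ∧ rk u e' < rk u e).card ≤
            (S.filter fun e' => u ∈ rows e' ∧ rk u e' < rk u e).card := fun u _ =>
          card_le_card (filter_subset_filter _ sdiff_subset)
        have hSe := hS e he.1
        by_cases hce : c0 ∈ L e
        · rw [card_erase_of_mem hce]
          obtain ⟨k, hk, u, hue, huk, hl⟩ := hKk e (mem_filter.2 ⟨he.1, hce⟩) he.2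
          have hlt : ∑ u ∈ rows e, ((S \ K).filter fun e' => u ∈ rows e' ∧ rk u e' < rk u e).card <
              ∑ u ∈ rows e, (S.filter fun e' => u ∈ rows e' ∧ rk u e' < rk u e).card := by
            refine sum_lt_sum hle ⟨u, hue, card_lt_card ?_⟩
            rw [ssubset_iff_of_subset (filter_subset_filter _ sdiff_subset)]
            refine ⟨k, mem_filter.2 ⟨(hKS' k hk).1, huk, hl⟩, fun h' => ?_⟩
            exact (mem_sdiff.1 (mem_filter.1 h').1).2 hk
          omega
        · rw [erase_eq_of_notMem hce]
          exact lt_of_le_of_lt (sum_le_sum hle) hSe)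
      refine ⟨fun e => if e ∈ K then c0 else c' e, ?_, ?_⟩
      · intro e he
        by_cases heK : e ∈ K
        · simp only [heK, if_true]
          exact (hKS' e heK).2
        · simp only [heK, if_false]
          exact mem_of_mem_erase (hc1 e (mem_sdiff.2 ⟨he, heK⟩))
      · intro e he e' he' u hu hu' hcc
        by_cases heK : e ∈ K <;> by_cases heK' : e' ∈ K
        · exact hKd e heK e' heK' u hu hu'
        · simp only [heK, heK', if_true, if_false] at hcc
          have h1 := hc1 e' (mem_sdiff.2 ⟨he', heK'⟩)
          rw [← hcc] at h1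
          exact absurd h1 (notMem_erase c0 _)
        · simp only [heK, heK', if_true, if_false] at hcc
          have h1 := hc1 e (mem_sdiff.2 ⟨he, heK⟩)
          rw [hcc] at h1
          exact absurd h1 (notMem_erase c0 _)
        · simp only [heK, heK', if_false] at hcc
          exact hc2 e (mem_sdiff.2 ⟨he, heK⟩) e' (mem_sdiff.2 ⟨he', heK'⟩) u hu hu' hcc

end gs

/-- König's colouring of the normal items -/
theorem gs_chi {U E : Type} [Fintype U] [Fintype E] [Nonempty E] [DecidableEq U] [DecidableEq E]
    (cls : U → Bool) (rows : E → Finset U) (tail : E → Option U)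
    (hn : ∀ e, tail e = none → ∃ u w, cls u = false ∧ cls w = true ∧ rows e = {u, w})
    (hinj : ∀ e e', tail e = none → tail e' = none → rows e = rows e' → e = e') (r : ℕ)
    (h2 : ∀ u, (univ.filter fun e => u ∈ rows e ∧ tail e = none).card ≤ r) :
    ∃ chi : E → ℕ, (∀ e, tail e = none → chi e < r) ∧
      ∀ e e' u, tail e = none → tail e' = none → u ∈ rows e → u ∈ rows e' → chi e = chi e' → e = e' := by
  classical
  let X := {u : U // cls u = false}
  let Y := {w : U // cls w = true}
  let Ed : X → Y → Prop := fun u w => ∃ e, tail e = none ∧ rows e = {u.1, w.1}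
  have hne : ∀ (u : X) (w : Y), u.1 ≠ w.1 := by
    intro u w huw
    have h1 := u.2
    rw [huw, w.2] at h1
    exact absurd h1 (by simp)
  obtain ⟨c, hc1, hc2, hc3, _, _⟩ := Pool.Agent.W_MP_66dfad_lc_h47.konig Ed r (by
    intro x
    refine le_trans ?_ (h2 x.1)
    have h1 : ∀ y ∈ univ.filter (fun y => Ed x y), ∃ e, tail e = none ∧ rows e = {x.1, y.1} := fun y hy =>
      (mem_filter.1 hy).2
    choose! f hf using h1
    refine card_le_card_of_injOn f ?_ ?_
    · intro y hy
      have h3 := hf y hy
      simp only [coe_filter, mem_univ, true_and, Set.mem_setOf_eq]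
      exact ⟨by rw [h3.2]; simp, h3.1⟩
    · intro y hy y' hy' hyy
      have h3 := hf y hy
      have h4 := hf y' hy'
      rw [hyy, h4.2] at h3
      have h5 : y'.1 ∈ ({x.1, y.1} : Finset U) := by rw [← h3.2]; simp
      rw [mem_insert, mem_singleton] at h5
      rcases h5 with h5 | h5
      · exact absurd h5.symm (hne x y')
      · exact (Subtype.ext h5).symm) (by
    intro y
    refine le_trans ?_ (h2 y.1)
    have h1 : ∀ x ∈ univ.filter (fun x => Ed x y), ∃ e, tail e = none ∧ rows e = {x.1, y.1} := fun x hx =>
      (mem_filter.1 hx).2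
    choose! f hf using h1
    refine card_le_card_of_injOn f ?_ ?_
    · intro x hx
      have h3 := hf x hx
      simp only [coe_filter, mem_univ, true_and, Set.mem_setOf_eq]
      exact ⟨by rw [h3.2]; simp, h3.1⟩
    · intro x hx x' hx' hxx
      have h3 := hf x hx
      have h4 := hf x' hx'
      rw [hxx, h4.2] at h3
      have h5 : x'.1 ∈ ({x.1, y.1} : Finset U) := by rw [← h3.2]; simp
      rw [mem_insert, mem_singleton] at h5
      rcases h5 with h5 | h5
      · exact (Subtype.ext h5).symm
      · exact absurd h5 (hne x' y))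
  have h3 : ∀ e, ∃ p : X × Y ⊕ Unit, tail e = none → ∃ q, p = Sum.inl q ∧ rows e = {q.1.1, q.2.1} := by
    intro e
    by_cases he : tail e = none
    · obtain ⟨u, w, hu, hw, hr⟩ := hn e he
      exact ⟨Sum.inl (⟨u, hu⟩, ⟨w, hw⟩), fun _ => ⟨_, rfl, hr⟩⟩
    · exact ⟨Sum.inr (), fun h' => absurd h' he⟩
  choose p hp using h3
  refine ⟨fun e => match p e with
    | Sum.inl q => c q.1 q.2
    | Sum.inr _ => 0, ?_, ?_⟩
  · intro e he
    obtain ⟨q, hq, hr⟩ := hp e he
    simp only [hq]
    exact hc1 _ _ ⟨e, he, hr⟩
  · intro e e' u he he' hu hu' hcc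
    obtain ⟨q, hq, hr⟩ := hp e he
    obtain ⟨q', hq', hr'⟩ := hp e' he'
    simp only [hq, hq'] at hcc
    rw [hr, mem_insert, mem_singleton] at hu
    rw [hr', mem_insert, mem_singleton] at hu'
    have hE : Ed q.1 q.2 := ⟨e, he, hr⟩
    have hE' : Ed q'.1 q'.2 := ⟨e', he', hr'⟩
    have hqq : q.1 = q'.1 ∨ q.2 = q'.2 := by
      rcases hu with hu | hu <;> rcases hu' with hu' | hu'
      · exact Or.inl (Subtype.ext (hu.symm.trans hu'))
      · exact absurd (hu.symm.trans hu') (hne _ _)
      · exact absurd (hu'.symm.trans hu) (hne _ _)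
      · exact Or.inr (Subtype.ext (hu.symm.trans hu'))
    have hfin : q = q' := by
      rcases hqq with h4 | h4
      · rw [← h4] at hcc hE'
        exact Prod.ext h4 (hc2 _ _ _ hE hE' hcc)
      · rw [← h4] at hcc hE'
        exact Prod.ext (hc3 _ _ _ hE hE' hcc) h4
    exact hinj e e' he he' (by rw [hr, hr', hfin])

/-- The Galvin-type theorem for items. -/
theorem gs_theorem {U E P : Type} [Fintype U] [Fintype E] [Fintype P]
    [DecidableEq U] [DecidableEq E] [DecidableEq P]
    (cls : U → Bool) (rows : E → Finset U) (tail : E → Option U)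
    (hn : ∀ e, tail e = none → ∃ u w, cls u = false ∧ cls w = true ∧ rows e = {u, w})
    (hs : ∀ e t, tail e = some t → t ∈ rows e ∧ ∀ u ∈ rows e, u ≠ t → cls u ≠ cls t)
    (hinj : ∀ e e', tail e = none → tail e' = none → rows e = rows e' → e = e')
    (fx : U → Finset P)
    (h1 : ∀ u, (fx u).card +
      (univ.filter fun e => u ∈ rows e ∧ tail e ≠ none ∧ tail e ≠ some u).card ≤ 1)
    (h2 : ∀ u, (univ.filter fun e => u ∈ rows e ∧ tail e = none).card + 2 ≤ Fintype.card P)
    (h3 : ∀ u, (univ.filter fun e => u ∈ rows e).card + (fx u).card ≤ Fintype.card P) :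
    ∃ c : E → P, (∀ e, ∀ u ∈ rows e, c e ∉ fx u) ∧
      (∀ e e' u, u ∈ rows e → u ∈ rows e' → c e = c e' → e = e') := by
  classical
  rcases isEmpty_or_nonempty E with hE | hE
  · exact ⟨fun e => hE.elim e, fun e => hE.elim e, fun e => hE.elim e⟩
  -- every item has a row, hence `P` is not empty
  have hrow : ∀ e, ∃ u, u ∈ rows e := by
    intro e
    cases ht : tail e with
    | none =>
      obtain ⟨u, w, _, _, hr⟩ := hn e ht
      exact ⟨u, by rw [hr]; simp⟩
    | some t => exact ⟨t, (hs e t ht).1⟩
  obtain ⟨u0, _⟩ := hrow (Classical.arbitrary E)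
  have hP2 : 2 ≤ Fintype.card P := by
    have := h2 u0
    omega
  have hPne : Nonempty P := Fintype.card_pos_iff.1 (by omega)
  obtain ⟨r, hr⟩ : ∃ r, Fintype.card P = r + 2 := ⟨Fintype.card P - 2, by omega⟩
  obtain ⟨chi, hchi1, hchi2⟩ := gs_chi cls rows tail hn hinj r (fun u => by
    have := h2 u
    omega)
  let idx : E → ℕ := fun e => (Fintype.equivFin E e : ℕ)
  have hidx : ∀ e e', idx e = idx e' → e = e' := fun e e' h' =>
    (Fintype.equivFin E).injective (Fin.ext h')
  let rk : U → E → ℕ := fun u e => match tail e with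
    | none => 1 + (if cls u = false then r - 1 - chi e else chi e)
    | some t => if t = u then r + 1 + idx e else 0
  have rk_none : ∀ u e, tail e = none → rk u e = 1 + (if cls u = false then r - 1 - chi e else chi e) := by
    intro u e he
    simp only [rk, he]
  have rk_tail : ∀ u e, tail e = some u → rk u e = r + 1 + idx e := by
    intro u e he
    simp only [rk, he, if_true]
  have rk_head : ∀ u e, tail e ≠ none → tail e ≠ some u → rk u e = 0 := by
    intro u e he he'
    cases ht : tail e with
    | none => exact absurd ht he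
    | some t =>
      have htu : t ≠ u := fun h' => he' (by rw [ht, h'])
      simp only [rk, ht, htu, if_false]
  have rk_none_le : ∀ u e, tail e = none → 1 ≤ rk u e ∧ rk u e ≤ r := by
    intro u e he
    rw [rk_none u e he]
    have := hchi1 e he
    split_ifs <;> omega
  have hhead : ∀ u e e', u ∈ rows e → u ∈ rows e' → tail e ≠ none → tail e ≠ some u → tail e' ≠ none →
      tail e' ≠ some u → e = e' := by
    intro u e e' hu hu' ha hb hc hd
    have h4 := h1 u
    have h5 : (univ.filter fun e => u ∈ rows e ∧ tail e ≠ none ∧ tail e ≠ some u).card ≤ 1 := by omega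
    rw [card_le_one] at h5
    exact h5 e (by simp [hu, ha, hb]) e' (by simp [hu', hc, hd])
  have hG : GsRank cls rows rk := by
    refine ⟨?_, ?_⟩
    · intro u e e' hu hu' hrk
      by_cases ha : tail e = none
      · by_cases hb : tail e' = none
        · rw [rk_none u e ha, rk_none u e' hb] at hrk
          have h4 := hchi1 e ha
          have h5 := hchi1 e' hb
          refine hchi2 e e' u ha hb hu hu' ?_
          split_ifs at hrk <;> omega
        · by_cases hc : tail e' = some u
          · have h4 := rk_none_le u e ha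
            rw [hrk, rk_tail u e' hc] at h4
            omega
          · have h4 := rk_none_le u e ha
            rw [hrk, rk_head u e' hb hc] at h4
            omega
      · by_cases hb : tail e' = none
        · by_cases hc : tail e = some u
          · have h4 := rk_none_le u e' hb
            rw [← hrk, rk_tail u e hc] at h4
            omega
          · have h4 := rk_none_le u e' hb
            rw [← hrk, rk_head u e ha hc] at h4
            omega
        · by_cases hc : tail e = some u <;> by_cases hd : tail e' = some u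
          · rw [rk_tail u e hc, rk_tail u e' hd] at hrk
            exact hidx e e' (by omega)
          · rw [rk_tail u e hc, rk_head u e' hb hd] at hrk
            omega
          · rw [rk_head u e ha hc, rk_tail u e' hd] at hrk
            omega
          · exact hhead u e e' hu hu' ha hc hb hd
    · intro e u w hu hw huw hcl
      cases ht : tail e with
      | none =>
        obtain ⟨a, b, ha, hb, hr'⟩ := hn e ht
        rw [hr', mem_insert, mem_singleton] at hu hw
        rcases hu with rfl | rfl <;> rcases hw with rfl | rfl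
        · exact absurd rfl huw
        · rw [ha, hb] at hcl
          exact absurd hcl (by simp)
        · rw [ha, hb] at hcl
          exact absurd hcl (by simp)
        · exact absurd rfl huw
      | some t =>
        refine rk_head u e (by rw [ht]; simp) ?_
        intro h4
        rw [ht] at h4
        have h5 : t = u := Option.some.inj h4
        have h6 := (hs e t ht).2 w hw (by rw [h5]; exact Ne.symm huw)
        rw [h5] at h6
        exact h6 hcl.symm
  obtain ⟨c, hc1, hc2⟩ := gs_galvin hG _ (univ : Finset E) (fun e => univ \ (rows e).biUnion fx) rfl (by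
    intro e _
    have hL : Fintype.card P ≤ (univ \ (rows e).biUnion fx).card + ∑ u ∈ rows e, (fx u).card := by
      have h4 : (univ \ (rows e).biUnion fx).card = Fintype.card P - ((rows e).biUnion fx).card := by
        rw [card_sdiff_of_subset (subset_univ _), card_univ]
      have h5 : ((rows e).biUnion fx).card ≤ ∑ u ∈ rows e, (fx u).card := card_biUnion_le
      have h6 : ((rows e).biUnion fx).card ≤ Fintype.card P := card_le_univ _
      omega
    cases ht : tail e with
    | none =>
      obtain ⟨u, w, hu, hw, hre⟩ := hn e ht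
      have huw : u ≠ w := by
        rintro rfl
        rw [hu] at hw
        exact absurd hw (by simp)
      rw [hre, sum_pair huw] at hL ⊢
      have hchi := hchi1 e ht
      have hcu : (univ.filter fun e' => u ∈ rows e' ∧ rk u e' < rk u e).card ≤
          (univ.filter fun e => u ∈ rows e ∧ tail e ≠ none ∧ tail e ≠ some u).card + (r - 1 - chi e) := by
        have h4 : (univ.filter fun e' => u ∈ rows e' ∧ rk u e' < rk u e) ⊆
            (univ.filter fun e => u ∈ rows e ∧ tail e ≠ none ∧ tail e ≠ some u) ∪
            (univ.filter fun e' => u ∈ rows e' ∧ tail e' = none ∧ chi e < chi e') := by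
          intro e' he'
          simp only [mem_filter, mem_univ, true_and, mem_union] at he' ⊢
          by_cases hb : tail e' = none
          · right
            refine ⟨he'.1, hb, ?_⟩
            have h5 := he'.2
            rw [rk_none u e ht, rk_none u e' hb, if_pos hu, if_pos hu] at h5
            omega
          · left
            refine ⟨he'.1, hb, fun hc => ?_⟩
            have h5 := he'.2
            have h6 := (rk_none_le u e ht).2
            rw [rk_tail u e' hc] at h5
            omega
        refine (card_le_card h4).trans ((card_union_le _ _).trans (Nat.add_le_add_left ?_ _))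
        have h5 : (univ.filter fun e' => u ∈ rows e' ∧ tail e' = none ∧ chi e < chi e').card ≤
            (Finset.Ioo (chi e) r).card := by
          refine card_le_card_of_injOn chi ?_ ?_
          · intro e' he'
            simp only [coe_filter, mem_univ, true_and, Set.mem_setOf_eq] at he'
            simp only [coe_Ioo, Set.mem_Ioo]
            exact ⟨he'.2.2, hchi1 e' he'.2.1⟩
          · intro a ha b hb hab
            simp only [coe_filter, mem_univ, true_and, Set.mem_setOf_eq] at ha hb
            exact hchi2 a b u ha.2.1 hb.2.1 ha.1 hb.1 hab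
        rw [Nat.card_Ioo] at h5
        omega
      have hcw : (univ.filter fun e' => w ∈ rows e' ∧ rk w e' < rk w e).card ≤
          (univ.filter fun e => w ∈ rows e ∧ tail e ≠ none ∧ tail e ≠ some w).card + chi e := by
        have h4 : (univ.filter fun e' => w ∈ rows e' ∧ rk w e' < rk w e) ⊆
            (univ.filter fun e => w ∈ rows e ∧ tail e ≠ none ∧ tail e ≠ some w) ∪
            (univ.filter fun e' => w ∈ rows e' ∧ tail e' = none ∧ chi e' < chi e) := by
          intro e' he'
          simp only [mem_filter, mem_univ, true_and, mem_union] at he' ⊢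
          by_cases hb : tail e' = none
          · right
            refine ⟨he'.1, hb, ?_⟩
            have h5 := he'.2
            rw [rk_none w e ht, rk_none w e' hb, if_neg (by rw [hw]; simp), if_neg (by rw [hw]; simp)] at h5
            omega
          · left
            refine ⟨he'.1, hb, fun hc => ?_⟩
            have h5 := he'.2
            have h6 := (rk_none_le w e ht).2
            rw [rk_tail w e' hc] at h5
            omega
        refine (card_le_card h4).trans ((card_union_le _ _).trans (Nat.add_le_add_left ?_ _))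
        have h5 : (univ.filter fun e' => w ∈ rows e' ∧ tail e' = none ∧ chi e' < chi e).card ≤
            (Finset.range (chi e)).card := by
          refine card_le_card_of_injOn chi ?_ ?_
          · intro e' he'
            simp only [coe_filter, mem_univ, true_and, Set.mem_setOf_eq] at he'
            simp only [coe_range, Set.mem_Iio]
            exact he'.2.2
          · intro a ha b hb hab
            simp only [coe_filter, mem_univ, true_and, Set.mem_setOf_eq] at ha hb
            exact hchi2 a b w ha.2.1 hb.2.1 ha.1 hb.1 hab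
        rwa [card_range] at h5
      have h1u := h1 u
      have h1w := h1 w
      omega
    | some t =>
      obtain ⟨htr, hth⟩ := hs e t ht
      have hsum : ∑ u ∈ rows e, (univ.filter fun e' => u ∈ rows e' ∧ rk u e' < rk u e).card =
          (univ.filter fun e' => t ∈ rows e' ∧ rk t e' < rk t e).card := by
        refine sum_eq_single_of_mem t htr fun u _ hut => ?_
        rw [card_eq_zero, filter_eq_empty_iff]
        rintro e' _ ⟨_, h5⟩
        rw [rk_head u e (by rw [ht]; simp) (by rw [ht]; intro h6; exact hut (Option.some.inj h6).symm)] at h5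
        exact Nat.not_lt_zero _ h5
      have hfx : ∑ u ∈ rows e, (fx u).card = (fx t).card := by
        refine sum_eq_single_of_mem t htr fun u hu hut => ?_
        have h5 := h1 u
        have h6 : 0 < (univ.filter fun e => u ∈ rows e ∧ tail e ≠ none ∧ tail e ≠ some u).card := by
          refine card_pos.2 ⟨e, ?_⟩
          simp only [mem_filter, mem_univ, true_and]
          exact ⟨hu, by rw [ht]; simp, by rw [ht]; intro h6; exact hut (Option.some.inj h6).symm⟩
        omega
      rw [hsum]
      rw [hfx] at hL
      have h5 : (univ.filter fun e' => t ∈ rows e' ∧ rk t e' < rk t e).card <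
          (univ.filter fun e' => t ∈ rows e').card := by
        refine card_lt_card ?_
        rw [ssubset_iff_of_subset (fun x hx => by
          simp only [mem_filter, mem_univ, true_and] at hx ⊢
          exact hx.1)]
        exact ⟨e, by simp [htr], by simp⟩
      have h6 := h3 t
      omega)
  refine ⟨c, fun e u hu hcu => ?_, fun e e' u hu hu' hcc => hc2 e (mem_univ e) e' (mem_univ e') u hu hu' hcc⟩
  have h4 := hc1 e (mem_univ e)
  rw [mem_sdiff] at h4
  exact h4.2 (mem_biUnion.2 ⟨u, hu, hcu⟩)

end W3a
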