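import Pool.Agent.W_MP_3a8340_co.Chang

open Finset

namespace W3a

/-- A bijection with three prescribed values. -/
theorem latin_ext3 {α β : Type} [DecidableEq β] (e0 : α ≃ β)
    {a1 a2 a3 : α} {b1 b2 b3 : β} (ha12 : a1 ≠ a2) (ha13 : a1 ≠ a3) (ha23 : a2 ≠ a3)
    (hb12 : b1 ≠ b2) (hb13 : b1 ≠ b3) (hb23 : b2 ≠ b3) :
    ∃ e : α ≃ β, e a1 = b1 ∧ e a2 = b2 ∧ e a3 = b3 := by
  obtain ⟨e1, h1⟩ : ∃ e : α ≃ β, e a1 = b1 :=
    ⟨e0.trans (Equiv.swap (e0 a1) b1), by simp⟩
  obtain ⟨e2, h21, h22⟩ : ∃ e : α ≃ β, e a1 = b1 ∧ e a2 = b2 := by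
    refine ⟨e1.trans (Equiv.swap (e1 a2) b2), ?_, by simp⟩
    rw [Equiv.trans_apply, h1]
    refine Equiv.swap_apply_of_ne_of_ne ?_ hb12
    intro h
    rw [← h1] at h
    exact ha12 (e1.injective h)
  refine ⟨e2.trans (Equiv.swap (e2 a3) b3), ?_, ?_, by simp⟩
  · rw [Equiv.trans_apply, h21]
    refine Equiv.swap_apply_of_ne_of_ne ?_ hb13
    intro h
    rw [← h21] at h
    exact ha13 (e2.injective h)
  · rw [Equiv.trans_apply, h22]
    refine Equiv.swap_apply_of_ne_of_ne ?_ hb23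
    intro h
    rw [← h22] at h
    exact ha23 (e2.injective h)

/-- A bijection with two prescribed values. -/
theorem latin_ext2 {α β : Type} [DecidableEq β] (e0 : α ≃ β)
    {a1 a2 : α} {b1 b2 : β} (ha12 : a1 ≠ a2) (hb12 : b1 ≠ b2) :
    ∃ e : α ≃ β, e a1 = b1 ∧ e a2 = b2 := by
  obtain ⟨e1, h1⟩ : ∃ e : α ≃ β, e a1 = b1 :=
    ⟨e0.trans (Equiv.swap (e0 a1) b1), by simp⟩
  refine ⟨e1.trans (Equiv.swap (e1 a2) b2), ?_, by simp⟩
  rw [Equiv.trans_apply, h1]
  refine Equiv.swap_apply_of_ne_of_ne ?_ hb12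
  intro h
  rw [← h1] at h
  exact ha12 (e1.injective h)

/-- The Latin square `y - x`. -/
theorem latin_base {ι κ : Type} {n : ℕ} (f : ι ≃ ZMod n) (g : κ ≃ ZMod n) :
    IsLatin (fun x y => g.symm (f y - f x)) := by
  constructor
  · intro x y y' h
    have h1 : f y - f x = f y' - f x := g.symm.injective h
    exact f.injective (sub_left_injective h1)
  · intro y x x' h
    have h1 : f y - f x = f y - f x' := g.symm.injective h
    exact f.injective (sub_right_injective h1)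

/-- Exchanging two columns. -/
theorem latin_swap {ι κ : Type} [DecidableEq ι] {L : ι → ι → κ} (hL : IsLatin L) (i k : ι) :
    IsLatin (fun x y => L x (Equiv.swap i k y)) := by
  constructor
  · intro x
    exact (hL.1 x).comp (Equiv.swap i k).injective
  · intro y
    exact hL.2 (Equiv.swap i k y)

variable {ι κ : Type} [Fintype ι] [DecidableEq ι] [Fintype κ] [DecidableEq κ]

omit [DecidableEq ι] [DecidableEq κ] in
/-- Bijections with `ZMod n`. -/
theorem latin_equivs (hcard : Fintype.card κ = Fintype.card ι) (i : ι) :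
    ∃ (f : ι ≃ ZMod (Fintype.card ι)) (g : κ ≃ ZMod (Fintype.card ι)), f = f ∧ g = g := by
  have : NeZero (Fintype.card ι) := ⟨(Fintype.card_pos_iff.2 ⟨i⟩).ne'⟩
  refine ⟨Fintype.equivOfCardEq (by rw [ZMod.card]),
    Fintype.equivOfCardEq (by rw [ZMod.card, hcard]), rfl, rfl⟩

/-- Constant diagonal. -/
theorem latin_z0 (hcard : Fintype.card κ = Fintype.card ι) (z : κ) :
    ∃ L : ι → ι → κ, IsLatin L ∧ ∀ l, L l l = z := by
  have hne : Nonempty ι := by
    rw [← Fintype.card_pos_iff, ← hcard]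
    exact Fintype.card_pos_iff.2 ⟨z⟩
  obtain ⟨i⟩ := hne
  obtain ⟨f, g0, -, -⟩ := latin_equivs hcard i
  have hg : g0.trans (Equiv.swap (g0 z) 0) z = 0 := by simp
  refine ⟨_, latin_base f (g0.trans (Equiv.swap (g0 z) 0)), fun l => ?_⟩
  rw [sub_self, Equiv.symm_apply_eq, hg]

/-- Constant diagonal and one more prescribed cell. -/
theorem latin_z1 (hcard : Fintype.card κ = Fintype.card ι) (z t : κ) (hz : z ≠ t) (i j : ι)
    (hij : i ≠ j) :
    ∃ L : ι → ι → κ, IsLatin L ∧ (∀ l, L l l = z) ∧ L i j = t := by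
  obtain ⟨f, g0, -, -⟩ := latin_equivs hcard i
  have hd : (0 : ZMod (Fintype.card ι)) ≠ f j - f i := by
    intro h
    exact hij (f.injective (sub_eq_zero.1 h.symm).symm)
  obtain ⟨g, hg0, hgt⟩ := latin_ext2 g0 hz hd
  refine ⟨_, latin_base f g, fun l => ?_, ?_⟩
  · rw [sub_self, ← hg0, Equiv.symm_apply_apply]
  · rw [← hgt, Equiv.symm_apply_apply]

/-- Diagonal `z` except `t` at `i`; the symbol `z` at `(i,k)` and `(k,i)`. -/
theorem latin_z3 (hcard : Fintype.card κ = Fintype.card ι) (z t : κ) (hz : z ≠ t) (i k : ι)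
    (hik : i ≠ k) :
    ∃ L : ι → ι → κ, IsLatin L ∧ L i k = z ∧ L k i = z ∧ (∀ l, l ≠ i → l ≠ k → L l l = z) ∧
      L i i = t := by
  obtain ⟨L, hL, hd, ht⟩ := latin_z1 hcard z t hz i k hik
  refine ⟨_, latin_swap hL i k, ?_, ?_, fun l hi hk => ?_, ?_⟩
  · rw [Equiv.swap_apply_right]
    exact hd i
  · rw [Equiv.swap_apply_left]
    exact hd k
  · rw [Equiv.swap_apply_of_ne_of_ne hi hk]
    exact hd l
  · rw [Equiv.swap_apply_left]
    exact ht

/-- The symbol `z` at `(i,j)`, `(j,i)` and on the rest of the diagonal. -/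
theorem latin_z4 (hcard : Fintype.card κ = Fintype.card ι) (z : κ) (i j : ι)
    (hij : i ≠ j) :
    ∃ L : ι → ι → κ, IsLatin L ∧ L i j = z ∧ L j i = z ∧ (∀ l, l ≠ i → l ≠ j → L l l = z) := by
  obtain ⟨L, hL, hd⟩ := latin_z0 hcard z
  refine ⟨_, latin_swap hL i j, ?_, ?_, fun l hi hk => ?_⟩
  · rw [Equiv.swap_apply_right]
    exact hd i
  · rw [Equiv.swap_apply_left]
    exact hd j
  · rw [Equiv.swap_apply_of_ne_of_ne hi hk]
    exact hd l

theorem latin_cast_ne {n a b : ℕ} (ha : a < n) (hb : b < n) (hab : a ≠ b) :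
    (a : ZMod n) ≠ (b : ZMod n) := by
  intro h
  rw [ZMod.natCast_eq_natCast_iff'] at h
  rw [Nat.mod_eq_of_lt ha, Nat.mod_eq_of_lt hb] at h
  exact hab h

theorem latin_z6 (hcard : Fintype.card κ = Fintype.card ι) (h4 : 4 ≤ Fintype.card ι) (z α β : κ)
    (hα : α ≠ z) (hβ : β ≠ z) (i j k : ι) (hij : i ≠ j) (hik : i ≠ k) (hjk : j ≠ k) :
    ∃ L : ι → ι → κ, IsLatin L ∧ L i j = z ∧ L j i = z ∧ (∀ l, l ≠ i → l ≠ j → L l l = z) ∧
      L i k = α ∧ L k i = β := by
  obtain ⟨f0, g0, -, -⟩ := latin_equivs hcard i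
  have e01 : ((0 : ℕ) : ZMod (Fintype.card ι)) ≠ ((1 : ℕ) : ZMod (Fintype.card ι)) :=
    latin_cast_ne (by omega) (by omega) (by omega)
  have e02 : ((0 : ℕ) : ZMod (Fintype.card ι)) ≠ ((2 : ℕ) : ZMod (Fintype.card ι)) :=
    latin_cast_ne (by omega) (by omega) (by omega)
  have e03 : ((0 : ℕ) : ZMod (Fintype.card ι)) ≠ ((3 : ℕ) : ZMod (Fintype.card ι)) :=
    latin_cast_ne (by omega) (by omega) (by omega)
  have e12 : ((1 : ℕ) : ZMod (Fintype.card ι)) ≠ ((2 : ℕ) : ZMod (Fintype.card ι)) :=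
    latin_cast_ne (by omega) (by omega) (by omega)
  have e13 : ((1 : ℕ) : ZMod (Fintype.card ι)) ≠ ((3 : ℕ) : ZMod (Fintype.card ι)) :=
    latin_cast_ne (by omega) (by omega) (by omega)
  have key : ∃ L : ι → ι → κ, IsLatin L ∧ (∀ l, L l l = z) ∧ L i k = α ∧ L k j = β := by
    by_cases hab : α = β
    · subst hab
      obtain ⟨f, hfi, hfk, hfj⟩ := latin_ext3 f0 hik hij hjk.symm e01 e02 e12
      obtain ⟨g, hgz, hga⟩ := latin_ext2 g0 hα.symm e01
      refine ⟨_, latin_base f g, fun l => ?_, ?_, ?_⟩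
      · rw [sub_self, Equiv.symm_apply_eq, hgz, Nat.cast_zero]
      · rw [Equiv.symm_apply_eq, hga, hfi, hfk]
        push_cast
        ring
      · rw [Equiv.symm_apply_eq, hga, hfj, hfk]
        push_cast
        ring
    · obtain ⟨f, hfi, hfk, hfj⟩ := latin_ext3 f0 hik hij hjk.symm e01 e03 e13
      obtain ⟨g, hgz, hga, hgb⟩ := latin_ext3 g0 hα.symm hβ.symm hab e01 e02 e12
      refine ⟨_, latin_base f g, fun l => ?_, ?_, ?_⟩
      · rw [sub_self, Equiv.symm_apply_eq, hgz, Nat.cast_zero]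
      · rw [Equiv.symm_apply_eq, hga, hfi, hfk]
        push_cast
        ring
      · rw [Equiv.symm_apply_eq, hgb, hfj, hfk]
        push_cast
        ring
  obtain ⟨L, hL, hd, ha, hb⟩ := key
  refine ⟨_, latin_swap hL i j, ?_, ?_, fun l hi hk => ?_, ?_, ?_⟩
  · rw [Equiv.swap_apply_right]
    exact hd i
  · rw [Equiv.swap_apply_left]
    exact hd j
  · rw [Equiv.swap_apply_of_ne_of_ne hi hk]
    exact hd l
  · rw [Equiv.swap_apply_of_ne_of_ne hik.symm hjk.symm]
    exact ha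
  · rw [Equiv.swap_apply_left]
    exact hb

theorem latin_z7 (hcard : Fintype.card κ = Fintype.card ι) (h4 : 4 ≤ Fintype.card ι) (z α β : κ)
    (hα : α ≠ z) (hβ : β ≠ z) (i j : ι) (hij : i ≠ j) :
    ∃ L : ι → ι → κ, IsLatin L ∧ (∀ l, L l l = z) ∧ L i j = α ∧ L j i = β := by
  let q : ι → κ := fun l => if l = i then α else if l = j then β else z
  have hqi : q i = α := by simp [q]
  have hqj : q j = β := by simp [q, hij.symm]
  have hql : ∀ l, l ≠ i → l ≠ j → q l = z := by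
    intro l h1 h2
    simp [q, h1, h2]
  obtain ⟨L, hL, hd⟩ := chang hcard q (by
    rintro ⟨m, c, hc, hm⟩
    obtain ⟨l, hl⟩ : ∃ l, l ∉ ({i, j, m} : Finset ι) := by
      by_contra hall
      push Not at hall
      have h1 : (Finset.univ : Finset ι) ⊆ {i, j, m} := fun l _ => hall l
      have h2 := Finset.card_le_card h1
      rw [Finset.card_univ] at h2
      have h3 : ({i, j, m} : Finset ι).card ≤ 3 := Finset.card_le_three
      omega
    simp only [Finset.mem_insert, Finset.mem_singleton, not_or] at hl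
    have hcz : c = z := by rw [← hc l hl.2.2, hql l hl.1 hl.2.1]
    subst hcz
    by_cases hmi : m = i
    · have h1 : j ≠ m := fun h => hij (h.trans hmi).symm
      exact hβ (hqj ▸ hc j h1)
    · exact hα (hqi ▸ hc i (fun h => hmi h.symm)))
  have hsurj : ∀ x, Function.Surjective (L x) := fun x =>
    ((Fintype.bijective_iff_injective_and_card (L x)).2 ⟨hL.1 x, hcard.symm⟩).2
  have hzz : ∀ c, c ≠ i → c ≠ j → L c c = z := fun c h1 h2 => (hd c).trans (hql c h1 h2)
  have hLij : L i j = z := by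
    obtain ⟨c, hc⟩ := hsurj i z
    have h1 : c ≠ i := by
      rintro rfl
      rw [hd, hqi] at hc
      exact hα hc
    by_cases h2 : c = j
    · rw [← h2]; exact hc
    · exact absurd (hL.2 c (hc.trans (hzz c h1 h2).symm)).symm h1
  have hLji : L j i = z := by
    obtain ⟨c, hc⟩ := hsurj j z
    have h1 : c ≠ j := by
      rintro rfl
      rw [hd, hqj] at hc
      exact hβ hc
    by_cases h2 : c = i
    · rw [← h2]; exact hc
    · exact absurd (hL.2 c (hc.trans (hzz c h2 h1).symm)).symm h1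
  refine ⟨_, latin_swap hL i j, fun l => ?_, ?_, ?_⟩
  · by_cases h1 : l = i
    · subst h1
      rw [Equiv.swap_apply_left]
      exact hLij
    · by_cases h2 : l = j
      · subst h2
        rw [Equiv.swap_apply_right]
        exact hLji
      · rw [Equiv.swap_apply_of_ne_of_ne h1 h2]
        exact hzz l h1 h2
  · rw [Equiv.swap_apply_right, hd, hqi]
  · rw [Equiv.swap_apply_left, hd, hqj]

end W3a
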