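import Pool.Agent.W_MP_3a8340_co.Dec

open Finset

namespace W3a

/-- Classes of the rows for `n = 3`. -/
def tau3 : Fin 3 → Bool := ![false, true, true]

/-- The states of non-`K` vertices for `n = 3`, including the states of the vertices involved in
a modification:
`R j q s0`: row `1` (`j = false`) or `2` (`j = true`) is covered with colour `q`, the other one
of the rows `1, 2` is not covered, row `0` has status `s0`, and one more edge in layer `0` gets
the real colour `1 - q` on both copies;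
`C j q`: the same, row `0` is covered with colour `1 - q` and is the head of a special edge;
`T q s0`: rows `1` and `2` are covered, with real colours `(q, 1-q)` and `(1-q, q)`, row `0` has
status `s0`;
`QR r q`: rows `1, 2` are covered with colours `q, 1 - q`, one edge in layer `0` gets the real
colour `r` on both copies;
`QC q`: rows `1, 2` are covered with colours `q, 1 - q`, row `0` is the tail of a special edge. -/
inductive St3 where
  | base (s0 s1 s2 : RowSt (Fin 2))
  | R (j : Bool) (q : Fin 2) (s0 : RowSt (Fin 2))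
  | C (j : Bool) (q : Fin 2)
  | T (q : Fin 2) (s0 : RowSt (Fin 2))
  | QR (r q : Fin 2)
  | QC (q : Fin 2)
deriving DecidableEq

/-- Contribution of the layers (without the `F`-edges, but with the precoloured ones). -/
def St3.ext : St3 → Fin 3 → RowIn (Fin 2)
  | .base s0 s1 s2 => ![s0.row, s1.row, s2.row]
  | .R false q s0 => ![s0.row + ({1 - q}, {1 - q}, 0, 0, 0), (RowSt.high q).row, 0]
  | .R true q s0 => ![s0.row + ({1 - q}, {1 - q}, 0, 0, 0), 0, (RowSt.high q).row]
  | .C false q => ![(RowSt.high (1 - q)).row + (0, 0, 0, 1, 1), (RowSt.high q).row, 0]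
  | .C true q => ![(RowSt.high (1 - q)).row + (0, 0, 0, 1, 1), 0, (RowSt.high q).row]
  | .T q s0 => ![s0.row, ({q}, {1 - q}, 0, 0, 0), ({1 - q}, {q}, 0, 0, 0)]
  | .QR r q => ![({r}, {r}, 0, 0, 0), (RowSt.high q).row, (RowSt.high (1 - q)).row]
  | .QC q => ![(0, 0, 0, 0, 1), (RowSt.high q).row, (RowSt.high (1 - q)).row]

/-- Covered rows. -/
def St3.cov : St3 → Fin 3 → Bool
  | .base s0 s1 s2 => ![s0.cov, s1.cov, s2.cov]
  | .R false _ s0 => ![s0.cov, true, false]
  | .R true _ s0 => ![s0.cov, false, true]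
  | .C false _ => ![true, true, false]
  | .C true _ => ![true, false, true]
  | .T _ s0 => ![s0.cov, true, true]
  | .QR _ _ => ![false, true, true]
  | .QC _ => ![false, true, true]

instance : Fintype (RowSt (Fin 2)) where
  elems := {.dflt, .low, .high 0, .high 1}
  complete := by
    intro x
    rcases x with _ | _ | q
    · simp
    · simp
    · fin_cases q <;> simp

/-- Decoding of cells. -/
def dec : ℕ → CLab (Fin 3) (Fin 2)
  | 0 => .real 0
  | 1 => .real 1
  | 2 => .pen
  | 3 => .item {0} (some 0)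
  | 4 => .item {1} (some 1)
  | 5 => .item {2} (some 2)
  | 6 => .item {0, 1} none
  | 7 => .item {0, 1} (some 0)
  | 8 => .item {0, 1} (some 1)
  | 9 => .item {0, 2} none
  | 10 => .item {0, 2} (some 0)
  | 11 => .item {0, 2} (some 2)
  | _ => .item {0, 1, 2} (some 0)

/-- Decoding of arrays. -/
def arr (l : List ℕ) (i j : Fin 3) : CLab (Fin 3) (Fin 2) := dec (l.getD (3 * i.val + j.val) 0)

/-- Decoding of labels of `F`-edges. -/
def decF : ℕ → GLab (Fin 2) Unit
  | 0 => .norm
  | 1 => .out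
  | 2 => .inn
  | 3 => .real 0 0
  | 4 => .real 0 1
  | 5 => .real 1 0
  | _ => .real 1 1

def arrF (l : List ℕ) (i : Fin 3) : GLab (Fin 2) Unit := decF (l.getD i.val 0)

def codeS : RowSt (Fin 2) → ℕ
  | .dflt => 0
  | .low => 1
  | .high q => 2 + q.val

instance (τ : Fin 3 → Bool) (t : Fin 3 → RowIn (Fin 2)) (cov : Fin 3 → Bool)
    (N : Fin 3 → Fin 3 → CLab (Fin 3) (Fin 2)) : Decidable (SS τ t cov N) :=
  decidable_of_iff
    (Struct τ (fun i => (t i).1) (fun i => (t i).2.1) N ∧ (∀ i, Fv t N i ≤ 1) ∧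
      (∀ i, 1 ≤ Sv t N i) ∧ (∀ i, cov i = true → 2 ≤ Sv t N i) ∧
      (∀ i, cov i = false → Fv t N i = 0))
    ⟨fun ⟨a, b, c, d, e⟩ => ⟨a, b, c, d, e⟩, fun h => ⟨h.st, h.le, h.ge, h.need, h.can⟩⟩

instance (τ : Fin 3 → Bool) (i j : Fin 3) (t : Option (Fin 2))
    (N : Fin 3 → Fin 3 → CLab (Fin 3) (Fin 2)) : Decidable (KArr τ i j t N) :=
  decidable_of_iff
    (Struct τ (fun _ => 0) (fun _ => 0) N ∧ N i j = kcell t ∧ (∀ l, Fv (fun _ => 0) N l ≤ 1) ∧
      (∀ l, 1 ≤ Sv (fun _ => 0) N l) ∧ (∀ l, l ≠ i → l ≠ j → Fv (fun _ => 0) N l = 0) ∧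
      (i ≠ j → t ≠ none → ∀ l, Fv (fun _ => 0) N l = 0))
    ⟨fun ⟨a, b, c, d, e, f⟩ => ⟨a, b, c, d, e, f⟩,
      fun h => ⟨h.st, h.cell, h.le, h.ge, h.can, h.can'⟩⟩

/-- A pair design for a vertex with `a_i b_j` precoloured by a colour of `P` and a vertex with
layer contributions `e`. -/
def KdOK (i j : Fin 3) (e : Fin 3 → RowIn (Fin 2)) (l : List ℕ × List ℕ × List ℕ) : Prop :=
  arr l.1 i j = .pen ∧ LG tau3 (fun l' => (arrF l.2.2 l').row) (arr l.1) ∧
    LG tau3 (fun l' => e l' + (arrF l.2.2 l').flip.row) (arr l.2.1)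

instance (i j : Fin 3) (e : Fin 3 → RowIn (Fin 2)) (l : List ℕ × List ℕ × List ℕ) :
    Decidable (KdOK i j e l) := by
  unfold KdOK; infer_instance

/-- A pair design for two vertices with `a_i b_j`, `a_i' b_j'` precoloured by colours of `P`. -/
def KkOK (i j i' j' : Fin 3) (l : List ℕ × List ℕ × List ℕ) : Prop :=
  arr l.1 i j = .pen ∧ arr l.2.1 i' j' = .pen ∧
    LG tau3 (fun l' => (arrF l.2.2 l').row) (arr l.1) ∧
    LG tau3 (fun l' => (arrF l.2.2 l').flip.row) (arr l.2.1)

instance (i j i' j' : Fin 3) (l : List ℕ × List ℕ × List ℕ) :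
    Decidable (KkOK i j i' j' l) := by
  unfold KkOK; infer_instance

end W3a
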