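import Pool.Agent.W_MP_3a8340_co.N3Req

open Finset

namespace W3a

section Lab

variable {V P : Type} 

open Classical in
/-- Labels of the edges without precolour, outside `F`. -/
noncomputable def gX (M : PreM V (Fin 3) (Fin 2 ⊕ P)) (F : V → V) (v w : V) (i : Fin 3) :
    GLab (Fin 2) P :=
  if i = 0 then
    if RR M F v w 0 ∨ RR M F w v 0 then .real 0 0
    else if RR M F v w 1 ∨ RR M F w v 1 then .real 1 1
    else if CC M F v w then .out
    else if CC M F w v then .inn
    else .norm
  else .norm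

open Classical in
/-- All labels outside `F`. -/
noncomputable def g3 (M : PreM V (Fin 3) (Fin 2 ⊕ P)) (F : V → V) (v w : V) (i : Fin 3) :
    GLab (Fin 2) P :=
  match mm M v w i with
  | some (.inr p) => .fix p
  | some (.inl q) =>
      if TT M F v w ∨ TT M F w v then
        (if TyA M v then .real q (1 - q) else .real (1 - q) q)
      else .real q q
  | none => gX M F v w i

open Classical in
/-- The status of a row. -/
noncomputable def stt (M : PreM V (Fin 3) (Fin 2 ⊕ P)) (v : V) (i : Fin 3) : RowSt (Fin 2) :=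
  if h : ∃ w, mm M v w i ≠ none then
    (match mm M v h.choose i with
     | some (.inl q) => .high q
     | _ => .low)
  else .dflt

variable {G : SimpleGraph V} {M : PreM V (Fin 3) (Fin 2 ⊕ P)} {F : V → V}

theorem g3_none {v w : V} {i : Fin 3} (h : mm M v w i = none) : g3 M F v w i = gX M F v w i := by
  unfold g3; rw [h]

theorem g3_low {v w : V} {i : Fin 3} {p : P} (h : mm M v w i = some (.inr p)) :
    g3 M F v w i = .fix p := by
  unfold g3; rw [h]

theorem g3_high {v w : V} {i : Fin 3} {q : Fin 2} (h : mm M v w i = some (.inl q))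
    (hT : ¬ (TT M F v w ∨ TT M F w v)) : g3 M F v w i = .real q q := by
  unfold g3; rw [h]; simp only; rw [if_neg hT]

theorem g3_highA {v w : V} {i : Fin 3} {q : Fin 2} (h : mm M v w i = some (.inl q))
    (hT : TT M F v w ∨ TT M F w v) (hA : TyA M v) : g3 M F v w i = .real q (1 - q) := by
  unfold g3; rw [h]; simp only; rw [if_pos hT, if_pos hA]

theorem g3_highB {v w : V} {i : Fin 3} {q : Fin 2} (h : mm M v w i = some (.inl q))
    (hT : TT M F v w ∨ TT M F w v) (hA : ¬ TyA M v) : g3 M F v w i = .real (1 - q) q := by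
  unfold g3; rw [h]; simp only; rw [if_pos hT, if_neg hA]

theorem stt_dflt {v : V} {i : Fin 3} (h : ∀ w, mm M v w i = none) : stt M v i = .dflt := by
  unfold stt
  rw [dif_neg]
  rintro ⟨w, hw⟩
  exact hw (h w)

theorem stt_high (hM : Sep G M) {v w : V} {i : Fin 3} {q : Fin 2}
    (h : mm M v w i = some (.inl q)) : stt M v i = .high q := by
  unfold stt
  have h' : ∃ w, mm M v w i ≠ none := ⟨w, by rw [h]; simp⟩
  rw [dif_pos h']
  have e : h'.choose = w := mm_uniq hM h'.choose_spec (by rw [h]; simp)
  rw [e, h]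

theorem stt_low (hM : Sep G M) {v w : V} {i : Fin 3} {p : P}
    (h : mm M v w i = some (.inr p)) : stt M v i = .low := by
  unfold stt
  have h' : ∃ w, mm M v w i ≠ none := ⟨w, by rw [h]; simp⟩
  rw [dif_pos h']
  have e : h'.choose = w := mm_uniq hM h'.choose_spec (by rw [h]; simp)
  rw [e, h]

theorem stt_cov (hM : Sep G M) {v : V} {i : Fin 3} :
    (stt M v i).cov = true ↔ ∃ w, mm M v w i ≠ none := by
  constructor
  · intro h
    by_contra hne
    push Not at hne
    rw [stt_dflt hne] at h
    exact Bool.false_ne_true h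
  · rintro ⟨w, hw⟩
    obtain ⟨c, hc⟩ := Option.ne_none_iff_exists'.1 hw
    rcases c with q | p
    · rw [stt_high hM hc]; rfl
    · rw [stt_low hM hc]; rfl

theorem stt_eq_high (hM : Sep G M) {v : V} {i : Fin 3} {q : Fin 2} (h : stt M v i = .high q) :
    ∃ w, mm M v w i = some (.inl q) := by
  have hc : (stt M v i).cov = true := by rw [h]; rfl
  obtain ⟨w, hw⟩ := (stt_cov hM).1 hc
  obtain ⟨c, hc⟩ := Option.ne_none_iff_exists'.1 hw
  rcases c with q' | p
  · rw [stt_high hM hc] at h
    cases h
    exact ⟨w, hc⟩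
  · rw [stt_low hM hc] at h
    cases h

/-- The label of an untwisted precoloured edge. -/
theorem g3_row (hM : Sep G M) {v w : V} {i : Fin 3} (h : mm M v w i ≠ none)
    (hT : ¬ (TT M F v w ∨ TT M F w v)) : (g3 M F v w i).row = (stt M v i).row := by
  obtain ⟨c, hc⟩ := Option.ne_none_iff_exists'.1 h
  rcases c with q | p
  · rw [g3_high hc hT, stt_high hM hc]; rfl
  · rw [g3_low hc, stt_low hM hc]; rfl

theorem CC.not_symm (hM : Sep G M) {v w : V} (h : CC M F v w) (h' : CC M F w v) : False := by
  obtain ⟨r, hr, _⟩ := h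
  obtain ⟨r', ⟨j, v1, v2, q, hq, _⟩, _⟩ := h'
  exact hr.not_QQ hM hq

theorem gX_flip (hM : Sep G M) (v w : V) (i : Fin 3) :
    gX M F w v i = (gX M F v w i).flip := by
  unfold gX
  by_cases hi : i = 0
  · rw [if_pos hi, if_pos hi]
    by_cases h0 : RR M F v w 0 ∨ RR M F w v 0
    · rw [if_pos h0.symm, if_pos h0]; rfl
    · rw [if_neg (fun h => h0 h.symm), if_neg h0]
      by_cases h1 : RR M F v w 1 ∨ RR M F w v 1
      · rw [if_pos h1.symm, if_pos h1]; rfl
      · rw [if_neg (fun h => h1 h.symm), if_neg h1]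
        by_cases h2 : CC M F v w
        · rw [if_neg (fun h => CC.not_symm hM h2 h), if_pos h2, if_pos h2]; rfl
        · by_cases h3 : CC M F w v
          · rw [if_pos h3, if_neg h2, if_pos h3]; rfl
          · rw [if_neg h3, if_neg h2, if_neg h2, if_neg h3]; rfl
  · rw [if_neg hi, if_neg hi]; rfl

theorem g3_flip (hM : Sep G M) (v w : V) (i : Fin 3) :
    g3 M F w v i = (g3 M F v w i).flip := by
  by_cases h : mm M v w i = none
  · rw [g3_none h, g3_none (by rwa [mm_symm hM] at h), gX_flip hM]
  · have hty := tyA_iff hM h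
    obtain ⟨c, hc⟩ := Option.ne_none_iff_exists'.1 h
    have hc' : mm M w v i = some c := by rwa [mm_symm hM]
    rcases c with q | p
    · by_cases hT : TT M F v w ∨ TT M F w v
      · have hT' := hT.symm
        by_cases hA : TyA M v
        · rw [g3_highA hc hT hA, g3_highA hc' hT' (hty.1 hA)]; rfl
        · rw [g3_highB hc hT hA, g3_highB hc' hT' (fun h => hA (hty.2 h))]; rfl
      · rw [g3_high hc hT, g3_high hc' (fun h => hT h.symm)]; rfl
    · rw [g3_low hc, g3_low hc']; rfl

theorem g3_acol (hM : Sep G M) {v w : V} {i : Fin 3} {c : Fin 2 ⊕ P}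
    (h : M.ga v w i = some c) : (g3 M F v w i).acol = some c := by
  have hm : mm M v w i = some c := by unfold mm; rw [h]; rfl
  rcases c with q | p
  · by_cases hT : TT M F v w ∨ TT M F w v
    · rw [g3_highA hm hT ⟨w, i, by rw [h]; simp⟩]; rfl
    · rw [g3_high hm hT]; rfl
  · rw [g3_low hm]; rfl

theorem g3_bcol (hM : Sep G M) {v w : V} {i : Fin 3} {c : Fin 2 ⊕ P}
    (h : M.gb v w i = some c) : (g3 M F v w i).bcol = some c := by
  have hne : M.gb v w i ≠ none := by rw [h]; simp
  have hm : mm M v w i = some c := by rw [(mm_gb hM hne).1, h]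
  have hA : ¬ TyA M v := by
    rintro ⟨z, k, hz⟩
    exact hz (mm_gb hM hne).2
  rcases c with q | p
  · by_cases hT : TT M F v w ∨ TT M F w v
    · rw [g3_highB hm hT hA]; rfl
    · rw [g3_high hm hT]; rfl
  · rw [g3_low hm]; rfl

/-! ### Sums -/

variable [Fintype V] [DecidableRel G.Adj]

/-- The sum of the labels in a row: the precoloured edge and the rest. -/
theorem sum_split (v : V) (i : Fin 3) :
    ∑ w ∈ G.neighborFinset v, (g3 M F v w i).row =
      ∑ w ∈ G.neighborFinset v, (if mm M v w i = none then 0 else (g3 M F v w i).row) +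
      ∑ w ∈ G.neighborFinset v, (if mm M v w i = none then (gX M F v w i).row else 0) := by
  rw [← Finset.sum_add_distrib]
  apply Finset.sum_congr rfl
  intro w _
  by_cases h : mm M v w i = none
  · rw [if_pos h, if_pos h, g3_none h, zero_add]
  · rw [if_neg h, if_neg h, add_zero]

theorem sum_M_none {v : V} {i : Fin 3} (h : ∀ w, mm M v w i = none) :
    ∑ w ∈ G.neighborFinset v, (if mm M v w i = none then (0 : RowIn (Fin 2)) else
      (g3 M F v w i).row) = 0 := by
  apply Finset.sum_eq_zero
  intro w _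
  rw [if_pos (h w)]

theorem sum_M_some (hM : Sep G M) {v z : V} {i : Fin 3} (h : mm M v z i ≠ none) :
    ∑ w ∈ G.neighborFinset v, (if mm M v w i = none then (0 : RowIn (Fin 2)) else
      (g3 M F v w i).row) = (g3 M F v z i).row := by
  rw [Finset.sum_eq_single z]
  · rw [if_neg h]
  · intro w _ hw
    by_cases h' : mm M v w i = none
    · rw [if_pos h']
    · exact absurd (mm_uniq hM h' h) hw
  · intro hz
    exact absurd ((SimpleGraph.mem_neighborFinset _ _ _).2 (mm_adj hM h)) hz

theorem sum_X_norm {v : V} {i : Fin 3} (h : ∀ w, gX M F v w i = .norm) :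
    ∑ w ∈ G.neighborFinset v, (if mm M v w i = none then (gX M F v w i).row else 0) = 0 := by
  apply Finset.sum_eq_zero
  intro w _
  rw [h w]
  split_ifs <;> rfl

theorem sum_X_single {v u : V} {i : Fin 3} (hu : G.Adj v u) (h0 : mm M v u i = none)
    (h : ∀ w, w ≠ u → gX M F v w i = .norm) :
    ∑ w ∈ G.neighborFinset v, (if mm M v w i = none then (gX M F v w i).row else 0) =
      (gX M F v u i).row := by
  rw [Finset.sum_eq_single u]
  · rw [if_pos h0]
  · intro w _ hw
    rw [h w hw]
    split_ifs <;> rfl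
  · intro hz
    exact absurd ((SimpleGraph.mem_neighborFinset _ _ _).2 hu) hz

/-- The sum of a row whose precoloured edge (if any) is not twisted, without other labels. -/
theorem sum_std (hM : Sep G M) {v : V} {i : Fin 3} (h : ∀ w, gX M F v w i = .norm)
    (hT : ∀ z, mm M v z i ≠ none → ¬ (TT M F v z ∨ TT M F z v)) :
    ∑ w ∈ G.neighborFinset v, (g3 M F v w i).row = (stt M v i).row := by
  rw [sum_split, sum_X_norm h, add_zero]
  by_cases hz : ∃ z, mm M v z i ≠ none
  · obtain ⟨z, hz⟩ := hz
    rw [sum_M_some hM hz, g3_row hM hz (hT z hz)]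
  · push Not at hz
    rw [sum_M_none hz, stt_dflt hz]; rfl

/-- The same with one more labelled edge. -/
theorem sum_ext (hM : Sep G M) {v u : V} {i : Fin 3} (hu : G.Adj v u) (h0 : mm M v u i = none)
    (h : ∀ w, w ≠ u → gX M F v w i = .norm)
    (hT : ∀ z, mm M v z i ≠ none → ¬ (TT M F v z ∨ TT M F z v)) :
    ∑ w ∈ G.neighborFinset v, (g3 M F v w i).row = (stt M v i).row + (gX M F v u i).row := by
  rw [sum_split, sum_X_single hu h0 h]
  congr 1
  by_cases hz : ∃ z, mm M v z i ≠ none
  · obtain ⟨z, hz⟩ := hz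
    rw [sum_M_some hM hz, g3_row hM hz (hT z hz)]
  · push Not at hz
    rw [sum_M_none hz, stt_dflt hz]; rfl

theorem sum_one (hM : Sep G M) {v z : V} {i : Fin 3} (h : ∀ w, gX M F v w i = .norm)
    (hz : mm M v z i ≠ none) :
    ∑ w ∈ G.neighborFinset v, (g3 M F v w i).row = (g3 M F v z i).row := by
  rw [sum_split, sum_X_norm h, add_zero, sum_M_some hM hz]

end Lab

end W3a
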