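import Pool.Agent.W_MP_3a8340_co.N3Defs

open Finset

namespace W3a

section Mod

variable {V P ι C : Type} 

/-- The precolour of the edge `vw` in layer `i` (on one of its copies). -/
def mm (M : PreM V ι C) (v w : V) (i : ι) : Option C := (M.ga v w i).or (M.gb v w i)

variable {G : SimpleGraph V} {M : PreM V ι C} 

theorem mm_ne {v w : V} {i : ι} : mm M v w i ≠ none ↔ M.ga v w i ≠ none ∨ M.gb v w i ≠ none := by
  unfold mm
  cases M.ga v w i <;> cases M.gb v w i <;> simp

theorem mm_none {v w : V} {i : ι} : mm M v w i = none ↔ M.ga v w i = none ∧ M.gb v w i = none := by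
  unfold mm
  cases M.ga v w i <;> cases M.gb v w i <;> simp

theorem mm_symm (hM : Sep G M) (v w : V) (i : ι) : mm M v w i = mm M w v i := by
  unfold mm; rw [hM.sa, hM.sb]

theorem mm_adj (hM : Sep G M) {v w : V} {i : ι} (h : mm M v w i ≠ none) : G.Adj v w := by
  rcases mm_ne.1 h with h | h
  · exact hM.adja _ _ _ h
  · exact hM.adjb _ _ _ h

theorem mm_uniq (hM : Sep G M) {v w w' : V} {i : ι} (h : mm M v w i ≠ none)
    (h' : mm M v w' i ≠ none) : w = w' := by
  rcases mm_ne.1 h with h | h <;> rcases mm_ne.1 h' with h' | h'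
  · exact hM.aa _ _ _ _ h h'
  · exact absurd (hM.ab v w i w' i h) h'
  · exact absurd (hM.ab v w' i w i h') h
  · exact hM.bb _ _ _ _ h h'

theorem mm_ga (hM : Sep G M) {v w w' : V} {i k : ι} (h : M.ga v w i ≠ none) :
    mm M v w' k = M.ga v w' k := by
  unfold mm
  rw [hM.ab v w i w' k h]
  cases M.ga v w' k <;> rfl

theorem mm_gb (hM : Sep G M) {v w w' : V} {i k : ι} (h : M.gb v w i ≠ none) :
    mm M v w' k = M.gb v w' k ∧ M.ga v w' k = none := by
  have h0 : M.ga v w' k = none := by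
    by_contra hne
    exact h (hM.ab v w' k w i hne)
  refine ⟨?_, h0⟩
  unfold mm
  rw [h0]; simp

theorem mm_K (hM : Sep G M) {v : V} {i j : ι} (h : M.kc v i j ≠ none) (w : V) (k : ι) :
    mm M v w k = none :=
  mm_none.2 ⟨hM.ka _ _ _ _ _ h, hM.kb _ _ _ _ _ h⟩

/-- Type `A` vertices. -/
def TyA (M : PreM V ι C) (v : V) : Prop := ∃ w i, M.ga v w i ≠ none

theorem tyA_iff (hM : Sep G M) {v w : V} {i : ι} (h : mm M v w i ≠ none) :
    TyA M v ↔ TyA M w := by
  rcases mm_ne.1 h with h | h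
  · refine ⟨fun _ => ⟨v, i, ?_⟩, fun _ => ⟨w, i, h⟩⟩
    rwa [hM.sa]
  · constructor
    · rintro ⟨z, k, hz⟩
      exact absurd (hM.ab v z k w i hz) h
    · rintro ⟨z, k, hz⟩
      rw [hM.sb] at h
      exact absurd (hM.ab w z k v i hz) h

/-- A row of a neighbour of a `K`-vertex with edge `a_i b_j` which is covered: only one of the
rows `i`, `j` can be covered. -/
theorem cov_or (hM : Sep G M) {x w : V} {i j : ι} (hx : M.kc x i j ≠ none) (hxw : G.Adj x w) :
    (∀ z, mm M w z i = none) ∨ (∀ z, mm M w z j = none) := by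
  by_cases hA : TyA M w
  · obtain ⟨z0, k0, h0⟩ := hA
    left
    intro z
    rw [mm_ga hM h0]
    exact hM.kna _ _ _ _ _ hx hxw
  · right
    intro z
    apply mm_none.2
    refine ⟨?_, hM.knb _ _ _ _ _ hx hxw⟩
    by_contra hne
    exact hA ⟨z, j, hne⟩

/-- If one of the rows `i, j` of a neighbour is covered then the other is not. -/
theorem cov_other (hM : Sep G M) {x w z z' : V} {i j : ι}
    (hx : M.kc x i j ≠ none ∨ M.kc x j i ≠ none) (hxw : G.Adj x w)
    (h : mm M w z j ≠ none) : mm M w z' i = none := by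
  rcases hx with hx | hx
  · rcases cov_or hM hx hxw with h' | h'
    · exact h' z'
    · exact absurd (h' z) h
  · rcases cov_or hM hx hxw with h' | h'
    · exact absurd (h' z) h
    · exact h' z'

/-- Neighbours of covered vertices. -/
theorem mm_na (hM : Sep G M) {v w u z : V} {i k : ι} (h : mm M v w i ≠ none)
    (hvu : G.Adj v u) (hu : mm M u z i ≠ none) (hk : mm M u v k ≠ none) :
    u = w ∧ z = v := by
  have hty := tyA_iff hM hk
  rcases mm_ne.1 h with h | h
  · have hA : TyA M u := hty.2 ⟨_, _, h⟩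
    obtain ⟨z0, k0, h0⟩ := hA
    rw [mm_ga hM h0] at hu
    exact hM.na _ _ _ _ _ h hvu hu
  · have hA : ¬ TyA M u := by
      intro hA
      obtain ⟨z0, k0, h0⟩ := hty.1 hA
      exact h (hM.ab _ _ _ _ _ h0)
    rcases mm_ne.1 hu with hu | hu
    · exact absurd ⟨_, _, hu⟩ hA
    · exact hM.nb _ _ _ _ _ h hvu hu

end Mod

end W3a
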