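import Pool.Agent.W_MP_3a8340_co.N3Mod

open Finset

namespace W3a

def jr (j : Bool) : Fin 3 := if j then 2 else 1

section Req

variable {V P : Type} 

/-- `x` has a precoloured edge `a_0 b_j` or `a_j b_0` (`j ∈ {1, 2}`) with a colour of `P`. -/
def KPd (M : PreM V (Fin 3) (Fin 2 ⊕ P)) (x : V) (j : Bool) : Prop :=
  ∃ p, M.kc x 0 (jr j) = some (.inr p) ∨ M.kc x (jr j) 0 = some (.inr p)

def QQ (M : PreM V (Fin 3) (Fin 2 ⊕ P)) (F : V → V) (w : V) (j : Bool) (v1 v2 : V)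
    (q : Fin 2) : Prop :=
  KPd M (F w) j ∧ mm M w v1 1 = some (.inl q) ∧ mm M w v2 2 = some (.inl (1 - q))

def Req (M : PreM V (Fin 3) (Fin 2 ⊕ P)) (F : V → V) (w v : V) (r : Fin 2) : Prop :=
  ∃ j v1 v2 q, QQ M F w j v1 v2 q ∧ v1 ≠ v2 ∧ v = (if j = true then v2 else v1) ∧
    r = (if j = true then q else 1 - q)

def hi0 (M : PreM V (Fin 3) (Fin 2 ⊕ P)) (v : V) (r : Fin 2) : Prop :=
  ∃ z, mm M v z 0 = some (.inl r)

def RR (M : PreM V (Fin 3) (Fin 2 ⊕ P)) (F : V → V) (w v : V) (r : Fin 2) : Prop :=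
  Req M F w v r ∧ ¬ hi0 M v r

def CC (M : PreM V (Fin 3) (Fin 2 ⊕ P)) (F : V → V) (w v : V) : Prop :=
  ∃ r, Req M F w v r ∧ hi0 M v r

def TT (M : PreM V (Fin 3) (Fin 2 ⊕ P)) (F : V → V) (w v : V) : Prop :=
  ∃ j q, QQ M F w j v v q

variable {G : SimpleGraph V} {M : PreM V (Fin 3) (Fin 2 ⊕ P)} {F : V → V}

theorem KPd.ne {x : V} {j : Bool} (h : KPd M x j) :
    M.kc x 0 (jr j) ≠ none ∨ M.kc x (jr j) 0 ≠ none := by
  obtain ⟨p, h | h⟩ := h
  · left; rw [h]; simp
  · right; rw [h]; simp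

theorem KPd.K {x : V} {j : Bool} (h : KPd M x j) (hM : Sep G M) (w : V) (k : Fin 3) :
    mm M x w k = none := by
  rcases h.ne with h | h
  · exact mm_K hM h w k
  · exact mm_K hM h w k

theorem jr_ne (j : Bool) : jr j ≠ 0 := by cases j <;> decide

theorem jr_inj {j j' : Bool} (h : jr j = jr j') : j = j' := by
  revert h; cases j <;> cases j' <;> decide

theorem KPd.uniq {x : V} {j j' : Bool} (h : KPd M x j) (h' : KPd M x j') (hM : Sep G M) :
    j = j' := by
  rcases h.ne with h | h <;> rcases h'.ne with h' | h'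
  · exact jr_inj (hM.kk _ _ _ _ _ h h').2
  · exact absurd (hM.kk _ _ _ _ _ h h').1.symm (jr_ne _)
  · exact absurd (hM.kk _ _ _ _ _ h h').1 (jr_ne _)
  · exact jr_inj (hM.kk _ _ _ _ _ h h').1

theorem QQ.uniq (hM : Sep G M) {w : V} {j j' : Bool} {v1 v2 v1' v2' : V} {q q' : Fin 2}
    (h : QQ M F w j v1 v2 q) (h' : QQ M F w j' v1' v2' q') :
    j = j' ∧ v1 = v1' ∧ v2 = v2' ∧ q = q' := by
  have e1 : v1 = v1' := mm_uniq hM (by rw [h.2.1]; simp) (by rw [h'.2.1]; simp)
  have e2 : v2 = v2' := mm_uniq hM (by rw [h.2.2]; simp) (by rw [h'.2.2]; simp)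
  refine ⟨h.1.uniq h'.1 hM, e1, e2, ?_⟩
  have := h.2.1
  rw [e1, h'.2.1] at this
  simpa using this.symm

theorem QQ.row (hM : Sep G M) {w : V} {j : Bool} {v1 v2 : V} {q : Fin 2}
    (h : QQ M F w j v1 v2 q) : mm M w (if j = true then v2 else v1) (jr j) ≠ none := by
  cases j
  · simp only [Bool.false_eq_true, if_false, jr]; rw [h.2.1]; simp
  · simp only [if_true, jr]; rw [h.2.2]; simp

/-- Row `0` of a vertex asking for a modification is not covered. -/
theorem QQ.zero (hM : Sep G M) (hF : ∀ v, G.Adj v (F v)) {w : V} {j : Bool} {v1 v2 : V}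
    {q : Fin 2} (h : QQ M F w j v1 v2 q) (z : V) : mm M w z 0 = none :=
  cov_other hM h.1.ne (hF w).symm (h.row hM)

/-- A vertex asking for a modification has a `K`-vertex as `F`-partner. -/
theorem QQ.neF (hM : Sep G M) {w : V} {j : Bool} {v1 v2 : V}
    {q : Fin 2} (h : QQ M F w j v1 v2 q) {z u : V} {k : Fin 3} (hz : mm M z u k ≠ none) :
    z ≠ F w := by
  rintro rfl
  exact hz (h.1.K hM _ _)

theorem QQ.not_K (hM : Sep G M) {w : V} {j : Bool} {v1 v2 : V}
    {q : Fin 2} (h : QQ M F w j v1 v2 q) (i k : Fin 3) : M.kc w i k = none := by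
  by_contra hne
  have := mm_K hM hne v1 1
  rw [h.2.1] at this
  simp at this

theorem Req.spec (hM : Sep G M) {w v : V} {r : Fin 2} (h : Req M F w v r) :
    ∃ j, mm M v w (jr j) = some (.inl (1 - r)) ∧ ∀ z, mm M v z (jr (!j)) = none := by
  obtain ⟨j, v1, v2, q, hq, h12, hv, hr⟩ := h
  refine ⟨j, ?_, ?_⟩
  · rw [mm_symm hM, hv, hr]
    cases j
    · simp only [Bool.false_eq_true, if_false, jr]
      rw [hq.2.1]; congr 2; omega
    · simp only [if_true, jr]
      rw [hq.2.2]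
  · intro z
    by_contra hne
    subst hv
    have hcov := hq.row hM
    have hadj : G.Adj w (if j = true then v2 else v1) := mm_adj hM hcov
    rw [mm_symm hM] at hcov
    cases j
    · simp only [Bool.false_eq_true, if_false, jr, Bool.not_false, if_true] at *
      have := mm_na hM (v := w) (w := v2) (i := 2) (by rw [hq.2.2]; simp) hadj hne hcov
      exact h12 this.1
    · simp only [Bool.false_eq_true, if_false, jr, Bool.not_true, if_true] at *
      have := mm_na hM (v := w) (w := v1) (i := 1) (by rw [hq.2.1]; simp) hadj hne hcov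
      exact h12 this.1.symm

theorem Req.adj (hM : Sep G M) {w v : V} {r : Fin 2} (h : Req M F w v r) : G.Adj w v := by
  obtain ⟨j, hj, _⟩ := h.spec hM
  exact (mm_adj hM (by rw [hj]; simp : mm M v w (jr j) ≠ none)).symm

theorem Req.ne1 (hM : Sep G M) {w v : V} {r : Fin 2} (h : Req M F w v r) : v ≠ F w := by
  obtain ⟨j, hj, _⟩ := h.spec hM
  obtain ⟨j', v1, v2, q, hq, _⟩ := h
  exact hq.neF hM (by rw [hj]; simp : mm M v w (jr j) ≠ none)

theorem Req.ne2 (hM : Sep G M) (hFF : ∀ v, F (F v) = v) {w v : V} {r : Fin 2}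
    (h : Req M F w v r) : w ≠ F v := by
  rintro rfl
  exact h.ne1 hM (hFF v).symm

/-- The target of a request is not covered in both rows `1, 2`. -/
theorem Req.not_both (hM : Sep G M) {w v : V} {r : Fin 2} (h : Req M F w v r) {z z' : V}
    (h1 : mm M v z 1 ≠ none) (h2 : mm M v z' 2 ≠ none) : False := by
  obtain ⟨j, _, hj⟩ := h.spec hM
  cases j
  · exact h2 (hj z')
  · exact h1 (hj z)

theorem Req.uniq (hM : Sep G M) {w w' v : V} {r r' : Fin 2} (h : Req M F w v r)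
    (h' : Req M F w' v r') : w = w' ∧ r = r' := by
  obtain ⟨j, hj, hj2⟩ := h.spec hM
  obtain ⟨j', hj', _⟩ := h'.spec hM
  have e : j = j' := by
    by_contra hne
    have : j' = !j := by cases j <;> cases j' <;> simp_all
    subst this
    rw [hj2] at hj'
    simp at hj'
  subst e
  have e : w = w' := mm_uniq hM (by rw [hj]; simp) (by rw [hj']; simp)
  subst e
  refine ⟨rfl, ?_⟩
  rw [hj] at hj'
  simp only [Option.some.injEq, Sum.inl.injEq] at hj'
  omega

theorem Req.uniq' (hM : Sep G M) {w v v' : V} {r r' : Fin 2} (h : Req M F w v r)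
    (h' : Req M F w v' r') : v = v' ∧ r = r' := by
  obtain ⟨j, v1, v2, q, hq, _, hv, hr⟩ := h
  obtain ⟨j', v1', v2', q', hq', _, hv', hr'⟩ := h'
  obtain ⟨rfl, rfl, rfl, rfl⟩ := hq.uniq hM hq'
  exact ⟨hv.trans hv'.symm, hr.trans hr'.symm⟩

theorem Req.not_QQ (hM : Sep G M) {w v : V} {r : Fin 2} (h : Req M F w v r) {j : Bool}
    {v1 v2 : V} {q : Fin 2} (hq : QQ M F v j v1 v2 q) : False :=
  h.not_both hM (by rw [hq.2.1]; simp : mm M v v1 1 ≠ none)
    (by rw [hq.2.2]; simp : mm M v v2 2 ≠ none)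

theorem Req.row0 (hM : Sep G M) (hF : ∀ v, G.Adj v (F v)) {w v : V} {r : Fin 2}
    (h : Req M F w v r) (z : V) : mm M w z 0 = none := by
  obtain ⟨j, v1, v2, q, hq, _, hv, hr⟩ := h
  exact hq.zero hM hF z

theorem TT.cov (hM : Sep G M) {w v : V} (h : TT M F w v) :
    mm M v w 1 ≠ none ∧ mm M v w 2 ≠ none := by
  obtain ⟨j, q, hq⟩ := h
  rw [mm_symm hM, hq.2.1, mm_symm hM, hq.2.2]
  simp

theorem TT.uniq (hM : Sep G M) {w w' v : V} (h : TT M F w v) (h' : TT M F w' v) : w = w' :=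
  mm_uniq hM (h.cov hM).1 (h'.cov hM).1

end Req

end W3a
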