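import Pool.Agent.W_MP_3a8340_co.Glue
import Pool.Agent.W_MP_3a8340_co.Matching

open Finset

namespace W3a

section StdAux

variable {V ι R P : Type}

/-- label of a precoloured (or not precoloured) layer edge -/
private def stdLab : Option (R ⊕ P) → GLab R P
  | none => .norm
  | some (.inr p) => .fix p
  | some (.inl q) => .real q q

/-- status given by a precoloured (or not precoloured) layer edge -/
private def stdSt : Option (R ⊕ P) → RowSt R
  | none => .dflt
  | some (.inr _) => .low
  | some (.inl q) => .high q

private theorem stdLab_row (o : Option (R ⊕ P)) : (stdLab o).row = (stdSt o).row := by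
  rcases o with _ | (q | p) <;> rfl

private theorem stdLab_flip (o : Option (R ⊕ P)) : (stdLab o).flip = stdLab o := by
  rcases o with _ | (q | p) <;> rfl

private theorem stdLab_acol (c : R ⊕ P) : (stdLab (some c)).acol = some c := by
  rcases c with q | p <;> rfl

private theorem stdLab_bcol (c : R ⊕ P) : (stdLab (some c)).bcol = some c := by
  rcases c with q | p <;> rfl

private theorem stdSt_ne {o : Option (R ⊕ P)} (ho : o ≠ none) : stdSt o ≠ .dflt := by
  rcases o with _ | (q | p)
  · exact absurd rfl ho
  · intro h
    cases h
  · intro h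
    cases h

private theorem std_row_map {Q : Type} (f : P → Q) (g : GLab R P) : (g.map f).row = g.row := by
  cases g <;> rfl

private theorem std_flip_map {Q : Type} (f : P → Q) (g : GLab R P) :
    (g.map f).flip = g.flip.map f := by
  cases g <;> rfl

private theorem std_flip_flip (g : GLab R P) : g.flip.flip = g := by
  cases g <;> rfl

/-- the precolour of a pair of copies -/
private def stdM (M : PreM V ι (R ⊕ P)) (v w : V) (i : ι) : Option (R ⊕ P) :=
  (M.ga v w i).or (M.gb v w i)

private theorem stdM_cases {M : PreM V ι (R ⊕ P)} {v w : V} {i : ι} (h : stdM M v w i ≠ none) :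
    M.ga v w i ≠ none ∨ M.gb v w i ≠ none := by
  unfold stdM at h
  rcases ho : M.ga v w i with _ | c
  · right
    rw [ho] at h
    simpa using h
  · left
    simp

private theorem stdM_ga {M : PreM V ι (R ⊕ P)} {v w : V} {i : ι} {c : R ⊕ P}
    (h : M.ga v w i = some c) : stdM M v w i = some c := by
  unfold stdM
  rw [h]
  rfl

private theorem stdM_gb {G : SimpleGraph V} {M : PreM V ι (R ⊕ P)} (hM : Sep G M) {v w : V} {i : ι}
    {c : R ⊕ P} (h : M.gb v w i = some c) : stdM M v w i = some c := by
  unfold stdM
  have h1 : M.ga v w i = none := by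
    by_contra hne
    have h2 := hM.ab v w i w i hne
    rw [h] at h2
    cases h2
  rw [h1, h]
  rfl

private theorem stdM_symm {G : SimpleGraph V} {M : PreM V ι (R ⊕ P)} (hM : Sep G M) (v w : V)
    (i : ι) : stdM M v w i = stdM M w v i := by
  unfold stdM
  rw [hM.sa, hM.sb]

private theorem stdM_adj {G : SimpleGraph V} {M : PreM V ι (R ⊕ P)} (hM : Sep G M) {v w : V}
    {i : ι} (h : stdM M v w i ≠ none) : G.Adj v w := by
  rcases stdM_cases h with h | h
  · exact hM.adja _ _ _ h
  · exact hM.adjb _ _ _ h

private theorem stdM_uniq {G : SimpleGraph V} {M : PreM V ι (R ⊕ P)} (hM : Sep G M) {v w w' : V}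
    {i : ι} (h : stdM M v w i ≠ none) (h' : stdM M v w' i ≠ none) : w = w' := by
  rcases stdM_cases h with h | h
  · rcases stdM_cases h' with h' | h'
    · exact hM.aa _ _ _ _ h h'
    · exact absurd (hM.ab _ _ _ _ _ h) h'
  · rcases stdM_cases h' with h' | h'
    · exact absurd (hM.ab _ _ _ _ _ h') h
    · exact hM.bb _ _ _ _ h h'

open Classical in
/-- status of a row of a vertex -/
private noncomputable def stdStat (M : PreM V ι (R ⊕ P)) (v : V) (i : ι) : RowSt R :=
  if h : ∃ w, stdM M v w i ≠ none then stdSt (stdM M v h.choose i) else .dflt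

private theorem stdStat_eq {G : SimpleGraph V} {M : PreM V ι (R ⊕ P)} (hM : Sep G M) {v w : V}
    {i : ι} (h : stdM M v w i ≠ none) : stdStat M v i = stdSt (stdM M v w i) := by
  have hex : ∃ w, stdM M v w i ≠ none := ⟨w, h⟩
  unfold stdStat
  rw [dif_pos hex]
  have h2 := stdM_uniq hM hex.choose_spec h
  rw [h2]

private theorem stdStat_none {M : PreM V ι (R ⊕ P)} {v : V} {i : ι}
    (h : ∀ w, stdM M v w i = none) : stdStat M v i = .dflt := by
  unfold stdStat
  rw [dif_neg]
  rintro ⟨w, hw⟩
  exact hw (h w)

private theorem stdStat_ex {M : PreM V ι (R ⊕ P)} {v : V} {i : ι}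
    (h : stdStat M v i ≠ .dflt) : ∃ w, stdM M v w i ≠ none := by
  by_contra hne
  push Not at hne
  exact h (stdStat_none hne)

/-- the sum of the contributions of the layer edges which are not in `F` -/
private theorem std_sum [Fintype V] [DecidableEq V] (G : SimpleGraph V) [DecidableRel G.Adj]
    {M : PreM V ι (R ⊕ P)} (hM : Sep G M) (x y : V) (i : ι) :
    ∑ w ∈ (G.neighborFinset x).erase y, (stdLab (stdM M x w i)).row =
      if (stdM M x y i).isSome = true then 0 else (stdStat M x i).row := by
  by_cases h : (stdM M x y i).isSome = true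
  · rw [if_pos h]
    apply Finset.sum_eq_zero
    intro w hw
    have hwy : w ≠ y := Finset.ne_of_mem_erase hw
    have hy : stdM M x y i ≠ none := Option.isSome_iff_ne_none.1 h
    have hw0 : stdM M x w i = none := by
      by_contra hne
      exact hwy (stdM_uniq hM hne hy)
    rw [hw0]
    rfl
  · rw [if_neg h]
    have hy : stdM M x y i = none := by
      rcases ho : stdM M x y i with _ | c
      · rfl
      · rw [ho] at h
        exact absurd rfl h
    by_cases hex : ∃ w, stdM M x w i ≠ none
    · obtain ⟨w, hw⟩ := hex
      have hwy : w ≠ y := by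
        rintro rfl
        exact hw hy
      rw [stdStat_eq hM hw, ← stdLab_row]
      apply Finset.sum_eq_single w
      · intro w' _ hne
        have hw0 : stdM M x w' i = none := by
          by_contra hne'
          exact hne (stdM_uniq hM hne' hw)
        rw [hw0]
        rfl
      · intro hnot
        exfalso
        apply hnot
        rw [Finset.mem_erase, SimpleGraph.mem_neighborFinset]
        exact ⟨hwy, stdM_adj hM hw⟩
    · push Not at hex
      rw [stdStat_none hex]
      apply Finset.sum_eq_zero
      intro w _
      rw [hex w]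
      rfl

/-- the type of a precoloured cell -/
private def stdT : R ⊕ P → Option R
  | .inl q => some q
  | .inr _ => none

private theorem std_kagree {G : SimpleGraph V} {M : PreM V ι (R ⊕ P)} (hM : Sep G M)
    {x : V} {i j : ι} {c : R ⊕ P} (hc : M.kc x i j = some c) {N : ι → ι → CLab ι R}
    (hN : N i j = kcell (stdT c)) : KAgree M x N := by
  intro i' j' c' hc'
  obtain ⟨rfl, rfl⟩ := hM.kk x i j i' j' (by rw [hc]; simp) (by rw [hc']; simp)
  rw [hc] at hc'
  cases hc'
  rcases c with q | p
  · right
    exact ⟨q, rfl, hN⟩
  · left
    exact ⟨p, rfl, hN⟩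

private theorem std_kagree' {M : PreM V ι (R ⊕ P)} {x : V} (h : ∀ i j, M.kc x i j = none)
    (N : ι → ι → CLab ι R) : KAgree M x N := by
  intro i j c hc
  rw [h] at hc
  cases hc

private theorem std_kv {G : SimpleGraph V} {M : PreM V ι (R ⊕ P)} (hM : Sep G M)
    {x : V} {i j : ι} {c : R ⊕ P} (hc : M.kc x i j = some c) (w : V) (k : ι) :
    stdM M x w k = none := by
  unfold stdM
  rw [hM.ka x i j w k (by rw [hc]; simp), hM.kb x i j w k (by rw [hc]; simp)]
  rfl

/-- the condition of `PairProp.kn` -/
private theorem std_or {G : SimpleGraph V} {M : PreM V ι (R ⊕ P)} (hM : Sep G M)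
    {x w : V} {i j : ι} {c : R ⊕ P} (hc : M.kc x i j = some c) (hxw : G.Adj x w) :
    stdStat M w i = .dflt ∨ stdStat M w j = .dflt := by
  have hc' : M.kc x i j ≠ none := by rw [hc]; simp
  by_contra hne
  push Not at hne
  obtain ⟨z, hz⟩ := stdStat_ex hne.1
  obtain ⟨z', hz'⟩ := stdStat_ex hne.2
  rcases stdM_cases hz with h | h
  · exact h (hM.kna x i j w z hc' hxw)
  · rcases stdM_cases hz' with h' | h'
    · exact h (hM.ab w z' j z i h')
    · exact h' (hM.knb x i j w z' hc' hxw)

end StdAux

/-- The pair lemma implies the extension theorem. -/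
theorem core_of_pairProp {ι R : Type} [Fintype ι] [DecidableEq ι] [Fintype R] [DecidableEq R]
    (τ : ι → Bool) (h : PairProp (ι := ι) (R := R) τ) : Core ι R := by
  intro V _ _ G _ side hside d s hd hreg P _ _ hR hP M hM
  obtain ⟨F, hF, hFF⟩ := exists_matching G side hside d hd hreg
  have hPpos : 0 < Fintype.card P := by omega
  obtain ⟨p₀⟩ := Fintype.card_pos_iff.1 hPpos
  refine glue G side hside d s hd hreg hR hP τ F hF hFF M hM
    (fun v w i => stdLab (stdM M v w i)) ?_ ?_ ?_ ?_
  · intro v w i _
    show stdLab (stdM M w v i) = (stdLab (stdM M v w i)).flip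
    rw [stdLab_flip, stdM_symm hM]
  · intro v w i c _ hc
    show (stdLab (stdM M v w i)).acol = some c
    rw [stdM_ga hc, stdLab_acol]
  · intro v w i c _ hc
    show (stdLab (stdM M v w i)).bcol = some c
    rw [stdM_gb hM hc, stdLab_bcol]
  · intro x _
    obtain ⟨w, hw⟩ : ∃ w, w = F x := ⟨_, rfl⟩
    have hxw : G.Adj x w := hw ▸ hF x
    rw [← hw]
    have sx : ∀ i, ∑ z ∈ (G.neighborFinset x).erase w, (stdLab (stdM M x z i)).row =
        if (stdM M x w i).isSome = true then 0 else (stdStat M x i).row :=
      fun i => std_sum G hM x w i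
    have sw : ∀ i, ∑ z ∈ (G.neighborFinset w).erase x, (stdLab (stdM M w z i)).row =
        if (stdM M x w i).isSome = true then 0 else (stdStat M w i).row := by
      intro i
      rw [stdM_symm hM x w i]
      exact std_sum G hM w x i
    simp only [sx, sw]
    by_cases hx : ∃ i j c, M.kc x i j = some c
    · obtain ⟨i, j, c, hc⟩ := hx
      have hsx : ∀ k, (stdM M x w k).isSome = false := by
        intro k
        rw [std_kv hM hc w k]
        rfl
      have hstx : ∀ k, stdStat M x k = .dflt := fun k => stdStat_none fun z => std_kv hM hc z k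
      have e0 : (RowSt.dflt : RowSt R).row = 0 := rfl
      simp only [hsx, hstx, e0, Bool.false_eq_true, if_false, zero_add]
      have hga : ∀ k c', M.ga x w k ≠ some c' := by
        intro k c' hk
        rw [hM.ka x i j w k (by rw [hc]; simp)] at hk
        cases hk
      have hgb : ∀ k c', M.gb x w k ≠ some c' := by
        intro k c' hk
        rw [hM.kb x i j w k (by rw [hc]; simp)] at hk
        cases hk
      by_cases hw' : ∃ i j c, M.kc w i j = some c
      · obtain ⟨i', j', c', hc'⟩ := hw'
        have hii : i ≠ i' := by
          rintro rfl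
          have h1 := hM.kki x i j w j' (by rw [hc]; simp) hxw
          rw [hc'] at h1
          cases h1
        have hjj : j ≠ j' := by
          rintro rfl
          have h1 := hM.kkj x i j w i' (by rw [hc]; simp) hxw
          rw [hc'] at h1
          cases h1
        obtain ⟨Nx, Nw, fl, hfix, hNx, hNw, hLx, hLw⟩ :=
          h.kk i j (stdT c) i' j' (stdT c') hii hjj
        have hstw : ∀ k, stdStat M w k = .dflt := fun k => stdStat_none fun z => std_kv hM hc' z k
        refine ⟨Nx, Nw, fun k => (fl k).map fun _ => p₀, ?_, ?_, std_kagree hM hc hNx,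
          std_kagree hM hc' hNw, fun k c' hk => absurd hk (hga k c'),
          fun k c' hk => absurd hk (hgb k c')⟩
        · simp only [std_row_map]
          exact hLx
        · simp only [std_flip_map, std_row_map, hstw, e0, zero_add]
          exact hLw
      · push Not at hw'
        have hwn : ∀ k l, M.kc w k l = none := fun k l =>
          Option.eq_none_iff_forall_ne_some.2 fun c' => hw' k l c'
        obtain ⟨Nx, Nw, fl, hfix, hNx, hLx, hLw⟩ :=
          h.kn i j (stdT c) (stdStat M w) (std_or hM hc hxw)
        refine ⟨Nx, Nw, fun k => (fl k).map fun _ => p₀, ?_, ?_, std_kagree hM hc hNx,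
          std_kagree' hwn _, fun k c' hk => absurd hk (hga k c'),
          fun k c' hk => absurd hk (hgb k c')⟩
        · simp only [std_row_map]
          exact hLx
        · simp only [std_flip_map, std_row_map]
          exact hLw
    · push Not at hx
      have hxn : ∀ k l, M.kc x k l = none := fun k l =>
        Option.eq_none_iff_forall_ne_some.2 fun c' => hx k l c'
      by_cases hw' : ∃ i j c, M.kc w i j = some c
      · obtain ⟨i, j, c, hc⟩ := hw'
        have hsx : ∀ k, (stdM M x w k).isSome = false := by
          intro k
          rw [stdM_symm hM x w k, std_kv hM hc x k]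
          rfl
        have hstw : ∀ k, stdStat M w k = .dflt := fun k => stdStat_none fun z => std_kv hM hc z k
        have e0 : (RowSt.dflt : RowSt R).row = 0 := rfl
        simp only [hsx, hstw, e0, Bool.false_eq_true, if_false, zero_add]
        obtain ⟨Nw, Nx, fl, hfix, hNw, hLw, hLx⟩ :=
          h.kn i j (stdT c) (stdStat M x) (std_or hM hc hxw.symm)
        refine ⟨Nx, Nw, fun k => (fl k).flip.map fun _ => p₀, ?_, ?_, std_kagree' hxn _,
          std_kagree hM hc hNw, fun k c' hk => ?_, fun k c' hk => ?_⟩
        · simp only [std_row_map]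
          exact hLx
        · simp only [std_flip_map, std_row_map, std_flip_flip]
          exact hLw
        · rw [hM.sa, hM.ka w i j x k (by rw [hc]; simp)] at hk
          cases hk
        · rw [hM.sb, hM.kb w i j x k (by rw [hc]; simp)] at hk
          cases hk
      · push Not at hw'
        have hwn : ∀ k l, M.kc w k l = none := fun k l =>
          Option.eq_none_iff_forall_ne_some.2 fun c' => hw' k l c'
        obtain ⟨Nx, Nw, fl, hfm, hfix, hLx, hLw⟩ :=
          h.nn (stdStat M x) (stdStat M w) (fun i => (stdM M x w i).isSome) (by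
            intro i hi
            have hne : stdM M x w i ≠ none := Option.isSome_iff_ne_none.1 hi
            have hne' : stdM M w x i ≠ none := by rwa [← stdM_symm hM x w i]
            rw [stdStat_eq hM hne, stdStat_eq hM hne', stdM_symm hM x w i]
            exact ⟨rfl, stdSt_ne hne'⟩)
        obtain ⟨pp, hpp⟩ : ∃ pp : ι → P, ∀ i p, stdM M x w i = some (.inr p) → pp i = p := by
          refine ⟨fun i => match stdM M x w i with
            | some (.inr p) => p
            | _ => p₀, fun i p hip => ?_⟩
          simp only [hip]
        have key : ∀ k c, stdM M x w k = some c →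
            (fl k).map (fun _ => pp k) = stdLab (some c) := by
          intro k c hk
          have h1 := hfm k (by simp only [hk]; rfl)
          have h2 : stdStat M x k = stdSt (some c) := by
            rw [stdStat_eq hM (by rw [hk]; simp), hk]
          rw [h1, h2]
          rcases c with q | p
          · rfl
          · have h3 := hpp k p hk
            show GLab.fix (pp k) = GLab.fix p
            rw [h3]
        refine ⟨Nx, Nw, fun k => (fl k).map fun _ => pp k, ?_, ?_, std_kagree' hxn _,
          std_kagree' hwn _, fun k c hk => ?_, fun k c hk => ?_⟩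
        · simp only [std_row_map]
          exact hLx
        · simp only [std_flip_map, std_row_map]
          exact hLw
        · show ((fl k).map fun _ => pp k).acol = some c
          rw [key k c (stdM_ga hk), stdLab_acol]
        · show ((fl k).map fun _ => pp k).bcol = some c
          rw [key k c (stdM_gb hM hk), stdLab_bcol]

end W3a
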